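import Mathlib
import Pool.Agent.H93.T1.Cf
import Pool.Agent.H76.PN.A1
import Pool.Agent.H76.PN.A3
import Pool.Agent.H76.PN.A5
import Pool.Agent.H76.PN.C1
import Pool.Agent.H76.PN.C2
import Pool.Agent.H76.PN.N2
import Pool.Agent.H76.PN.N5
import Pool.Agent.H76.PN.N6
import Pool.Agent.H76.PN.P1

/-! This file joins several modules to save build time (Qa). -/

set_option autoImplicit false

section S_H36_PP_Dnp

set_option autoImplicit false
set_option linter.unusedSectionVars false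

open NumberField IsDedekindDomain H76PP

namespace H36PP

variable {K : Type} [Field K] [NumberField K]

theorem Dnp_pos {c : ℝ} (hc : 0 ≤ c) (hL : LatL K c) {I : Ideal (𝓞 K)} (hI : I ≠ ⊥) :
    ∃ X₀ : ℝ, 1 ≤ X₀ ∧ ∀ X : ℝ, X₀ ≤ X → ∀ a₀ : 𝓞 K,
      c / 4 ^ Module.finrank ℚ K * ((X ^ 2) ^ Module.finrank ℚ K / (Ideal.absNorm I : ℝ)) ≤
        ({a : 𝓞 K | (a ∈ bx K (X ^ 2) ∧ ∀ s : K →+* ℝ, 0 < s (a : K)) ∧ a - a₀ ∈ I}.ncard : ℝ) := by
  obtain ⟨T₀, hT₀⟩ := hL I hI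
  refine ⟨max 4 (4 * T₀), by norm_num, fun X hX a₀ => ?_⟩
  have hX4 : 4 ≤ X := (le_max_left _ _).trans hX
  have hXT : 4 * T₀ ≤ X := (le_max_right _ _).trans hX
  have hX2 : X ≤ X ^ 2 := le_self_pow₀ (by linarith) two_ne_zero
  obtain ⟨N, hN⟩ : ∃ N : ℕ, N = ⌊X ^ 2 / 2⌋₊ := ⟨_, rfl⟩
  have hN1 : (N : ℝ) ≤ X ^ 2 / 2 := by
    rw [hN]
    exact Nat.floor_le (by positivity)
  have hN2 : X ^ 2 / 2 < N + 1 := by
    rw [hN]
    exact Nat.lt_floor_add_one _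
  have hX16 : 16 ≤ X ^ 2 := by nlinarith
  have hN3 : X ^ 2 / 4 < N := by linarith
  have h1 := hT₀ (X ^ 2 / 4) (by linarith) (a₀ - N)
  have hfin : {a : 𝓞 K | (a ∈ bx K (X ^ 2) ∧ ∀ s : K →+* ℝ, 0 < s (a : K)) ∧ a - a₀ ∈ I}.Finite := by
    refine (bx_finite K (X ^ 2)).subset fun a ha => ha.1.1
  have h2 : (fun a : 𝓞 K => a + (N : 𝓞 K)) '' {a : 𝓞 K | a ∈ bx K (X ^ 2 / 4) ∧ a - (a₀ - N) ∈ I} ⊆
      {a : 𝓞 K | (a ∈ bx K (X ^ 2) ∧ ∀ s : K →+* ℝ, 0 < s (a : K)) ∧ a - a₀ ∈ I} := by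
    rintro _ ⟨a, ⟨ha1, ha2⟩, rfl⟩
    refine ⟨⟨fun s => ?_, fun s => ?_⟩, ?_⟩
    · have h3 := ha1 s
      have h4 : s ((a + (N : 𝓞 K) : 𝓞 K) : K) = s (a : K) + (N : ℂ) := by
        push_cast
        rw [map_add, map_natCast]
      rw [h4]
      refine (norm_add_le _ _).trans ?_
      rw [Complex.norm_natCast]
      have h5 : 0 ≤ X ^ 2 := by positivity
      linarith
    · have h3 := ha1 (Complex.ofRealHom.comp s)
      have h4 : s ((a + (N : 𝓞 K) : 𝓞 K) : K) = s (a : K) + (N : ℝ) := by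
        push_cast
        rw [map_add, map_natCast]
      rw [h4]
      have h5 : ‖(Complex.ofRealHom.comp s) (a : K)‖ = |s (a : K)| := by
        show ‖((s (a : K) : ℝ) : ℂ)‖ = _
        rw [Complex.norm_real, Real.norm_eq_abs]
      rw [h5] at h3
      have h6 := (abs_le.1 h3).1
      linarith
    · have h3 : a + (N : 𝓞 K) - a₀ = a - (a₀ - N) := by ring
      show a + (N : 𝓞 K) - a₀ ∈ I
      rw [h3]
      exact ha2
  have h3 := Set.ncard_le_ncard h2 hfin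
  rw [Set.ncard_image_of_injective _ (add_left_injective _)] at h3
  have h4 : ({a : 𝓞 K | a ∈ bx K (X ^ 2 / 4) ∧ a - (a₀ - N) ∈ I}.ncard : ℝ) ≤
      ({a : 𝓞 K | (a ∈ bx K (X ^ 2) ∧ ∀ s : K →+* ℝ, 0 < s (a : K)) ∧ a - a₀ ∈ I}.ncard : ℝ) := by
    exact_mod_cast h3
  refine le_trans (le_of_eq ?_) (h1.trans h4)
  rw [div_pow]
  ring

theorem dens_lower_pos {c : ℝ} (hc : 0 ≤ c) (hL : LatL K c) (hf : ∀ X : ℝ, (Bx K X).Finite)
    {I : Ideal (𝓞 K)} (hI : I ≠ ⊥) {P : Set (𝓞 K × 𝓞 K)} {d : ℝ} (h : Dens I P d) :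
    ∃ X₀ : ℝ, ∀ X : ℝ, X₀ ≤ X →
      c ^ 2 / 4 ^ Module.finrank ℚ K * d * X ^ (5 * Module.finrank ℚ K) ≤
      ({p : 𝓞 K × 𝓞 K | (p ∈ Bx K X ∧ ∀ s : K →+* ℝ, 0 < s (p.1 : K)) ∧ p ∈ P}.ncard : ℝ) := by
  classical
  obtain ⟨T₀, hT₀⟩ := hL I hI
  obtain ⟨X₁, -, hX₁⟩ := Dnp_pos hc hL hI
  refine ⟨max (max 1 T₀) X₁, fun X hX => ?_⟩
  have hX1 : 1 ≤ X := ((le_max_left _ _).trans (le_max_left _ _)).trans hX
  have hXT : T₀ ≤ X := ((le_max_right _ _).trans (le_max_left _ _)).trans hX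
  have hXX : X₁ ≤ X := (le_max_right _ _).trans hX
  have hX0 : 0 ≤ X := by linarith
  have hX3 : T₀ ≤ X ^ 3 := hXT.trans (le_self_pow₀ hX1 three_ne_zero)
  obtain ⟨n, hn⟩ : ∃ n, n = Module.finrank ℚ K := ⟨_, rfl⟩
  obtain ⟨N, hN⟩ : ∃ N : ℝ, N = (Ideal.absNorm I : ℝ) := ⟨_, rfl⟩
  have hN0 : 0 < N := by
    rw [hN]
    have : Ideal.absNorm I ≠ 0 := fun h => hI (Ideal.absNorm_eq_zero_iff.1 h)
    exact_mod_cast Nat.pos_of_ne_zero this
  have hSfin : {p : 𝓞 K × 𝓞 K | (p ∈ Bx K X ∧ ∀ s : K →+* ℝ, 0 < s (p.1 : K)) ∧ p ∈ P}.Finite :=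
    (hf X).subset fun p hp => hp.1.1
  have hZfin : (rs I '' P).Finite := Dn_fin hI _
  have hmaps : ((hSfin.toFinset : Finset (𝓞 K × 𝓞 K)) : Set (𝓞 K × 𝓞 K)).MapsTo (rs I) (hZfin.toFinset : Finset ((𝓞 K ⧸ I) × (𝓞 K ⧸ I))) := by
    intro p hp
    rw [Finset.mem_coe, Set.Finite.mem_toFinset] at hp
    rw [Finset.mem_coe, Set.Finite.mem_toFinset]
    exact ⟨p, hp.2, rfl⟩
  have hcard := Finset.card_eq_sum_card_fiberwise hmaps
  have hfib : ∀ z ∈ hZfin.toFinset, c ^ 2 / 4 ^ n * X ^ (5 * n) / N ^ 2 ≤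
      ((hSfin.toFinset.filter fun p => rs I p = z).card : ℝ) := by
    intro z hz
    rw [Set.Finite.mem_toFinset] at hz
    obtain ⟨p, hp, rfl⟩ := hz
    have h1 := hX₁ X hXX p.1
    have h2 := hT₀ (X ^ 3) hX3 p.2
    rw [← hn, ← hN] at h1 h2
    have hsub : {a : 𝓞 K | (a ∈ bx K (X ^ 2) ∧ ∀ s : K →+* ℝ, 0 < s (a : K)) ∧ a - p.1 ∈ I} ×ˢ
        {b : 𝓞 K | b ∈ bx K (X ^ 3) ∧ b - p.2 ∈ I} ⊆
        ((hSfin.toFinset.filter fun r => rs I r = rs I p : Finset (𝓞 K × 𝓞 K)) : Set (𝓞 K × 𝓞 K)) := by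
      rintro ⟨a, b⟩ ⟨⟨⟨ha1, ha3⟩, ha2⟩, ⟨hb1, hb2⟩⟩
      rw [Finset.mem_coe, Finset.mem_filter, Set.Finite.mem_toFinset]
      have hr : rs I (a, b) = rs I p := (Dn_rs I (a, b) p).2 ⟨ha2, hb2⟩
      exact ⟨⟨⟨⟨ha1, hb1⟩, ha3⟩, h.1 p (a, b) hr.symm hp⟩, hr⟩
    have h3 := Set.ncard_le_ncard hsub (Finset.finite_toSet _)
    rw [Set.ncard_prod, Set.ncard_coe_finset] at h3
    have h4 : ((({a : 𝓞 K | (a ∈ bx K (X ^ 2) ∧ ∀ s : K →+* ℝ, 0 < s (a : K)) ∧ a - p.1 ∈ I}.ncard : ℕ) : ℝ) * (({b : 𝓞 K | b ∈ bx K (X ^ 3) ∧ b - p.2 ∈ I}.ncard : ℕ) : ℝ))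
        ≤ ((hSfin.toFinset.filter fun r => rs I r = rs I p).card : ℝ) := by exact_mod_cast h3
    refine le_trans ?_ h4
    calc c ^ 2 / 4 ^ n * X ^ (5 * n) / N ^ 2 = (c / 4 ^ n * ((X ^ 2) ^ n / N)) * (c * ((X ^ 3) ^ n / N)) := by
          rw [← pow_mul, ← pow_mul, show 5 * n = 2 * n + 3 * n by ring, pow_add]
          field_simp
      _ ≤ _ := mul_le_mul h1 h2 (by positivity) (Nat.cast_nonneg _)
  have h5 : ((rs I '' P).ncard : ℝ) * (c ^ 2 / 4 ^ n * X ^ (5 * n) / N ^ 2) ≤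
      ({p : 𝓞 K × 𝓞 K | (p ∈ Bx K X ∧ ∀ s : K →+* ℝ, 0 < s (p.1 : K)) ∧ p ∈ P}.ncard : ℝ) := by
    rw [Set.ncard_eq_toFinset_card _ hSfin, Set.ncard_eq_toFinset_card _ hZfin, hcard, Nat.cast_sum, ← nsmul_eq_mul]
    exact Finset.card_nsmul_le_sum _ _ _ hfib
  refine le_trans ?_ h5
  rw [← hn]
  have h6 := h.2
  rw [← hN] at h6
  calc c ^ 2 / 4 ^ n * d * X ^ (5 * n) = (d * N ^ 2) * (c ^ 2 / 4 ^ n * X ^ (5 * n) / N ^ 2) := by field_simp
    _ ≤ _ := mul_le_mul_of_nonneg_right h6 (by positivity)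

end H36PP

end S_H36_PP_Dnp

section S_H36_PP_Axp

set_option autoImplicit false
set_option linter.unusedSectionVars false
open scoped Classical

open WithZero NumberField IsDedekindDomain H76PP

namespace H36PP

variable (K : Type) [Field K] [NumberField K]

theorem six_fin : {v : HeightOneSpectrum (𝓞 K) | (6 : 𝓞 K) ∈ v.asIdeal}.Finite := by
  refine (nv_finite K ((Ideal.absNorm (Ideal.span {(6 : 𝓞 K)}) : ℕ) : ℝ)).subset ?_
  intro v hv
  have h1 : Ideal.span {(6 : 𝓞 K)} ≤ v.asIdeal := (Ideal.span_singleton_le_iff_mem _).2 hv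
  have h2 := Ideal.absNorm_dvd_absNorm_of_le h1
  have h3 : Ideal.absNorm (Ideal.span {(6 : 𝓞 K)}) ≠ 0 := by
    rw [Ne, Ideal.absNorm_eq_zero_iff, Ideal.span_singleton_eq_bot]
    norm_num
  have h4 := Nat.le_of_dvd (Nat.pos_of_ne_zero h3) h2
  show ((Nv v : ℕ) : ℝ) ≤ _
  exact_mod_cast h4

variable {K}

theorem aux_primes_in {Z : Set (HeightOneSpectrum (𝓞 K))} (hZ : Z.Infinite) :
    ∃ q₀ ∈ Z, (6 : 𝓞 K) ∉ q₀.asIdeal ∧
    {p : HeightOneSpectrum (𝓞 K) | p ∈ Z ∧ AuxP q₀ p}.Infinite := by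
  have hI : ∀ c : ClassGroup (𝓞 K), ∃ I : (nonZeroDivisors (Ideal (𝓞 K))),
      ClassGroup.mk0 I = c⁻¹ := fun c => ClassGroup.mk0_surjective c⁻¹
  choose I hI using hI
  have hI0 : ∀ c, (I c : Ideal (𝓞 K)) ≠ ⊥ := fun c => by
    have := nonZeroDivisors.ne_zero (I c).2
    simpa using this
  obtain ⟨N, hN0, hNI⟩ : ∃ N : ℕ, N ≠ 0 ∧ ∀ c, (N : 𝓞 K) ∈ (I c : Ideal (𝓞 K)) := by
    refine ⟨∏ c, Ideal.absNorm (I c : Ideal (𝓞 K)), ?_, ?_⟩
    · refine Finset.prod_ne_zero_iff.2 fun c _ => ?_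
      rw [Ne, Ideal.absNorm_eq_zero_iff]
      exact hI0 c
    · intro c
      obtain ⟨k, hk⟩ : Ideal.absNorm (I c : Ideal (𝓞 K)) ∣
          ∏ c, Ideal.absNorm (I c : Ideal (𝓞 K)) := Finset.dvd_prod_of_mem _ (Finset.mem_univ c)
      rw [hk]
      push_cast
      exact Ideal.mul_mem_right _ _ (Ideal.absNorm_mem _)
  let cl : HeightOneSpectrum (𝓞 K) → ClassGroup (𝓞 K) := fun v =>
    ClassGroup.mk0 ⟨v.asIdeal, mem_nonZeroDivisors_iff_ne_zero.2 v.ne_bot⟩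
  have hg : ∀ v : HeightOneSpectrum (𝓞 K), ∃ g : 𝓞 K,
      v.asIdeal * (I (cl v) : Ideal (𝓞 K)) = Ideal.span {g} := by
    intro v
    have h1 : ClassGroup.mk0 (⟨v.asIdeal, mem_nonZeroDivisors_iff_ne_zero.2 v.ne_bot⟩ *
        I (cl v)) = 1 := by
      rw [map_mul, hI]
      exact mul_inv_cancel _
    rw [ClassGroup.mk0_eq_one_iff] at h1
    obtain ⟨g, hg⟩ := h1.principal
    exact ⟨g, hg⟩
  choose g hg using hg
  haveI : Finite (K →+* ℝ) := by
    refine Finite.of_injective (fun s : K →+* ℝ => (Complex.ofRealHom.comp s : K →+* ℂ)) ?_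
    intro s t hst
    ext x
    have := congrArg (fun f : K →+* ℂ => f x) hst
    simpa using this
  have h8N : (8 * N : 𝓞 K) ≠ 0 := by
    refine mul_ne_zero (by norm_num) ?_
    exact_mod_cast hN0
  haveI : Finite (𝓞 K ⧸ Ideal.span {(8 * N : 𝓞 K)}) :=
    Ideal.finiteQuotientOfFreeOfNeBot _ (by simpa using h8N)
  haveI : Infinite {v : HeightOneSpectrum (𝓞 K) | v ∈ Z ∧ (6 : 𝓞 K) ∉ v.asIdeal} := by
    refine Set.Infinite.to_subtype ((hZ.sdiff (six_fin K)).mono ?_)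
    rintro v ⟨h1, h2⟩
    exact ⟨h1, h2⟩
  let f : {v : HeightOneSpectrum (𝓞 K) | v ∈ Z ∧ (6 : 𝓞 K) ∉ v.asIdeal} →
      ClassGroup (𝓞 K) × (𝓞 K ⧸ Ideal.span {(8 * N : 𝓞 K)}) × Set (K →+* ℝ) := fun v =>
    (cl v.1, Ideal.Quotient.mk _ (g v.1), {s | 0 < s (g v.1 : K)})
  obtain ⟨y, hy⟩ := Finite.exists_infinite_fiber f
  haveI := hy
  obtain ⟨q⟩ : Nonempty (f ⁻¹' {y}) := inferInstance
  refine ⟨q.1.1, q.1.2.1, q.1.2.2, ?_⟩
  have hinf : (Set.range (fun p : f ⁻¹' {y} => p.1.1)).Infinite := by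
    refine Set.infinite_range_of_injective ?_
    intro a b hab
    exact Subtype.ext (Subtype.ext hab)
  refine (hinf.sdiff (Set.finite_singleton q.1.1)).mono ?_
  rintro _ ⟨⟨p, rfl⟩, hpq⟩
  have hpq' : p.1.1 ≠ q.1.1 := by simpa using hpq
  have hfe : f p.1 = f q.1 := by
    have h1 : f p.1 = y := p.2
    have h2 : f q.1 = y := q.2
    rw [h1, h2]
  have e1 : cl p.1.1 = cl q.1.1 := congrArg Prod.fst hfe
  have e2 : Ideal.Quotient.mk (Ideal.span {(8 * N : 𝓞 K)}) (g p.1.1) =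
      Ideal.Quotient.mk _ (g q.1.1) := congrArg (fun z => z.2.1) hfe
  have e3 : {s : K →+* ℝ | 0 < s (g p.1.1 : K)} = {s | 0 < s (g q.1.1 : K)} :=
    congrArg (fun z => z.2.2) hfe
  have ha := hg p.1.1
  have hb := hg q.1.1
  rw [e1] at ha
  obtain ⟨ha0, hb0, hv1, hv2, hv3⟩ := quot_val hpq' (hI0 _) ha hb
  have ha0' : (g p.1.1 : K) ≠ 0 := by
    intro h
    exact ha0 (by exact_mod_cast h)
  have hb0' : (g q.1.1 : K) ≠ 0 := by
    intro h
    exact hb0 (by exact_mod_cast h)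
  refine ⟨p.1.2.1, p.1.2.2, hpq', (g p.1.1 : K) / (g q.1.1 : K), div_ne_zero ha0' hb0', hv1, hv2, hv3,
    ?_, ?_⟩
  · intro v hv
    refine quot_two q.1.2.2 (hI0 _) hb ?_ hv
    have h1 := Ideal.Quotient.eq.1 e2
    obtain ⟨k, hk⟩ := Ideal.mem_span_singleton.1 h1
    rw [hk, mul_assoc]
    exact Ideal.mul_mem_mul (Ideal.mem_span_singleton_self _)
      (Ideal.mul_mem_right _ _ (hNI _))
  · intro s
    rw [map_div₀]
    have hsa : s (g p.1.1 : K) ≠ 0 := by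
      rw [Ne, map_eq_zero]
      exact ha0'
    have hsb : s (g q.1.1 : K) ≠ 0 := by
      rw [Ne, map_eq_zero]
      exact hb0'
    have hiff : 0 < s (g p.1.1 : K) ↔ 0 < s (g q.1.1 : K) := by
      have := Set.ext_iff.1 e3 s
      simpa using this
    rcases lt_or_gt_of_ne hsa with h | h
    · have hb' : s (g q.1.1 : K) < 0 := by
        rcases lt_or_gt_of_ne hsb with h' | h'
        · exact h'
        · exact absurd (hiff.2 h') (not_lt.2 h.le)
      exact div_pos_of_neg_of_neg h hb'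
    · exact div_pos h (hiff.1 h)

end H36PP

end S_H36_PP_Axp

section S_H30_CY_Fl

set_option autoImplicit false
set_option linter.unusedSectionVars false

open NumberField IsDedekindDomain H76PP H36PP H36MT

namespace H30CY

section FamIn

variable {K : Type} [Field K] [NumberField K]

theorem famS_of_in {S : Finset (HeightOneSpectrum (𝓞 K))}
    (hSv : ∀ v : HeightOneSpectrum (𝓞 K), v ∈ S ↔ (2 : 𝓞 K) ∈ v.asIdeal) {e : ℕ}
    {q₀ : HeightOneSpectrum (𝓞 K)} (h6 : (6 : 𝓞 K) ∉ q₀.asIdeal)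
    {T : Finset (HeightOneSpectrum (𝓞 K))} (hT : ∀ v ∈ T, v ≠ q₀ ∧ (6 : 𝓞 K) ∉ v.asIdeal)
    {m : Ideal (𝓞 K)} {A₀ B₀ : 𝓞 K}
    (hmS : ∀ v ∈ S, m ≤ v.asIdeal ^ e ∧ dsc A₀ B₀ ∉ v.asIdeal ^ e)
    (hm : ∀ v : HeightOneSpectrum (𝓞 K), v ∉ S → m ≤ v.asIdeal → dsc A₀ B₀ ∉ v.asIdeal)
    {M : ℕ} {X : ℝ} {p : 𝓞 K × 𝓞 K} (hp : p ∈ Bx K X) (hq : p ∈ Pq q₀) (hPt : ∀ v ∈ T, p ∈ Pt v)
    (hA : p.1 - A₀ ∈ m) (hB : p.2 - B₀ ∈ m)
    (hP6 : ∀ v : HeightOneSpectrum (𝓞 K), (6 : 𝓞 K) ∈ v.asIdeal → ¬ m ≤ v.asIdeal → p ∈ P6 v)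
    (ho : ∀ v : HeightOneSpectrum (𝓞 K), (6 : 𝓞 K) ∉ v.asIdeal → v ≠ q₀ → v ∉ T →
      ¬ m ≤ v.asIdeal → Nv v ≤ M → p ∈ Po v)
    (ht : p ∉ Tail K M X) : FamS S e q₀ T p.1 p.2 := by
  have hone : ∀ v : HeightOneSpectrum (𝓞 K), (1 : 𝓞 K) ∉ v.asIdeal := fun v h =>
    v.isPrime.ne_top ((Ideal.eq_top_iff_one _).2 h)
  have m1 : ∀ (v : HeightOneSpectrum (𝓞 K)) (x : 𝓞 K), x - 1 ∈ v.asIdeal → x ∉ v.asIdeal := by
    intro v x h1 h2
    apply hone v
    have h3 := sub_mem h2 h1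
    rwa [sub_sub_cancel] at h3
  have m4 : ∀ (I : Ideal (𝓞 K)) (x y : 𝓞 K), x - y ∈ I → y ∉ I → x ∉ I := by
    intro I x y h1 h2 h3
    apply h2
    have h4 := sub_mem h3 h1
    rwa [sub_sub_cancel] at h4
  have hdm : dsc p.1 p.2 - dsc A₀ B₀ ∈ m := by
    have e : dsc p.1 p.2 - dsc A₀ B₀ =
        (p.1 - A₀) * (4 * (p.1 ^ 2 + p.1 * A₀ + A₀ ^ 2)) + (p.2 - B₀) * (27 * (p.2 + B₀)) := by
      unfold dsc
      ring
    rw [e]
    exact add_mem (m.mul_mem_right _ hA) (m.mul_mem_right _ hB)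
  have h32 : ∀ v : HeightOneSpectrum (𝓞 K), (3 : 𝓞 K) ∈ v.asIdeal → v ∉ S := by
    intro v h3 hv
    apply hone v
    have h4 := sub_mem h3 ((hSv v).1 hv)
    rwa [show (3 : 𝓞 K) - 2 = 1 by norm_num] at h4
  have h3of : ∀ v : HeightOneSpectrum (𝓞 K), v ∉ S → (6 : 𝓞 K) ∈ v.asIdeal →
      (3 : 𝓞 K) ∈ v.asIdeal := by
    intro v hvS hv6
    have h7 : (2 : 𝓞 K) * 3 ∈ v.asIdeal := by
      rw [show (2 : 𝓞 K) * 3 = 6 by norm_num]
      exact hv6
    exact (v.isPrime.mem_or_mem h7).resolve_left fun h => hvS ((hSv v).2 h)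
  have hunit : ∀ v : HeightOneSpectrum (𝓞 K), v ∉ S → (6 : 𝓞 K) ∈ v.asIdeal →
      dsc p.1 p.2 ∉ v.asIdeal := by
    intro v hvS hv6
    by_cases hmv : m ≤ v.asIdeal
    · exact m4 _ _ _ (hmv hdm) (hm v hvS hmv)
    · obtain ⟨g1, g2⟩ := hP6 v hv6 hmv
      have h2 : (2 : 𝓞 K) ∉ v.asIdeal := fun h => hvS ((hSv v).2 h)
      have h3 := h3of v hvS hv6
      intro h
      have h8 : p.1 ^ 3 * 4 ∈ v.asIdeal := by
        have e : p.1 ^ 3 * 4 = dsc p.1 p.2 - 3 * (9 * p.2 ^ 2) := by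
          unfold dsc
          ring
        rw [e]
        exact sub_mem h (v.asIdeal.mul_mem_right _ h3)
      rcases v.isPrime.mem_or_mem h8 with h9 | h9
      · exact m1 v _ g1 (v.isPrime.mem_of_pow_mem 3 h9)
      · have h10 : (2 : 𝓞 K) ^ 2 ∈ v.asIdeal := by
          rw [show (2 : 𝓞 K) ^ 2 = 4 by norm_num]
          exact h9
        exact h2 (v.isPrime.mem_of_pow_mem 2 h10)
  have hne : p.1 ≠ 0 := by
    obtain ⟨v, hv⟩ := Fm_three (K := K)
    have h7 : (6 : 𝓞 K) ∈ v.asIdeal := by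
      rw [show (6 : 𝓞 K) = 2 * 3 by norm_num]
      exact v.asIdeal.mul_mem_left _ hv
    intro h0
    apply hunit v (h32 v hv) h7
    unfold dsc
    rw [h0, show (4 : 𝓞 K) * 0 ^ 3 + 27 * p.2 ^ 2 = 3 * (9 * p.2 ^ 2) by ring]
    exact v.asIdeal.mul_mem_right _ hv
  have hd0 : dsc p.1 p.2 ≠ 0 := by
    intro h0
    have h1 := dsc_q h6 hq
    rw [h0] at h1
    exact h1 q₀.asIdeal.zero_mem
  refine ⟨hq, hPt, fun v hv => ?_, fun v hv => ?_⟩
  · by_cases hv6 : (6 : 𝓞 K) ∈ v.asIdeal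
    · exact fun h => hunit v hv hv6 (Ideal.pow_le_self two_ne_zero h)
    by_cases hvq : v = q₀
    · rw [hvq]
      exact fun h => dsc_q h6 hq (Ideal.pow_le_self two_ne_zero h)
    by_cases hvT : v ∈ T
    · exact fun h => dsc_t hv6 (hPt v hvT) (Ideal.pow_le_self two_ne_zero h)
    by_cases hmv : m ≤ v.asIdeal
    · exact fun h => m4 _ _ _ (hmv hdm) (hm v hv hmv) (Ideal.pow_le_self two_ne_zero h)
    by_cases hvM : Nv v ≤ M
    · exact ho v hv6 hvq hvT hmv hvM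
    · exact fun h => ht ⟨hp, hne, hd0, v, hv6, not_le.1 hvM, h⟩
  · obtain ⟨h1, h2⟩ := hmS v hv
    exact m4 _ _ _ (h1 hdm) h2

end FamIn

variable (K : Type) [Field K] [NumberField K]

private theorem Fl_cop {v w : HeightOneSpectrum (𝓞 K)} (h : v ≠ w) (a b : ℕ) :
    IsCoprime (v.asIdeal ^ a) (w.asIdeal ^ b) := by
  apply IsCoprime.pow
  rw [Ideal.isCoprime_iff_sup_eq]
  exact Ideal.IsMaximal.coprime_of_ne v.isMaximal w.isMaximal fun h' => h (HeightOneSpectrum.ext h')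

private theorem Fl_cop1 {v w : HeightOneSpectrum (𝓞 K)} (h : v ≠ w) :
    IsCoprime v.asIdeal w.asIdeal := by
  have h1 := Fl_cop K h 1 1
  rwa [pow_one, pow_one] at h1

private theorem Fl_cop2 {v w : HeightOneSpectrum (𝓞 K)} (h : v ≠ w) :
    IsCoprime v.asIdeal (w.asIdeal ^ 2) := by
  have h1 := Fl_cop K h 1 2
  rwa [pow_one] at h1

private theorem Fl_copm {m : Ideal (𝓞 K)} {v : HeightOneSpectrum (𝓞 K)} (h : ¬ m ≤ v.asIdeal) :
    IsCoprime v.asIdeal m := by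
  rw [Ideal.isCoprime_iff_sup_eq]
  by_contra h1
  have h2 := v.isMaximal.eq_of_le h1 le_sup_left
  apply h
  rw [h2]
  exact le_sup_right

private theorem Fl_copm2 {m : Ideal (𝓞 K)} {v : HeightOneSpectrum (𝓞 K)} (h : ¬ m ≤ v.asIdeal) :
    IsCoprime (v.asIdeal ^ 2) m := (Fl_copm K h).pow_left

private theorem Fl_pos (v : HeightOneSpectrum (𝓞 K)) : (0 : ℝ) < (Nv v : ℝ) := by
  have h := Sm_pos v
  exact_mod_cast Nat.pos_of_ne_zero h

theorem famS_lower_in {S : Finset (HeightOneSpectrum (𝓞 K))}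
    (hSv : ∀ v : HeightOneSpectrum (𝓞 K), v ∈ S ↔ (2 : 𝓞 K) ∈ v.asIdeal) {e : ℕ}
    (q₀ : HeightOneSpectrum (𝓞 K)) (h6 : (6 : 𝓞 K) ∉ q₀.asIdeal)
    {m : Ideal (𝓞 K)} (hm0 : m ≠ ⊥) (hmq : ¬ m ≤ q₀.asIdeal) {A₀ B₀ : 𝓞 K}
    (hmS : ∀ v ∈ S, m ≤ v.asIdeal ^ e ∧ dsc A₀ B₀ ∉ v.asIdeal ^ e)
    (hm : ∀ v : HeightOneSpectrum (𝓞 K), v ∉ S → m ≤ v.asIdeal → dsc A₀ B₀ ∉ v.asIdeal) :
    ∃ c : ℝ, 0 < c ∧ ∀ T : Finset (HeightOneSpectrum (𝓞 K)),
      (∀ v ∈ T, v ≠ q₀ ∧ (6 : 𝓞 K) ∉ v.asIdeal ∧ ¬ m ≤ v.asIdeal) → ∃ X₀ : ℝ, ∀ X : ℝ, X₀ ≤ X →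
        c * (∏ v ∈ T, (1 / 2 * (1 - 1 / (Nv v : ℝ)))) * X ^ (5 * Module.finrank ℚ K) ≤
          ({p : 𝓞 K × 𝓞 K | p ∈ Bx K X ∧ FamS S e q₀ T p.1 p.2 ∧ p.1 - A₀ ∈ m ∧ p.2 - B₀ ∈ m ∧
            ∀ s : K →+* ℝ, 0 < s (p.1 : K)}.ncard : ℝ) := by
  classical
  obtain ⟨C, hC1, hU⟩ := coset_upper K
  obtain ⟨c₁, hc₁, hL⟩ := coset_lower K
  obtain ⟨c₀, hc₀, hP⟩ := prod_lower K
  obtain ⟨c₂, hc₂⟩ : ∃ c₂ : ℝ, c₂ = c₁ ^ 2 / 4 ^ Module.finrank ℚ K := ⟨_, rfl⟩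
  have hc₂p : 0 < c₂ := by
    rw [hc₂]
    positivity
  have hF6fin : {v : HeightOneSpectrum (𝓞 K) | (6 : 𝓞 K) ∈ v.asIdeal ∧ ¬ m ≤ v.asIdeal}.Finite :=
    (six_fin K).subset fun v hv => hv.1
  obtain ⟨F6, hF6⟩ : ∃ F6 : Finset (HeightOneSpectrum (𝓞 K)), ∀ v, v ∈ F6 ↔
      ((6 : 𝓞 K) ∈ v.asIdeal ∧ ¬ m ≤ v.asIdeal) :=
    ⟨hF6fin.toFinset, fun v => hF6fin.mem_toFinset⟩
  obtain ⟨d1, hd1⟩ : ∃ d1 : ℝ, d1 = 1 / (Nv q₀ : ℝ) ^ 2 := ⟨_, rfl⟩
  obtain ⟨d3, hd3⟩ : ∃ d3 : ℝ, d3 = ∏ v ∈ F6, (1 / (Nv v : ℝ) ^ 2) := ⟨_, rfl⟩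
  obtain ⟨d5, hd5⟩ : ∃ d5 : ℝ, d5 = 1 / (Ideal.absNorm m : ℝ) ^ 2 := ⟨_, rfl⟩
  have hd1p : 0 < d1 := by
    rw [hd1]
    exact div_pos one_pos (pow_pos (Fl_pos K q₀) 2)
  have hd3p : 0 < d3 := by
    rw [hd3]
    exact Finset.prod_pos fun v _ => div_pos one_pos (pow_pos (Fl_pos K v) 2)
  have hd5p : 0 < d5 := by
    rw [hd5]
    have h1 : Ideal.absNorm m ≠ 0 := fun h => hm0 (Ideal.absNorm_eq_zero_iff.1 h)
    have h2 : (0 : ℝ) < (Ideal.absNorm m : ℝ) := by exact_mod_cast Nat.pos_of_ne_zero h1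
    positivity
  refine ⟨c₂ * (d1 * d3 * c₀ * d5) / 2, by positivity, fun T hT => ?_⟩
  have hT' : ∀ v ∈ T, v ≠ q₀ ∧ (6 : 𝓞 K) ∉ v.asIdeal := fun v hv => ⟨(hT v hv).1, (hT v hv).2.1⟩
  obtain ⟨d2, hd2⟩ : ∃ d2 : ℝ, d2 = ∏ v ∈ T, (1 / 2 * (1 - 1 / (Nv v : ℝ))) := ⟨_, rfl⟩
  rw [← hd2]
  have hT5 : ∀ v ∈ T, 0 < 1 / 2 * (1 - 1 / (Nv v : ℝ)) := by
    intro v hv
    have h1 : (5 : ℝ) ≤ (Nv v : ℝ) := by exact_mod_cast five_le K (hT' v hv).2
    have h2 : 1 / (Nv v : ℝ) < 1 := by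
      rw [div_lt_one (by linarith)]
      linarith
    linarith
  have hd2p : 0 < d2 := by
    rw [hd2]
    exact Finset.prod_pos hT5
  obtain ⟨c, hc⟩ : ∃ c, c = c₂ * (d1 * d3 * c₀ * d5) / 2 := ⟨_, rfl⟩
  rw [← hc]
  have hcp : 0 < c := by
    rw [hc]
    positivity
  obtain ⟨M, X₁, hM⟩ := tail_bound K (zero_le_one.trans hC1) hU (mul_pos hcp hd2p)
  have hfin : {v : HeightOneSpectrum (𝓞 K) | (6 : 𝓞 K) ∉ v.asIdeal ∧ v ≠ q₀ ∧ v ∉ T ∧
      ¬ m ≤ v.asIdeal ∧ Nv v ≤ M}.Finite := by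
    refine (nv_finite K (M : ℝ)).subset ?_
    rintro v ⟨-, -, -, -, h⟩
    show ((Nv v : ℕ) : ℝ) ≤ (M : ℝ)
    exact_mod_cast h
  obtain ⟨FM, hFM⟩ : ∃ FM : Finset (HeightOneSpectrum (𝓞 K)), ∀ v, v ∈ FM ↔
      ((6 : 𝓞 K) ∉ v.asIdeal ∧ v ≠ q₀ ∧ v ∉ T ∧ ¬ m ≤ v.asIdeal ∧ Nv v ≤ M) :=
    ⟨hfin.toFinset, fun v => hfin.mem_toFinset⟩
  obtain ⟨d4, hd4⟩ : ∃ d4 : ℝ, d4 = ∏ v ∈ FM, (1 - 3 / (Nv v : ℝ) ^ 2) := ⟨_, rfl⟩
  have hM5 : ∀ v ∈ FM, 0 ≤ 1 - 3 / (Nv v : ℝ) ^ 2 := by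
    intro v hv
    have h1 : (5 : ℝ) ≤ (Nv v : ℝ) := by exact_mod_cast five_le K ((hFM v).1 hv).1
    have h2 : (25 : ℝ) ≤ (Nv v : ℝ) ^ 2 := by nlinarith
    have h3 : 3 / (Nv v : ℝ) ^ 2 ≤ 1 := by
      rw [div_le_one (by linarith)]
      linarith
    linarith
  have hd4c : c₀ ≤ d4 := by
    rw [hd4]
    exact hP FM fun v hv => ((hFM v).1 hv).1
  have D1 := dens_q q₀
  rw [← hd1] at D1
  have D2 := dens_prod T (fun v => v.asIdeal) Pt (fun v => 1 / 2 * (1 - 1 / (Nv v : ℝ)))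
    (fun v _ => v.ne_bot) (fun v _ w _ h => Fl_cop1 K h) (fun v hv => (hT5 v hv).le)
    (fun v hv => dens_t (hT' v hv).2)
  rw [← hd2] at D2
  have D3 := dens_prod F6 (fun v => v.asIdeal) P6 (fun v => 1 / (Nv v : ℝ) ^ 2)
    (fun v _ => v.ne_bot) (fun v _ w _ h => Fl_cop1 K h)
    (fun v _ => (div_pos one_pos (pow_pos (Fl_pos K v) 2)).le) (fun v _ => dens_6 v)
  rw [← hd3] at D3
  have D4 := dens_prod FM (fun v => v.asIdeal ^ 2) Po (fun v => 1 - 3 / (Nv v : ℝ) ^ 2)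
    (fun v _ => pow_ne_zero 2 v.ne_bot) (fun v _ w _ h => Fl_cop K h 2 2) hM5
    (fun v hv => dens_o ((hFM v).1 hv).1)
  rw [← hd4] at D4
  have D5 : Dens m {p : 𝓞 K × 𝓞 K | p.1 - A₀ ∈ m ∧ p.2 - B₀ ∈ m} d5 := by
    rw [hd5]
    refine Dv_one hm0 ?_ ⟨(A₀, B₀), ?_⟩
    · rintro p p' hpp ⟨h1, h2⟩
      have h3 := (Dn_rs m p p').1 hpp
      constructor
      · have e := sub_mem h1 h3.1
        rwa [sub_sub_sub_cancel_left] at e
      · have e := sub_mem h2 h3.2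
        rwa [sub_sub_sub_cancel_left] at e
    · constructor
      · show A₀ - A₀ ∈ m
        rw [sub_self]
        exact m.zero_mem
      · show B₀ - B₀ ∈ m
        rw [sub_self]
        exact m.zero_mem
  have b2 : (∏ v ∈ T, v.asIdeal) ≠ (⊥ : Ideal (𝓞 K)) :=
    Finset.prod_ne_zero_iff.2 fun v _ => v.ne_bot
  have b3 : (∏ v ∈ F6, v.asIdeal) ≠ (⊥ : Ideal (𝓞 K)) :=
    Finset.prod_ne_zero_iff.2 fun v _ => v.ne_bot
  have b4 : (∏ v ∈ FM, v.asIdeal ^ 2) ≠ (⊥ : Ideal (𝓞 K)) :=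
    Finset.prod_ne_zero_iff.2 fun v _ => pow_ne_zero 2 v.ne_bot
  have n6 : ∀ v ∈ F6, v ≠ q₀ := by
    rintro v hv rfl
    exact h6 ((hF6 _).1 hv).1
  have n7 : ∀ v ∈ F6, ∀ t ∈ T, t ≠ v := by
    rintro v hv t ht rfl
    exact (hT' _ ht).2 ((hF6 _).1 hv).1
  have n8 : ∀ v ∈ FM, ∀ t ∈ T, t ≠ v := by
    rintro v hv t ht rfl
    exact ((hFM _).1 hv).2.2.1 ht
  have n9 : ∀ v ∈ FM, ∀ t ∈ F6, t ≠ v := by
    rintro v hv t ht rfl
    exact ((hFM _).1 hv).1 ((hF6 _).1 ht).1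
  have D12 := dens_mul q₀.ne_bot b2 (IsCoprime.prod_right fun v hv =>
    Fl_cop1 K (hT' v hv).1.symm) hd1p.le hd2p.le D1 D2
  have b12 : q₀.asIdeal * (∏ v ∈ T, v.asIdeal) ≠ (⊥ : Ideal (𝓞 K)) := mul_ne_zero q₀.ne_bot b2
  have D123 := dens_mul b12 b3 (IsCoprime.prod_right fun v hv => IsCoprime.mul_left
    (Fl_cop1 K (n6 v hv).symm) (IsCoprime.prod_left fun t ht => Fl_cop1 K (n7 v hv t ht)))
    (mul_pos hd1p hd2p).le hd3p.le D12 D3
  have b123 : q₀.asIdeal * (∏ v ∈ T, v.asIdeal) * (∏ v ∈ F6, v.asIdeal) ≠ (⊥ : Ideal (𝓞 K)) :=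
    mul_ne_zero b12 b3
  have D1234 := dens_mul b123 b4 (IsCoprime.prod_right fun v hv => IsCoprime.mul_left (IsCoprime.mul_left
    (Fl_cop2 K ((hFM v).1 hv).2.1.symm)
    (IsCoprime.prod_left fun t ht => Fl_cop2 K (n8 v hv t ht)))
    (IsCoprime.prod_left fun t ht => Fl_cop2 K (n9 v hv t ht)))
    (mul_pos (mul_pos hd1p hd2p) hd3p).le (hc₀.le.trans hd4c) D123 D4
  have b1234 : q₀.asIdeal * (∏ v ∈ T, v.asIdeal) * (∏ v ∈ F6, v.asIdeal) *
      (∏ v ∈ FM, v.asIdeal ^ 2) ≠ (⊥ : Ideal (𝓞 K)) := mul_ne_zero b123 b4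
  have D := dens_mul b1234 hm0 (IsCoprime.mul_left (IsCoprime.mul_left (IsCoprime.mul_left
    (Fl_copm K hmq) (IsCoprime.prod_left fun t ht => Fl_copm K (hT t ht).2.2))
    (IsCoprime.prod_left fun t ht => Fl_copm K ((hF6 _).1 ht).2))
    (IsCoprime.prod_left fun t ht => Fl_copm2 K ((hFM _).1 ht).2.2.2.1))
    (mul_nonneg (mul_pos (mul_pos hd1p hd2p) hd3p).le (hc₀.le.trans hd4c)) hd5p.le D1234 D5
  obtain ⟨X₂, hX₂⟩ := dens_lower_pos hc₁.le hL (Bx_finite K) (mul_ne_zero b1234 hm0) D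
  rw [← hc₂] at hX₂
  refine ⟨max (max X₁ X₂) 0, fun X hX => ?_⟩
  have hX1 : X₁ ≤ X := ((le_max_left _ _).trans (le_max_left _ _)).trans hX
  have hX2 : X₂ ≤ X := ((le_max_right _ _).trans (le_max_left _ _)).trans hX
  have hX0 : 0 ≤ X := (le_max_right _ _).trans hX
  have e1 := hX₂ X hX2
  have e2 := hM X hX1
  obtain ⟨S1, hS1⟩ : ∃ S1 : Set (𝓞 K × 𝓞 K), S1 = {p : 𝓞 K × 𝓞 K | p ∈ Bx K X ∧
      FamS S e q₀ T p.1 p.2 ∧ p.1 - A₀ ∈ m ∧ p.2 - B₀ ∈ m ∧ ∀ s : K →+* ℝ, 0 < s (p.1 : K)} := ⟨_, rfl⟩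
  obtain ⟨S2, hS2⟩ : ∃ S2 : Set (𝓞 K × 𝓞 K), S2 = {p : 𝓞 K × 𝓞 K | (p ∈ Bx K X ∧
      ∀ s : K →+* ℝ, 0 < s (p.1 : K)) ∧ p ∈ Pq q₀ ∩ {p | ∀ v ∈ T, p ∈ Pt v} ∩
      {p | ∀ v ∈ F6, p ∈ P6 v} ∩ {p | ∀ v ∈ FM, p ∈ Po v} ∩
      {p : 𝓞 K × 𝓞 K | p.1 - A₀ ∈ m ∧ p.2 - B₀ ∈ m}} := ⟨_, rfl⟩
  rw [← hS1]
  rw [← hS2] at e1
  have hS : S1.Finite := by
    rw [hS1]
    exact (Bx_finite K X).subset fun p hp => hp.1
  have hTl : (Tail K M X).Finite := (Bx_finite K X).subset fun p hp => hp.1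
  have hsub : S2 ⊆ S1 ∪ Tail K M X := by
    rw [hS1, hS2]
    rintro p ⟨⟨hp, hpos⟩, ⟨⟨⟨hp1, hp2⟩, hp3⟩, hp4⟩, hp5, hp6⟩
    by_cases ht : p ∈ Tail K M X
    · exact Or.inr ht
    · exact Or.inl ⟨hp, famS_of_in hSv h6 hT' hmS hm hp hp1 hp2 hp5 hp6
        (fun v hv hv' => hp3 v ((hF6 v).2 ⟨hv, hv'⟩))
        (fun v a1 a2 a3 a4 a5 => hp4 v ((hFM v).2 ⟨a1, a2, a3, a4, a5⟩)) ht, hp5, hp6, hpos⟩
  have e3 := (Set.ncard_le_ncard hsub (hS.union hTl)).trans (Set.ncard_union_le _ _)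
  have e4 : (S2.ncard : ℝ) ≤ (S1.ncard : ℝ) + ((Tail K M X).ncard : ℝ) := by
    exact_mod_cast e3
  obtain ⟨Z, hZ⟩ : ∃ Z, Z = X ^ (5 * Module.finrank ℚ K) := ⟨_, rfl⟩
  have hZ0 : 0 ≤ Z := by
    rw [hZ]
    exact pow_nonneg hX0 _
  rw [← hZ] at e1 e2 ⊢
  have e5 : c₂ * (d1 * d2 * d3 * c₀ * d5) * Z ≤ c₂ * (d1 * d2 * d3 * d4 * d5) * Z := by
    refine mul_le_mul_of_nonneg_right (mul_le_mul_of_nonneg_left ?_ (by positivity)) hZ0
    exact mul_le_mul_of_nonneg_right (mul_le_mul_of_nonneg_left hd4c (by positivity)) hd5p.le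
  have e6 : c₂ * (d1 * d2 * d3 * c₀ * d5) * Z = 2 * (c * d2 * Z) := by
    rw [hc]
    ring
  linarith

end H30CY

end S_H30_CY_Fl

section S_H30_CY_Rs

set_option autoImplicit false
set_option linter.unusedSectionVars false
open scoped Classical

open WithZero NumberField IsDedekindDomain H38RT
open H38T1 (SC sc scu rep eo la si Pri OddP tp unif)
open H76PP H36MT

namespace H30CY

theorem rel_S2 {K : Type} [Field K] [NumberField K] {S : Finset (HeightOneSpectrum (𝓞 K))}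
    (hS2 : ∀ v : HeightOneSpectrum (𝓞 K), v.valuation K 2 < 1 → v ∈ S) {e₀ : ℕ}
    {q₀ : HeightOneSpectrum (𝓞 K)}
    {T : Finset (HeightOneSpectrum (𝓞 K))}
    (hT : ∀ v ∈ T, v ≠ q₀ ∧ v ∉ S ∧ (6 : 𝓞 K) ∉ v.asIdeal)
    {A B : 𝓞 K} (hF : FamS S e₀ q₀ T A B) (hB : ¬ BadS S T A B) {L : Type} [Field L] [NumberField L]
    [Algebra K L] {θ : L} (hL : Cub K L (A : K) (B : K) θ) (hR : HR2 K L A B θ) :
    ∃ J ⊆ T, ∀ D : K, TwS S q₀ J D → ∀ P : Finset (HeightOneSpectrum (𝓞 K)), S ⊆ P → J ⊆ P →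
      RelTriv K L P (D ^ 2 * A) (D ^ 3 * B) (algebraMap K L D * θ) := by
  obtain ⟨w₀, -⟩ := exists_above (L := L) q₀
  have : Nonempty (HeightOneSpectrum (𝓞 L)) := ⟨w₀⟩
  have h6 : ∀ v ∈ T, (6 : 𝓞 K) ∉ v.asIdeal := fun v hv => (hT v hv).2.2
  have h2 : ∀ v ∈ T, ∃ w₁ w₂ : HeightOneSpectrum (𝓞 L), Two K θ v w₁ w₂ := fun v hv =>
    exists_twoL hL (hF.sqf v (hT v hv).2.1) (h6 v hv) (hF.typ v hv)
  choose! w₁ w₂ hw using h2
  have hodd : ∀ v ∈ T, OddP v := fun v hv => TjS_odd (h6 v hv)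
  have hodd1 : ∀ v ∈ T, OddP (w₁ v) := fun v hv => by
    rw [oddP_dn (K := K), (hw v hv).dn1]
    exact hodd v hv
  have hodd2 : ∀ v ∈ T, OddP (w₂ v) := fun v hv => by
    rw [oddP_dn (K := K), (hw v hv).dn2]
    exact hodd v hv
  have hu : ∃ u : HeightOneSpectrum (𝓞 K) → SC L →+ ZMod 2, ∀ v ∈ T, ∀ c, u v c = la (w₁ v) c := by
    refine ⟨fun v => if h : v ∈ T then ⟨⟨la (w₁ v), H38T1.la_zero (hodd1 v h)⟩,
      H38T1.la_add (hodd1 v h)⟩ else 0, fun v hv c => ?_⟩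
    beta_reduce
    rw [dif_pos hv]
    rfl
  obtain ⟨u, hu⟩ := hu
  let Y : Set (SC L) := {c | ∃ d : Fin 3 → K, ev θ d ≠ 0 ∧ c = sc (ev θ d) ∧
    IsSquare (Algebra.norm K (ev θ d)) ∧ (∀ w, dn K w ∉ S → eo w c = 0) ∧
    (∀ v ∈ S, LC (algebraMap K (v.adicCompletion K)) (A : K) (B : K) d) ∧
    ∀ s : K →+* ℝ, LC s (A : K) (B : K) d}
  have hYn : ∀ c ∈ Y, scm (Algebra.norm K : L →* K) c = 0 := by
    rintro c ⟨d, hd, rfl, hs, -⟩
    rw [scm_sc _ hd]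
    exact (H38T1.sc_eq_zero (scm_ne _ hd)).2 hs
  have hH : ∀ c ∈ AddSubgroup.closure Y, (∀ w, dn K w ∉ S → eo w c = 0) ∧
      scm (Algebra.norm K : L →* K) c = 0 := by
    intro c hc
    induction hc using AddSubgroup.closure_induction with
    | mem c hc =>
      refine ⟨?_, hYn c hc⟩
      obtain ⟨d, -, -, -, h, -⟩ := hc
      exact h
    | zero => exact ⟨fun w _ => H38T1.eo_zero w, map_zero _⟩
    | add c c' _ _ h h' =>
      refine ⟨fun w hwS => ?_, ?_⟩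
      · rw [H38T1.eo_add, h.1 w hwS, h'.1 w hwS, add_zero]
      · rw [map_add, h.2, h'.2, add_zero]
    | neg c _ h =>
      rw [TjS_neg]
      exact h
  have hla : ∀ v ∈ T, ∀ c ∈ AddSubgroup.closure Y, la (w₁ v) c = la (w₂ v) c := fun v hv c hc =>
    TjS_la hR (hodd v hv) (hw v hv)
      ((hH c hc).1 _ (by rw [(hw v hv).dn1]; exact (hT v hv).2.1))
      ((hH c hc).1 _ (by rw [(hw v hv).dn2]; exact (hT v hv).2.1)) (hH c hc).2
  have hker : ∀ y ∈ AddSubgroup.closure Y, (∀ v ∈ T, u v y = 0) → y = 0 := by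
    intro c hc h
    by_contra hne
    refine hB ⟨L, _, _, _, θ, c, hL, hne, (hH c hc).2, (hH c hc).1, fun w hwT => ?_⟩
    have h3 : la (w₁ (dn K w)) c = 0 := by
      rw [← hu _ hwT]
      exact h _ hwT
    rcases (hw _ hwT).only w rfl with h4 | h4
    · rw [h4]
      exact h3
    · rw [h4, ← hla _ hwT c hc]
      exact h3
  obtain ⟨J, hJT, hJ1, hJ2⟩ := exists_J (AddSubgroup.closure Y) T u hker
  refine ⟨J, hJT, fun D hD P hSP hJP d' hd' hsq heoP hLC hLCr => ?_⟩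
  set δ := ev (algebraMap K L D * θ) d' with hδ
  have hev : ev θ (fun j => d' j * D ^ (j : ℕ)) = δ := by
    rw [hδ]
    simp only [ev, map_mul, map_pow, Fin.val_zero, Fin.val_one, Fin.val_two]
    ring
  have hd : ev θ (fun j => d' j * D ^ (j : ℕ)) ≠ 0 := by
    rw [hev]
    exact hd'
  have hLS : ∀ v ∈ S,
      LC (algebraMap K (v.adicCompletion K)) (A : K) (B : K) (fun j => d' j * D ^ (j : ℕ)) := by
    intro v hv
    obtain ⟨m, hm, h⟩ := hD.loc v hv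
    obtain ⟨r, hr⟩ := sq_S hm h
    exact LC_twist _ hD.ne hr (hLC v (hSP hv))
  have hLr : ∀ s : K →+* ℝ, LC s (A : K) (B : K) (fun j => d' j * D ^ (j : ℕ)) := by
    intro s
    exact LC_twist _ hD.ne (Real.sq_sqrt (hD.pos s).le).symm (hLCr s)
  have hoff : ∀ w : HeightOneSpectrum (𝓞 L), dn K w ∉ S → dn K w ∉ J → eo w (sc δ) = 0 := by
    intro w hwS hwJ
    by_cases hwP : dn K w ∈ P
    · exact even_offS hF hL hD hd' hwS hwJ (hLC _ hwP)
    · exact heoP w hwP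
  have hat : ∀ v ∈ J, eo (w₁ v) (sc δ) = 0 ∧ (eo (w₂ v) (sc δ) = 0 → la (w₁ v) (sc δ) = 0 ∧
      la (w₂ v) (sc δ) = 0) := fun v hv =>
    at_JS hF hL hD hd' hv (hT v (hJT hv)).2.1 (h6 v (hJT hv)) (hw v (hJT hv)) (hLC _ (hJP hv))
  have hrel : ∀ y ∈ AddSubgroup.closure Y, ∑ v ∈ J, eo (w₂ v) (sc δ) * u v y = 0 := by
    intro y hy
    induction hy using AddSubgroup.closure_induction with
    | mem y hy =>
      have hyH : y ∈ AddSubgroup.closure Y := AddSubgroup.subset_closure hy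
      obtain ⟨d₁, hd₁, rfl, hs₁, he₁, hl₁, hr₁⟩ := hy
      have h3 := H54MT.iso_S hL hR hS2 (d := fun j => d' j * D ^ (j : ℕ)) (d' := d₁) hd hd₁
        (by rw [hev]; exact hsq) hs₁
        (fun v hv => ⟨hLS v hv, hl₁ v hv⟩) fun s => ⟨hLr s, hr₁ s⟩
      rw [hev] at h3
      have ht : ∀ w : HeightOneSpectrum (𝓞 L), dn K w ∉ S → tp w (sc δ) (sc (ev θ d₁)) =
          eo w (sc δ) * la w (sc (ev θ d₁)) := by
        intro w hwS
        unfold H38T1.tp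
        rw [he₁ w hwS]
        ring
      have hsub : Function.support (fun w : HeightOneSpectrum (𝓞 L) =>
          if dn K w ∉ S then tp w (sc δ) (sc (ev θ d₁)) else 0) ⊆
            ((J.image w₂ : Finset _) : Set _) := by
        intro w hwS
        by_contra hn
        apply hwS
        change (if dn K w ∉ S then tp w (sc δ) (sc (ev θ d₁)) else 0) = 0
        by_cases hS : dn K w ∉ S
        · have h5 : eo w (sc δ) = 0 := by
            by_cases hwJ : dn K w ∈ J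
            · rcases (hw _ (hJT hwJ)).only w rfl with h4 | h4
              · rw [h4]
                exact (hat _ hwJ).1
              · exact absurd (Finset.mem_coe.2 (Finset.mem_image.2 ⟨_, hwJ, h4.symm⟩)) hn
            · exact hoff w hS hwJ
          rw [ht w hS, h5, zero_mul, ite_self]
        · rw [if_neg hS]
      rw [finsum_eq_sum_of_support_subset _ hsub, Finset.sum_image] at h3
      · rw [← h3]
        refine Finset.sum_congr rfl fun v hv => ?_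
        have hnS : dn K (w₂ v) ∉ S := by
          rw [(hw v (hJT hv)).dn2]
          exact (hT v (hJT hv)).2.1
        rw [if_pos hnS, ht _ hnS, hu v (hJT hv), hla v (hJT hv) _ hyH]
      · intro v hv v' hv' h
        rw [← (hw v (hJT hv)).dn2, ← (hw v' (hJT hv')).dn2, h]
    | zero => simp
    | add y y' _ _ h h' =>
      simp only [map_add, mul_add, Finset.sum_add_distrib]
      rw [h, h', add_zero]
    | neg y _ h =>
      rw [TjS_neg]
      exact h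
  have hr := hJ2 (fun v => eo (w₂ v) (sc δ)) hrel
  have heo : ∀ w : HeightOneSpectrum (𝓞 L), dn K w ∉ S → eo w (sc δ) = 0 := by
    intro w hwS
    by_cases hwJ : dn K w ∈ J
    · rcases (hw _ (hJT hwJ)).only w rfl with h4 | h4
      · rw [h4]
        exact (hat _ hwJ).1
      · rw [h4]
        exact hr _ hwJ
    · exact hoff w hwS hwJ
  have hmem : sc δ ∈ AddSubgroup.closure Y := by
    refine AddSubgroup.subset_closure ⟨fun j => d' j * D ^ (j : ℕ), hd, by rw [hev], ?_, heo, hLS, hLr⟩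
    rw [hev]
    exact hsq
  have h0 := hJ1 _ hmem fun v hv => by
    rw [hu v (hJT hv)]
    exact ((hat v hv).2 (hr v hv)).1
  exact (H38T1.sc_eq_zero hd').1 h0


theorem good_S2 {K : Type} [Field K] [NumberField K] {S : Finset (HeightOneSpectrum (𝓞 K))}
    (hS2 : ∀ v : HeightOneSpectrum (𝓞 K), v.valuation K 2 < 1 → v ∈ S) {e₀ : ℕ}
    {q₀ : HeightOneSpectrum (𝓞 K)}
    {T : Finset (HeightOneSpectrum (𝓞 K))}
    (hT : ∀ v ∈ T, v ≠ q₀ ∧ v ∉ S ∧ (6 : 𝓞 K) ∉ v.asIdeal)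
    {A B : 𝓞 K} (hF : FamS S e₀ q₀ T A B) (hB : ¬ BadS S T A B) :
    ∃ J ⊆ T, ∀ D : 𝓞 K, TwS S q₀ J (D : K) → ∀ Sg : Finset (HeightOneSpectrum (𝓞 K)),
      S ⊆ Sg → T ⊆ Sg → q₀ ∈ Sg → RelG K Sg (D ^ 2 * A) (D ^ 3 * B) := by
  obtain ⟨L, _, _, _, θ, hL⟩ := H24PD.exists_cub (fun t => hF.no_root t)
  obtain ⟨J, hJ, hrel⟩ := rel_S2 hS2 hT hF hB hL (hr2 hL hF.dsc_ne)
  refine ⟨J, hJ, fun D hD Sg hSSg hTSg hq => ?_⟩
  have hD0 : (D : K) ≠ 0 := hD.ne
  have e1 : ((D ^ 2 * A : 𝓞 K) : K) = (D : K) ^ 2 * (A : K) := by push_cast; rfl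
  have e2 : ((D ^ 3 * B : 𝓞 K) : K) = (D : K) ^ 3 * (B : K) := by push_cast; rfl
  refine ⟨?_, ?_, ?_, ?_, ?_⟩
  · intro v hv
    exact hSSg (hS2 v hv)
  · intro h4
    have h5 : (4 * ((D : K) ^ 2 * (A : K)) ^ 3 + 27 * ((D : K) ^ 3 * (B : K)) ^ 2) = 0 := by
      rw [← e1, ← e2, ← dsc_coe, h4, map_zero]
    have h6 : (D : K) ^ 6 * (4 * (A : K) ^ 3 + 27 * (B : K) ^ 2) = 0 := by
      linear_combination h5
    exact (mul_ne_zero (pow_ne_zero 6 hD0) hF.dsc_ne) h6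
  · rw [e1, e2]
    intro t ht
    apply hF.no_root (t / (D : K))
    have h7 : (D : K) ^ 3 * ((t / (D : K)) ^ 3 + (A : K) * (t / (D : K)) + (B : K)) = 0 := by
      field_simp
      linear_combination ht
    exact (mul_eq_zero.1 h7).resolve_left (pow_ne_zero 3 hD0)
  · rw [e1, e2]
    intro v hv
    exact nice_tw hF hD (fun h => hv (hSSg h)) (fun h => hv (hTSg (hJ h)))
      (fun h => hv (h ▸ hq))
  · rw [e1, e2]
    intro L' _ _ _ θ' hL'
    exact (RelTriv.equiv (hL.twist hD0) hL'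
      (hrel (D : K) hD Sg hSSg (hJ.trans hTSg))).toRelT

end H30CY

end S_H30_CY_Rs

section S_H30_CY_Au

set_option autoImplicit false
set_option linter.unusedSectionVars false
open scoped Classical

open WithZero NumberField IsDedekindDomain
open H76PP H36PP H36MT

namespace H30CY

variable (K : Type) [Field K] [NumberField K]

theorem aux_set_in {m : Ideal (𝓞 K)} (hm : m ≠ ⊥) {Z₀ : Set (HeightOneSpectrum (𝓞 K))}
    (hZ₀ : Z₀.Infinite) : ∃ Z ⊆ Z₀,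
    Z.Infinite ∧ (∀ v ∈ Z, ¬ m ≤ v.asIdeal ∧ (6 : 𝓞 K) ∉ v.asIdeal) ∧
      ∀ q ∈ Z, ∀ p ∈ Z, p ≠ q → ∃ D : K, AuxR m q p D := by
  have hI : ∀ c : ClassGroup (𝓞 K), ∃ I : (nonZeroDivisors (Ideal (𝓞 K))),
      ClassGroup.mk0 I = c⁻¹ := fun c => ClassGroup.mk0_surjective c⁻¹
  choose I hI using hI
  have hI0 : ∀ c, (I c : Ideal (𝓞 K)) ≠ ⊥ := fun c => by
    have := nonZeroDivisors.ne_zero (I c).2
    simpa using this
  obtain ⟨N, hN0, hNI⟩ : ∃ N : ℕ, N ≠ 0 ∧ ∀ c, (N : 𝓞 K) ∈ (I c : Ideal (𝓞 K)) := by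
    refine ⟨∏ c, Ideal.absNorm (I c : Ideal (𝓞 K)), ?_, ?_⟩
    · refine Finset.prod_ne_zero_iff.2 fun c _ => ?_
      rw [Ne, Ideal.absNorm_eq_zero_iff]
      exact hI0 c
    · intro c
      obtain ⟨k, hk⟩ : Ideal.absNorm (I c : Ideal (𝓞 K)) ∣
          ∏ c, Ideal.absNorm (I c : Ideal (𝓞 K)) := Finset.dvd_prod_of_mem _ (Finset.mem_univ c)
      rw [hk]
      push_cast
      exact Ideal.mul_mem_right _ _ (Ideal.absNorm_mem _)
  let cl : HeightOneSpectrum (𝓞 K) → ClassGroup (𝓞 K) := fun v =>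
    ClassGroup.mk0 ⟨v.asIdeal, mem_nonZeroDivisors_iff_ne_zero.2 v.ne_bot⟩
  have hg : ∀ v : HeightOneSpectrum (𝓞 K), ∃ g : 𝓞 K,
      v.asIdeal * (I (cl v) : Ideal (𝓞 K)) = Ideal.span {g} := by
    intro v
    have h1 : ClassGroup.mk0 (⟨v.asIdeal, mem_nonZeroDivisors_iff_ne_zero.2 v.ne_bot⟩ *
        I (cl v)) = 1 := by
      rw [map_mul, hI]
      exact mul_inv_cancel _
    rw [ClassGroup.mk0_eq_one_iff] at h1
    obtain ⟨g, hg⟩ := h1.principal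
    exact ⟨g, hg⟩
  choose g hg using hg
  have : Finite (K →+* ℝ) := by
    refine Finite.of_injective (fun s : K →+* ℝ => (Complex.ofRealHom.comp s : K →+* ℂ)) ?_
    intro s t hst
    ext x
    have := congrArg (fun f : K →+* ℂ => f x) hst
    simpa using this
  have hNK : (N : 𝓞 K) ≠ 0 := by exact_mod_cast hN0
  have hmN : m * Ideal.span {(N : 𝓞 K)} ≠ ⊥ := by
    rw [Ne, Ideal.mul_eq_bot, not_or]
    exact ⟨hm, by simpa using hNK⟩
  have : Finite (𝓞 K ⧸ (m * Ideal.span {(N : 𝓞 K)})) :=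
    Ideal.finiteQuotientOfFreeOfNeBot _ hmN
  have hfin : {v : HeightOneSpectrum (𝓞 K) | m ≤ v.asIdeal}.Finite := by
    refine (Ideal.finite_factors hm).subset ?_
    intro v hv
    exact Ideal.dvd_iff_le.2 hv
  have hinf0 : {v : HeightOneSpectrum (𝓞 K) |
      v ∈ Z₀ ∧ ¬ m ≤ v.asIdeal ∧ (6 : 𝓞 K) ∉ v.asIdeal}.Infinite := by
    refine (hZ₀.sdiff (hfin.union (six_fin K))).mono ?_
    rintro v ⟨h1, h2⟩
    exact ⟨h1, fun h => h2 (Or.inl h), fun h => h2 (Or.inr h)⟩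
  have : Infinite {v : HeightOneSpectrum (𝓞 K) |
      v ∈ Z₀ ∧ ¬ m ≤ v.asIdeal ∧ (6 : 𝓞 K) ∉ v.asIdeal} := hinf0.to_subtype
  let f : {v : HeightOneSpectrum (𝓞 K) | v ∈ Z₀ ∧ ¬ m ≤ v.asIdeal ∧ (6 : 𝓞 K) ∉ v.asIdeal} →
      ClassGroup (𝓞 K) × (𝓞 K ⧸ (m * Ideal.span {(N : 𝓞 K)})) × Set (K →+* ℝ) := fun v =>
    (cl v.1, Ideal.Quotient.mk _ (g v.1), {s | 0 < s (g v.1 : K)})
  obtain ⟨y, hy⟩ := Finite.exists_infinite_fiber f
  have := hy
  refine ⟨Set.range (fun p : f ⁻¹' {y} => p.1.1), ?_, ?_, ?_, ?_⟩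
  · rintro _ ⟨p, rfl⟩
    exact p.1.2.1
  · refine Set.infinite_range_of_injective ?_
    intro a b hab
    exact Subtype.ext (Subtype.ext hab)
  · rintro _ ⟨p, rfl⟩
    exact p.1.2.2
  · rintro _ ⟨q, rfl⟩ _ ⟨p, rfl⟩ hpq
    have hpq' : p.1.1 ≠ q.1.1 := hpq
    have hfe : f p.1 = f q.1 := by
      have h1 : f p.1 = y := p.2
      have h2 : f q.1 = y := q.2
      rw [h1, h2]
    have e1 : cl p.1.1 = cl q.1.1 := congrArg Prod.fst hfe
    have e2 : Ideal.Quotient.mk (m * Ideal.span {(N : 𝓞 K)}) (g p.1.1) =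
        Ideal.Quotient.mk _ (g q.1.1) := congrArg (fun z => z.2.1) hfe
    have e3 : {s : K →+* ℝ | 0 < s (g p.1.1 : K)} = {s | 0 < s (g q.1.1 : K)} :=
      congrArg (fun z => z.2.2) hfe
    have ha := hg p.1.1
    have hb := hg q.1.1
    rw [e1] at ha
    obtain ⟨ha0, hb0, hv1, hv2, hv3⟩ := quot_val hpq' (hI0 _) ha hb
    have ha0' : (g p.1.1 : K) ≠ 0 := by
      intro h
      exact ha0 (by exact_mod_cast h)
    have hb0' : (g q.1.1 : K) ≠ 0 := by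
      intro h
      exact hb0 (by exact_mod_cast h)
    refine ⟨(g p.1.1 : K) / (g q.1.1 : K), div_ne_zero ha0' hb0', hv1, hv2, hv3, ?_, ?_⟩
    · intro v k hk hv
      refine quot_cong q.1.2.2.1 (hI0 _) hb ?_ hk hv
      have h1 := Ideal.Quotient.eq.1 e2
      have hle : m * Ideal.span {(N : 𝓞 K)} ≤ m * (I (cl q.1.1) : Ideal (𝓞 K)) := by
        refine Ideal.mul_mono_right ?_
        rw [Ideal.span_le, Set.singleton_subset_iff]
        exact hNI _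
      exact hle h1
    · intro s
      rw [map_div₀]
      have hsa : s (g p.1.1 : K) ≠ 0 := by
        rw [Ne, map_eq_zero]
        exact ha0'
      have hsb : s (g q.1.1 : K) ≠ 0 := by
        rw [Ne, map_eq_zero]
        exact hb0'
      have hiff : 0 < s (g p.1.1 : K) ↔ 0 < s (g q.1.1 : K) := by
        have := Set.ext_iff.1 e3 s
        simpa using this
      rcases lt_or_gt_of_ne hsa with h | h
      · have hb' : s (g q.1.1 : K) < 0 := by
          rcases lt_or_gt_of_ne hsb with h' | h'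
          · exact h'
          · exact absurd (hiff.2 h') (not_lt.2 h.le)
        exact div_pos_of_neg_of_neg h hb'
      · exact div_pos h (hiff.1 h)

end H30CY

end S_H30_CY_Au

section S_H30_PN_Df

set_option autoImplicit false
set_option linter.unusedSectionVars false
open scoped Classical

open WithZero NumberField IsDedekindDomain H38RT H76PP
open H38T1 (SC sc scu rep eo la si Pri OddP tp unif)

namespace H30PN

/-- `x^3 + A x + B` has no root modulo `v`. -/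
def NoRt (k : Type) [Field k] [NumberField k] (v : HeightOneSpectrum (𝓞 k)) (A B : 𝓞 k) : Prop :=
  ∀ t : 𝓞 k, t ^ 3 + A * t + B ∉ v.asIdeal

/-- The place `v` of `k` is unramified in `k'`: the valuations of `k'` above `v` extend the
valuation `v` (ramification index one). -/
def Unr (k k' : Type) [Field k] [NumberField k] [Field k'] [NumberField k'] [Algebra k k']
    (v : HeightOneSpectrum (𝓞 k)) : Prop :=
  ∀ w : HeightOneSpectrum (𝓞 k'), dn k w = v → ∀ x : k,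
    w.valuation k' (algebraMap k k' x) = v.valuation k x

/-- In the cubic extensions attached to `a`, `b` the elements of square norm have even valuations
above `v`. -/
def Inr (k : Type) [Field k] [NumberField k] (v : HeightOneSpectrum (𝓞 k)) (a b : k) : Prop :=
  ∀ (L : Type) [Field L] [NumberField L] [Algebra k L] (θ : L), Cub k L a b θ →
    ∀ w : HeightOneSpectrum (𝓞 L), dn k w = v → ∀ u : L, u ≠ 0 → IsSquare (Algebra.norm k u) →
      eo w (sc u) = 0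

/-- The weak local conditions on the element with the coordinates `d`. -/
structure WL {K k L : Type} [Field K] [NumberField K] [Field k] [NumberField k] [Field L]
    [NumberField L] [Algebra K k] [Algebra k L] (S : Set (HeightOneSpectrum (𝓞 K))) (a b : K)
    (θ : L) (d : Fin 3 → k) : Prop where
  ne : ev θ d ≠ 0
  nm : IsSquare (Algebra.norm k (ev θ d))
  evn : ∀ w : HeightOneSpectrum (𝓞 L), dn K (dn k w) ∉ S → eo w (sc (ev θ d)) = 0
  loc : ∀ v ∈ S, ∀ ι : k →ₐ[K] v.adicCompletion K,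
    LC (ι : k →+* v.adicCompletion K) (algebraMap K k a) (algebraMap K k b) d

/-- Every class over `k` which satisfies the weak local conditions is trivial. -/
def XT (K k : Type) [Field K] [NumberField K] [Field k] [NumberField k] [Algebra K k]
    (S : Set (HeightOneSpectrum (𝓞 K))) (a b : K) : Prop :=
  ∀ (L : Type) [Field L] [NumberField L] [Algebra k L] (θ : L),
    Cub k L (algebraMap K k a) (algebraMap K k b) θ → ∀ d : Fin 3 → k, WL S a b θ d →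
      IsSquare (ev θ d)

/-- `N / K` is a Galois extension whose degree is a power of two, unramified outside `Sg`, in which
the primes of `S` split completely. -/
structure Adm {K : Type} [Field K] [NumberField K] (Sg S : Set (HeightOneSpectrum (𝓞 K)))
    (N : Type) [Field N] [NumberField N] [Algebra K N] : Prop where
  gal : IsGalois K N
  two : ∃ n : ℕ, Module.finrank K N = 2 ^ n
  unr : ∀ v : HeightOneSpectrum (𝓞 K), v ∉ Sg → Unr K N v
  spl : ∀ v ∈ S, Nonempty (N →ₐ[K] v.adicCompletion K)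

/-- The primes above two. -/
def P2 (K : Type) [Field K] [NumberField K] : Set (HeightOneSpectrum (𝓞 K)) :=
  {v | v.valuation K 2 < 1}

end H30PN

end S_H30_PN_Df

section S_H30_PN_Rm

set_option autoImplicit false
set_option linter.unusedSectionVars false
open scoped Classical

open WithZero NumberField IsDedekindDomain H38RT H76PP
open H38T1 (SC sc scu rep eo la si Pri OddP tp unif)

namespace H30PN

theorem nort_dsc' {K : Type} [Field K] [NumberField K] {v : HeightOneSpectrum (𝓞 K)} {A B : 𝓞 K}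
    (h6 : (6 : 𝓞 K) ∉ v.asIdeal) (h : NoRt K v A B) : dsc A B ∉ v.asIdeal := by
  intro hd
  unfold dsc at hd
  have h3 : (3 : 𝓞 K) ∉ v.asIdeal := by
    intro h3
    apply h6
    have e : (6 : 𝓞 K) = 2 * 3 := by norm_num
    rw [e]
    exact Ideal.mul_mem_left _ _ h3
  by_cases hA : A ∈ v.asIdeal
  · have h1 : (3 : 𝓞 K) * (3 * (3 * (B * B))) ∈ v.asIdeal := by
      have e : (3 : 𝓞 K) * (3 * (3 * (B * B))) = (4 * A ^ 3 + 27 * B ^ 2) - (4 * A ^ 2) * A := by ring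
      rw [e]
      exact Ideal.sub_mem _ hd (Ideal.mul_mem_left _ _ hA)
    have hB : B ∈ v.asIdeal := by
      rcases v.isPrime.mem_or_mem h1 with h1 | h1
      · exact absurd h1 h3
      rcases v.isPrime.mem_or_mem h1 with h1 | h1
      · exact absurd h1 h3
      rcases v.isPrime.mem_or_mem h1 with h1 | h1
      · exact absurd h1 h3
      rcases v.isPrime.mem_or_mem h1 with h1 | h1
      · exact h1
      · exact h1
    apply h 0
    have e : (0 : 𝓞 K) ^ 3 + A * 0 + B = B := by ring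
    rw [e]
    exact hB
  · have hmax : v.asIdeal.IsMaximal := v.isMaximal
    have hd0 : Ideal.Quotient.mk v.asIdeal A ≠ 0 := fun h =>
      hA (Ideal.Quotient.eq_zero_iff_mem.1 h)
    obtain ⟨q, hq⟩ := Ideal.Quotient.exists_inv hd0
    obtain ⟨A', rfl⟩ := Ideal.Quotient.mk_surjective q
    have h1 : A * A' - 1 ∈ v.asIdeal := by
      rw [← Ideal.Quotient.eq, map_mul, hq, map_one]
    apply h (3 * B * A')
    have e : (3 * B * A') ^ 3 + A * (3 * B * A') + B = (B * A' ^ 3) * (4 * A ^ 3 + 27 * B ^ 2) -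
        (B * (4 * (A * A') ^ 2 + 4 * (A * A') + 1)) * (A * A' - 1) := by ring
    rw [e]
    exact Ideal.sub_mem _ (Ideal.mul_mem_left _ _ hd) (Ideal.mul_mem_left _ _ h1)

theorem Rm_noroot {K : Type} [Field K] [NumberField K] (v : HeightOneSpectrum (𝓞 K)) :
    ∃ b : 𝓞 K, ∀ t : 𝓞 K, t ^ 3 - t + b ∉ v.asIdeal := by
  have hmax : v.asIdeal.IsMaximal := v.isMaximal
  have : Finite (𝓞 K ⧸ v.asIdeal) := Ideal.finiteQuotientOfFreeOfNeBot v.asIdeal v.ne_bot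
  have : Nontrivial (𝓞 K ⧸ v.asIdeal) := Ideal.Quotient.nontrivial_iff.2 v.isPrime.ne_top
  let f : (𝓞 K ⧸ v.asIdeal) → (𝓞 K ⧸ v.asIdeal) := fun x => x ^ 3 - x
  have h1 : ¬ Function.Injective f := by
    intro hinj
    have h2 : f 0 = f 1 := by
      change (0 : 𝓞 K ⧸ v.asIdeal) ^ 3 - 0 = 1 ^ 3 - 1
      ring
    exact zero_ne_one (hinj h2)
  have h2 : ¬ Function.Surjective f := fun h => h1 (Finite.injective_iff_surjective.2 h)
  unfold Function.Surjective at h2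
  push Not at h2
  obtain ⟨y, hy⟩ := h2
  obtain ⟨c, rfl⟩ := Ideal.Quotient.mk_surjective y
  refine ⟨-c, fun t ht => hy (Ideal.Quotient.mk v.asIdeal t) ?_⟩
  change Ideal.Quotient.mk v.asIdeal t ^ 3 - Ideal.Quotient.mk v.asIdeal t = Ideal.Quotient.mk v.asIdeal c
  rw [← map_pow, ← map_sub, Ideal.Quotient.eq]
  have e : t ^ 3 - t - c = t ^ 3 - t + -c := by ring
  rw [e]
  exact ht

theorem exists_class {K : Type} [Field K] [NumberField K] (R : Finset (HeightOneSpectrum (𝓞 K)))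
    (hR : ∀ v ∈ R, (2 : 𝓞 K) ∉ v.asIdeal) : ∃ (m : Ideal (𝓞 K)) (A₀ B₀ : 𝓞 K), m ≠ ⊥ ∧
      (∀ v : HeightOneSpectrum (𝓞 K), m ≤ v.asIdeal → v ∈ R) ∧
      (∀ v : HeightOneSpectrum (𝓞 K), m ≤ v.asIdeal →
        ((6 : 𝓞 K) ∉ v.asIdeal → dsc A₀ B₀ ∉ v.asIdeal) ∧
        ((2 : 𝓞 K) ∈ v.asIdeal → B₀ ∉ v.asIdeal) ∧ ((3 : 𝓞 K) ∈ v.asIdeal → A₀ ∉ v.asIdeal)) ∧
      ∀ A B : 𝓞 K, A - A₀ ∈ m → B - B₀ ∈ m → ∀ v ∈ R, NoRt K v A B := by
  choose b hb using fun v : HeightOneSpectrum (𝓞 K) => Rm_noroot v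
  obtain ⟨B₀, hB₀⟩ := IsDedekindDomain.exists_forall_sub_mem_ideal (s := R)
    (fun v : HeightOneSpectrum (𝓞 K) => v.asIdeal) (fun _ => 1) (fun v _ => v.prime)
    (fun v _ w _ hne h => hne (HeightOneSpectrum.ext h)) (fun v => b v)
  have hB : ∀ v ∈ R, B₀ - b v ∈ v.asIdeal := by
    intro v hv
    have h := hB₀ v hv
    rwa [pow_one] at h
  have hle : ∀ v ∈ R, (∏ w ∈ R, w.asIdeal) ≤ v.asIdeal := fun v hv =>
    Ideal.le_of_dvd (Finset.dvd_prod_of_mem (fun w : HeightOneSpectrum (𝓞 K) => w.asIdeal) hv)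
  have hmem : ∀ v : HeightOneSpectrum (𝓞 K), (∏ w ∈ R, w.asIdeal) ≤ v.asIdeal → v ∈ R := by
    intro v hv
    obtain ⟨w, hw, hwv⟩ := (Ideal.IsPrime.prod_le v.isPrime).1 hv
    have h1 : w.asIdeal = v.asIdeal := w.isMaximal.eq_of_le v.isPrime.ne_top hwv
    have h2 : w = v := HeightOneSpectrum.ext h1
    rwa [← h2]
  have hno : ∀ A B : 𝓞 K, A - (-1) ∈ (∏ w ∈ R, w.asIdeal) → B - B₀ ∈ (∏ w ∈ R, w.asIdeal) →
      ∀ v ∈ R, NoRt K v A B := by
    intro A B hA hBm v hv t ht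
    apply hb v t
    have e : t ^ 3 - t + b v = (t ^ 3 + A * t + B) - t * (A - (-1)) - (B - B₀) - (B₀ - b v) := by
      ring
    rw [e]
    exact Ideal.sub_mem _ (Ideal.sub_mem _ (Ideal.sub_mem _ ht
      (Ideal.mul_mem_left _ _ (hle v hv hA))) (hle v hv hBm)) (hB v hv)
  refine ⟨∏ w ∈ R, w.asIdeal, -1, B₀, ?_, hmem, ?_, hno⟩
  · rw [← Ideal.zero_eq_bot, Finset.prod_ne_zero_iff]
    intro w _
    rw [Ideal.zero_eq_bot]
    exact w.ne_bot
  · intro v hv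
    have hvR := hmem v hv
    refine ⟨fun h6 => nort_dsc' h6 (hno (-1) B₀ ?_ ?_ v hvR), fun h2 => absurd h2 (hR v hvR), ?_⟩
    · rw [sub_self]
      exact Ideal.zero_mem _
    · rw [sub_self]
      exact Ideal.zero_mem _
    · intro _ h
      apply v.isPrime.ne_top
      rw [Ideal.eq_top_iff_one]
      have h1 := neg_mem h
      rwa [neg_neg] at h1

end H30PN

end S_H30_PN_Rm

section S_H30_PN_Nc

set_option autoImplicit false
set_option linter.unusedSectionVars false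
open scoped Classical

open WithZero NumberField IsDedekindDomain H38RT H76PP
open H38T1 (SC sc scu rep eo la si Pri OddP tp unif)

namespace H30PN

/-- An element of even order is a square times a unit. -/
theorem Nc_fac {K : Type} [Field K] [NumberField K] {D : K} (hD : D ≠ 0)
    (v : HeightOneSpectrum (𝓞 K)) (hev : Even (ord (v.valuation K) D)) :
    ∃ c u : K, c ≠ 0 ∧ D = c ^ 2 * u ∧ v.valuation K u = 1 := by
  obtain ⟨n, hn⟩ := hev
  obtain ⟨c, hc⟩ := v.valuation_surjective K (exp (-n))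
  have hc0 : c ≠ 0 := by
    rintro rfl
    rw [map_zero] at hc
    exact exp_ne_zero hc.symm
  refine ⟨c, D / c ^ 2, hc0, ?_, ?_⟩
  · field_simp
  · rw [map_div₀, map_pow, hc, V_eq hD, hn, ← exp_nsmul, ← exp_sub]
    have e : (-(n + n) - 2 • -n : ℤ) = 0 := by
      rw [nsmul_eq_mul]
      push_cast
      ring
    rw [e, exp_zero]

theorem Nc_dsc {K : Type} [Field K] [NumberField K] {q₀ : HeightOneSpectrum (𝓞 K)}
    {T : Finset (HeightOneSpectrum (𝓞 K))} {A B : 𝓞 K} (hF : Fam q₀ T A B)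
    {v : HeightOneSpectrum (𝓞 K)} (h2 : (2 : 𝓞 K) ∉ v.asIdeal) :
    exp (-1 : ℤ) ≤ v.valuation K (algebraMap (𝓞 K) K (dsc A B)) := by
  have hP := v.isPrime
  by_cases h3 : (3 : 𝓞 K) ∈ v.asIdeal
  · have hA := hF.three v h3
    have hn : dsc A B ∉ v.asIdeal := by
      intro hm
      unfold dsc at hm
      have h27 : (27 : 𝓞 K) * B ^ 2 ∈ v.asIdeal := by
        have e : (27 : 𝓞 K) * B ^ 2 = (9 * B ^ 2) * 3 := by ring
        rw [e]
        exact Ideal.mul_mem_left _ _ h3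
      have h4 : (4 : 𝓞 K) * A ^ 3 ∈ v.asIdeal := (Ideal.add_mem_iff_left _ h27).1 hm
      rcases hP.mem_or_mem h4 with h | h
      · have e : (4 : 𝓞 K) = 2 * 2 := by norm_num
        rw [e] at h
        rcases hP.mem_or_mem h with h | h <;> exact h2 h
      · exact hA (hP.mem_of_pow_mem 3 h)
    rw [(v.valuation_eq_one_iff_notMem (K := K)).2 hn, ← exp_zero, exp_le_exp]
    norm_num
  · have h6 : (6 : 𝓞 K) ∉ v.asIdeal := by
      intro h
      have e : (6 : 𝓞 K) = 2 * 3 := by norm_num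
      rw [e] at h
      rcases hP.mem_or_mem h with h | h
      · exact h2 h
      · exact h3 h
    have hs := hF.sqf v h6
    by_contra hlt
    rw [not_le] at hlt
    apply hs
    rw [← v.intValuation_le_pow_iff_mem, ← v.valuation_of_algebraMap (K := K)]
    change v.valuation K (algebraMap (𝓞 K) K (dsc A B)) ≤ exp (-((2 : ℕ) : ℤ))
    by_cases h0 : v.valuation K (algebraMap (𝓞 K) K (dsc A B)) = 0
    · rw [h0]
      exact zero_le
    · rw [← exp_log h0] at hlt ⊢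
      rw [exp_lt_exp] at hlt
      rw [exp_le_exp]
      push_cast
      omega

theorem nice_of {K : Type} [Field K] [NumberField K] {q₀ : HeightOneSpectrum (𝓞 K)}
    {T : Finset (HeightOneSpectrum (𝓞 K))} {A B : 𝓞 K} (hF : Fam q₀ T A B) {D : K} (hD : D ≠ 0)
    {v : HeightOneSpectrum (𝓞 K)} (h2 : (2 : 𝓞 K) ∉ v.asIdeal)
    (hev : Even (ord (v.valuation K) D)) :
    H73P2.NiceAt v (D ^ 2 * (A : K)) (D ^ 3 * (B : K)) := by
  obtain ⟨c, u, hc, hcu, hu⟩ := Nc_fac hD v hev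
  have hint : ∀ y : 𝓞 K, v.valuation K (y : K) ≤ 1 := fun y => v.valuation_le_one y
  refine ⟨c, u ^ 2 * (A : K), u ^ 3 * (B : K), hc, ?_, ?_, ?_, ?_, ?_⟩
  · rw [hcu]
    ring
  · rw [hcu]
    ring
  · rw [map_mul, map_pow, hu, one_pow, one_mul]
    exact hint A
  · rw [map_mul, map_pow, hu, one_pow, one_mul]
    exact hint B
  · have e : 4 * (u ^ 2 * (A : K)) ^ 3 + 27 * (u ^ 3 * (B : K)) ^ 2 =
        u ^ 6 * algebraMap (𝓞 K) K (dsc A B) := by
      unfold dsc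
      rw [map_add, map_mul, map_mul, map_pow, map_pow, map_ofNat, map_ofNat]
      ring
    rw [e, map_mul, map_pow, hu, one_pow, one_mul]
    exact Nc_dsc hF h2

theorem noroot_of {K : Type} [Field K] [NumberField K] {A B : 𝓞 K} {D : K} (hD : D ≠ 0)
    {v : HeightOneSpectrum (𝓞 K)} (hv : NoRt K v A B) (hev : Even (ord (v.valuation K) D)) :
    H73P2.NoRootAt v (D ^ 2 * (A : K)) (D ^ 3 * (B : K)) := by
  obtain ⟨c, u, hc, hcu, hu⟩ := Nc_fac hD v hev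
  have hu0 : u ≠ 0 := by
    rintro rfl
    rw [map_zero] at hu
    exact zero_ne_one hu
  have hint : ∀ y : 𝓞 K, v.valuation K (y : K) ≤ 1 := fun y => v.valuation_le_one y
  refine ⟨c, u ^ 2 * (A : K), u ^ 3 * (B : K), hc, ?_, ?_, ?_, ?_, ?_⟩
  · rw [hcu]
    ring
  · rw [hcu]
    ring
  · rw [map_mul, map_pow, hu, one_pow, one_mul]
    exact hint A
  · rw [map_mul, map_pow, hu, one_pow, one_mul]
    exact hint B
  · intro t ht
    have h1 : v.valuation K (t / u) ≤ 1 := by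
      rw [map_div₀, hu, div_one]
      exact ht
    have h3 := Tf_unit v hv h1
    have e : t ^ 3 + u ^ 2 * (A : K) * t + u ^ 3 * (B : K) =
        u ^ 3 * ((t / u) ^ 3 + (A : K) * (t / u) + (B : K)) := by
      field_simp
    rw [e, map_mul, map_pow, hu, one_pow, one_mul]
    exact h3

end H30PN

end S_H30_PN_Nc

section S_H30_PN_Sp

set_option autoImplicit false
set_option linter.unusedSectionVars false
open scoped Classical

open NumberField IsDedekindDomain WithZero Topology Filter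

namespace H30PN

section Hensel

variable {F : Type*} [Field F] [Valued F (WithZero (Multiplicative ℤ))]

/-- the ring of integers -/
abbrev Sp_O (F : Type*) [Field F] [Valued F (WithZero (Multiplicative ℤ))] : Subring F :=
  (Valued.v : Valuation F (WithZero (Multiplicative ℤ))).integer

/-- one step of Newton's iteration -/
noncomputable def Sp_N (f : Polynomial (Sp_O F)) (x : Sp_O F) : Sp_O F :=
  x + -(f.eval x * Ring.inverse (f.derivative.eval x))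

lemma Sp_unit (x : Sp_O F) : IsUnit x ↔ Valued.v (x : F) = 1 :=
  (Valuation.integer.integers (Valued.v : Valuation F _)).isUnit_iff_valuation_eq_one

lemma Sp_le (x : Sp_O F) : Valued.v (x : F) ≤ 1 := x.2

lemma Sp_step (f : Polynomial (Sp_O F)) (x : Sp_O F) {n : ℕ}
    (h0 : Valued.v ((f.eval x : Sp_O F) : F) ≤ exp (-((n + 1 : ℕ) : ℤ)))
    (h1 : IsUnit (f.derivative.eval x)) :
    Valued.v ((f.eval (Sp_N f x) : Sp_O F) : F) ≤ exp (-((n + 2 : ℕ) : ℤ)) ∧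
      IsUnit (f.derivative.eval (Sp_N f x)) ∧
      Valued.v ((Sp_N f x : F) - (x : F)) ≤ exp (-((n + 1 : ℕ) : ℤ)) := by
  obtain ⟨d, hd⟩ : ∃ d : Sp_O F, d = -(f.eval x * Ring.inverse (f.derivative.eval x)) := ⟨_, rfl⟩
  have hN : Sp_N f x = x + d := by rw [hd]; rfl
  have hdv : Valued.v (d : F) ≤ exp (-((n + 1 : ℕ) : ℤ)) := by
    rw [hd]
    push_cast
    rw [Valuation.map_neg, map_mul]
    calc Valued.v ((f.eval x : Sp_O F) : F) * Valued.v ((Ring.inverse (f.derivative.eval x) : Sp_O F) : F)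
        ≤ exp (-((n + 1 : ℕ) : ℤ)) * 1 := mul_le_mul' h0 (Sp_le _)
      _ = _ := by rw [mul_one]; push_cast; rfl
  have hlt : (exp (-((n + 1 : ℕ) : ℤ)) : WithZero (Multiplicative ℤ)) < 1 := by
    rw [← exp_zero, exp_lt_exp]
    push_cast
    omega
  have hdiff : Valued.v ((Sp_N f x : F) - (x : F)) ≤ exp (-((n + 1 : ℕ) : ℤ)) := by
    rw [hN]
    push_cast
    rw [add_sub_cancel_left]
    exact_mod_cast hdv
  refine ⟨?_, ?_, hdiff⟩
  · obtain ⟨k, hk⟩ := f.binomExpansion x d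
    have h2 : f.eval x + f.derivative.eval x * d = 0 := by
      rw [hd, mul_neg, mul_left_comm, Ring.mul_inverse_cancel _ h1, mul_one, add_neg_cancel]
    rw [h2, zero_add] at hk
    rw [hN, hk]
    push_cast
    rw [map_mul, map_pow]
    calc Valued.v (k : F) * Valued.v (d : F) ^ 2
        ≤ 1 * exp (-((n + 1 : ℕ) : ℤ)) ^ 2 := mul_le_mul' (Sp_le _) (pow_le_pow_left' hdv 2)
      _ ≤ _ := by
        rw [one_mul, ← exp_nsmul, exp_le_exp]
        rw [nsmul_eq_mul]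
        push_cast
        omega
  · rw [Sp_unit] at h1 ⊢
    obtain ⟨q, hq⟩ := Polynomial.sub_dvd_eval_sub (Sp_N f x) x f.derivative
    have h3 : Valued.v (((f.derivative.eval (Sp_N f x) - f.derivative.eval x : Sp_O F)) : F) < 1 := by
      rw [hq]
      push_cast
      rw [map_mul]
      calc Valued.v ((Sp_N f x : F) - (x : F)) * Valued.v (q : F)
          ≤ exp (-((n + 1 : ℕ) : ℤ)) * 1 := mul_le_mul' hdiff (Sp_le _)
        _ < 1 := by rw [mul_one]; exact hlt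
    have h4 : ((f.derivative.eval (Sp_N f x) : Sp_O F) : F) = ((f.derivative.eval x : Sp_O F) : F) +
        (((f.derivative.eval (Sp_N f x) - f.derivative.eval x : Sp_O F)) : F) := by
      push_cast
      ring
    rw [h4, Valuation.map_add_eq_of_lt_left, h1]
    rw [h1]
    exact h3

theorem Sp_hensel [CompleteSpace F] (f : Polynomial (Sp_O F)) (a : Sp_O F)
    (h0 : Valued.v ((f.eval a : Sp_O F) : F) < 1)
    (h1 : Valued.v ((f.derivative.eval a : Sp_O F) : F) = 1) :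
    ∃ t : F, (f.map (Sp_O F).subtype).eval t = 0 := by
  obtain ⟨x, hx⟩ : ∃ x : ℕ → Sp_O F, x = fun n => (Sp_N f)^[n] a := ⟨_, rfl⟩
  have hx0 : x 0 = a := by rw [hx]; rfl
  have hxs : ∀ n, x (n + 1) = Sp_N f (x n) := by
    intro n
    rw [hx]
    exact Function.iterate_succ_apply' _ _ _
  have key : ∀ n, Valued.v ((f.eval (x n) : Sp_O F) : F) ≤ exp (-((n + 1 : ℕ) : ℤ)) ∧
      IsUnit (f.derivative.eval (x n)) := by
    intro n
    induction n with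
    | zero =>
      rw [hx0, Sp_unit]
      refine ⟨?_, h1⟩
      rcases eq_or_ne (Valued.v ((f.eval a : Sp_O F) : F)) 0 with h2 | h2
      · rw [h2]
        exact zero_le
      · rw [← exp_log h2, ← exp_zero, exp_lt_exp] at h0
        rw [← exp_log h2, exp_le_exp]
        push_cast
        omega
    | succ n ih =>
      obtain ⟨h2, h3, _⟩ := Sp_step f (x n) ih.1 ih.2
      rw [hxs]
      exact ⟨h2, h3⟩
  have hstep : ∀ n, Valued.v ((x (n + 1) : F) - (x n : F)) ≤ exp (-((n + 1 : ℕ) : ℤ)) := by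
    intro n
    rw [hxs]
    exact (Sp_step f (x n) (key n).1 (key n).2).2.2
  have hsub : ∀ n k, Valued.v ((x (n + k) : F) - (x n : F)) ≤ exp (-((n + 1 : ℕ) : ℤ)) := by
    intro n k
    induction k with
    | zero => rw [add_zero, sub_self, map_zero]; exact zero_le
    | succ k ih =>
      have e : (x (n + (k + 1)) : F) - (x n : F) =
          ((x (n + k + 1) : F) - (x (n + k) : F)) + ((x (n + k) : F) - (x n : F)) := by
        rw [← add_assoc]; ring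
      rw [e]
      refine (Valuation.map_add _ _ _).trans (max_le ((hstep _).trans ?_) ih)
      rw [exp_le_exp]
      push_cast
      omega
  have hcau : CauchySeq (fun n => (x n : F)) := by
    rw [CauchySeq, Valued.cauchy_iff]
    refine ⟨inferInstance, fun γ => ?_⟩
    obtain ⟨N, hN⟩ := exists_exp_neg_natCast_lt
      (x := MonoidWithZeroHom.ValueGroup₀.embedding γ.1) (by simp)
    refine ⟨(fun n => (x n : F)) '' Set.Ici N,
      Filter.image_mem_map (Filter.Ici_mem_atTop N), ?_⟩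
    rintro _ ⟨m, hm, rfl⟩ _ ⟨n, hn, rfl⟩
    rw [Valuation.restrict_lt_iff_lt_embedding]
    refine lt_of_le_of_lt ?_ hN
    have h1 := hsub N (m - N)
    have h2 := hsub N (n - N)
    rw [Nat.add_sub_cancel' hm] at h1
    rw [Nat.add_sub_cancel' hn] at h2
    have e : (x n : F) - (x m : F) = ((x n : F) - (x N : F)) - ((x m : F) - (x N : F)) := by ring
    show Valued.v ((x n : F) - (x m : F)) ≤ _
    rw [e]
    refine (Valuation.map_sub _ _ _).trans (max_le (h2.trans ?_) (h1.trans ?_)) <;>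
    · rw [exp_le_exp]; push_cast; omega
  obtain ⟨t, ht⟩ := cauchySeq_tendsto_of_complete hcau
  refine ⟨t, ?_⟩
  obtain ⟨g, hg⟩ : ∃ g : Polynomial F, g = f.map (Sp_O F).subtype := ⟨_, rfl⟩
  rw [← hg]
  by_contra hne
  have hgx : ∀ n, g.eval (x n : F) = ((f.eval (x n) : Sp_O F) : F) := by
    intro n
    rw [hg, Polynomial.eval_map]
    exact Polynomial.eval₂_at_apply (Sp_O F).subtype (x n)
  have h2 : Tendsto (fun n => g.eval (x n : F) / g.eval t) atTop (𝓝 1) := by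
    have h3 := ((g.continuous.tendsto t).comp ht).div_const (g.eval t)
    rw [div_self hne] at h3
    exact h3
  have hnb : {z : F | Valued.v.restrict (z - 1) < 1} ∈ 𝓝 (1 : F) := by
    rw [Valued.mem_nhds]
    exact ⟨1, by intro z hz; simpa using hz⟩
  have hc : Valued.v (g.eval t) ≠ 0 := (Valuation.ne_zero_iff _).2 hne
  obtain ⟨N, hN⟩ := exists_exp_neg_natCast_lt (x := Valued.v (g.eval t)) hc
  obtain ⟨n, hn, hnN⟩ := ((h2.eventually hnb).and (eventually_ge_atTop N)).exists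
  have hn1 : Valued.v (g.eval (x n : F) / g.eval t - 1) < 1 := by
    have hn' : Valued.v.restrict (g.eval (x n : F) / g.eval t - 1) < 1 := hn
    rwa [Valuation.restrict_lt_one_iff] at hn'
  have h4 : Valued.v (g.eval (x n : F) / g.eval t) = 1 := by
    have e : g.eval (x n : F) / g.eval t = 1 + (g.eval (x n : F) / g.eval t - 1) := by ring
    rw [e, Valuation.map_add_eq_of_lt_left, map_one]
    rw [map_one]
    exact hn1
  rw [map_div₀, div_eq_one_iff_eq hc, hgx] at h4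
  have h5 := (key n).1
  rw [h4] at h5
  have h6 := lt_of_le_of_lt h5 (lt_of_le_of_lt (b := exp (-(N : ℤ))) (by
    rw [exp_le_exp]; push_cast; omega) hN)
  exact lt_irrefl _ h6

end Hensel

section Pieces

lemma Sp_big (N : Type) [Field N] [NumberField N] :
    ∃ (M : Type) (_ : Field M) (_ : NumberField M) (_ : IsGalois ℚ M), Nonempty (N →+* M) := by
  let Ω := AlgebraicClosure ℚ
  have halg : Algebra.IsAlgebraic ℚ Ω := AlgebraicClosure.isAlgebraic ℚ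
  have hcl : IsAlgClosure ℚ Ω := ⟨inferInstance, halg⟩
  have hnΩ : Normal ℚ Ω := IsAlgClosure.normal ℚ Ω
  let M : IntermediateField ℚ Ω := IntermediateField.normalClosure ℚ N Ω
  have hMf : FiniteDimensional ℚ M := normalClosure.is_finiteDimensional ℚ N Ω
  have hMn : Normal ℚ M := normalClosure.normal ℚ N Ω
  let hNF : NumberField M := { to_charZero := inferInstance, to_finiteDimensional := hMf }
  let σ : N →ₐ[ℚ] Ω := IsAlgClosed.lift
  have hσ : ∀ x, σ x ∈ M := fun x => AlgHom.fieldRange_le_normalClosure σ ⟨x, rfl⟩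
  refine ⟨M, inferInstance, hNF, { to_isSeparable := inferInstance, to_normal := hMn }, ⟨?_⟩⟩
  exact RingHom.codRestrict σ.toRingHom M hσ

/-- an element congruent to its `p`-th power is congruent to an integer -/
lemma Sp_int {M : Type} [Field M] [NumberField M] (w : HeightOneSpectrum (𝓞 M)) {p : ℕ}
    (hp : p.Prime) (hpw : (p : 𝓞 M) ∈ w.asIdeal) {x : 𝓞 M} (hx : x - x ^ p ∈ w.asIdeal) :
    ∃ n : ℤ, (n : 𝓞 M) - x ∈ w.asIdeal := by
  have : Fact p.Prime := ⟨hp⟩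
  have hmax : w.asIdeal.IsMaximal := w.isMaximal
  let _ : Field (𝓞 M ⧸ w.asIdeal) := Ideal.Quotient.field w.asIdeal
  have hchar : CharP (𝓞 M ⧸ w.asIdeal) p := by
    refine (CharP.charP_iff_prime_eq_zero hp).2 ?_
    have h1 := Ideal.Quotient.eq_zero_iff_mem.2 hpw
    rwa [map_natCast] at h1
  have h2 : (Ideal.Quotient.mk w.asIdeal x) ^ p = Ideal.Quotient.mk w.asIdeal x := by
    have h3 := Ideal.Quotient.eq_zero_iff_mem.2 hx
    rw [map_sub, map_pow, sub_eq_zero] at h3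
    exact h3.symm
  have h3 := (Subfield.mem_bot_iff_pow_eq_self (𝓞 M ⧸ w.asIdeal) p).2 h2
  obtain ⟨n, hn⟩ := (mem_bot_iff_intCast p (𝓞 M ⧸ w.asIdeal)).1 h3
  refine ⟨n, ?_⟩
  rw [← Ideal.Quotient.eq_zero_iff_mem, map_sub, map_intCast, hn, sub_self]

lemma Sp_gen (K N : Type) [Field K] [NumberField K] [Field N] [NumberField N] [Algebra K N] :
    ∃ a : 𝓞 N, IntermediateField.adjoin K {(a : N)} = ⊤ := by
  obtain ⟨α, hα⟩ := Field.exists_primitive_element K N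
  obtain ⟨y, hy, hint⟩ := ((IsFractionRing.isAlgebraic_iff ℤ ℚ N).2
    (Algebra.IsAlgebraic.isAlgebraic α)).exists_integral_multiple
  refine ⟨⟨y • α, hint⟩, ?_⟩
  rw [eq_top_iff, ← hα, IntermediateField.adjoin_le_iff, Set.singleton_subset_iff]
  have h1 : y • α ∈ IntermediateField.adjoin K {y • α} :=
    IntermediateField.mem_adjoin_simple_self K _
  have hyN : ((y : ℤ) : N) ≠ 0 := Int.cast_ne_zero.2 hy
  have h2 : α = ((y : ℤ) : N)⁻¹ * (y • α) := by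
    rw [zsmul_eq_mul, ← mul_assoc, inv_mul_cancel₀ hyN, one_mul]
  have h3 : ((y : ℤ) : N) ∈ IntermediateField.adjoin K {y • α} := intCast_mem _ _
  have h4 := mul_mem (inv_mem h3) h1
  rw [← h2] at h4
  exact h4

/-- a root gives an embedding -/
lemma Sp_emb {K N F : Type} [Field K] [NumberField K] [Field N] [NumberField N] [Algebra K N]
    [Field F] [Algebra K F] {α : N} (hα : IntermediateField.adjoin K {α} = ⊤) {t : F}
    (ht : Polynomial.aeval t (minpoly K α) = 0) :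
    ∃ ι : N →+* F, ∀ x : K, ι (algebraMap K N x) = algebraMap K F x := by
  have hint : IsIntegral K α := Algebra.IsIntegral.isIntegral α
  let pb := IntermediateField.adjoin.powerBasis hint
  have hpb : Polynomial.aeval t (minpoly K pb.gen) = 0 := by
    have e : minpoly K pb.gen = minpoly K α := by
      show minpoly K (IntermediateField.AdjoinSimple.gen K α) = _
      rw [IntermediateField.minpoly_gen]
    rw [e]
    exact ht
  let φ : N →ₐ[K] F := ((pb.lift t hpb).comp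
    (IntermediateField.equivOfEq hα).symm.toAlgHom).comp
    (IntermediateField.topEquiv (F := K) (E := N)).symm.toAlgHom
  exact ⟨φ.toRingHom, fun x => φ.commutes x⟩

end Pieces

/-- the polynomial has a root modulo a place of `K` above a prime which splits completely in `M` -/
lemma Sp_root {K N M : Type} [Field K] [NumberField K] [Field N] [NumberField N] [Algebra K N]
    [Field M] [NumberField M] (i : N →+* M) (a : 𝓞 N) {p : ℕ} (hp : p.Prime)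
    (w : HeightOneSpectrum (𝓞 M)) (hpw : (p : 𝓞 M) ∈ w.asIdeal)
    (hw : ∀ x : 𝓞 M, x - x ^ p ∈ w.asIdeal) :
    ∃ v : HeightOneSpectrum (𝓞 K), (p : 𝓞 K) ∈ v.asIdeal ∧
      ∃ n : 𝓞 K, (minpoly (𝓞 K) a).eval n ∈ v.asIdeal := by
  obtain ⟨φ, hφ⟩ : ∃ φ : 𝓞 N →+* 𝓞 M, φ = RingOfIntegers.mapRingHom i := ⟨_, rfl⟩
  obtain ⟨ψ, hψ⟩ : ∃ ψ : 𝓞 K →+* 𝓞 M, ψ = φ.comp (algebraMap (𝓞 K) (𝓞 N)) := ⟨_, rfl⟩
  have hprime : w.asIdeal.IsPrime := w.isPrime
  have hpc : (p : 𝓞 K) ∈ w.asIdeal.comap ψ := by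
    rw [Ideal.mem_comap, map_natCast]
    exact hpw
  have hne : w.asIdeal.comap ψ ≠ ⊥ := by
    intro h
    rw [h, Ideal.mem_bot] at hpc
    have h1 : (p : 𝓞 K) ≠ 0 := Nat.cast_ne_zero.2 hp.ne_zero
    exact h1 hpc
  refine ⟨⟨w.asIdeal.comap ψ, inferInstance, hne⟩, hpc, ?_⟩
  obtain ⟨n, hn⟩ := Sp_int w hp hpw (hw (φ a))
  refine ⟨(n : 𝓞 K), ?_⟩
  show ψ ((minpoly (𝓞 K) a).eval (n : 𝓞 K)) ∈ w.asIdeal
  have h1 : ((minpoly (𝓞 K) a).map ψ).eval (φ a) = 0 := by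
    rw [Polynomial.eval_map, hψ, ← Polynomial.hom_eval₂]
    have h2 := minpoly.aeval (𝓞 K) a
    rw [Polynomial.aeval_def] at h2
    rw [h2, map_zero]
  have h2 : ((minpoly (𝓞 K) a).map ψ).eval (n : 𝓞 M) = ψ ((minpoly (𝓞 K) a).eval (n : 𝓞 K)) := by
    rw [Polynomial.eval_map, ← Polynomial.eval₂_at_apply, map_intCast]
  have h3 := Polynomial.sub_dvd_eval_sub (n : 𝓞 M) (φ a) ((minpoly (𝓞 K) a).map ψ)
  rw [h1, h2, sub_zero] at h3
  exact w.asIdeal.mem_of_dvd h3 hn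

/-- for almost all places a root modulo `v` gives a root in the completion -/
lemma Sp_lift {K N : Type} [Field K] [NumberField K] [Field N] [NumberField N] [Algebra K N]
    (a : 𝓞 N) : ∃ B : Set (HeightOneSpectrum (𝓞 K)), B.Finite ∧ ∀ v, v ∉ B → ∀ n : 𝓞 K,
      (minpoly (𝓞 K) a).eval n ∈ v.asIdeal →
      ∃ t : v.adicCompletion K, Polynomial.aeval t (minpoly K (a : N)) = 0 := by
  have hint : IsIntegral (𝓞 K) a := Algebra.IsIntegral.isIntegral a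
  have hmp : minpoly K (a : N) = (minpoly (𝓞 K) a).map (algebraMap (𝓞 K) K) :=
    minpoly.isIntegrallyClosed_eq_field_fractions K N hint
  have hsep : (minpoly K (a : N)).Separable :=
    (minpoly.irreducible (Algebra.IsIntegral.isIntegral (R := K) (a : N))).separable
  obtain ⟨P, Q, hPQ⟩ := hsep
  obtain ⟨g, hg⟩ : ∃ g, g = minpoly (𝓞 K) a := ⟨_, rfl⟩
  rw [← hg] at hmp ⊢
  let B : Set (HeightOneSpectrum (𝓞 K)) :=
    (⋃ i ∈ P.support, HeightOneSpectrum.Support (𝓞 K) (P.coeff i)) ∪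
      (⋃ i ∈ Q.support, HeightOneSpectrum.Support (𝓞 K) (Q.coeff i))
  have hB : B.Finite := by
    refine Set.Finite.union ?_ ?_
    · exact Set.Finite.biUnion (Finset.finite_toSet _)
        fun i _ => HeightOneSpectrum.Support.finite (𝓞 K) _
    · exact Set.Finite.biUnion (Finset.finite_toSet _)
        fun i _ => HeightOneSpectrum.Support.finite (𝓞 K) _
  refine ⟨B, hB, fun v hv n hn => ?_⟩
  have hcoef : ∀ R : Polynomial K, (∀ i ∈ R.support, v.valuation K (R.coeff i) ≤ 1) →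
      ∀ x : 𝓞 K, v.valuation K (R.eval (x : K)) ≤ 1 := by
    intro R hR x
    rw [Polynomial.eval_eq_sum, Polynomial.sum_def]
    refine Valuation.map_sum_le _ fun i hi => ?_
    rw [map_mul, map_pow]
    exact mul_le_one' (hR i hi) (pow_le_one' (v.valuation_le_one x) i)
  have hP : v.valuation K (P.eval (n : K)) ≤ 1 := by
    refine hcoef P (fun i hi => ?_) n
    by_contra hcon
    push Not at hcon
    exact hv (Or.inl (Set.mem_biUnion hi hcon))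
  have hQ : v.valuation K (Q.eval (n : K)) ≤ 1 := by
    refine hcoef Q (fun i hi => ?_) n
    by_contra hcon
    push Not at hcon
    exact hv (Or.inr (Set.mem_biUnion hi hcon))
  have hev : ∀ R : Polynomial (𝓞 K), (R.map (algebraMap (𝓞 K) K)).eval (n : K) = ((R.eval n : 𝓞 K) : K) := by
    intro R
    rw [Polynomial.eval_map]
    exact Polynomial.eval₂_at_apply (algebraMap (𝓞 K) K) n
  have h0 : v.valuation K ((g.eval n : 𝓞 K) : K) < 1 := (v.valuation_lt_one_iff_mem _).2 hn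
  have h1 : v.valuation K ((g.derivative.eval n : 𝓞 K) : K) = 1 := by
    refine le_antisymm (v.valuation_le_one _) ?_
    by_contra hcon
    push Not at hcon
    have h2 := congrArg (Polynomial.eval (n : K)) hPQ
    rw [hmp, Polynomial.derivative_map, Polynomial.eval_add, Polynomial.eval_mul,
      Polynomial.eval_mul, hev, hev, Polynomial.eval_one] at h2
    have h3 : v.valuation K (1 : K) < 1 := by
      rw [← h2]
      refine Valuation.map_add_lt _ ?_ ?_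
      · rw [map_mul]
        exact mul_lt_one_of_nonneg_of_lt_one_right hP zero_le h0
      · rw [map_mul]
        exact mul_lt_one_of_nonneg_of_lt_one_right hQ zero_le hcon
    rw [map_one] at h3
    exact lt_irrefl _ h3
  have hval : ∀ x : 𝓞 K, Valued.v (algebraMap K (v.adicCompletion K) (x : K)) = v.valuation K (x : K) :=
    fun x => v.valuedAdicCompletion_eq_valuation' (x : K)
  obtain ⟨θ, hθ⟩ : ∃ θ : 𝓞 K →+* Sp_O (v.adicCompletion K), ∀ x, ((θ x : Sp_O _) : v.adicCompletion K) =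
      algebraMap K (v.adicCompletion K) (x : K) :=
    ⟨RingHom.codRestrict ((algebraMap K (v.adicCompletion K)).comp (algebraMap (𝓞 K) K)) (Sp_O _)
      (fun x => by
        show Valued.v (algebraMap K (v.adicCompletion K) (x : K)) ≤ 1
        rw [hval]
        exact v.valuation_le_one x), fun x => rfl⟩
  have hθe : ∀ R : Polynomial (𝓞 K), (R.map θ).eval (θ n) = θ (R.eval n) := by
    intro R
    rw [Polynomial.eval_map, Polynomial.eval₂_at_apply]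
  obtain ⟨t, ht⟩ := Sp_hensel (g.map θ) (θ n) (by
      rw [hθe, hθ, hval]
      exact h0) (by
      rw [Polynomial.derivative_map, hθe, hθ, hval]
      exact h1)
  refine ⟨t, ?_⟩
  rw [hmp, Polynomial.aeval_def, Polynomial.eval₂_map]
  rw [Polynomial.eval_map, Polynomial.eval₂_map] at ht
  have e : (Sp_O (v.adicCompletion K)).subtype.comp θ =
      (algebraMap K (v.adicCompletion K)).comp (algebraMap (𝓞 K) K) := RingHom.ext fun x => hθ x
  rw [e] at ht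
  exact ht

theorem split_inf (K N : Type) [Field K] [NumberField K] [Field N] [NumberField N] [Algebra K N] :
    {v : HeightOneSpectrum (𝓞 K) | ∃ ι : N →+* v.adicCompletion K, ∀ x : K,
      ι (algebraMap K N x) = algebraMap K (v.adicCompletion K) x}.Infinite := by
  obtain ⟨M, _, _, _, ⟨i⟩⟩ := Sp_big N
  obtain ⟨a, ha⟩ := Sp_gen K N
  obtain ⟨B, hB, hlift⟩ := Sp_lift (K := K) a
  have hinf := H93T1.frob_inf (1 : M ≃ₐ[ℚ] M)
  have hv : ∀ p ∈ {p : ℕ | p.Prime ∧ ∃ (j : ℕ) (w : HeightOneSpectrum (𝓞 M)),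
      j.Coprime (orderOf (1 : M ≃ₐ[ℚ] M)) ∧ (p : 𝓞 M) ∈ w.asIdeal ∧
      ∀ x : 𝓞 M, ((1 : M ≃ₐ[ℚ] M) ^ j) • x - x ^ p ∈ w.asIdeal},
      ∃ v : HeightOneSpectrum (𝓞 K), (p : 𝓞 K) ∈ v.asIdeal ∧
        ∃ n : 𝓞 K, (minpoly (𝓞 K) a).eval n ∈ v.asIdeal := by
    rintro p ⟨hp, j, w, -, hpw, hw⟩
    refine Sp_root i a hp w hpw fun x => ?_
    have h1 := hw x
    rwa [one_pow, one_smul] at h1
  obtain ⟨p₀, hp₀⟩ := hinf.nonempty
  obtain ⟨v₀, -⟩ := hv p₀ hp₀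
  have hne : Nonempty (HeightOneSpectrum (𝓞 K)) := ⟨v₀⟩
  choose! v hv1 hv2 using hv
  have hinj : Set.InjOn v {p : ℕ | p.Prime ∧ ∃ (j : ℕ) (w : HeightOneSpectrum (𝓞 M)),
      j.Coprime (orderOf (1 : M ≃ₐ[ℚ] M)) ∧ (p : 𝓞 M) ∈ w.asIdeal ∧
      ∀ x : 𝓞 M, ((1 : M ≃ₐ[ℚ] M) ^ j) • x - x ^ p ∈ w.asIdeal} := by
    intro p hp q hq hpq
    by_contra hne
    have h1 := hv1 p hp
    have h2 := hv1 q hq
    rw [← hpq] at h2
    have hc : IsCoprime (p : ℤ) (q : ℤ) :=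
      Nat.isCoprime_iff_coprime.2 ((Nat.coprime_primes hp.1 hq.1).2 hne)
    obtain ⟨x, y, hxy⟩ := hc
    have h3 : (x : 𝓞 K) * (p : 𝓞 K) + (y : 𝓞 K) * (q : 𝓞 K) = 1 := by
      have h4 := congrArg (Int.cast : ℤ → 𝓞 K) hxy
      push_cast at h4
      exact h4
    have h5 : (1 : 𝓞 K) ∈ (v p).asIdeal := by
      rw [← h3]
      exact (v p).asIdeal.add_mem ((v p).asIdeal.mul_mem_left _ h1)
        ((v p).asIdeal.mul_mem_left _ h2)
    exact (v p).isPrime.ne_top ((Ideal.eq_top_iff_one _).2 h5)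
  refine ((hinf.image hinj).diff hB).mono ?_
  rintro _ ⟨⟨p, hp, rfl⟩, hpB⟩
  obtain ⟨n, hn⟩ := hv2 p hp
  obtain ⟨t, ht⟩ := hlift _ hpB n hn
  exact Sp_emb ha ht

end H30PN

end S_H30_PN_Sp
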