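import Mathlib
import Pool.Agent.H10.GrHen
import Pool.Agent.H10.StarGal
import Pool.Agent.H76.PN.A4
import Pool.Agent.H76.PN.N2
import Pool.Agent.H76.PN.P1

/-! This file joins several modules to save build time (Qb). -/

set_option autoImplicit false

section S_H36_CY_Df

set_option autoImplicit false
set_option linter.unusedSectionVars false
open scoped Classical

open WithZero NumberField IsDedekindDomain H38RT
open H38T1 (SC sc scu rep eo la si Pri OddP tp unif)
open H76PP

namespace H36CY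

section Local

variable {F : Type*} [Field F]

/-- The pair `(a, b)` is close to `(-27, 54)`, where the cubic is `(x - 3)^2 (x + 6)`, and two has
valuation less than one. -/
def SpF [Valued F (WithZero (Multiplicative ℤ))] (a b : F) : Prop :=
  Valued.v (2 : F) < 1 ∧ Valued.v (a + 27) < Valued.v ((2 : F) ^ 8) ∧
    Valued.v (b + 3 * a + 27) < Valued.v ((2 : F) ^ 12)

/-- `θ` is the root of `x^3 + a x + b` close to `-6`. -/
def RtF [Valued F (WithZero (Multiplicative ℤ))] (a b θ : F) : Prop :=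
  θ ^ 3 + a * θ + b = 0 ∧ Valued.v (θ + 6) < Valued.v ((2 : F) ^ 8)

/-- The value of `z 0 + z 1 T + z 2 T^2` at `θ`. -/
def e1 (θ : F) (z : Fin 3 → F) : F := z 0 + z 1 * θ + z 2 * θ ^ 2

/-- The constant coefficient of the residue of `z 0 + z 1 T + z 2 T^2` modulo
`T^2 + θ T + θ^2 + a`. -/
def pp (θ a : F) (z : Fin 3 → F) : F := z 0 - z 2 * (θ ^ 2 + a)

/-- The other coefficient. -/
def qq (θ : F) (z : Fin 3 → F) : F := z 1 - z 2 * θ

/-- The norm of `p + q T` modulo `T^2 + θ T + θ^2 + a`. -/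
def N2 (θ a p q : F) : F := p ^ 2 - θ * p * q + (θ ^ 2 + a) * q ^ 2

end Local

section Global

variable (K : Type) {N : Type} [Field K] [NumberField K] [Field N] [NumberField N] [Algebra K N]

/-- The automorphism `g` stabilises the prime `W`. -/
def Stb (W : HeightOneSpectrum (𝓞 N)) (g : N ≃ₐ[K] N) : Prop :=
  ∀ y : N, W.valuation N (g y) = W.valuation N y

/-- The decomposition group of `W` is cyclic and not trivial, `τ` is a generator, `ρ` generates its
first layer and `D` is an element of `K` close to `ρ^2`. -/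
structure LayT (W : HeightOneSpectrum (𝓞 N)) (τ : N ≃ₐ[K] N) (ρ : N) (D : K) : Prop where
  gen : ∀ g : N ≃ₐ[K] N, Stb K W g ↔ g ∈ Subgroup.zpowers τ
  ne : ρ ≠ 0
  neg : τ ρ = -ρ
  near : W.valuation N (ρ ^ 2 - algebraMap K N D) < W.valuation N (4 * algebraMap K N D)

/-- The first layer of the decomposition group is given by the square root of `D`. -/
def Lay (W : HeightOneSpectrum (𝓞 N)) (D : K) : Prop := ∃ τ ρ, LayT K W τ ρ D

variable (N) in
/-- The local hypothesis at a prime `v` above two: `(a, b)` is close to `(-27, 54)` and either the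
decomposition groups are trivial or minus the number `4 a^3 + 27 b^2` is not a norm from the
first layer. -/
def Good2 (v : HeightOneSpectrum (𝓞 K)) (a b : K) : Prop :=
  SpF (algebraMap K (v.adicCompletion K) a) (algebraMap K (v.adicCompletion K) b) ∧
    ((∀ W : HeightOneSpectrum (𝓞 N), dn K W = v → ∀ g : N ≃ₐ[K] N, Stb K W g → g = 1) ∨
      ∃ D : K, (∀ W : HeightOneSpectrum (𝓞 N), dn K W = v → Lay K W D) ∧
        ∀ X Y : v.adicCompletion K, X ^ 2 - algebraMap K (v.adicCompletion K) D * Y ^ 2 ≠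
          algebraMap K (v.adicCompletion K) (-(4 * a ^ 3 + 27 * b ^ 2)))

end Global

section Rel

variable (K k L : Type) [Field K] [NumberField K] [Field k] [NumberField k] [Field L] [NumberField L]
  [Algebra K k] [Algebra k L]

/-- The relaxed Selmer condition: square norm, even orders at the odd primes away from `S`, the local
conditions at the places of `S` (for all embeddings), at all places above two and at the real
places. -/
structure RelC (S : Finset (HeightOneSpectrum (𝓞 K))) (a b : K) (θ : L) (d : Fin 3 → k) : Prop where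
  ne : ev θ d ≠ 0
  sq : IsSquare (Algebra.norm k (ev θ d))
  even : ∀ w : HeightOneSpectrum (𝓞 L), dn K (dn k w) ∉ S → w.valuation L 2 = 1 →
    eo w (sc (ev θ d)) = 0
  loc : ∀ v ∈ S, H73P2.LCv K v a b d
  two : ∀ u : HeightOneSpectrum (𝓞 k), u.valuation k 2 < 1 →
    LC (algebraMap k (u.adicCompletion k)) (algebraMap K k a) (algebraMap K k b) d
  real : ∀ s : k →+* ℝ, LC s (algebraMap K k a) (algebraMap K k b) d

/-- The relaxed Selmer group is trivial. -/
def RelCT (S : Finset (HeightOneSpectrum (𝓞 K))) (a b : K) (θ : L) : Prop :=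
  ∀ d : Fin 3 → k, RelC K k L S a b θ d → IsSquare (ev θ d)

end Rel

/-- Descent of the local conditions at the places above `v` in the quadratic extensions between `K`
and `N`. -/
def DescAt (K N : Type) [Field K] [NumberField K] [Field N] [NumberField N] [Algebra K N]
    (v : HeightOneSpectrum (𝓞 K)) (a b : K) : Prop :=
  ∀ (k k' : Type) [Field k] [NumberField k] [Field k'] [NumberField k'] [Algebra K k] [Algebra K k']
    [Algebra k k'] [IsScalarTower K k k'] [Algebra k N] [Algebra k' N] [IsScalarTower K k N]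
    [IsScalarTower K k' N] [IsScalarTower k k' N], Module.finrank k k' = 2 → ∀ d : Fin 3 → k,
    Te_nf (algebraMap K k a) (algebraMap K k b) d ≠ 0 →
    IsSquare (Te_nf (algebraMap K k a) (algebraMap K k b) d) →
    (∀ u' : HeightOneSpectrum (𝓞 k'), dn K u' = v →
      LC (algebraMap k' (u'.adicCompletion k')) (algebraMap K k' a) (algebraMap K k' b)
        (fun i => algebraMap k k' (d i))) →
    ∀ u : HeightOneSpectrum (𝓞 k), dn K u = v →
      LC (algebraMap k (u.adicCompletion k)) (algebraMap K k a) (algebraMap K k b) d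

/-- Descent of the local conditions above two in the quadratic extensions between `K` and `N`. -/
def Desc2 (K N : Type) [Field K] [NumberField K] [Field N] [NumberField N] [Algebra K N]
    (a b : K) : Prop :=
  ∀ (k k' : Type) [Field k] [NumberField k] [Field k'] [NumberField k'] [Algebra K k] [Algebra K k']
    [Algebra k k'] [IsScalarTower K k k'] [Algebra k N] [Algebra k' N] [IsScalarTower K k N]
    [IsScalarTower K k' N] [IsScalarTower k k' N], Module.finrank k k' = 2 → ∀ d : Fin 3 → k,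
    Te_nf (algebraMap K k a) (algebraMap K k b) d ≠ 0 →
    IsSquare (Te_nf (algebraMap K k a) (algebraMap K k b) d) →
    (∀ u' : HeightOneSpectrum (𝓞 k'), u'.valuation k' 2 < 1 →
      LC (algebraMap k' (u'.adicCompletion k')) (algebraMap K k' a) (algebraMap K k' b)
        (fun i => algebraMap k k' (d i))) →
    ∀ u : HeightOneSpectrum (𝓞 k), u.valuation k 2 < 1 →
      LC (algebraMap k (u.adicCompletion k)) (algebraMap K k a) (algebraMap K k b) d

end H36CY

end S_H36_CY_Df

section S_H36_CY_Ag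

set_option autoImplicit false
set_option linter.unusedSectionVars false
open scoped Classical

open WithZero NumberField IsDedekindDomain H76PP

namespace H36CY

variable {F : Type*} [Field F] {a b θ : F}

theorem e1_m3 (hθ : θ ^ 3 + a * θ + b = 0) (u v : Fin 3 → F) :
    e1 θ (m3 a b u v) = e1 θ u * e1 θ v := by
  simp only [e1, m3, Matrix.cons_val_zero, Matrix.cons_val_one, Matrix.cons_val_two,
    Matrix.head_cons, Matrix.tail_cons, Matrix.cons_val]
  linear_combination (-(u 1 * v 2 + u 2 * v 1 + u 2 * v 2 * θ)) * hθ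

theorem pp_m3 (hθ : θ ^ 3 + a * θ + b = 0) (u v : Fin 3 → F) :
    pp θ a (m3 a b u v) = pp θ a u * pp θ a v - (θ ^ 2 + a) * (qq θ u * qq θ v) := by
  simp only [pp, qq, m3, Matrix.cons_val_zero, Matrix.cons_val_one, Matrix.cons_val_two,
    Matrix.head_cons, Matrix.tail_cons, Matrix.cons_val]
  linear_combination (-(u 1 * v 2 + u 2 * v 1)) * hθ

theorem qq_m3 (hθ : θ ^ 3 + a * θ + b = 0) (u v : Fin 3 → F) :
    qq θ (m3 a b u v) = pp θ a u * qq θ v + qq θ u * pp θ a v - θ * (qq θ u * qq θ v) := by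
  simp only [pp, qq, m3, Matrix.cons_val_zero, Matrix.cons_val_one, Matrix.cons_val_two,
    Matrix.head_cons, Matrix.tail_cons, Matrix.cons_val]
  linear_combination (-(u 2 * v 2)) * hθ

theorem nf_fac (hθ : θ ^ 3 + a * θ + b = 0) (u : Fin 3 → F) :
    Te_nf a b u = e1 θ u * N2 θ a (pp θ a u) (qq θ u) := by
  simp only [e1, pp, qq, N2, Te_nf]
  have hb : b = -(θ ^ 3 + a * θ) := by linear_combination hθ
  subst hb
  ring

/-- Elements with the same residues are equal. -/
theorem crt (hg : 3 * θ ^ 2 + a ≠ 0) {u v : Fin 3 → F} (h1 : e1 θ u = e1 θ v)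
    (h2 : pp θ a u = pp θ a v) (h3 : qq θ u = qq θ v) : u = v := by
  unfold e1 at h1
  unfold pp at h2
  unfold qq at h3
  have h4 : (3 * θ ^ 2 + a) * (u 2 - v 2) = 0 := by linear_combination h1 - h2 - θ * h3
  have h5 : u 2 = v 2 := by
    rcases mul_eq_zero.1 h4 with h | h
    · exact absurd h hg
    · exact sub_eq_zero.1 h
  have h6 : u 1 = v 1 := by
    rw [h5] at h3
    linear_combination h3
  have h7 : u 0 = v 0 := by
    rw [h5] at h2
    linear_combination h2
  funext j
  fin_cases j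
  · exact h7
  · exact h6
  · exact h5

/-- Elements with given residues exist. -/
theorem crt_ex (hg : 3 * θ ^ 2 + a ≠ 0) (c p q : F) :
    ∃ z : Fin 3 → F, e1 θ z = c ∧ pp θ a z = p ∧ qq θ z = q := by
  obtain ⟨l, hl⟩ : ∃ l, l = (c - p - q * θ) / (3 * θ ^ 2 + a) := ⟨_, rfl⟩
  have hl' : l * (3 * θ ^ 2 + a) = c - p - q * θ := by
    rw [hl, div_mul_cancel₀ _ hg]
  refine ⟨![p + l * (θ ^ 2 + a), q + l * θ, l], ?_, ?_, ?_⟩
  · simp only [e1, Matrix.cons_val_zero, Matrix.cons_val_one, Matrix.cons_val_two,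
      Matrix.head_cons, Matrix.tail_cons, Matrix.cons_val]
    linear_combination hl'
  · simp only [pp, Matrix.cons_val_zero, Matrix.cons_val_one, Matrix.cons_val_two,
      Matrix.head_cons, Matrix.tail_cons, Matrix.cons_val]
    ring
  · simp only [qq, Matrix.cons_val_zero, Matrix.cons_val_one, Matrix.cons_val_two,
      Matrix.head_cons, Matrix.tail_cons, Matrix.cons_val]
    ring

/-- An element of square norm is an element of `F` times a square. -/
theorem sq_two_dim (h2 : (2 : F) ≠ 0) {p q n : F} (hn : n ≠ 0) (h : N2 θ a p q = n ^ 2) :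
    ∃ u r s : F, u ≠ 0 ∧ p = u * (r ^ 2 - (θ ^ 2 + a) * s ^ 2) ∧ q = u * (2 * r * s - θ * s ^ 2) := by
  unfold N2 at h
  have key : ∀ n : F, p ^ 2 - θ * p * q + (θ ^ 2 + a) * q ^ 2 = n ^ 2 → 2 * p - θ * q + 2 * n ≠ 0 →
      ∃ u r s : F, u ≠ 0 ∧ p = u * (r ^ 2 - (θ ^ 2 + a) * s ^ 2) ∧
        q = u * (2 * r * s - θ * s ^ 2) := by
    intro n h h1
    refine ⟨1 / (2 * p - θ * q + 2 * n), p + n, q, one_div_ne_zero h1, ?_, ?_⟩
    · rw [one_div, eq_inv_mul_iff_mul_eq₀ h1]
      linear_combination h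
    · rw [one_div, eq_inv_mul_iff_mul_eq₀ h1]
      ring
  by_cases h1 : 2 * p - θ * q + 2 * n = 0
  · refine key (-n) (by rw [h]; ring) ?_
    intro h3
    have h4 : 2 * (2 * n) = 0 := by linear_combination h1 - h3
    exact mul_ne_zero h2 (mul_ne_zero h2 hn) h4
  · exact key n h h1

/-- If the value at `θ` is `D` times a square and the norm is a square then minus
`4 a^3 + 27 b^2` is a norm from `F(√D)`. -/
theorem norm_form (h2 : (2 : F) ≠ 0) (hθ : θ ^ 3 + a * θ + b = 0) {d : Fin 3 → F} {D m n : F}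
    (hD : D ≠ 0) (hm : m ≠ 0) (h1 : e1 θ d = D * m ^ 2) (hn : Te_nf a b d = n ^ 2) (hn0 : n ≠ 0) :
    ∃ X Y : F, X ^ 2 - D * Y ^ 2 = -(4 * a ^ 3 + 27 * b ^ 2) := by
  have hb : b = -(θ ^ 3 + a * θ) := by linear_combination hθ
  rw [nf_fac hθ, h1] at hn
  obtain ⟨p, hp⟩ : ∃ p, p = pp θ a d := ⟨_, rfl⟩
  obtain ⟨q, hq⟩ : ∃ q, q = qq θ d := ⟨_, rfl⟩
  rw [← hp, ← hq] at hn
  unfold N2 at hn
  have hs : p ^ 2 - θ * p * q + (θ ^ 2 + a) * q ^ 2 = D * (n / (D * m)) ^ 2 := by
    field_simp
    linear_combination hn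
  obtain ⟨s, hs'⟩ : ∃ s, s = n / (D * m) := ⟨_, rfl⟩
  have hs0 : s ≠ 0 := by
    rw [hs']
    exact div_ne_zero hn0 (mul_ne_zero hD hm)
  rw [← hs'] at hs
  by_cases hq0 : q = 0
  · rw [hq0] at hs
    have h3 : p ^ 2 = D * s ^ 2 := by linear_combination hs
    obtain ⟨r, hr⟩ : ∃ r, r = p / s := ⟨_, rfl⟩
    have hDr : D = r ^ 2 := by
      rw [hr]
      field_simp
      linear_combination -h3
    have hr0 : r ≠ 0 := by
      intro h
      rw [h] at hDr
      apply hD
      rw [hDr]
      ring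
    refine ⟨(-(4 * a ^ 3 + 27 * b ^ 2) + 1) / 2, (-(4 * a ^ 3 + 27 * b ^ 2) - 1) / (2 * r), ?_⟩
    rw [hDr]
    field_simp
    ring
  · refine ⟨(2 * p - θ * q) * (3 * θ ^ 2 + a) / q, 2 * s * (3 * θ ^ 2 + a) / q, ?_⟩
    rw [hb]
    field_simp
    linear_combination 4 * (3 * θ ^ 2 + a) ^ 2 * hs

end H36CY

end S_H36_CY_Ag

section S_H36_CY_Sq

set_option autoImplicit false
set_option linter.unusedSectionVars false
open scoped Classical

open WithZero NumberField IsDedekindDomain H76PP Topology Filter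

namespace H36CY

variable {F : Type*} [Field F] [CharZero F] [Valued F (WithZero (Multiplicative ℤ))]

lemma v_nat_le (n : ℕ) : Valued.v (n : F) ≤ 1 := by
  induction n with
  | zero => rw [Nat.cast_zero, map_zero]; exact zero_le
  | succ n ih =>
    rw [Nat.cast_succ]
    exact (Valuation.map_add _ _ _).trans (max_le ih (by rw [map_one]))

theorem sq_near [CompleteSpace F] {y z : F} (h : Valued.v (y - z) < Valued.v (4 * z)) :
    ∃ r : F, r ≠ 0 ∧ y = z * r ^ 2 := by
  have hz : z ≠ 0 := by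
    rintro rfl
    rw [mul_zero, map_zero] at h
    exact not_lt_zero' h
  have hvz : Valued.v z ≠ 0 := (Valuation.ne_zero_iff _).2 hz
  have hx : Valued.v ((y - z) / z) < Valued.v (4 : F) := by
    rw [map_div₀, div_lt_iff₀ (zero_lt_iff.2 hvz), ← map_mul]
    exact h
  obtain ⟨r, hr⟩ := Pool.Agent.H10.isSquare_one_add (two_ne_zero : (2 : F) ≠ 0) hx
  have hy : y = z * r ^ 2 := by
    rw [pow_two, ← hr]
    field_simp
    ring
  refine ⟨r, ?_, hy⟩
  rintro rfl
  have hy0 : y = 0 := by rw [hy]; ring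
  rw [hy0, zero_sub, Valuation.map_neg, map_mul] at h
  have h4 : Valued.v (4 : F) ≤ 1 := by exact_mod_cast v_nat_le (F := F) 4
  have h5 : Valued.v (4 : F) * Valued.v z ≤ 1 * Valued.v z := mul_le_mul_left h4 _
  rw [one_mul] at h5
  exact absurd h (not_lt.2 h5)

theorem close_one (h2 : Valued.v (2 : F) < 1) {n : F}
    (h : Valued.v (n ^ 2 - 1) < Valued.v (16 : F)) :
    ∃ n' : F, n' ^ 2 = n ^ 2 ∧ Valued.v (n' - 1) < Valued.v (8 : F) := by
  have key : ∀ m : F, Valued.v (m ^ 2 - 1) < Valued.v (16 : F) →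
      Valued.v (m - 1) ≤ Valued.v (m + 1) → Valued.v (m - 1) < Valued.v (8 : F) := by
    intro m hm hle
    have h20 : Valued.v (2 : F) ≠ 0 := (Valuation.ne_zero_iff _).2 two_ne_zero
    have e : m ^ 2 - 1 = (m - 1) * (m + 1) := by ring
    rw [e, map_mul] at hm
    have hsum : Valued.v ((m + 1) - (m - 1)) = Valued.v (2 : F) := by
      congr 1; ring
    have h16 : Valued.v (16 : F) = Valued.v (8 : F) * Valued.v (2 : F) := by
      rw [← map_mul]; norm_num
    by_cases hlt : Valued.v (m - 1) < Valued.v (m + 1)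
    · have h1 : Valued.v (m + 1) = Valued.v (2 : F) := by
        rw [← hsum, Valuation.map_sub_eq_of_lt_left _ hlt]
      rw [h1, h16] at hm
      exact lt_of_mul_lt_mul_right hm zero_le
    · have heq : Valued.v (m - 1) = Valued.v (m + 1) := le_antisymm hle (not_lt.1 hlt)
      exfalso
      have h3 : Valued.v (2 : F) ≤ Valued.v (m + 1) := by
        rw [← hsum]
        exact (Valuation.map_sub _ _ _).trans (max_le le_rfl hle)
      have h4 : Valued.v (2 : F) * Valued.v (2 : F) ≤ Valued.v (m - 1) * Valued.v (m + 1) :=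
        mul_le_mul' (h3.trans heq.ge) h3
      have h5 : Valued.v (16 : F) ≤ Valued.v (2 : F) * Valued.v (2 : F) := by
        rw [h16]
        refine mul_le_mul' ?_ le_rfl
        have e8 : (8 : F) = 4 * 2 := by norm_num
        rw [e8, map_mul]
        have h44 : Valued.v (4 : F) ≤ 1 := by exact_mod_cast v_nat_le (F := F) 4
        calc Valued.v (4 : F) * Valued.v (2 : F) ≤ 1 * Valued.v (2 : F) :=
              mul_le_mul_left h44 _
          _ = _ := one_mul _
      exact absurd hm (not_lt.2 (h5.trans h4))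
  rcases le_total (Valued.v (n - 1)) (Valued.v (n + 1)) with hle | hle
  · exact ⟨n, rfl, key n h hle⟩
  · refine ⟨-n, by ring, key (-n) (by rw [neg_sq]; exact h) ?_⟩
    have e1 : -n - 1 = -(n + 1) := by ring
    have e2 : -n + 1 = -(n - 1) := by ring
    rw [e1, e2, Valuation.map_neg, Valuation.map_neg]
    exact hle

/-- The iteration for the cubic equation. -/
def kk (u c : F) : ℕ → F
  | 0 => 0
  | n + 1 => -((kk u c n) ^ 3 - 18 * (kk u c n) ^ 2 + c) / u

lemma kk_step {u c x : F} (hu : Valued.v u = 1) (hc : Valued.v c < 1)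
    (hx : Valued.v x ≤ Valued.v c) : Valued.v (-(x ^ 3 - 18 * x ^ 2 + c) / u) ≤ Valued.v c := by
  have h18 : Valued.v (18 : F) ≤ 1 := by exact_mod_cast v_nat_le (F := F) 18
  rw [map_div₀, hu, div_one, Valuation.map_neg]
  refine (Valuation.map_add _ _ _).trans (max_le ?_ le_rfl)
  refine (Valuation.map_sub _ _ _).trans (max_le ?_ ?_)
  · have e : x ^ 3 = x * (x * x) := by ring
    rw [e, map_mul, map_mul]
    calc Valued.v x * (Valued.v x * Valued.v x) ≤ Valued.v c * (1 * 1) :=
          mul_le_mul' hx (mul_le_mul' (hx.trans hc.le) (hx.trans hc.le))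
      _ = _ := by rw [mul_one, mul_one]
  · have e : 18 * x ^ 2 = x * (18 * x) := by ring
    rw [e, map_mul, map_mul]
    calc Valued.v x * (Valued.v (18 : F) * Valued.v x) ≤ Valued.v c * (1 * 1) :=
          mul_le_mul' hx (mul_le_mul' h18 (hx.trans hc.le))
      _ = _ := by rw [mul_one, mul_one]

lemma kk_le {u c : F} (hu : Valued.v u = 1) (hc : Valued.v c < 1) (n : ℕ) :
    Valued.v (kk u c n) ≤ Valued.v c := by
  induction n with
  | zero => change Valued.v (0 : F) ≤ _; rw [map_zero]; exact zero_le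
  | succ n ih => exact kk_step hu hc ih

lemma kk_succ {u c : F} (hu : Valued.v u = 1) (hc : Valued.v c < 1) (n : ℕ) :
    Valued.v (kk u c (n + 1) - kk u c n) ≤ exp (-((n + 1 : ℕ) : ℤ)) := by
  have hc' := Pool.Agent.H10.lt_one_le_exp hc
  have hu0 : u ≠ 0 := by
    rintro rfl
    rw [map_zero] at hu
    exact zero_ne_one hu
  induction n with
  | zero =>
    have h1 := kk_le hu hc 1
    change Valued.v (kk u c 1 - 0) ≤ _
    rw [sub_zero]
    refine (h1.trans hc').trans ?_
    exact_mod_cast le_rfl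
  | succ n ih =>
    set x := kk u c (n + 1) with hx
    set y := kk u c n with hy
    have hxl : Valued.v x ≤ Valued.v c := kk_le hu hc _
    have hyl : Valued.v y ≤ Valued.v c := kk_le hu hc _
    have e : kk u c (n + 1 + 1) - x =
        -((x - y) * ((x * x + (x * y + y * y)) - 18 * (x + y)) / u) := by
      have e1 : kk u c (n + 1 + 1) = -(x ^ 3 - 18 * x ^ 2 + c) / u := rfl
      have e2 : x = -(y ^ 3 - 18 * y ^ 2 + c) / u := rfl
      rw [e1]
      nth_rewrite 3 [e2]
      field_simp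
      ring
    have h18 : Valued.v (18 : F) ≤ 1 := by exact_mod_cast v_nat_le (F := F) 18
    have hmul : ∀ p q : F, Valued.v p ≤ Valued.v c → Valued.v q ≤ Valued.v c →
        Valued.v (p * q) ≤ Valued.v c := by
      intro p q hp hq
      rw [map_mul]
      calc Valued.v p * Valued.v q ≤ Valued.v c * 1 := mul_le_mul' hp (hq.trans hc.le)
        _ = _ := mul_one _
    have h1 : Valued.v ((x * x + (x * y + y * y)) - 18 * (x + y)) ≤ exp (-1 : ℤ) := by
      refine le_trans ?_ hc'
      refine (Valuation.map_sub _ _ _).trans (max_le ?_ ?_)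
      · exact (Valuation.map_add _ _ _).trans (max_le (hmul _ _ hxl hxl)
          ((Valuation.map_add _ _ _).trans (max_le (hmul _ _ hxl hyl) (hmul _ _ hyl hyl))))
      · rw [map_mul]
        calc Valued.v (18 : F) * Valued.v (x + y) ≤ 1 * Valued.v c :=
              mul_le_mul' h18 ((Valuation.map_add _ _ _).trans (max_le hxl hyl))
          _ = _ := one_mul _
    rw [e, Valuation.map_neg, map_div₀, hu, div_one, map_mul]
    calc Valued.v (x - y) * Valued.v ((x * x + (x * y + y * y)) - 18 * (x + y))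
        ≤ exp (-((n + 1 : ℕ) : ℤ)) * exp (-1 : ℤ) := mul_le_mul' ih h1
      _ = exp (-((n + 1 + 1 : ℕ) : ℤ)) := by
          rw [← exp_add]; congr 1

lemma kk_sub {u c : F} (hu : Valued.v u = 1) (hc : Valued.v c < 1) (n k : ℕ) :
    Valued.v (kk u c (n + k) - kk u c n) ≤ exp (-((n + 1 : ℕ) : ℤ)) := by
  induction k with
  | zero => rw [add_zero, sub_self, map_zero]; exact zero_le
  | succ k ih =>
    have e : kk u c (n + (k + 1)) - kk u c n =
        (kk u c (n + k + 1) - kk u c (n + k)) + (kk u c (n + k) - kk u c n) := by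
      rw [← add_assoc]; ring
    rw [e]
    refine (Valuation.map_add _ _ _).trans (max_le ((kk_succ hu hc _).trans ?_) ih)
    rw [exp_le_exp]
    push_cast
    omega

theorem exists_kk [CompleteSpace F] {u c : F} (hu : Valued.v u = 1) (hc : Valued.v c < 1) :
    ∃ t : F, t ^ 3 - 18 * t ^ 2 + u * t + c = 0 ∧ Valued.v t ≤ Valued.v c := by
  have hu0 : u ≠ 0 := by
    rintro rfl
    rw [map_zero] at hu
    exact zero_ne_one hu
  have hcau : CauchySeq (kk u c) := by
    rw [CauchySeq, Valued.cauchy_iff]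
    refine ⟨inferInstance, fun γ => ?_⟩
    obtain ⟨N, hN⟩ := exists_exp_neg_natCast_lt
      (x := MonoidWithZeroHom.ValueGroup₀.embedding γ.1) (by simp)
    refine ⟨kk u c '' Set.Ici N, Filter.image_mem_map (Filter.Ici_mem_atTop N), ?_⟩
    rintro _ ⟨m, hm, rfl⟩ _ ⟨n, hn, rfl⟩
    rw [Valuation.restrict_lt_iff_lt_embedding]
    refine lt_of_le_of_lt ?_ hN
    have h1 := kk_sub hu hc N (m - N)
    have h2 := kk_sub hu hc N (n - N)
    rw [Nat.add_sub_cancel' hm] at h1
    rw [Nat.add_sub_cancel' hn] at h2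
    have e : kk u c n - kk u c m = (kk u c n - kk u c N) - (kk u c m - kk u c N) := by ring
    rw [e]
    refine (Valuation.map_sub _ _ _).trans (max_le (h2.trans ?_) (h1.trans ?_)) <;>
    · rw [exp_le_exp]; push_cast; omega
  obtain ⟨t, ht⟩ := cauchySeq_tendsto_of_complete hcau
  have h1 : Tendsto (fun n => kk u c (n + 1)) atTop (𝓝 t) := ht.comp (tendsto_add_atTop_nat 1)
  have h2 : Tendsto (fun n => kk u c (n + 1)) atTop (𝓝 (-(t ^ 3 - 18 * t ^ 2 + c) / u)) := by
    have : (fun n => kk u c (n + 1)) =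
        fun n => -((kk u c n) ^ 3 - 18 * (kk u c n) ^ 2 + c) / u := rfl
    rw [this]
    exact ((((ht.pow 3).sub ((ht.pow 2).const_mul 18)).add_const c).neg).div_const u
  have h3 := tendsto_nhds_unique h1 h2
  have h4 : t ^ 3 - 18 * t ^ 2 + u * t + c = 0 := by
    have h5 : u * t = -(t ^ 3 - 18 * t ^ 2 + c) := by
      rw [eq_div_iff hu0] at h3
      rw [mul_comm]
      exact h3
    linear_combination h5
  refine ⟨t, h4, ?_⟩
  have hlt : Valued.v t < 1 := by
    obtain ⟨n, hn⟩ : ∃ n, Valued.v (kk u c n - t) < 1 := by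
      have h6 : Tendsto (fun n => kk u c n - t) atTop (𝓝 0) := by
        have := ht.sub_const t
        rwa [sub_self] at this
      have h7 := h6.eventually (show {x : F | Valued.v x < 1} ∈ 𝓝 (0 : F) by
        rw [Valued.mem_nhds_zero]
        exact ⟨1, fun x hx => by simpa using hx⟩)
      exact h7.exists
    have e : t = kk u c n - (kk u c n - t) := by ring
    rw [e]
    exact lt_of_le_of_lt (Valuation.map_sub _ _ _) (max_lt ((kk_le hu hc n).trans_lt hc) hn)
  by_cases ht0 : t = 0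
  · rw [ht0, map_zero]; exact zero_le
  have hvt : Valued.v t ≠ 0 := (Valuation.ne_zero_iff _).2 ht0
  by_contra hcon
  have hcon' : Valued.v c < Valued.v t := not_le.1 hcon
  have h18 : Valued.v (18 : F) ≤ 1 := by exact_mod_cast v_nat_le (F := F) 18
  have hsm : Valued.v (-(t * (t * t - 18 * t)) - c) < Valued.v t := by
    refine lt_of_le_of_lt (Valuation.map_sub _ _ _) (max_lt ?_ hcon')
    rw [Valuation.map_neg, map_mul]
    have h8 : Valued.v (t * t - 18 * t) < 1 := by
      refine lt_of_le_of_lt (Valuation.map_sub _ _ _) (max_lt ?_ ?_)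
      · rw [map_mul]
        calc Valued.v t * Valued.v t ≤ Valued.v t * 1 := mul_le_mul' le_rfl hlt.le
          _ = Valued.v t := mul_one _
          _ < 1 := hlt
      · rw [map_mul]
        calc Valued.v (18 : F) * Valued.v t ≤ 1 * Valued.v t := mul_le_mul' h18 le_rfl
          _ = Valued.v t := one_mul _
          _ < 1 := hlt
    calc Valued.v t * Valued.v (t * t - 18 * t) < Valued.v t * 1 :=
          mul_lt_mul_of_pos_left h8 (zero_lt_iff.2 hvt)
      _ = _ := mul_one _
  have e9 : u * t = -(t * (t * t - 18 * t)) - c := by linear_combination h4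
  rw [← e9, map_mul, hu, one_mul] at hsm
  exact lt_irrefl _ hsm

theorem root_F [CompleteSpace F] {a b : F} (h : SpF a b) : ∃ θ : F, RtF a b θ := by
  obtain ⟨h2, ha, hb⟩ := h
  have h9 : Valued.v (9 : F) ≤ 1 := by exact_mod_cast v_nat_le (F := F) 9
  have h40 : Valued.v (40 : F) ≤ 1 := by exact_mod_cast v_nat_le (F := F) 40
  have h28 : Valued.v ((2 : F) ^ 8) < 1 := by
    rw [map_pow]
    exact pow_lt_one₀ zero_le h2 (by norm_num)
  have h212 : Valued.v ((2 : F) ^ 12) ≤ Valued.v ((2 : F) ^ 8) := by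
    rw [map_pow, map_pow]
    exact pow_le_pow_of_le_one zero_le h2.le (by norm_num)
  have h81 : Valued.v (81 : F) = 1 := by
    have e : (81 : F) = 1 + 2 * 40 := by norm_num
    rw [e]
    have hlt : Valued.v ((2 : F) * 40) < Valued.v (1 : F) := by
      rw [map_mul, map_one]
      calc Valued.v (2 : F) * Valued.v (40 : F) ≤ Valued.v (2 : F) * 1 := mul_le_mul' le_rfl h40
        _ = Valued.v (2 : F) := mul_one _
        _ < 1 := h2
    rw [Valuation.map_add_eq_of_lt_left _ hlt, map_one]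
  have hu : Valued.v (108 + a) = 1 := by
    have e : 108 + a = 81 + (a + 27) := by ring
    have hlt : Valued.v (a + 27) < Valued.v (81 : F) := by
      rw [h81]; exact ha.trans h28
    rw [e, Valuation.map_add_eq_of_lt_left _ hlt, h81]
  set c := b - 6 * a - 216 with hcdef
  have hc : Valued.v c < Valued.v ((2 : F) ^ 8) := by
    have e : c = (b + 3 * a + 27) - 9 * (a + 27) := by rw [hcdef]; ring
    rw [e]
    refine lt_of_le_of_lt (Valuation.map_sub _ _ _) (max_lt (hb.trans_le h212) ?_)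
    rw [map_mul]
    calc Valued.v (9 : F) * Valued.v (a + 27) ≤ 1 * Valued.v (a + 27) := mul_le_mul' h9 le_rfl
      _ = Valued.v (a + 27) := one_mul _
      _ < _ := ha
  obtain ⟨t, ht, htc⟩ := exists_kk hu (hc.trans h28)
  refine ⟨-6 + t, ?_, ?_⟩
  · have : (-6 + t) ^ 3 + a * (-6 + t) + b = t ^ 3 - 18 * t ^ 2 + (108 + a) * t + c := by
      rw [hcdef]; ring
    rw [this, ht]
  · have e : -6 + t + 6 = t := by ring
    rw [e]
    exact htc.trans_lt hc

end H36CY

end S_H36_CY_Sq

section S_H36_CY_Pt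

set_option autoImplicit false
set_option linter.unusedSectionVars false
open scoped Classical

open WithZero NumberField IsDedekindDomain H76PP

namespace H36CY

variable {F : Type*} [Field F] [CharZero F] [Valued F (WithZero (Multiplicative ℤ))]

theorem pt_nat (n : ℕ) : Valued.v (n : F) ≤ 1 := by
  induction n with
  | zero => rw [Nat.cast_zero, map_zero]; exact zero_le
  | succ n ih =>
    rw [Nat.cast_succ]
    refine (Valued.v.map_add _ _).trans (max_le ih ?_)
    rw [map_one]

theorem pt_odd (h2 : Valued.v (2 : F) < 1) (n : ℕ) : Valued.v ((2 * n + 1 : ℕ) : F) = 1 := by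
  have h1 : ((2 * n + 1 : ℕ) : F) = 2 * (n : F) + 1 := by push_cast; ring
  have h3 : Valued.v (2 * (n : F)) < 1 := by
    rw [map_mul]
    exact (mul_le_of_le_one_right' (pt_nat n)).trans_lt h2
  rw [h1, Valued.v.map_add_eq_of_lt_right]
  · exact map_one _
  · rw [map_one]; exact h3

theorem val_facts {a b θ : F} (h : SpF a b) (hθ : RtF a b θ) :
    Valued.v (θ ^ 2 + 3 * θ + 9 + a) < Valued.v ((2 : F) ^ 12) ∧ 3 * θ ^ 2 + a ≠ 0 := by
  obtain ⟨h2, ha, hb⟩ := h
  obtain ⟨hr, ht⟩ := hθ
  have hp : ∀ k : ℕ, Valued.v ((2 : F) ^ k) ≤ 1 := by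
    intro k
    rw [map_pow]
    exact pow_le_one' h2.le k
  have h9 : Valued.v (9 : F) = 1 := by
    have := pt_odd h2 4
    norm_num at this
    exact this
  have h81 : Valued.v (81 : F) = 1 := by
    have := pt_odd h2 40
    norm_num at this
    exact this
  have ht1 : Valued.v (θ + 6) < 1 := ht.trans_le (hp 8)
  have h3 : Valued.v (θ - 3) = 1 := by
    have e : θ - 3 = (θ + 6) + (-9) := by ring
    rw [e, Valued.v.map_add_eq_of_lt_right]
    · rw [Valuation.map_neg, h9]
    · rw [Valuation.map_neg, h9]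
      exact ht1
  constructor
  · have e : (θ - 3) * (θ ^ 2 + 3 * θ + 9 + a) = -(b + 3 * a + 27) := by
      linear_combination hr
    have e2 : Valued.v (θ ^ 2 + 3 * θ + 9 + a) = Valued.v (b + 3 * a + 27) := by
      have e3 := congrArg Valued.v e
      rw [map_mul, h3, one_mul, Valuation.map_neg] at e3
      exact e3
    rw [e2]
    exact hb
  · intro h0
    have e : (3 * θ ^ 2 + a : F) = 81 + (3 * ((θ + 6) * (θ - 6)) + (a + 27)) := by ring
    have h4 : Valued.v (θ - 6) ≤ 1 := by
      have e4 : θ - 6 = (θ + 6) + (-12) := by ring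
      rw [e4]
      refine (Valued.v.map_add _ _).trans (max_le ht1.le ?_)
      rw [Valuation.map_neg]
      have := pt_nat (F := F) 12
      norm_num at this
      exact this
    have h5 : Valued.v (3 * ((θ + 6) * (θ - 6))) < 1 := by
      rw [map_mul, map_mul]
      have h6 : Valued.v (3 : F) ≤ 1 := by
        have := pt_nat (F := F) 3
        norm_num at this
        exact this
      have h7 : Valued.v (θ + 6) * Valued.v (θ - 6) < 1 :=
        (mul_le_of_le_one_right' h4).trans_lt ht1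
      exact (mul_le_of_le_one_left' h6).trans_lt h7
    have h8 : Valued.v (a + 27) < 1 := ha.trans_le (hp 8)
    have h10 : Valued.v (3 * ((θ + 6) * (θ - 6)) + (a + 27)) < 1 :=
      (Valued.v.map_add _ _).trans_lt (max_lt h5 h8)
    have h11 : Valued.v (3 * θ ^ 2 + a) = 1 := by
      rw [e, Valued.v.map_add_eq_of_lt_left]
      · exact h81
      · rw [h81]; exact h10
    rw [h0, map_zero] at h11
    exact zero_ne_one h11

theorem pt_sq [CompleteSpace F] {a b θ : F} (h : SpF a b) (hθ : RtF a b θ) {x y : F}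
    (hxy : y ^ 2 = x ^ 3 + a * x + b) : IsSquare (x - θ) := by
  obtain ⟨hg, _⟩ := val_facts h hθ
  obtain ⟨h2, ha, hb⟩ := h
  obtain ⟨hr, ht⟩ := hθ
  have e0 : (x - θ) * (x ^ 2 + θ * x + θ ^ 2 + a) = y ^ 2 := by
    linear_combination -hxy - hr
  have hp : ∀ k : ℕ, Valued.v ((2 : F) ^ k) ≤ 1 := by
    intro k
    rw [map_pow]
    exact pow_le_one' h2.le k
  have h9 : Valued.v (9 : F) = 1 := by
    have := pt_odd h2 4
    norm_num at this
    exact this
  have h4e : (4 : F) = 2 ^ 2 := by norm_num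
  have h4 : Valued.v (4 : F) ≤ 1 := by rw [h4e]; exact hp 2
  have h28 : Valued.v ((2 : F) ^ 8) ≤ Valued.v (4 : F) := by
    have e : (2 : F) ^ 8 = 4 * 2 ^ 6 := by norm_num
    rw [e, map_mul]
    exact mul_le_of_le_one_right' (hp 6)
  have h28' : Valued.v ((2 : F) ^ 8) ≤ Valued.v (4 : F) * Valued.v (4 : F) := by
    have e : (2 : F) ^ 8 = 4 * 4 * 2 ^ 4 := by norm_num
    rw [e, map_mul, map_mul]
    exact mul_le_of_le_one_right' (hp 4)
  have h212 : Valued.v ((2 : F) ^ 12) ≤ Valued.v (4 : F) * (Valued.v (4 : F) * Valued.v (4 : F)) := by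
    have e : (2 : F) ^ 12 = 4 * (4 * 4) * 2 ^ 6 := by norm_num
    rw [e, map_mul, map_mul, map_mul]
    exact mul_le_of_le_one_right' (hp 6)
  rcases lt_or_ge (Valued.v (x - 3)) (Valued.v (4 : F)) with hs | hs
  · have e : x - θ - 9 = (x - 3) - (θ + 6) := by ring
    have h5 : Valued.v (x - θ - 9) < Valued.v (4 * 9 : F) := by
      rw [map_mul, h9, mul_one, e]
      exact (Valued.v.map_sub _ _).trans_lt (max_lt hs (ht.trans_le h28))
    obtain ⟨r, _, hr2⟩ := sq_near h5
    refine ⟨3 * r, ?_⟩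
    rw [hr2]
    ring
  · have hs0 : x - 3 ≠ 0 := by
      intro h0
      rw [h0, map_zero] at hs
      have h6 : Valued.v (4 : F) = 0 := le_antisymm hs zero_le
      have h8 : (4 : F) = 0 := (Valuation.zero_iff _).1 h6
      norm_num at h8
    have hspos : 0 < Valued.v (x - 3) := (Valuation.pos_iff _).2 hs0
    have e : x ^ 2 + θ * x + θ ^ 2 + a - (x - 3) ^ 2 =
        (θ + 6) * (x - 3) + (θ ^ 2 + 3 * θ + 9 + a) := by ring
    have h5 : Valued.v (x ^ 2 + θ * x + θ ^ 2 + a - (x - 3) ^ 2) < Valued.v (4 * (x - 3) ^ 2) := by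
      rw [e, map_mul _ 4, pow_two (x - 3), map_mul _ (x - 3)]
      refine (Valued.v.map_add _ _).trans_lt (max_lt ?_ ?_)
      · rw [map_mul]
        have h6 : Valued.v (θ + 6) * Valued.v (x - 3) <
            Valued.v (4 : F) * Valued.v (4 : F) * Valued.v (x - 3) :=
          mul_lt_mul_of_pos_right (ht.trans_le h28') hspos
        refine h6.trans_le ?_
        rw [mul_assoc]
        exact mul_le_mul_right (mul_le_mul_left hs _) _
      · refine (hg.trans_le h212).trans_le ?_
        exact mul_le_mul_right (mul_le_mul' hs hs) _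
    obtain ⟨r, hr0, hr2⟩ := sq_near h5
    refine ⟨y / ((x - 3) * r), ?_⟩
    rw [hr2] at e0
    have h7 : ((x - 3) * r) ≠ 0 := mul_ne_zero hs0 hr0
    field_simp
    linear_combination e0

end H36CY

end S_H36_CY_Pt

section S_H36_CY_Po

set_option autoImplicit false
set_option linter.unusedSectionVars false
open scoped Classical

open WithZero NumberField IsDedekindDomain H76PP

namespace H36CY

variable {F : Type*} [Field F] [CharZero F] [Valued F (WithZero (Multiplicative ℤ))]

theorem norm_rep (h2 : Valued.v (2 : F) < 1) {π : F} (hπ : Valued.v π = exp (-1 : ℤ)) {u : F}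
    (hu : u ≠ 0) : ∃ κ : F, κ ≠ 0 ∧ Valued.v (u * κ ^ 2) < 1 ∧ Valued.v (4 : F) ≤ Valued.v (u * κ ^ 2) := by
  have hvu : Valued.v u ≠ 0 := (Valuation.ne_zero_iff _).2 hu
  have hπ0 : π ≠ 0 := by
    intro h
    rw [h, map_zero] at hπ
    exact exp_ne_zero hπ.symm
  obtain ⟨n, hn⟩ : ∃ n : ℤ, Valued.v u = exp n := ⟨log (Valued.v u), (exp_log hvu).symm⟩
  obtain ⟨m, hm⟩ : ∃ m : ℤ, m = (n + 2) / 2 := ⟨_, rfl⟩
  have hv : Valued.v (u * (π ^ m) ^ 2) = exp (n - 2 * m) := by
    rw [map_mul, map_pow, map_zpow₀, hπ, hn, ← exp_zsmul, ← exp_nsmul, ← exp_add]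
    congr 1
    simp only [smul_eq_mul, nsmul_eq_mul]
    push_cast
    ring
  refine ⟨π ^ m, zpow_ne_zero _ hπ0, ?_, ?_⟩
  · rw [hv, ← exp_zero]
    exact exp_lt_exp.2 (by omega)
  · rw [hv]
    have h4 : (4 : F) = 2 * 2 := by norm_num
    have h2' := Pool.Agent.H10.lt_one_le_exp h2
    rw [h4, map_mul]
    calc Valued.v (2 : F) * Valued.v (2 : F) ≤ exp (-1) * exp (-1) := mul_le_mul' h2' h2'
      _ = exp (-1 + -1) := (exp_add _ _).symm
      _ ≤ _ := exp_le_exp.2 (by omega)

theorem pt_of [CompleteSpace F] {a b θ : F} (h : SpF a b) (hθ : RtF a b θ) {π : F}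
    (hπ : Valued.v π = exp (-1 : ℤ)) {u : F} (hu : u ≠ 0) :
    ∃ x y r p q : F, y ≠ 0 ∧ y ^ 2 = x ^ 3 + a * x + b ∧ r ≠ 0 ∧ x - θ = r ^ 2 ∧
      x = u * (p ^ 2 - (θ ^ 2 + a) * q ^ 2) ∧ -1 = u * (2 * p * q - θ * q ^ 2) := by
  have h2 : Valued.v (2 : F) < 1 := h.1
  obtain ⟨κ, hκ, hw1, hw4⟩ := norm_rep h2 hπ hu
  obtain ⟨w, hw⟩ : ∃ w : F, w = u * κ ^ 2 := ⟨_, rfl⟩
  rw [← hw] at hw1 hw4
  have hw0 : w ≠ 0 := by
    rw [hw]
    exact mul_ne_zero hu (pow_ne_zero 2 hκ)
  -- values of numerals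
  have e4 : Valued.v (4 : F) = Valued.v (2 : F) * Valued.v (2 : F) := by
    rw [← map_mul]
    norm_num
  have e8 : Valued.v (8 : F) = Valued.v (2 : F) * Valued.v (4 : F) := by
    rw [← map_mul]
    norm_num
  have e16 : Valued.v (16 : F) = Valued.v (4 : F) * Valued.v (4 : F) := by
    rw [← map_mul]
    norm_num
  have e16' : Valued.v (16 : F) = Valued.v (2 : F) * Valued.v (8 : F) := by
    rw [← map_mul]
    norm_num
  have e256 : Valued.v ((2 : F) ^ 8) = Valued.v (16 : F) * Valued.v (16 : F) := by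
    rw [← map_mul]
    norm_num
  have e4096 : Valued.v ((2 : F) ^ 12) = Valued.v (16 : F) * (Valued.v (16 : F) * Valued.v (16 : F)) := by
    rw [← map_mul, ← map_mul]
    norm_num
  have h4lt : Valued.v (4 : F) < 1 := by
    rw [e4]
    exact mul_lt_one_of_nonneg_of_lt_one_left zero_le' h2 h2.le
  have h8lt : Valued.v (8 : F) < 1 := by
    rw [e8]
    exact mul_lt_one_of_nonneg_of_lt_one_left zero_le' h2 h4lt.le
  have h16le : Valued.v (16 : F) ≤ 1 := by
    rw [e16]
    exact mul_le_one' h4lt.le h4lt.le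
  have h16le4 : Valued.v (16 : F) ≤ Valued.v (4 : F) := by
    rw [e16]
    exact mul_le_of_le_one_left' h4lt.le
  have h9 : Valued.v (9 : F) = 1 := by
    have : (9 : F) = 1 + 8 := by norm_num
    rw [this]
    exact Valuation.map_one_add_of_lt _ h8lt
  have h3 : Valued.v (3 : F) = 1 := by
    have : (3 : F) = 1 + 2 := by norm_num
    rw [this]
    exact Valuation.map_one_add_of_lt _ h2
  have hvm : Valued.v (1 - w) = 1 := Valuation.map_one_sub_of_lt _ hw1
  have hvp : Valued.v (1 + w) = 1 := Valuation.map_one_add_of_lt _ hw1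
  have hm0 : (1 - w) ≠ 0 := by
    intro h0
    rw [h0, map_zero] at hvm
    exact zero_ne_one hvm
  have hp0 : (1 + w) ≠ 0 := by
    intro h0
    rw [h0, map_zero] at hvp
    exact zero_ne_one hvp
  obtain ⟨s, hs⟩ : ∃ s : F, s = 36 * w / (1 - w) ^ 2 := ⟨_, rfl⟩
  have hs0 : s ≠ 0 := by
    rw [hs]
    exact div_ne_zero (mul_ne_zero (by norm_num) hw0) (pow_ne_zero 2 hm0)
  have hvs : Valued.v (16 : F) ≤ Valued.v s := by
    have h1 : Valued.v s = Valued.v (4 : F) * Valued.v w := by
      have h36 : (36 : F) = 4 * 9 := by norm_num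
      rw [hs, map_div₀, map_pow, hvm, one_pow, div_one, map_mul, h36, map_mul, h9, mul_one]
    rw [h1, e16]
    exact mul_le_mul' le_rfl hw4
  -- (1)
  have hs9 : s + 9 = (3 * (1 + w) / (1 - w)) ^ 2 := by
    rw [hs]
    field_simp
    ring
  have hvs9 : Valued.v (s + 9) = 1 := by
    rw [hs9, map_pow, map_div₀, map_mul, h3, hvm, hvp]
    simp
  have hθ6 : Valued.v (θ + 6) < Valued.v ((2 : F) ^ 8) := hθ.2
  have hθ4 : Valued.v (θ + 6) < Valued.v (4 : F) := by
    refine hθ6.trans_le ?_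
    rw [e256]
    calc Valued.v (16 : F) * Valued.v (16 : F) ≤ Valued.v (4 : F) * 1 := mul_le_mul' h16le4 h16le
      _ = _ := mul_one _
  obtain ⟨r, hr0, hr⟩ : ∃ r : F, r ≠ 0 ∧ (s + 3) - θ = (s + 9) * r ^ 2 := by
    refine sq_near ?_
    have h1 : (s + 3) - θ - (s + 9) = -(θ + 6) := by ring
    rw [h1, Valuation.map_neg, map_mul, hvs9, mul_one]
    exact hθ4
  -- (2)
  obtain ⟨γ, hγ⟩ : ∃ γ : F, γ = θ ^ 2 + 3 * θ + 9 + a := ⟨_, rfl⟩
  have hvγ : Valued.v γ < Valued.v ((2 : F) ^ 12) := by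
    rw [hγ]
    exact (val_facts h hθ).1
  have hsv : 0 < Valued.v s := (Valuation.pos_iff _).2 hs0
  obtain ⟨g, hg⟩ : ∃ g : F, g = s ^ 2 + (θ + 6) * s + γ := ⟨_, rfl⟩
  have hgs : Valued.v (g - s ^ 2) < Valued.v ((16 : F) * s ^ 2) := by
    have h1 : g - s ^ 2 = (θ + 6) * s + γ := by
      rw [hg]
      ring
    rw [h1]
    have e1 : Valued.v ((16 : F) * s ^ 2) = Valued.v (16 : F) * (Valued.v s * Valued.v s) := by
      rw [map_mul, map_pow, pow_two]
    refine Valuation.map_add_lt _ ?_ ?_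
    · rw [map_mul, e1]
      calc Valued.v (θ + 6) * Valued.v s < Valued.v ((2 : F) ^ 8) * Valued.v s :=
            mul_lt_mul_of_pos_right hθ6 hsv
        _ = Valued.v (16 : F) * (Valued.v (16 : F) * Valued.v s) := by rw [e256, mul_assoc]
        _ ≤ _ := mul_le_mul' le_rfl (mul_le_mul' hvs le_rfl)
    · refine hvγ.trans_le ?_
      rw [e1, e4096]
      exact mul_le_mul' le_rfl (mul_le_mul' hvs hvs)
  obtain ⟨n0, hn00, hn0⟩ : ∃ r : F, r ≠ 0 ∧ g = s ^ 2 * r ^ 2 := by
    refine sq_near (hgs.trans_le ?_)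
    rw [map_mul, map_mul]
    exact mul_le_mul' h16le4 le_rfl
  obtain ⟨n, hn2, hn1⟩ := close_one h2 (n := n0) (by
    have h1 : g - s ^ 2 = (n0 ^ 2 - 1) * s ^ 2 := by
      rw [hn0]
      ring
    rw [h1, map_mul, map_mul] at hgs
    exact lt_of_mul_lt_mul_right' hgs)
  have hn : n ≠ 0 := by
    intro h0
    rw [h0] at hn2
    exact hn00 (pow_eq_zero_iff two_ne_zero |>.1 (hn2.symm.trans (by ring)))
  have hgn : g = s ^ 2 * n ^ 2 := by
    rw [hn0, hn2]
  -- (4)
  obtain ⟨t, ht⟩ : ∃ t : F, t = 2 + (θ + 6) / s + 2 * n := ⟨_, rfl⟩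
  obtain ⟨m, hm0', hm⟩ : ∃ r : F, r ≠ 0 ∧ t = 4 * r ^ 2 := by
    refine sq_near ?_
    have h1 : t - 4 = (θ + 6) / s + 2 * (n - 1) := by
      rw [ht]
      ring
    rw [h1, map_mul (Valued.v (R := F)) 4 4, ← e16]
    refine Valuation.map_add_lt _ ?_ ?_
    · rw [map_div₀, div_lt_iff₀ hsv]
      refine hθ6.trans_le ?_
      rw [e256]
      exact mul_le_mul' le_rfl hvs
    · rw [map_mul, e16']
      exact mul_lt_mul_of_pos_left hn1 ((Valuation.pos_iff _).2 two_ne_zero)
  have hts : t * s = 2 * s + (θ + 6) + 2 * n * s := by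
    rw [ht]
    field_simp
  obtain ⟨l, hl⟩ : ∃ l : F, l = 6 * κ / ((1 - w) * (2 * m) * s) := ⟨_, rfl⟩
  have hul : u * l ^ 2 * (t * s) = 1 := by
    have h1 : u * l ^ 2 = 36 * w / (1 - w) ^ 2 / (4 * m ^ 2 * s ^ 2) := by
      rw [hl, hw]
      field_simp
      ring
    rw [h1, ← hs, ← hm]
    have ht0 : t ≠ 0 := by
      rw [hm]
      exact mul_ne_zero (by norm_num) (pow_ne_zero 2 hm0')
    field_simp
  have hroot := hθ.1
  have hgx : g = (s + 3) ^ 2 + θ * (s + 3) + θ ^ 2 + a := by
    rw [hg, hγ]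
    ring
  refine ⟨s + 3, 3 * (1 + w) / (1 - w) * r * s * n, 3 * (1 + w) / (1 - w) * r, l * ((s + 3) + n * s), -l,
    ?_, ?_, ?_, ?_, ?_, ?_⟩
  · exact mul_ne_zero (mul_ne_zero (mul_ne_zero (div_ne_zero (mul_ne_zero three_ne_zero hp0) hm0) hr0)
      hs0) hn
  · have h1 : (3 * (1 + w) / (1 - w) * r * s * n) ^ 2 = ((s + 9) * r ^ 2) * (s ^ 2 * n ^ 2) := by
      rw [hs9]
      ring
    rw [h1, ← hr, ← hgn, hgx]
    linear_combination (-1 : F) * hroot
  · exact mul_ne_zero (div_ne_zero (mul_ne_zero three_ne_zero hp0) hm0) hr0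
  · rw [hr, hs9]
    ring
  · have h1 : (s + 3 + n * s) ^ 2 - (θ ^ 2 + a) = (s + 3) * (t * s) := by
      rw [hts]
      linear_combination hgx - hgn
    have h2 : u * ((l * (s + 3 + n * s)) ^ 2 - (θ ^ 2 + a) * (-l) ^ 2) =
        u * l ^ 2 * ((s + 3 + n * s) ^ 2 - (θ ^ 2 + a)) := by ring
    rw [h2, h1]
    linear_combination (-(s + 3)) * hul
  · have h1 : 2 * (s + 3 + n * s) + θ = t * s := by
      rw [hts]
      ring
    have h2 : u * (2 * (l * (s + 3 + n * s)) * (-l) - θ * (-l) ^ 2) =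
        -(u * l ^ 2 * (2 * (s + 3 + n * s) + θ)) := by ring
    rw [h2, h1, hul]

end H36CY

end S_H36_CY_Po

section S_H36_CY_Cr

set_option autoImplicit false
set_option linter.unusedSectionVars false
open scoped Classical

open WithZero NumberField IsDedekindDomain H76PP

namespace H36CY

theorem sq_of_LC {k F : Type} [Field k] [Field F] [CharZero F]
    [Valued F (WithZero (Multiplicative ℤ))] [CompleteSpace F] (i : k →+* F) {a b : k}
    (h : SpF (i a) (i b)) {θ : F} (hθ : RtF (i a) (i b) θ) {d : Fin 3 → k} (hLC : LC i a b d) :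
    IsSquare (e1 θ (fun j => i (d j))) := by
  obtain ⟨x, y, z, hy, hxy, hm⟩ := hLC
  obtain ⟨r, hr⟩ := pt_sq h hθ hxy
  have hr0 : r ≠ 0 := by
    rintro rfl
    apply hy
    have h1 : x = θ := by linear_combination hr
    have h2 : y ^ 2 = 0 := by
      rw [hxy, h1]
      exact hθ.1
    exact pow_eq_zero_iff (two_ne_zero) |>.1 h2
  have h1 := congrArg (e1 θ) hm
  rw [e1_m3 hθ.1, e1_m3 hθ.1] at h1
  have h2 : e1 θ ![x, -1, 0] = r * r := by
    rw [← hr]
    simp only [e1, Matrix.cons_val_zero, Matrix.cons_val_one, Matrix.cons_val_two,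
      Matrix.head_cons, Matrix.tail_cons]
    ring
  rw [h2] at h1
  refine ⟨e1 θ z / r, ?_⟩
  field_simp
  linear_combination h1

theorem LC_of_sq {k F : Type} [Field k] [Field F] [CharZero F]
    [Valued F (WithZero (Multiplicative ℤ))] [CompleteSpace F] (i : k →+* F) {a b : k}
    (h : SpF (i a) (i b)) {θ : F} (hθ : RtF (i a) (i b) θ) {π : F}
    (hπ : Valued.v π = exp (-1 : ℤ)) {d : Fin 3 → k} (hd : Te_nf a b d ≠ 0)
    (hsq : IsSquare (Te_nf a b d)) (h1 : IsSquare (e1 θ (fun j => i (d j)))) : LC i a b d := by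
  have h2 : (2 : F) ≠ 0 := two_ne_zero
  have hg := (val_facts h hθ).2
  obtain ⟨e, he⟩ := h1
  obtain ⟨n, hn⟩ := hsq
  have hnf : Te_nf (i a) (i b) (fun j => i (d j)) = i (Te_nf a b d) := Te_nf_map i a b d
  have hfac := nf_fac hθ.1 (fun j => i (d j))
  have hne : Te_nf (i a) (i b) (fun j => i (d j)) ≠ 0 := by
    rw [hnf]
    exact (map_ne_zero i).2 hd
  have he0 : e ≠ 0 := by
    rintro rfl
    rw [hfac, he] at hne
    exact hne (by ring)
  obtain ⟨p, hp⟩ : ∃ p, p = pp θ (i a) (fun j => i (d j)) := ⟨_, rfl⟩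
  obtain ⟨q, hq⟩ : ∃ q, q = qq θ (fun j => i (d j)) := ⟨_, rfl⟩
  rw [← hp, ← hq] at hfac
  have hN : N2 θ (i a) p q = (i n / e) ^ 2 := by
    have h3 : i n * i n = e * e * N2 θ (i a) p q := by
      rw [← he, ← hfac, hnf, hn, map_mul]
    field_simp
    linear_combination -h3
  have hin : i n / e ≠ 0 := by
    refine div_ne_zero ?_ he0
    intro h3
    apply hne
    rw [hnf, hn, map_mul, h3, mul_zero]
  obtain ⟨u, r, s, hu, hpu, hqu⟩ := sq_two_dim h2 hin hN
  obtain ⟨x, y, t, p', q', hy, hxy, ht0, ht, hx1, hx2⟩ := pt_of h hθ hπ hu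
  -- the square root
  obtain ⟨z, hz1, hz2, hz3⟩ := crt_ex hg (e * t) (u * (r * p' - (θ ^ 2 + i a) * (s * q')))
    (u * (r * q' + s * p' - θ * (s * q')))
  refine ⟨x, y, z, hy, hxy, ?_⟩
  refine crt hg ?_ ?_ ?_
  · rw [e1_m3 hθ.1, e1_m3 hθ.1, hz1, he]
    have h3 : e1 θ ![x, -1, 0] = t ^ 2 := by
      rw [← ht]
      simp only [e1, Matrix.cons_val_zero, Matrix.cons_val_one, Matrix.cons_val_two,
        Matrix.head_cons, Matrix.tail_cons]
      ring
    rw [h3]
    ring
  · rw [pp_m3 hθ.1, pp_m3 hθ.1, hz2, hz3, ← hp, ← hq]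
    have h3 : pp θ (i a) ![x, -1, 0] = x := by
      simp only [pp, Matrix.cons_val_zero, Matrix.cons_val_two, Matrix.head_cons, Matrix.tail_cons]
      ring
    have h4 : qq θ ![x, -1, 0] = -1 := by
      simp only [qq, Matrix.cons_val_zero, Matrix.cons_val_one, Matrix.cons_val_two,
        Matrix.head_cons, Matrix.tail_cons]
      ring
    rw [h3, h4, hpu, hqu, hx1, hx2]
    ring
  · rw [qq_m3 hθ.1, qq_m3 hθ.1, hz2, hz3, ← hp, ← hq]
    have h3 : pp θ (i a) ![x, -1, 0] = x := by
      simp only [pp, Matrix.cons_val_zero, Matrix.cons_val_two, Matrix.head_cons, Matrix.tail_cons]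
      ring
    have h4 : qq θ ![x, -1, 0] = -1 := by
      simp only [qq, Matrix.cons_val_zero, Matrix.cons_val_one, Matrix.cons_val_two,
        Matrix.head_cons, Matrix.tail_cons]
      ring
    rw [h3, h4, hpu, hqu, hx1, hx2]
    ring

end H36CY

end S_H36_CY_Cr

section S_H36_CY_Vl

set_option autoImplicit false
set_option linter.unusedSectionVars false
open scoped Classical

open WithZero NumberField IsDedekindDomain H76PP

namespace H36CY

variable {K L : Type} [Field K] [NumberField K] [Field L] [NumberField L] [Algebra K L]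

theorem over_dn (w : HeightOneSpectrum (𝓞 L)) : Pool.Agent.H10.Over (dn K w) w := fun _ hx => hx

theorem v_one {v : HeightOneSpectrum (𝓞 K)} {w : HeightOneSpectrum (𝓞 L)}
    (h : Pool.Agent.H10.Over v w) {x : K} (hx : v.valuation K x = 1) :
    w.valuation L (algebraMap K L x) = 1 := by
  obtain ⟨n, ⟨d, hd⟩, hnd⟩ := HeightOneSpectrum.exists_primeCompl_mul_eq_of_integer v x hx.le
  change d ∉ v.asIdeal at hd
  change x * algebraMap (𝓞 K) K d = algebraMap (𝓞 K) K n at hnd
  have hd1 : v.valuation K (algebraMap (𝓞 K) K d) = 1 :=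
    (v.valuation_eq_one_iff_notMem (K := K)).mpr hd
  have hd2 : w.valuation L (algebraMap (𝓞 L) L (algebraMap (𝓞 K) (𝓞 L) d)) = 1 :=
    (w.valuation_eq_one_iff_notMem (K := L)).mpr (h.not_mem hd)
  have hn1 : v.valuation K (algebraMap (𝓞 K) K n) = 1 := by
    rw [← hnd, map_mul, hx, hd1, mul_one]
  have hn : n ∉ v.asIdeal := (v.valuation_eq_one_iff_notMem (K := K)).mp hn1
  have hn2 : w.valuation L (algebraMap (𝓞 L) L (algebraMap (𝓞 K) (𝓞 L) n)) = 1 :=
    (w.valuation_eq_one_iff_notMem (K := L)).mpr (h.not_mem hn)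
  have h5 : w.valuation L (algebraMap K L x) * 1 =
      w.valuation L (algebraMap (𝓞 L) L (algebraMap (𝓞 K) (𝓞 L) n)) := by
    rw [← hd2, ← map_mul]
    congr 1
    have := congrArg (algebraMap K L) hnd
    rw [map_mul] at this
    exact this
  rw [mul_one, hn2] at h5
  exact h5

theorem v_lt_one {v : HeightOneSpectrum (𝓞 K)} {w : HeightOneSpectrum (𝓞 L)}
    (h : Pool.Agent.H10.Over v w) {x : K} (hx : v.valuation K x < 1) :
    w.valuation L (algebraMap K L x) < 1 := by
  have h1 : v.valuation K x ≤ exp (-((1 : ℕ) : ℤ)) := Pool.Agent.H10.lt_one_le_exp hx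
  refine (h.valuation_le h1).trans_lt ?_
  rw [← exp_zero, exp_lt_exp]
  norm_num

theorem v_lt_one_iff {v : HeightOneSpectrum (𝓞 K)} {w : HeightOneSpectrum (𝓞 L)}
    (h : Pool.Agent.H10.Over v w) {x : K} :
    w.valuation L (algebraMap K L x) < 1 ↔ v.valuation K x < 1 := by
  refine ⟨fun h1 => ?_, v_lt_one h⟩
  rcases lt_trichotomy (v.valuation K x) 1 with h2 | h2 | h2
  · exact h2
  · rw [v_one h h2] at h1
    exact absurd h1 (lt_irrefl _)
  · have hx0 : x ≠ 0 := by
      rintro rfl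
      rw [map_zero] at h2
      exact absurd h2 not_lt_zero'
    have h3 : v.valuation K x⁻¹ < 1 := by
      rw [map_inv₀]
      exact inv_lt_one_of_one_lt₀ h2
    have h4 := v_lt_one h h3
    rw [map_inv₀, map_inv₀] at h4
    have h5 : 0 < w.valuation L (algebraMap K L x) := by
      rw [Valuation.pos_iff]
      exact (map_ne_zero _).2 hx0
    have h6 : 1 < w.valuation L (algebraMap K L x) := (inv_lt_one₀ h5).1 h4
    exact absurd (h6.trans h1) (lt_irrefl _)

theorem val_lt_iff (w : HeightOneSpectrum (𝓞 L)) (x y : K) :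
    w.valuation L (algebraMap K L x) < w.valuation L (algebraMap K L y) ↔
      (dn K w).valuation K x < (dn K w).valuation K y := by
  have h := over_dn (K := K) w
  by_cases hy : y = 0
  · subst hy
    rw [map_zero, map_zero, map_zero]
    exact ⟨fun h1 => absurd h1 not_lt_zero', fun h1 => absurd h1 not_lt_zero'⟩
  · have h1 : 0 < (dn K w).valuation K y := by
      rw [Valuation.pos_iff]
      exact hy
    have h2 : 0 < w.valuation L (algebraMap K L y) := by
      rw [Valuation.pos_iff]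
      exact (map_ne_zero _).2 hy
    rw [← div_lt_one₀ h1, ← div_lt_one₀ h2, ← map_div₀, ← map_div₀, ← map_div₀]
    exact v_lt_one_iff h

theorem map_lt {v : HeightOneSpectrum (𝓞 K)} {w : HeightOneSpectrum (𝓞 L)}
    (h : Pool.Agent.H10.Over v w) {x y : v.adicCompletion K} (hxy : Valued.v x < Valued.v y) :
    Valued.v (h.map x) < Valued.v (h.map y) := by
  have key : ∀ z : v.adicCompletion K, Valued.v z < 1 → Valued.v (h.map z) < 1 := by
    intro z hz
    have hd := HeightOneSpectrum.denseRange_algebraMap (K := K) v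
    have h1 : {t : v.adicCompletion K | Valued.v (t - z) < Valued.v (1 : v.adicCompletion K)} ∈
        nhds z := Te_nhd z one_ne_zero
    have h2 : h.map ⁻¹' {s | Valued.v (s - h.map z) < Valued.v (1 : w.adicCompletion L)} ∈
        nhds z := (h.continuous_map.continuousAt (x := z)).preimage_mem_nhds
          (Te_nhd (h.map z) one_ne_zero)
    obtain ⟨t, ⟨ht1, ht2⟩, ⟨k, rfl⟩⟩ :=
      mem_closure_iff_nhds.1 (hd z) _ (Filter.inter_mem h1 h2)
    have ht1' : Valued.v (algebraMap K (v.adicCompletion K) k - z) <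
        Valued.v (1 : v.adicCompletion K) := ht1
    have ht2' : Valued.v (h.map (algebraMap K (v.adicCompletion K) k) - h.map z) <
        Valued.v (1 : w.adicCompletion L) := ht2
    rw [map_one] at ht1' ht2'
    have h3 : Valued.v (algebraMap K (v.adicCompletion K) k) < 1 := by
      have h4 : algebraMap K (v.adicCompletion K) k =
          (algebraMap K (v.adicCompletion K) k - z) + z := by ring
      rw [h4]
      exact Valuation.map_add_lt _ ht1' hz
    have h5 := v.valuedAdicCompletion_eq_valuation' (K := K) k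
    change Valued.v (algebraMap K (v.adicCompletion K) k) = _ at h5
    rw [h5] at h3
    have h6 := v_lt_one h h3
    have h7 := w.valuedAdicCompletion_eq_valuation' (K := L) (algebraMap K L k)
    change Valued.v (algebraMap L (w.adicCompletion L) (algebraMap K L k)) = _ at h7
    rw [h.map_algebraMap] at ht2'
    have h8 : h.map z = algebraMap L (w.adicCompletion L) (algebraMap K L k) -
        (algebraMap L (w.adicCompletion L) (algebraMap K L k) - h.map z) := by ring
    rw [h8]
    refine Valuation.map_sub_lt _ ?_ ht2'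
    rw [h7]
    exact h6
  have hy : y ≠ 0 := by
    rintro rfl
    rw [map_zero] at hxy
    exact absurd hxy not_lt_zero'
  have h1 : 0 < Valued.v y := by
    rw [Valuation.pos_iff]
    exact hy
  have h2 : 0 < Valued.v (h.map y) := by
    rw [Valuation.pos_iff]
    exact (map_ne_zero _).2 hy
  have h3 := key (x / y) (by rw [map_div₀]; exact (div_lt_one₀ h1).2 hxy)
  rw [map_div₀, map_div₀] at h3
  exact (div_lt_one₀ h2).1 h3

/-- The special pairs and the root in a bigger completion. -/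
theorem SpF.map {v : HeightOneSpectrum (𝓞 K)} {w : HeightOneSpectrum (𝓞 L)}
    (h : Pool.Agent.H10.Over v w) {a b : v.adicCompletion K} (hab : SpF a b) :
    SpF (h.map a) (h.map b) := by
  obtain ⟨h1, h2, h3⟩ := hab
  have e2 : h.map 2 = 2 := map_ofNat _ _
  have e8 : h.map ((2 : v.adicCompletion K) ^ 8) = 2 ^ 8 := by rw [map_pow, e2]
  have e12 : h.map ((2 : v.adicCompletion K) ^ 12) = 2 ^ 12 := by rw [map_pow, e2]
  have ea : h.map (a + 27) = h.map a + 27 := by rw [map_add, map_ofNat]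
  have eb : h.map (b + 3 * a + 27) = h.map b + 3 * h.map a + 27 := by
    rw [map_add, map_add, map_mul, map_ofNat, map_ofNat]
  refine ⟨?_, ?_, ?_⟩
  · have h4 := map_lt h (x := 2) (y := 1) (by rw [map_one]; exact h1)
    rw [e2, map_one, map_one] at h4
    exact h4
  · have h4 := map_lt h h2
    rw [ea, e8] at h4
    exact h4
  · have h4 := map_lt h h3
    rw [eb, e12] at h4
    exact h4

theorem RtF.map {v : HeightOneSpectrum (𝓞 K)} {w : HeightOneSpectrum (𝓞 L)}
    (h : Pool.Agent.H10.Over v w) {a b θ : v.adicCompletion K} (hθ : RtF a b θ) :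
    RtF (h.map a) (h.map b) (h.map θ) := by
  obtain ⟨h1, h2⟩ := hθ
  have e2 : h.map 2 = 2 := map_ofNat _ _
  have e8 : h.map ((2 : v.adicCompletion K) ^ 8) = 2 ^ 8 := by rw [map_pow, e2]
  have ea : h.map (θ + 6) = h.map θ + 6 := by rw [map_add, map_ofNat]
  refine ⟨?_, ?_⟩
  · have h4 := congrArg h.map h1
    rw [map_add, map_add, map_mul, map_pow, map_zero] at h4
    exact h4
  · have h4 := map_lt h h2
    rw [ea, e8] at h4
    exact h4

end H36CY

end S_H36_CY_Vl

section S_H36_CY_Hi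

set_option autoImplicit false
set_option linter.unusedSectionVars false

namespace H36CY

variable {Ω : Type*} [Field Ω] [CharZero Ω]

theorem hilb_step (σ : Ω →+* Ω) {q β ρ : Ω} (hq : σ q = q) (hq0 : q ≠ 0)
    (h4 : σ (σ (σ (σ β))) = β) (hN : β * σ (σ β) = q) (hρ0 : ρ ≠ 0) (hρ : σ (σ ρ) = -ρ) :
    ∃ γ : Ω, σ (σ γ) = γ ∧ γ * σ γ = q := by
  have hβ0 : β ≠ 0 := fun h => hq0 (by rw [← hN, h, zero_mul])
  have hsβ0 : σ β ≠ 0 := (map_ne_zero σ).2 hβ0
  have hN2 : σ β * σ (σ (σ β)) = q := by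
    rw [← map_mul, hN, hq]
  obtain ⟨ε, hε⟩ : ∃ ε, ε = β / σ β := ⟨_, rfl⟩
  have hε1 : ε * σ β = β := by
    rw [hε]
    exact div_mul_cancel₀ β hsβ0
  have hε2 : σ (σ ε) * σ (σ (σ β)) = σ (σ β) := by
    rw [← map_mul, ← map_mul, hε1]
  have hεε : ε * σ (σ ε) = 1 := by
    have h1 : ε * σ (σ ε) * q = q := by
      calc ε * σ (σ ε) * q = (ε * σ β) * (σ (σ ε) * σ (σ (σ β))) := by
            rw [← hN2]; ring
        _ = q := by rw [hε1, hε2, hN]
    exact mul_right_cancel₀ hq0 (by rw [h1, one_mul])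
  have hε4 : σ (σ (σ (σ ε))) = ε := by
    have h1 : σ (σ (σ (σ ε))) * σ β = β := by
      have h2 : σ (σ (σ (σ (ε * σ β)))) = σ (σ (σ (σ β))) := by rw [hε1]
      rw [map_mul, map_mul, map_mul, map_mul, h4] at h2
      exact h2
    exact mul_right_cancel₀ hsβ0 (by rw [h1, hε1])
  obtain ⟨η, hη0, hη4, hηε⟩ : ∃ η : Ω, η ≠ 0 ∧ σ (σ (σ (σ η))) = η ∧ η = ε * σ (σ η) := by
    by_cases h : ε = -1
    · refine ⟨ρ, hρ0, ?_, ?_⟩
      · rw [hρ, map_neg, map_neg, hρ, neg_neg]
      · rw [hρ, h]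
        ring
    · refine ⟨1 + ε, ?_, ?_, ?_⟩
      · intro h1
        apply h
        linear_combination h1
      · rw [map_add, map_add, map_add, map_add, map_one, map_one, map_one, map_one, hε4]
      · rw [map_add, map_add, map_one, map_one, mul_add, hεε]
        ring
  have hsη0 : σ η ≠ 0 := (map_ne_zero σ).2 hη0
  have hssη0 : σ (σ η) ≠ 0 := (map_ne_zero σ).2 hsη0
  have hkey : β * σ (σ η) = σ β * η := by
    calc β * σ (σ η) = (ε * σ β) * σ (σ η) := by rw [hε1]
      _ = σ β * (ε * σ (σ η)) := by ring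
      _ = σ β * η := by rw [← hηε]
  obtain ⟨a, ha⟩ : ∃ a, a = β / (η * σ η) := ⟨_, rfl⟩
  have ha1 : a * (η * σ η) = β := by
    rw [ha]
    exact div_mul_cancel₀ β (mul_ne_zero hη0 hsη0)
  have ha2 : σ a = a := by
    have h1 : σ a * (σ η * σ (σ η)) = σ β := by
      rw [← map_mul, ← map_mul, ha1]
    have h2 : a * (η * σ η) * σ (σ η) = σ a * (σ η * σ (σ η)) * η := by
      rw [ha1, h1, hkey]
    have h3 : (η * σ η * σ (σ η)) ≠ 0 := mul_ne_zero (mul_ne_zero hη0 hsη0) hssη0
    exact mul_right_cancel₀ h3 (by linear_combination -h2)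
  refine ⟨a * η * σ (σ η), ?_, ?_⟩
  · rw [map_mul, map_mul, map_mul, map_mul, ha2, ha2, hη4]
    ring
  · have h1 : σ (σ β) = a * (σ (σ η) * σ (σ (σ η))) := by
      rw [← ha1, map_mul, map_mul, map_mul, map_mul, ha2, ha2]
    rw [map_mul, map_mul, ha2, ← hN, h1]
    calc a * η * σ (σ η) * (a * σ η * σ (σ (σ η)))
        = (a * (η * σ η)) * (a * (σ (σ η) * σ (σ (σ η)))) := by ring
      _ = β * (a * (σ (σ η) * σ (σ (σ η)))) := by rw [ha1]

theorem drop_root (σ : Ω →+* Ω) {ρ : Ω} (hρ0 : ρ ≠ 0) (hρ : σ (σ ρ) = -ρ) :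
    ∃ ρ' : Ω, ρ' ≠ 0 ∧ σ ρ' = -ρ' ∧ ρ' = ρ ^ 2 - σ (ρ ^ 2) := by
  refine ⟨ρ ^ 2 - σ (ρ ^ 2), ?_, ?_, rfl⟩
  · intro h
    have h1 : (σ ρ) ^ 2 = ρ ^ 2 := by
      rw [← map_pow]
      exact (sub_eq_zero.1 h).symm
    have h2 : σ (σ ρ) = ρ := by
      rcases sq_eq_sq_iff_eq_or_eq_neg.1 h1 with h3 | h3
      · rw [h3, h3]
      · rw [h3, map_neg, h3, neg_neg]
    rw [hρ] at h2
    have h3 : (2 : Ω) * ρ = 0 := by linear_combination -h2
    rcases mul_eq_zero.1 h3 with h4 | h4
    · exact two_ne_zero h4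
    · exact hρ0 h4
  · rw [map_sub, map_pow, map_pow, hρ]
    ring

theorem chain_norm (τ : Ω →+* Ω) {q : Ω} (hq : τ q = q) (hq0 : q ≠ 0) (i : ℕ) :
    ∀ β ρ : Ω, τ^[2 ^ (i + 1)] β = β → β * τ^[2 ^ i] β = q → ρ ≠ 0 → τ^[2 ^ i] ρ = -ρ →
      ∃ γ : Ω, τ (τ γ) = γ ∧ γ * τ γ = q := by
  induction i with
  | zero =>
    intro β ρ h1 h2 _ _
    exact ⟨β, h1, h2⟩
  | succ i ih =>
    intro β ρ h1 h2 hρ0 hρ
    have hc : ∀ x, (τ ^ (2 ^ i)) x = τ^[2 ^ i] x := fun x => by
      rw [RingHom.coe_pow]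
    have hcc : ∀ x, (τ ^ (2 ^ i)) ((τ ^ (2 ^ i)) x) = τ^[2 ^ (i + 1)] x := fun x => by
      rw [hc, hc, ← Function.iterate_add_apply]
      congr 1
      ring
    have hc4 : ∀ x, (τ ^ (2 ^ i)) ((τ ^ (2 ^ i)) ((τ ^ (2 ^ i)) ((τ ^ (2 ^ i)) x))) =
        τ^[2 ^ (i + 1 + 1)] x := fun x => by
      rw [hcc, hcc, ← Function.iterate_add_apply]
      congr 1
      ring
    have hq' : (τ ^ (2 ^ i)) q = q := by
      rw [hc]
      exact Function.iterate_fixed hq _
    obtain ⟨γ, hγ1, hγ2⟩ := hilb_step (τ ^ (2 ^ i)) hq' hq0 (by rw [hc4]; exact h1)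
      (by rw [hcc]; exact h2) hρ0 (by rw [hcc]; exact hρ)
    obtain ⟨ρ', hρ'0, hρ', _⟩ := drop_root (τ ^ (2 ^ i)) hρ0 (by rw [hcc]; exact hρ)
    exact ih γ ρ' (by rw [← hcc]; exact hγ1) (by rw [← hc]; exact hγ2) hρ'0
      (by rw [← hc]; exact hρ')

theorem exists_level {G : Type*} [Group G] {τ g : G} {n : ℕ} (hτ : orderOf τ = 2 ^ n)
    (hg : g ∈ Subgroup.zpowers τ) : ∃ i l : ℕ, Odd l ∧ τ ^ (2 ^ i) = g ^ l := by
  obtain ⟨m, rfl⟩ : ∃ m : ℕ, τ ^ m = g := by
    have hfin : IsOfFinOrder τ := by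
      rw [← orderOf_pos_iff, hτ]
      positivity
    rw [← hfin.mem_powers_iff_mem_zpowers] at hg
    exact hg
  rcases Nat.eq_zero_or_pos m with hm | hm
  · refine ⟨n, 1, odd_one, ?_⟩
    rw [hm, pow_zero, one_pow, ← hτ]
    exact pow_orderOf_eq_one τ
  · obtain ⟨i, o, ho, hmo⟩ := Nat.exists_eq_two_pow_mul_odd hm.ne'
    rcases Nat.eq_zero_or_pos n with hn | hn
    · refine ⟨0, 1, odd_one, ?_⟩
      have h1 : τ = 1 := by
        rw [hn, pow_zero] at hτ
        exact orderOf_eq_one_iff.1 hτ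
      rw [h1, one_pow, one_pow, one_pow]
    · have hcop : Nat.Coprime o (2 ^ n) := (Nat.Coprime.pow_right n (by
        rw [Nat.coprime_comm, Nat.coprime_two_left]
        exact ho))
      have h1n : 1 < 2 ^ n := Nat.one_lt_two_pow hn.ne'
      obtain ⟨l, hl⟩ := Nat.exists_mul_mod_eq_one_of_coprime hcop h1n
      refine ⟨i, l, ?_, ?_⟩
      · by_contra hodd
        have he : Even l := Nat.not_odd_iff_even.1 hodd
        have h2 : 2 ∣ o * l % 2 ^ n := by
          rw [Nat.dvd_mod_iff (dvd_pow_self 2 hn.ne')]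
          exact (he.two_dvd).mul_left o
        rw [hl.2] at h2
        omega
      · rw [← pow_mul, hmo, pow_eq_pow_iff_modEq, hτ]
        have h2 : o * l ≡ 1 [MOD 2 ^ n] := by
          show o * l % 2 ^ n = 1 % 2 ^ n
          rw [hl.2, Nat.mod_eq_of_lt h1n]
        have h3 := (h2.mul_left (2 ^ i)).symm
        rw [mul_one, ← mul_assoc] at h3
        exact h3

end H36CY

end S_H36_CY_Hi

section S_H36_CY_Ac

set_option autoImplicit false
set_option linter.unusedSectionVars false
open scoped Classical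

open WithZero NumberField IsDedekindDomain H76PP

namespace H36CY

variable {K N : Type} [Field K] [NumberField K] [Field N] [NumberField N] [Algebra K N]

theorem exists_act (W : HeightOneSpectrum (𝓞 N)) {g : N ≃ₐ[K] N} (hg : Stb K W g) :
    ∃ φ : W.adicCompletion N →+* W.adicCompletion N, Continuous φ ∧
      ∀ x : N, φ (algebraMap N (W.adicCompletion N) x) = algebraMap N (W.adicCompletion N) (g x) := by
  have hs : ∀ U ∈ nhds (0 : W.adicCompletion N), ∃ k : ℕ, ∀ x : N,
      W.valuation N x ≤ exp (-(k : ℤ)) →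
        ((algebraMap N (W.adicCompletion N)).comp (RingHomClass.toRingHom g)) x ∈ U := by
    intro U hU
    rw [Valued.mem_nhds_zero] at hU
    obtain ⟨γ, hγ⟩ := hU
    obtain ⟨k, hk⟩ := exists_exp_neg_natCast_lt
      (x := MonoidWithZeroHom.ValueGroup₀.embedding γ.1) (by simp)
    refine ⟨k, fun x hx => hγ ?_⟩
    change Valued.v.restrict _ < γ.1
    rw [Valuation.restrict_lt_iff_lt_embedding]
    refine lt_of_le_of_lt ?_ hk
    have h1 := W.valuedAdicCompletion_eq_valuation' (K := N) (g x)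
    change Valued.v (algebraMap N (W.adicCompletion N) (g x)) = _ at h1
    change Valued.v (algebraMap N (W.adicCompletion N) (g x)) ≤ _
    rw [h1, hg x]
    exact hx
  refine ⟨Pool.Agent.H10.adicLift W ((algebraMap N (W.adicCompletion N)).comp (RingHomClass.toRingHom g))
    (Pool.Agent.H10.continuous_fromVal W _ hs), Pool.Agent.H10.continuous_adicLift W _ _, fun x => ?_⟩
  rw [Pool.Agent.H10.adicLift_algebraMap]
  rfl

theorem act_ext {F : Type} [TopologicalSpace F] [T2Space F] (v : HeightOneSpectrum (𝓞 K))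
    {f f' : v.adicCompletion K → F} (hf : Continuous f) (hf' : Continuous f')
    (h : ∀ x : K, f (algebraMap K (v.adicCompletion K) x) = f' (algebraMap K (v.adicCompletion K) x)) :
    f = f' := by
  exact (HeightOneSpectrum.denseRange_algebraMap K v).equalizer hf hf' (funext h)

end H36CY

end S_H36_CY_Ac

section S_H36_CY_De

set_option autoImplicit false
set_option linter.unusedSectionVars false
open scoped Classical

open WithZero NumberField IsDedekindDomain H76PP

namespace H36CY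

/-- A uniform power: for finitely many primes. -/
private lemma unif_pow {N : Type} [Field N] [NumberField N] (S : Finset (HeightOneSpectrum (𝓞 N)))
    {b : 𝓞 N} (hb : b ≠ 0) {ε : WithZero (Multiplicative ℤ)} (hε : ε ≠ 0) :
    ∃ k : ℕ, ∀ V ∈ S, exp (-(k : ℤ)) < ε * V.intValuation b := by
  induction S using Finset.induction_on with
  | empty => exact ⟨0, fun V hV => absurd hV (Finset.notMem_empty V)⟩
  | insert V S hV ih =>
    obtain ⟨k, hk⟩ := ih
    have h0 : ε * V.intValuation b ≠ 0 := mul_ne_zero hε (V.intValuation_ne_zero b hb)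
    obtain ⟨l, hl⟩ := exists_exp_neg_natCast_lt h0
    refine ⟨max k l, fun U hU => ?_⟩
    rcases Finset.mem_insert.mp hU with rfl | hU
    · refine lt_of_le_of_lt ?_ hl
      rw [exp_le_exp]
      have : (l : ℤ) ≤ ((max k l : ℕ) : ℤ) := by exact_mod_cast le_max_right k l
      omega
    · refine lt_of_le_of_lt ?_ (hk U hU)
      rw [exp_le_exp]
      have : (k : ℤ) ≤ ((max k l : ℕ) : ℤ) := by exact_mod_cast le_max_left k l
      omega

/-- Weak approximation: close to `x` at `W` and close to zero at the other primes of `S`. -/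
private lemma approx_one {N : Type} [Field N] [NumberField N] (W : HeightOneSpectrum (𝓞 N))
    (S : Finset (HeightOneSpectrum (𝓞 N))) (x : N) {ε : WithZero (Multiplicative ℤ)} (hε : ε ≠ 0) :
    ∃ y : N, W.valuation N (x - y) < ε ∧ ∀ V ∈ S, V ≠ W → V.valuation N y < ε := by
  obtain ⟨a, b, hb, hx⟩ := IsFractionRing.div_surjective (A := 𝓞 N) x
  have hb0 : b ≠ 0 := nonZeroDivisors.ne_zero hb
  obtain ⟨k, hk⟩ := unif_pow (insert W S) hb0 hε
  obtain ⟨z, hz⟩ := IsDedekindDomain.exists_forall_sub_mem_ideal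
    (s := insert W S) (fun V : HeightOneSpectrum (𝓞 N) => V.asIdeal) (fun _ => k)
    (fun V _ => V.prime)
    (fun V _ U _ hVU h => hVU (HeightOneSpectrum.ext h))
    (fun V => if V.1 = W then a else 0)
  have hbN : algebraMap (𝓞 N) N b ≠ 0 := by
    intro h
    exact hb0 ((FaithfulSMul.algebraMap_injective (𝓞 N) N) (by rw [h, map_zero]))
  have key : ∀ V ∈ insert W S, ∀ c : 𝓞 N, c ∈ V.asIdeal ^ k →
      V.valuation N (algebraMap (𝓞 N) N c / algebraMap (𝓞 N) N b) < ε := by
    intro V hV c hc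
    rw [map_div₀, V.valuation_of_algebraMap, V.valuation_of_algebraMap,
      div_lt_iff₀ (zero_lt_iff.mpr (V.intValuation_ne_zero b hb0))]
    exact lt_of_le_of_lt ((V.intValuation_le_pow_iff_mem c k).mpr hc) (hk V hV)
  refine ⟨algebraMap (𝓞 N) N z / algebraMap (𝓞 N) N b, ?_, ?_⟩
  · have h1 := hz W (Finset.mem_insert_self W S)
    rw [if_pos rfl] at h1
    have h2 := key W (Finset.mem_insert_self W S) _ h1
    rw [← Valuation.map_neg]
    have h3 : -(x - algebraMap (𝓞 N) N z / algebraMap (𝓞 N) N b) =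
        algebraMap (𝓞 N) N (z - a) / algebraMap (𝓞 N) N b := by
      rw [← hx, map_sub, sub_div]; ring
    rw [h3]
    exact h2
  · intro V hV hVW
    have h1 := hz V (Finset.mem_insert_of_mem hV)
    rw [if_neg hVW, sub_zero] at h1
    exact key V (Finset.mem_insert_of_mem hV) _ h1

theorem dense_fix {K N : Type} [Field K] [NumberField K] [Field N] [NumberField N] [Algebra K N]
    [IsGalois K N] (W : HeightOneSpectrum (𝓞 N)) {x : N}
    (hx : ∀ g : N ≃ₐ[K] N, Stb K W g → g x = x) {ε : WithZero (Multiplicative ℤ)} (hε : ε ≠ 0) :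
    ∃ t : K, W.valuation N (x - algebraMap K N t) < ε := by
  have hex : ∀ g : N ≃ₐ[K] N, ∃ V : HeightOneSpectrum (𝓞 N),
      ∀ y : N, W.valuation N (g y) = V.valuation N y := by
    intro g
    obtain ⟨V, hV, -⟩ := Pool.Agent.H10.exists_conj g W
    exact ⟨V, hV⟩
  choose Wg hWg using hex
  let H : Finset (N ≃ₐ[K] N) := Finset.univ.filter (fun g => Stb K W g)
  have h1H : (1 : N ≃ₐ[K] N) ∈ H := by
    rw [Finset.mem_filter]
    exact ⟨Finset.mem_univ _, fun y => by rw [AlgEquiv.one_apply]⟩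
  have hcard : (H.card : N) ≠ 0 := by
    rw [Nat.cast_ne_zero]
    exact Finset.card_ne_zero_of_mem h1H
  have hcardK : (H.card : K) ≠ 0 := by
    rw [Nat.cast_ne_zero]
    exact Finset.card_ne_zero_of_mem h1H
  have hWc : W.valuation N (H.card : N) ≠ 0 := (Valuation.ne_zero_iff _).mpr hcard
  have hε' : ε * W.valuation N (H.card : N) ≠ 0 := mul_ne_zero hε hWc
  obtain ⟨y, hy1, hy2⟩ := approx_one W (Finset.univ.image Wg) x hε'
  refine ⟨Algebra.trace K N y / (H.card : K), ?_⟩
  let c : (N ≃ₐ[K] N) → N := fun g => if Stb K W g then x - g y else -(g y)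
  have hc : ∀ g ∈ (Finset.univ : Finset (N ≃ₐ[K] N)),
      W.valuation N (c g) < ε * W.valuation N (H.card : N) := by
    intro g _
    by_cases hg : Stb K W g
    · have h1 : c g = g (x - y) := by
        change (if Stb K W g then x - g y else -(g y)) = _
        rw [if_pos hg, map_sub, hx g hg]
      rw [h1, hg]
      exact hy1
    · have h1 : c g = -(g y) := if_neg hg
      rw [h1, Valuation.map_neg, hWg]
      refine hy2 _ (Finset.mem_image_of_mem _ (Finset.mem_univ _)) ?_
      intro h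
      apply hg
      intro z
      rw [hWg, h]
  have hsum := Valuation.map_sum_lt (W.valuation N) hε' hc
  have htot : ∑ g : N ≃ₐ[K] N, c g = (H.card : N) * x - algebraMap K N (Algebra.trace K N y) := by
    rw [trace_eq_sum_automorphisms]
    have h1 : ∀ g : N ≃ₐ[K] N, c g = (if Stb K W g then x else 0) - g y := by
      intro g
      change (if Stb K W g then x - g y else -(g y)) = _
      split_ifs
      · rfl
      · rw [zero_sub]
    rw [Finset.sum_congr rfl (fun g _ => h1 g), Finset.sum_sub_distrib, ← Finset.sum_filter,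
      Finset.sum_const, nsmul_eq_mul]
  have hfin : x - algebraMap K N (Algebra.trace K N y / (H.card : K)) =
      (∑ g : N ≃ₐ[K] N, c g) / (H.card : N) := by
    rw [htot, map_div₀, map_natCast, sub_div, mul_div_cancel_left₀ _ hcard]
  rw [hfin, map_div₀, div_lt_iff₀ (zero_lt_iff.mpr hWc)]
  exact hsum

end H36CY

end S_H36_CY_De

section S_H36_CY_Ia

set_option autoImplicit false
set_option linter.unusedSectionVars false
open scoped Classical

open WithZero NumberField IsDedekindDomain H76PP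

namespace H36CY

variable {K N : Type} [Field K] [NumberField K] [Field N] [NumberField N] [Algebra K N]

theorem act_iso {W : HeightOneSpectrum (𝓞 N)} {g : N ≃ₐ[K] N} (hg : Stb K W g)
    {φ : W.adicCompletion N →+* W.adicCompletion N} (hφc : Continuous φ)
    (hφ : ∀ x : N, φ (algebraMap N (W.adicCompletion N) x) =
      algebraMap N (W.adicCompletion N) (g x)) (z : W.adicCompletion N) :
    Valued.v (φ z) = Valued.v z := by
  by_cases hz : z = 0
  · rw [hz, map_zero]
  have hφz : φ z ≠ 0 := (map_ne_zero φ).2 hz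
  have hdense : DenseRange (⇑(algebraMap N (W.adicCompletion N))) :=
    HeightOneSpectrum.denseRange_algebraMap (K := N) W
  have n1 := Valued.locally_const (x := z) ((Valuation.ne_zero_iff _).2 hz)
  have n2 := hφc.continuousAt.preimage_mem_nhds
    (Valued.locally_const (x := φ z) ((Valuation.ne_zero_iff _).2 hφz))
  obtain ⟨x, hx⟩ := hdense.mem_nhds (Filter.inter_mem n1 n2)
  have h1 : Valued.v (algebraMap N (W.adicCompletion N) x) = Valued.v z := hx.1
  have h2 : Valued.v (φ (algebraMap N (W.adicCompletion N) x)) = Valued.v (φ z) := hx.2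
  have hiv : ∀ k : N, Valued.v (algebraMap N (W.adicCompletion N) k) = W.valuation N k := fun k =>
    HeightOneSpectrum.valuedAdicCompletion_eq_valuation' W k
  rw [← h1, ← h2, hφ, hiv, hiv, hg x]

theorem dense_hat [IsGalois K N] {W : HeightOneSpectrum (𝓞 N)} {τ : N ≃ₐ[K] N}
    (hτ : ∀ g : N ≃ₐ[K] N, Stb K W g ↔ g ∈ Subgroup.zpowers τ)
    {φ : W.adicCompletion N →+* W.adicCompletion N} (hφc : Continuous φ)
    (hφ : ∀ x : N, φ (algebraMap N (W.adicCompletion N) x) =
      algebraMap N (W.adicCompletion N) (τ x)) {y : W.adicCompletion N} (hy : φ y = y)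
    {ε : WithZero (Multiplicative ℤ)} (hε : ε ≠ 0) :
    ∃ t : K, Valued.v (y - algebraMap N (W.adicCompletion N) (algebraMap K N t)) < ε := by
  have : FiniteDimensional K N := Module.Finite.of_restrictScalars_finite ℚ K N
  set i := algebraMap N (W.adicCompletion N) with hi
  have hiv : ∀ k : N, Valued.v (i k) = W.valuation N k := fun k =>
    HeightOneSpectrum.valuedAdicCompletion_eq_valuation' W k
  have hdense : DenseRange (⇑i) := HeightOneSpectrum.denseRange_algebraMap (K := N) W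
  have hst : Stb K W τ := (hτ τ).2 (Subgroup.mem_zpowers τ)
  have hm : 0 < orderOf τ := orderOf_pos τ
  set m := orderOf τ with hmdef
  have hmN : (m : N) ≠ 0 := Nat.cast_ne_zero.2 hm.ne'
  obtain ⟨π, hπ⟩ := W.valuation_exists_uniformizer N
  have hπ0 : π ≠ 0 := by
    rintro rfl
    rw [map_zero] at hπ
    exact absurd hπ.symm (by simp)
  have hπ1 : W.valuation N π < 1 := by
    rw [hπ]
    exact (WithZero.exp_lt_exp.2 (by norm_num : (-1 : ℤ) < 0)).trans_eq WithZero.exp_zero
  obtain ⟨n, hn⟩ := exists_pow_lt₀ hπ1 (Units.mk0 ε hε)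
  rw [Units.val_mk0] at hn
  have hc'0 : i (π ^ n * m) ≠ 0 := (map_ne_zero i).2 (mul_ne_zero (pow_ne_zero _ hπ0) hmN)
  obtain ⟨c, hc⟩ := hdense.mem_nhds (Te_nhd y hc'0)
  have hc1 : Valued.v (y - i c) < Valued.v (i (π ^ n * m)) := by
    rw [Valuation.map_sub_swap]
    exact hc
  have hj : ∀ j : ℕ, Valued.v (y - i ((τ ^ j) c)) = Valued.v (y - i c) := by
    intro j
    induction j with
    | zero => simp
    | succ j ih =>
      have h1 : y - i ((τ ^ (j + 1)) c) = φ (y - i ((τ ^ j) c)) := by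
        rw [map_sub, hy, hφ, pow_succ', AlgEquiv.mul_apply]
      rw [h1, act_iso hst hφc hφ, ih]
  set S : N := ∑ j ∈ Finset.range m, (τ ^ j) c with hS
  have hτS : τ S = S := by
    rw [hS, map_sum]
    have h1 : ∀ j ∈ Finset.range m, τ ((τ ^ j) c) = (τ ^ (j + 1)) c := by
      intro j _
      rw [pow_succ', AlgEquiv.mul_apply]
    rw [Finset.sum_congr rfl h1]
    have h2 := Finset.sum_range_succ' (fun j => (τ ^ j) c) m
    rw [Finset.sum_range_succ] at h2
    have h3 : (τ ^ m) c = (τ ^ 0) c := by rw [hmdef, pow_orderOf_eq_one, pow_zero]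
    rw [h3] at h2
    exact (add_right_cancel h2).symm
  have hfix : ∀ g : N ≃ₐ[K] N, Stb K W g → g (S / m) = S / m := by
    intro g hg
    have h1 : Subgroup.zpowers τ ≤ MulAction.stabilizer (N ≃ₐ[K] N) (S / (m : N)) := by
      rw [Subgroup.zpowers_le, MulAction.mem_stabilizer_iff, AlgEquiv.smul_def, map_div₀, hτS,
        map_natCast]
    have h2 := h1 ((hτ g).1 hg)
    rwa [MulAction.mem_stabilizer_iff, AlgEquiv.smul_def] at h2
  obtain ⟨t, ht⟩ := dense_fix W hfix hε
  refine ⟨t, ?_⟩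
  have h1 : (m : W.adicCompletion N) * (y - i (S / m)) =
      ∑ j ∈ Finset.range m, (y - i ((τ ^ j) c)) := by
    rw [Finset.sum_sub_distrib, Finset.sum_const, Finset.card_range, nsmul_eq_mul, ← map_sum,
      ← hS, mul_sub, map_div₀, map_natCast, mul_div_cancel₀]
    rw [← map_natCast i]
    exact (map_ne_zero i).2 hmN
  have h2 : Valued.v ((m : W.adicCompletion N) * (y - i (S / m))) < Valued.v (i (π ^ n * m)) := by
    rw [h1]
    refine Valuation.map_sum_lt _ ((Valuation.ne_zero_iff _).2 hc'0) fun j _ => ?_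
    rw [hj]
    exact hc1
  have h3 : Valued.v (y - i (S / m)) < ε := by
    rw [map_mul i, map_mul, map_mul, map_natCast i, mul_comm (Valued.v (i (π ^ n)))] at h2
    have h4 := lt_of_mul_lt_mul_left h2 zero_le
    rw [map_pow, map_pow, hiv] at h4
    exact h4.trans hn
  have h4 : y - i (algebraMap K N t) = (y - i (S / m)) + i (S / m - algebraMap K N t) := by
    rw [map_sub]
    ring
  rw [h4]
  refine Valuation.map_add_lt _ h3 ?_
  rw [hiv]
  exact ht

end H36CY

end S_H36_CY_Ia

section S_H36_CY_Ba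

set_option autoImplicit false
set_option linter.unusedSectionVars false
open scoped Classical

open WithZero NumberField IsDedekindDomain H76PP

namespace H36CY

variable {K N : Type} [Field K] [NumberField K] [Field N] [NumberField N] [Algebra K N]

theorem to_base [IsGalois K N] {W : HeightOneSpectrum (𝓞 N)} {τ : N ≃ₐ[K] N}
    (hτ : ∀ g : N ≃ₐ[K] N, Stb K W g ↔ g ∈ Subgroup.zpowers τ)
    {φ : W.adicCompletion N →+* W.adicCompletion N} (hφc : Continuous φ)
    (hφ : ∀ x : N, φ (algebraMap N (W.adicCompletion N) x) =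
      algebraMap N (W.adicCompletion N) (τ x)) {q D : K} (hq : q ≠ 0) {γ ρ : W.adicCompletion N}
    (hγ : φ (φ γ) = γ)
    (hN : γ * φ γ = algebraMap N (W.adicCompletion N) (algebraMap K N q))
    (hρ : ρ ^ 2 = algebraMap N (W.adicCompletion N) (algebraMap K N D)) (hρ0 : ρ ≠ 0)
    (hρτ : φ ρ = -ρ) :
    ∃ X Y : (dn K W).adicCompletion K, X ^ 2 - algebraMap K ((dn K W).adicCompletion K) D * Y ^ 2 =
      algebraMap K ((dn K W).adicCompletion K) q := by
  set i := algebraMap N (W.adicCompletion N) with hi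
  have hch : CharZero (W.adicCompletion N) :=
    charZero_of_injective_algebraMap (algebraMap N (W.adicCompletion N)).injective
  have hch' : CharZero ((dn K W).adicCompletion K) :=
    charZero_of_injective_algebraMap (algebraMap K ((dn K W).adicCompletion K)).injective
  have hiv : ∀ k : N, Valued.v (i k) = W.valuation N k := fun k =>
    HeightOneSpectrum.valuedAdicCompletion_eq_valuation' W k
  have h2 : (2 : W.adicCompletion N) ≠ 0 := two_ne_zero
  obtain ⟨s, hs⟩ : ∃ s, s = (γ + φ γ) / 2 := ⟨_, rfl⟩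
  obtain ⟨r, hr⟩ : ∃ r, r = (γ - φ γ) / (2 * ρ) := ⟨_, rfl⟩
  have hφs : φ s = s := by
    rw [hs, map_div₀, map_add, hγ, map_ofNat, add_comm]
  have hφr : φ r = r := by
    rw [hr, map_div₀, map_sub, hγ, map_mul, map_ofNat, hρτ]
    field_simp
    ring
  have hq2 : s ^ 2 - i (algebraMap K N D) * r ^ 2 = i (algebraMap K N q) := by
    rw [← hN, ← hρ, hs, hr]
    field_simp
    ring
  obtain ⟨M, hM⟩ : ∃ M, M = max 1 (max (Valued.v s) (Valued.v r)) := ⟨_, rfl⟩
  obtain ⟨M', hM'⟩ : ∃ M', M' = max 1 (Valued.v (i (algebraMap K N D))) := ⟨_, rfl⟩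
  have hM1 : 1 ≤ M := hM ▸ le_max_left _ _
  have hMs : Valued.v s ≤ M := hM ▸ (le_max_left _ _).trans (le_max_right _ _)
  have hMr : Valued.v r ≤ M := hM ▸ (le_max_right _ _).trans (le_max_right _ _)
  have hM'1 : 1 ≤ M' := hM' ▸ le_max_left _ _
  have hMD : Valued.v (i (algebraMap K N D)) ≤ M' := hM' ▸ le_max_right _ _
  have hMpos : 0 < M := zero_lt_one.trans_le hM1
  have hM'pos : 0 < M' := zero_lt_one.trans_le hM'1
  have h4q : (4 : K) * q ≠ 0 := mul_ne_zero (by norm_num) hq
  have hC0 : Valued.v (i (algebraMap K N (4 * q))) ≠ 0 := by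
    rw [Valuation.ne_zero_iff]
    exact (map_ne_zero i).2 ((map_ne_zero _).2 h4q)
  have hMM : 0 < M * M' := mul_pos hMpos hM'pos
  obtain ⟨n, hn⟩ : ∃ n : ℕ, exp (-(n : ℤ)) <
      Valued.v (i (algebraMap K N (4 * q))) / (M * M') :=
    exists_exp_neg_natCast_lt (div_ne_zero hC0 hMM.ne')
  rw [lt_div_iff₀ hMM] at hn
  obtain ⟨ε, hε⟩ : ∃ ε : WithZero (Multiplicative ℤ), ε = exp (-(n : ℤ)) := ⟨_, rfl⟩
  have hε0 : ε ≠ 0 := by
    rw [hε]
    exact exp_ne_zero
  have hε1 : ε ≤ 1 := by
    rw [hε, ← exp_zero, exp_le_exp]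
    omega
  rw [← hε] at hn
  obtain ⟨X₀, hX⟩ := dense_hat (K := K) hτ hφc hφ hφs hε0
  obtain ⟨Y₀, hY⟩ := dense_hat (K := K) hτ hφc hφ hφr hε0
  change Valued.v (s - i (algebraMap K N X₀)) < ε at hX
  change Valued.v (r - i (algebraMap K N Y₀)) < ε at hY
  have key : ∀ a b : W.adicCompletion N, Valued.v a ≤ M → Valued.v (a - b) < ε →
      Valued.v (a ^ 2 - b ^ 2) ≤ ε * M := by
    intro a b ha hab
    have h1 : Valued.v (a - b) ≤ M := hab.le.trans (hε1.trans hM1)
    have h3 : Valued.v b ≤ M := by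
      have h4 : b = a - (a - b) := by ring
      rw [h4]
      exact Valuation.map_sub_le _ ha h1
    have h5 : Valued.v (a + b) ≤ M := Valuation.map_add_le _ ha h3
    have h6 : a ^ 2 - b ^ 2 = (a - b) * (a + b) := by ring
    rw [h6, map_mul]
    exact mul_le_mul' hab.le h5
  have k1 := key s _ hMs hX
  have k2 := key r _ hMr hY
  have c1 : Valued.v (s ^ 2 - i (algebraMap K N X₀) ^ 2) <
      Valued.v (i (algebraMap K N (4 * q))) := by
    refine lt_of_le_of_lt ?_ hn
    refine k1.trans ?_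
    have h7 : ε * M * 1 ≤ ε * M * M' := mul_le_mul' le_rfl hM'1
    rw [mul_one, mul_assoc] at h7
    exact h7
  have c2 : Valued.v (i (algebraMap K N D) * (r ^ 2 - i (algebraMap K N Y₀) ^ 2)) <
      Valued.v (i (algebraMap K N (4 * q))) := by
    refine lt_of_le_of_lt ?_ hn
    rw [map_mul]
    calc Valued.v (i (algebraMap K N D)) * Valued.v (r ^ 2 - i (algebraMap K N Y₀) ^ 2)
        ≤ M' * (ε * M) := mul_le_mul' hMD k2
      _ = ε * (M * M') := by rw [mul_comm M', mul_assoc]
  have c3 : Valued.v (i (algebraMap K N (X₀ ^ 2 - D * Y₀ ^ 2 - q))) <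
      Valued.v (i (algebraMap K N (4 * q))) := by
    have h8 : i (algebraMap K N (X₀ ^ 2 - D * Y₀ ^ 2 - q)) =
        i (algebraMap K N D) * (r ^ 2 - i (algebraMap K N Y₀) ^ 2) -
          (s ^ 2 - i (algebraMap K N X₀) ^ 2) := by
      simp only [map_sub, map_mul, map_pow]
      rw [← hq2]
      ring
    rw [h8]
    exact Valuation.map_sub_lt _ c2 c1
  rw [hiv, hiv] at c3
  have c4 := (val_lt_iff (K := K) W (X₀ ^ 2 - D * Y₀ ^ 2 - q) (4 * q)).1 c3
  have hkv : ∀ k : K, Valued.v (algebraMap K ((dn K W).adicCompletion K) k) =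
      (dn K W).valuation K k := fun k =>
    HeightOneSpectrum.valuedAdicCompletion_eq_valuation' (dn K W) k
  rw [← hkv, ← hkv] at c4
  have c5 : Valued.v (algebraMap K ((dn K W).adicCompletion K) (X₀ ^ 2 - D * Y₀ ^ 2) -
      algebraMap K ((dn K W).adicCompletion K) q) <
      Valued.v (4 * algebraMap K ((dn K W).adicCompletion K) q) := by
    rw [← map_sub]
    have h9 : (4 : (dn K W).adicCompletion K) * algebraMap K ((dn K W).adicCompletion K) q =
        algebraMap K ((dn K W).adicCompletion K) (4 * q) := by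
      rw [map_mul, map_ofNat]
    rw [h9]
    exact c4
  obtain ⟨r', hr', hy⟩ := sq_near c5
  refine ⟨algebraMap K ((dn K W).adicCompletion K) X₀ / r',
    algebraMap K ((dn K W).adicCompletion K) Y₀ / r', ?_⟩
  simp only [map_sub, map_mul, map_pow] at hy
  have h10 : (algebraMap K ((dn K W).adicCompletion K) X₀ / r') ^ 2 -
      algebraMap K ((dn K W).adicCompletion K) D *
        (algebraMap K ((dn K W).adicCompletion K) Y₀ / r') ^ 2 =
      (algebraMap K ((dn K W).adicCompletion K) X₀ ^ 2 -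
        algebraMap K ((dn K W).adicCompletion K) D *
          algebraMap K ((dn K W).adicCompletion K) Y₀ ^ 2) / r' ^ 2 := by
    rw [div_pow, div_pow]
    ring
  rw [h10, hy, mul_div_assoc, div_self (pow_ne_zero 2 hr'), mul_one]

end H36CY

end S_H36_CY_Ba
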