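import Mathlib
import Pool.Agent.H76.PN.P1
import Pool.Agent.H76.PN.P2
import Pool.Agent.H76.CQ.Qb

/-! This file joins several modules to save build time (Qc). -/

set_option autoImplicit false

section S_H36_CY_Ly

set_option autoImplicit false
set_option linter.unusedSectionVars false
open scoped Classical

open WithZero NumberField IsDedekindDomain H76PP

namespace H36CY

variable {K N : Type} [Field K] [NumberField K] [Field N] [NumberField N] [Algebra K N]

theorem conj_exists [IsGalois K N] {W W' : HeightOneSpectrum (𝓞 N)} (h : dn K W' = dn K W) :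
    ∃ g : N ≃ₐ[K] N, ∀ x : N, W'.valuation N x = W.valuation N (g x) := by
  have hp : (dn K W).asIdeal = W.asIdeal.comap (algebraMap (𝓞 K) (𝓞 N)) := rfl
  have hp' : (dn K W).asIdeal = W'.asIdeal.comap (algebraMap (𝓞 K) (𝓞 N)) := by
    rw [← h]
    rfl
  have i1 : W.asIdeal.IsPrime := W.isPrime
  have i2 : W'.asIdeal.IsPrime := W'.isPrime
  have i3 : W.asIdeal.LiesOver (dn K W).asIdeal := ⟨hp⟩
  have i4 : W'.asIdeal.LiesOver (dn K W).asIdeal := ⟨hp'⟩
  obtain ⟨g, hg⟩ := Ideal.exists_smul_eq_of_isGaloisGroup (dn K W).asIdeal W'.asIdeal W.asIdeal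
    (N ≃ₐ[K] N)
  obtain ⟨W2, hW2, -⟩ := Pool.Agent.H10.exists_conj g W
  have hmem : ∀ x : 𝓞 N, x ∈ W2.asIdeal ↔ x ∈ W'.asIdeal := by
    intro x
    have e1 : x ∈ W2.asIdeal ↔ W2.valuation N (algebraMap (𝓞 N) N x) < 1 :=
      (W2.valuation_lt_one_iff_mem x).symm
    have e2 : W.valuation N (algebraMap (𝓞 N) N (g • x)) < 1 ↔ g • x ∈ W.asIdeal :=
      W.valuation_lt_one_iff_mem (g • x)
    have e3 : algebraMap (𝓞 N) N (g • x) = g (algebraMap (𝓞 N) N x) := rfl
    rw [e1, ← hW2, ← e3, e2, ← hg]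
    exact Ideal.smul_mem_pointwise_smul_iff
  have hWW : W2 = W' := HeightOneSpectrum.ext (Ideal.ext hmem)
  refine ⟨g, fun x => ?_⟩
  rw [hW2, hWW]

private theorem Ly_stb {W W' : HeightOneSpectrum (𝓞 N)} {g : N ≃ₐ[K] N}
    (hg : ∀ x : N, W'.valuation N x = W.valuation N (g x)) (s : N ≃ₐ[K] N) :
    Stb K W' s ↔ Stb K W (g * s * g⁻¹) := by
  unfold Stb
  constructor
  · intro h z
    have h1 := h (g⁻¹ z)
    rw [hg, hg] at h1
    have h2 : g (g⁻¹ z) = z := g.apply_symm_apply z
    rw [h2] at h1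
    exact h1
  · intro h y
    rw [hg, hg]
    have h1 := h (g y)
    have h2 : (g * s * g⁻¹) (g y) = g (s y) := by
      have h3 : g⁻¹ (g y) = y := g.symm_apply_apply y
      rw [AlgEquiv.mul_apply, AlgEquiv.mul_apply, h3]
    rw [h2] at h1
    exact h1

theorem lay_conj [IsGalois K N] {W W' : HeightOneSpectrum (𝓞 N)} (h : dn K W' = dn K W) {D : K}
    (hL : Lay K W D) : Lay K W' D := by
  obtain ⟨g, hg⟩ := conj_exists h
  obtain ⟨τ, ρ, hT⟩ := hL
  have hgg : ∀ z : N, g (g⁻¹ z) = z := fun z => g.apply_symm_apply z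
  refine ⟨g⁻¹ * τ * g, g⁻¹ ρ, ⟨?_, ?_, ?_, ?_⟩⟩
  · intro s
    rw [Ly_stb hg, hT.gen, Subgroup.mem_zpowers_iff, Subgroup.mem_zpowers_iff]
    have hc : ∀ n : ℤ, (g⁻¹ * τ * g) ^ n = g⁻¹ * τ ^ n * g := by
      intro n
      have := conj_zpow (a := g⁻¹) (b := τ) (i := n)
      rw [inv_inv] at this
      exact this
    constructor
    · rintro ⟨n, hn⟩
      refine ⟨n, ?_⟩
      rw [hc, hn]
      group
    · rintro ⟨n, hn⟩
      refine ⟨n, ?_⟩
      rw [← hn, hc]
      group
  · intro h0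
    apply hT.ne
    have := congrArg g h0
    rw [hgg, map_zero] at this
    exact this
  · rw [AlgEquiv.mul_apply, AlgEquiv.mul_apply, hgg, hT.neg, map_neg]
  · rw [hg, hg, map_sub, map_pow, map_mul, hgg, map_ofNat, AlgEquiv.commutes]
    exact hT.near

theorem triv_conj [IsGalois K N] {W W' : HeightOneSpectrum (𝓞 N)} (h : dn K W' = dn K W)
    (hL : ∀ g : N ≃ₐ[K] N, Stb K W g → g = 1) : ∀ g : N ≃ₐ[K] N, Stb K W' g → g = 1 := by
  obtain ⟨g, hg⟩ := conj_exists h
  intro s hs
  have h1 := hL _ ((Ly_stb hg s).1 hs)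
  have h2 : g * s = g := by
    have := congrArg (fun t => t * g) h1
    simpa using this
  exact mul_left_cancel (h2.trans (mul_one g).symm)

private theorem Ly_four (W : HeightOneSpectrum (𝓞 N)) : W.valuation N 4 ≤ 1 := by
  have e : algebraMap (𝓞 N) N 4 = 4 := map_ofNat _ 4
  rw [← e]
  exact W.valuation_le_one 4

private theorem Ly_neg (τ : N ≃ₐ[K] N) (n : ℕ) (hτ : orderOf τ = 2 ^ (n + 1)) :
    ∀ j : ℕ, j ≤ n → ∃ ρ : N, ρ ≠ 0 ∧ (τ ^ (2 ^ (n - j))) ρ = -ρ := by
  intro j
  induction j with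
  | zero =>
    intro _
    rw [Nat.sub_zero]
    have h1 : τ ^ (2 ^ n) ≠ 1 := by
      intro h
      have h2 := orderOf_dvd_of_pow_eq_one h
      rw [hτ] at h2
      have h3 := Nat.le_of_dvd (by positivity) h2
      have h4 : 2 ^ n < 2 ^ (n + 1) := Nat.pow_lt_pow_right (by norm_num) (Nat.lt_succ_self n)
      omega
    have h2 : ∃ x : N, (τ ^ (2 ^ n)) x ≠ x := by
      by_contra hcon
      push Not at hcon
      exact h1 (AlgEquiv.ext hcon)
    obtain ⟨x, hx⟩ := h2
    have h3 : (τ ^ (2 ^ n)) ((τ ^ (2 ^ n)) x) = x := by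
      rw [← AlgEquiv.mul_apply, ← pow_add]
      have h4 : 2 ^ n + 2 ^ n = orderOf τ := by
        rw [hτ]
        ring
      rw [h4, pow_orderOf_eq_one, AlgEquiv.one_apply]
    refine ⟨x - (τ ^ (2 ^ n)) x, fun h => hx (sub_eq_zero.1 h).symm, ?_⟩
    rw [map_sub, h3]
    ring
  | succ j ih =>
    intro hj
    obtain ⟨ρ, hρ0, hρ⟩ := ih (by omega)
    have he : 2 ^ (n - j) = 2 ^ (n - (j + 1)) + 2 ^ (n - (j + 1)) := by
      have : n - j = (n - (j + 1)) + 1 := by omega
      rw [this, pow_succ]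
      ring
    obtain ⟨σ, hσ⟩ : ∃ σ : N →+* N, ∀ x, σ x = (τ ^ (2 ^ (n - (j + 1)))) x :=
      ⟨((τ ^ (2 ^ (n - (j + 1)))).toRingEquiv : N →+* N), fun x => rfl⟩
    have h1 : σ (σ ρ) = -ρ := by
      rw [hσ, hσ, ← AlgEquiv.mul_apply, ← pow_add, ← he]
      exact hρ
    obtain ⟨ρ', h2, h3, -⟩ := drop_root σ hρ0 h1
    refine ⟨ρ', h2, ?_⟩
    rw [← hσ]
    exact h3

theorem lay_exists [IsGalois K N] {r : ℕ} (hr : Module.finrank K N = 2 ^ r)
    {W : HeightOneSpectrum (𝓞 N)} {τ : N ≃ₐ[K] N}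
    (hτ : ∀ g : N ≃ₐ[K] N, Stb K W g ↔ g ∈ Subgroup.zpowers τ) :
    (∀ g : N ≃ₐ[K] N, Stb K W g → g = 1) ∨ ∃ D : K, Lay K W D := by
  have hcard : Nat.card (N ≃ₐ[K] N) = 2 ^ r := by
    rw [IsGalois.card_aut_eq_finrank, hr]
  have hord : orderOf τ ∣ 2 ^ r := by
    rw [← hcard]
    exact orderOf_dvd_natCard τ
  obtain ⟨n, -, hn⟩ := (Nat.dvd_prime_pow Nat.prime_two).1 hord
  cases n with
  | zero =>
    left
    rw [pow_zero, orderOf_eq_one_iff] at hn
    intro g hg
    have h1 := (hτ g).1 hg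
    rw [hn, Subgroup.zpowers_one_eq_bot, Subgroup.mem_bot] at h1
    exact h1
  | succ n =>
    right
    obtain ⟨ρ, hρ0, hρ⟩ := Ly_neg τ n hn n le_rfl
    rw [Nat.sub_self, pow_zero, pow_one] at hρ
    have hfix : ∀ g : N ≃ₐ[K] N, Stb K W g → g (ρ ^ 2) = ρ ^ 2 := by
      intro g hg
      have h1 := (hτ g).1 hg
      have h2 : Subgroup.zpowers τ ≤ MulAction.stabilizer (N ≃ₐ[K] N) (ρ ^ 2) := by
        rw [Subgroup.zpowers_le, MulAction.mem_stabilizer_iff]
        show τ (ρ ^ 2) = ρ ^ 2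
        rw [map_pow, hρ]
        ring
      exact h2 h1
    have hv0 : W.valuation N (4 * ρ ^ 2) ≠ 0 := by
      rw [Valuation.ne_zero_iff]
      have h4 : (4 : N) ≠ 0 := by norm_num
      exact mul_ne_zero h4 (pow_ne_zero 2 hρ0)
    obtain ⟨D, hD⟩ := dense_fix W hfix hv0
    have h1 : W.valuation N (4 * ρ ^ 2) ≤ W.valuation N (ρ ^ 2) := by
      rw [map_mul]
      exact mul_le_of_le_one_left' (Ly_four W)
    have h2 : W.valuation N (algebraMap K N D) = W.valuation N (ρ ^ 2) := by
      apply Valuation.map_eq_of_sub_lt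
      rw [Valuation.map_sub_swap]
      exact lt_of_lt_of_le hD h1
    refine ⟨D, τ, ρ, ⟨hτ, hρ0, hρ, ?_⟩⟩
    rw [map_mul (W.valuation N) 4 (algebraMap K N D), h2, ← map_mul]
    exact hD

theorem lay_root {W : HeightOneSpectrum (𝓞 N)} {τ : N ≃ₐ[K] N} {ρ : N} {D : K}
    (h : LayT K W τ ρ D) {φ : W.adicCompletion N →+* W.adicCompletion N} (hφc : Continuous φ)
    (hφ : ∀ x : N, φ (algebraMap N (W.adicCompletion N) x) =
      algebraMap N (W.adicCompletion N) (τ x)) :
    ∃ ρ' : W.adicCompletion N, ρ' ^ 2 = algebraMap N (W.adicCompletion N) (algebraMap K N D) ∧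
      ρ' ≠ 0 ∧ φ ρ' = -ρ' := by
  have hcz : CharZero (W.adicCompletion N) :=
    charZero_of_injective_algebraMap (algebraMap N (W.adicCompletion N)).injective
  obtain ⟨a, ha⟩ : ∃ a : W.adicCompletion N, a = algebraMap N (W.adicCompletion N) ρ := ⟨_, rfl⟩
  obtain ⟨b, hb⟩ : ∃ b : W.adicCompletion N,
    b = algebraMap N (W.adicCompletion N) (algebraMap K N D) := ⟨_, rfl⟩
  have hval : ∀ x : N, Valued.v (algebraMap N (W.adicCompletion N) x) = W.valuation N x :=
    fun x => HeightOneSpectrum.valuedAdicCompletion_eq_valuation' W x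
  have hnear : Valued.v (a ^ 2 - b) < Valued.v (4 * b) := by
    have h1 : a ^ 2 - b = algebraMap N (W.adicCompletion N) (ρ ^ 2 - algebraMap K N D) := by
      rw [map_sub, map_pow, ha, hb]
    have h2 : 4 * b = algebraMap N (W.adicCompletion N) (4 * algebraMap K N D) := by
      rw [map_mul, map_ofNat, hb]
    rw [h1, h2, hval, hval]
    exact h.near
  obtain ⟨κ, hκ0, hκ⟩ := sq_near hnear
  have hφa : φ a = -a := by
    rw [ha, hφ, h.neg, map_neg]
  have hφb : φ b = b := by
    rw [hb, hφ, AlgEquiv.commutes]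
  have ha0 : a ≠ 0 := by
    rw [ha]
    intro h0
    exact h.ne ((map_eq_zero_iff _ (algebraMap N (W.adicCompletion N)).injective).1 h0)
  have hb0 : b ≠ 0 := by
    intro h0
    rw [h0, zero_mul] at hκ
    exact ha0 (pow_eq_zero_iff two_ne_zero |>.1 hκ)
  have hstab : Stb K W τ := (h.gen τ).2 (Subgroup.mem_zpowers τ)
  have hiso := act_iso hstab hφc hφ
  have hlt : Valued.v (κ ^ 2 - 1) < Valued.v (4 : W.adicCompletion N) := by
    have h1 : a ^ 2 - b = b * (κ ^ 2 - 1) := by
      rw [hκ]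
      ring
    rw [h1, map_mul, map_mul, mul_comm (Valued.v (4 : W.adicCompletion N))] at hnear
    exact lt_of_mul_lt_mul_left' hnear
  -- choose the sign
  have hsign : ∃ κ' : W.adicCompletion N, κ' ≠ 0 ∧ a ^ 2 = b * κ' ^ 2 ∧
      Valued.v (κ' - 1) < Valued.v (2 : W.adicCompletion N) := by
    by_cases h1 : Valued.v (κ - 1) < Valued.v (2 : W.adicCompletion N)
    · exact ⟨κ, hκ0, hκ, h1⟩
    · by_cases h2 : Valued.v (κ + 1) < Valued.v (2 : W.adicCompletion N)
      · refine ⟨-κ, neg_ne_zero.2 hκ0, by rw [hκ]; ring, ?_⟩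
        have h3 : -κ - 1 = -(κ + 1) := by ring
        rw [h3, Valuation.map_neg]
        exact h2
      · exfalso
        rw [not_lt] at h1 h2
        have h3 := mul_le_mul' h1 h2
        have h4 : Valued.v (κ ^ 2 - 1) = Valued.v (κ - 1) * Valued.v (κ + 1) := by
          rw [← map_mul]
          congr 1
          ring
        have h5 : Valued.v (4 : W.adicCompletion N) =
            Valued.v (2 : W.adicCompletion N) * Valued.v (2 : W.adicCompletion N) := by
          rw [← map_mul]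
          congr 1
          norm_num
        rw [← h4, ← h5] at h3
        exact absurd hlt (not_lt.2 h3)
  obtain ⟨κ', hκ0', hκ', hlt'⟩ := hsign
  have hsq : (φ κ') ^ 2 = κ' ^ 2 := by
    have h1 := congrArg φ hκ'
    rw [map_pow, hφa, map_mul, hφb, map_pow, neg_sq, hκ'] at h1
    exact (mul_left_cancel₀ hb0 h1).symm
  have hfix : φ κ' = κ' := by
    rcases sq_eq_sq_iff_eq_or_eq_neg.1 hsq with h1 | h1
    · exact h1
    · exfalso
      have h2 := hiso (κ' - 1)
      rw [map_sub, map_one, h1] at h2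
      have h3 : -κ' - 1 = -(κ' + 1) := by ring
      rw [h3, Valuation.map_neg] at h2
      have h4 : Valued.v (κ' + 1) < Valued.v (2 : W.adicCompletion N) := by
        rw [h2]
        exact hlt'
      have h5 : Valued.v ((κ' + 1) - (κ' - 1)) < Valued.v (2 : W.adicCompletion N) :=
        Valuation.map_sub_lt _ h4 hlt'
      have h6 : (κ' + 1) - (κ' - 1) = 2 := by ring
      rw [h6] at h5
      exact lt_irrefl _ h5
  refine ⟨a / κ', ?_, div_ne_zero ha0 hκ0', ?_⟩
  · rw [div_pow, hκ', ← hb]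
    field_simp
  · rw [map_div₀, hφa, hfix]
    ring

end H36CY

end S_H36_CY_Ly

section S_H36_CY_Ke

set_option autoImplicit false
set_option linter.unusedSectionVars false
open scoped Classical

open WithZero NumberField IsDedekindDomain H76PP

namespace H36CY

theorem two_span {k k' : Type} [Field k] [Field k'] [Algebra k k'] (two : Module.finrank k k' = 2)
    {ρ : k'} (hρk : ∀ y : k, algebraMap k k' y ≠ ρ) (ζ : k') :
    ∃ s t : k, ζ = algebraMap k k' s + algebraMap k k' t * ρ := by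
  have hfd : FiniteDimensional k k' := Module.finite_of_finrank_pos (by omega)
  have hli : LinearIndependent k ![(1 : k'), ρ] := by
    rw [LinearIndependent.pair_iff]
    intro s t hst
    rw [Algebra.smul_def, Algebra.smul_def, mul_one] at hst
    by_cases ht : t = 0
    · subst ht
      rw [map_zero, zero_mul, add_zero, map_eq_zero] at hst
      exact ⟨hst, rfl⟩
    · exfalso
      have ht' : algebraMap k k' t ≠ 0 := by
        rw [Ne, map_eq_zero]
        exact ht
      refine hρk (-s / t) ?_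
      rw [map_div₀, map_neg, div_eq_iff ht']
      linear_combination -hst
  have hsp : Submodule.span k (Set.range ![(1 : k'), ρ]) = ⊤ :=
    hli.span_eq_top_of_card_eq_finrank' (by rw [two, Fintype.card_fin])
  have hζ : ζ ∈ Submodule.span k (Set.range ![(1 : k'), ρ]) := by
    rw [hsp]
    exact Submodule.mem_top
  rw [Matrix.range_cons_cons_empty, Submodule.mem_span_pair] at hζ
  obtain ⟨s, t, hst⟩ := hζ
  refine ⟨s, t, ?_⟩
  rw [← hst, Algebra.smul_def, Algebra.smul_def, mul_one]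

theorem Ke_uniq {k k' : Type} [Field k] [Field k'] [Algebra k k'] {ρ : k'}
    (hρk : ∀ y : k, algebraMap k k' y ≠ ρ) {s t s' t' : k}
    (h : algebraMap k k' s + algebraMap k k' t * ρ = algebraMap k k' s' + algebraMap k k' t' * ρ) :
    s = s' ∧ t = t' := by
  have ht : t = t' := by
    by_contra hne
    have h0 : algebraMap k k' (t - t') ≠ 0 := by
      rw [Ne, map_eq_zero, sub_eq_zero]
      exact hne
    refine hρk ((s' - s) / (t - t')) ?_
    rw [map_div₀, div_eq_iff h0, map_sub, map_sub]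
    linear_combination -h
  refine ⟨?_, ht⟩
  rw [ht] at h
  exact (algebraMap k k').injective (add_right_cancel h)

theorem exists_emb {k k' F : Type} [Field k] [Field k'] [Field F] [Algebra k k']
    (two : Module.finrank k k' = 2) {ρ : k'} {D : k} (hρ : ρ ^ 2 = algebraMap k k' D)
    (hρk : ∀ y : k, algebraMap k k' y ≠ ρ) (i : k →+* F) {r : F} (hr : r ^ 2 = i D) :
    ∃ j : k' →+* F, ∀ x : k, j (algebraMap k k' x) = i x := by
  choose s t hst using fun ζ => two_span two hρk ζ
  have hu : ∀ (ζ : k') (a b : k), ζ = algebraMap k k' a + algebraMap k k' b * ρ →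
      s ζ = a ∧ t ζ = b := by
    intro ζ a b h
    exact Ke_uniq hρk ((hst ζ).symm.trans h)
  refine ⟨{ toFun := fun ζ => i (s ζ) + i (t ζ) * r, map_one' := ?_, map_mul' := ?_,
            map_zero' := ?_, map_add' := ?_ }, ?_⟩
  · obtain ⟨h1, h2⟩ := hu 1 1 0 (by rw [map_one, map_zero, zero_mul, add_zero])
    rw [h1, h2, map_one, map_zero, zero_mul, add_zero]
  · intro ζ ξ
    obtain ⟨h1, h2⟩ := hu (ζ * ξ) (s ζ * s ξ + t ζ * t ξ * D) (s ζ * t ξ + t ζ * s ξ) (by
      have e1 := hst ζ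
      have e2 := hst ξ
      rw [map_add, map_add, map_mul, map_mul, map_mul, map_mul, map_mul, ← hρ]
      calc ζ * ξ = (algebraMap k k' (s ζ) + algebraMap k k' (t ζ) * ρ) *
            (algebraMap k k' (s ξ) + algebraMap k k' (t ξ) * ρ) := by rw [← e1, ← e2]
        _ = _ := by ring)
    show i (s (ζ * ξ)) + i (t (ζ * ξ)) * r = (i (s ζ) + i (t ζ) * r) * (i (s ξ) + i (t ξ) * r)
    rw [h1, h2, map_add, map_add, map_mul, map_mul, map_mul, map_mul, map_mul, ← hr]
    ring
  · obtain ⟨h1, h2⟩ := hu 0 0 0 (by rw [map_zero, zero_mul, add_zero])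
    show i (s 0) + i (t 0) * r = 0
    rw [h1, h2, map_zero, zero_mul, add_zero]
  · intro ζ ξ
    obtain ⟨h1, h2⟩ := hu (ζ + ξ) (s ζ + s ξ) (t ζ + t ξ) (by
      have e1 := hst ζ
      have e2 := hst ξ
      rw [map_add, map_add]
      calc ζ + ξ = (algebraMap k k' (s ζ) + algebraMap k k' (t ζ) * ρ) +
            (algebraMap k k' (s ξ) + algebraMap k k' (t ξ) * ρ) := by rw [← e1, ← e2]
        _ = _ := by ring)
    show i (s (ζ + ξ)) + i (t (ζ + ξ)) * r = (i (s ζ) + i (t ζ) * r) + (i (s ξ) + i (t ξ) * r)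
    rw [h1, h2, map_add, map_add]
    ring
  · intro x
    obtain ⟨h1, h2⟩ := hu (algebraMap k k' x) x 0 (by rw [map_zero, zero_mul, add_zero])
    show i (s (algebraMap k k' x)) + i (t (algebraMap k k' x)) * r = i x
    rw [h1, h2, map_zero, zero_mul, add_zero]

theorem Ke_core {N Γ : Type} [Field N] [LinearOrderedCommGroupWithZero Γ] (v : Valuation N Γ)
    (h2 : v 2 ≤ 1) {z S R δ : N} (hz : z = S + R) (h1 : v (z ^ 2 - δ) < v (16 * δ))
    (h3 : v (4 * S * R) < v (16 * δ)) (hle : v z ≤ v S) : v (S ^ 2 - δ) < v (4 * δ) := by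
  have h4 : v 4 ≤ 1 := by
    have e : (4 : N) = 2 * 2 := by norm_num
    rw [e, map_mul]
    exact mul_le_one' h2 h2
  have e16 : v (16 * δ) = v 4 * (v 4 * v δ) := by
    have e : (16 : N) * δ = 4 * (4 * δ) := by ring
    rw [e, map_mul, map_mul]
  have e4 : v (4 * δ) = v 4 * v δ := map_mul _ _ _
  have hle16 : v (16 * δ) ≤ v (4 * δ) := by
    rw [e16, e4]
    exact mul_le_of_le_one_left' h4
  have hleδ : v (4 * δ) ≤ v δ := by
    rw [e4]
    exact mul_le_of_le_one_left' h4
  have hzδ : v z ^ 2 = v δ := by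
    have e : z ^ 2 = δ + (z ^ 2 - δ) := by ring
    rw [← map_pow, e]
    exact Valuation.map_add_eq_of_lt_left v (lt_of_lt_of_le h1 (hle16.trans hleδ))
  have hpos16 : 0 < v (16 * δ) := lt_of_le_of_lt zero_le h1
  have h40 : 0 < v 4 := by
    rw [e16] at hpos16
    exact zero_lt_iff.2 (left_ne_zero_of_mul hpos16.ne')
  have hδ0 : 0 < v δ := by
    rw [e16] at hpos16
    exact zero_lt_iff.2 (right_ne_zero_of_mul (right_ne_zero_of_mul hpos16.ne'))
  have hz0 : 0 < v z := by
    rw [← hzδ] at hδ0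
    exact zero_lt_iff.2 (fun h => hδ0.ne' (by rw [h, zero_pow two_ne_zero]))
  have hSR : v S * v R < v 4 * v z ^ 2 := by
    by_contra hcon
    rw [not_lt] at hcon
    have h5 : v 4 * (v 4 * v z ^ 2) ≤ v 4 * (v S * v R) := mul_le_mul' le_rfl hcon
    rw [hzδ, ← e16, ← mul_assoc, ← map_mul, ← map_mul] at h5
    exact absurd h3 (not_lt.2 h5)
  have hR : v R < v 4 * v z := by
    by_contra hcon
    rw [not_lt] at hcon
    have h5 : v z * (v 4 * v z) ≤ v S * v R := mul_le_mul' hle hcon
    have h6 : v z * (v 4 * v z) = v 4 * v z ^ 2 := by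
      rw [pow_two, mul_left_comm]
    rw [h6] at h5
    exact absurd hSR (not_lt.2 h5)
  have e5 : S ^ 2 - δ = (z ^ 2 - δ) + (R ^ 2 - 2 * z * R) := by
    rw [hz]
    ring
  rw [e5]
  refine Valuation.map_add_lt v (lt_of_lt_of_le h1 hle16) (Valuation.map_sub_lt v ?_ ?_)
  · rw [map_pow, e4, ← hzδ, pow_two, pow_two]
    calc v R * v R < v 4 * v z * (v 4 * v z) := mul_lt_mul'' hR hR zero_le zero_le
      _ ≤ v z * (v 4 * v z) := mul_le_mul' (mul_le_of_le_one_left' h4) le_rfl
      _ = v 4 * (v z * v z) := by rw [mul_left_comm]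
  · rw [map_mul, map_mul, e4, ← hzδ, pow_two]
    calc v 2 * v z * v R ≤ v z * v R := mul_le_mul' (mul_le_of_le_one_left' h2) le_rfl
      _ < v z * (v 4 * v z) := mul_lt_mul_of_pos_left hR hz0
      _ = v 4 * (v z * v z) := by rw [mul_left_comm]

theorem ker_quad {k k' N : Type} [Field k] [NumberField k] [Field k'] [NumberField k'] [Field N]
    [NumberField N] [Algebra k k'] [Algebra k N] [Algebra k' N] [IsScalarTower k k' N]
    (two : Module.finrank k k' = 2) (W : HeightOneSpectrum (𝓞 N)) {ρ : k'} {D : k}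
    (hρ : ρ ^ 2 = algebraMap k k' D) (hρk : ∀ y : k, algebraMap k k' y ≠ ρ) {g : N ≃ₐ[k] N}
    (hg : Stb k W g) (hgρ : g (algebraMap k' N ρ) = -algebraMap k' N ρ) {δ : k} {ζ : k'}
    (hζ : W.valuation N (algebraMap k' N ζ ^ 2 - algebraMap k N δ) <
      W.valuation N (16 * algebraMap k N δ)) :
    (∃ s : k, W.valuation N (algebraMap k N (s ^ 2 - δ)) < W.valuation N (algebraMap k N (4 * δ))) ∨
      ∃ t : k, W.valuation N (algebraMap k N (D * t ^ 2 - δ)) <
        W.valuation N (algebraMap k N (4 * δ)) := by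
  obtain ⟨s, t, hst⟩ := two_span two hρk ζ
  obtain ⟨v, hv⟩ : ∃ v, v = W.valuation N := ⟨_, rfl⟩
  have h2 : v 2 ≤ 1 := by
    rw [hv]
    have := H73P2.Cm_int (W.valuation N) (2 : 𝓞 N)
    rwa [map_ofNat] at this
  have eS : algebraMap k' N (algebraMap k k' s) = algebraMap k N s :=
    (IsScalarTower.algebraMap_apply k k' N s).symm
  have eT : algebraMap k' N (algebraMap k k' t) = algebraMap k N t :=
    (IsScalarTower.algebraMap_apply k k' N t).symm
  have eD : algebraMap k' N ρ ^ 2 = algebraMap k N D := by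
    rw [← map_pow, hρ, ← IsScalarTower.algebraMap_apply]
  obtain ⟨z, hz⟩ : ∃ z, z = algebraMap k' N ζ := ⟨_, rfl⟩
  obtain ⟨S, hS⟩ : ∃ S, S = algebraMap k N s := ⟨_, rfl⟩
  obtain ⟨R, hR⟩ : ∃ R, R = algebraMap k N t * algebraMap k' N ρ := ⟨_, rfl⟩
  have hzSR : z = S + R := by
    rw [hz, hst, map_add, map_mul, eS, eT, hS, hR]
  have hgz : g z = S - R := by
    rw [hzSR, map_add, hS, hR, map_mul, g.commutes, g.commutes, hgρ]
    ring
  rw [← hz, ← hv] at hζ
  have h5 : v ((g z) ^ 2 - algebraMap k N δ) < v (16 * algebraMap k N δ) := by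
    have h6 := hg (z ^ 2 - algebraMap k N δ)
    rw [map_sub, map_pow, g.commutes, ← hv] at h6
    rw [h6]
    exact hζ
  have h6 : v (4 * S * R) < v (16 * algebraMap k N δ) := by
    have e : 4 * S * R = (z ^ 2 - algebraMap k N δ) - ((g z) ^ 2 - algebraMap k N δ) := by
      rw [hgz, hzSR]
      ring
    rw [e]
    exact Valuation.map_sub_lt v hζ h5
  rcases le_total (v R) (v S) with h7 | h7
  · left
    have h8 : v z ≤ v S := by
      rw [hzSR]
      exact Valuation.map_add_le v le_rfl h7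
    refine ⟨s, ?_⟩
    have h9 := Ke_core v h2 hzSR hζ h6 h8
    rw [← hv, map_sub, map_pow, ← hS, map_mul, map_ofNat]
    exact h9
  · right
    have h8 : v z ≤ v R := by
      rw [hzSR]
      exact Valuation.map_add_le v h7 le_rfl
    refine ⟨t, ?_⟩
    have h9 := Ke_core v h2 (hzSR.trans (add_comm S R)) hζ
      (by rw [show 4 * R * S = 4 * S * R by ring]; exact h6) h8
    have e : algebraMap k N (D * t ^ 2 - δ) = R ^ 2 - algebraMap k N δ := by
      rw [map_sub, map_mul, map_pow, ← eD, hR]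
      ring
    rw [← hv, e, map_mul, map_ofNat]
    exact h9

theorem LC_of_emb {k k' : Type} [Field k] [NumberField k] [Field k'] [NumberField k']
    [Algebra k k'] {a b : k'} {d : Fin 3 → k'} (u : HeightOneSpectrum (𝓞 k))
    (h : ∀ u' : HeightOneSpectrum (𝓞 k'), dn k u' = u →
      LC (algebraMap k' (u'.adicCompletion k')) a b d) (j : k' →+* u.adicCompletion k)
    (hj : ∀ x : k, j (algebraMap k k' x) = algebraMap k (u.adicCompletion k) x) : LC j a b d := by
  have hdn : dn k (H73P2.Cm_pl u j hj) = u := by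
    apply HeightOneSpectrum.ext
    ext x
    change algebraMap (𝓞 k) (𝓞 k') x ∈ H73P2.Cm_id u j hj ↔ x ∈ u.asIdeal
    rw [H73P2.Cm_mem, ← IsScalarTower.algebraMap_apply (𝓞 k) (𝓞 k') k',
      IsScalarTower.algebraMap_apply (𝓞 k) k k', H73P2.Cm_val u j hj]
    exact u.valuation_lt_one_iff_mem (K := k) x
  have hφ : ∀ x : k', Pool.Agent.H10.adicLift (H73P2.Cm_pl u j hj) j
      (Pool.Agent.H10.continuous_fromVal (H73P2.Cm_pl u j hj) j (H73P2.Cm_nhds u j hj))
      (algebraMap k' ((H73P2.Cm_pl u j hj).adicCompletion k') x) = j x :=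
    fun x => Pool.Agent.H10.adicLift_algebraMap (H73P2.Cm_pl u j hj) _ _ x
  generalize Pool.Agent.H10.adicLift (H73P2.Cm_pl u j hj) j
      (Pool.Agent.H10.continuous_fromVal (H73P2.Cm_pl u j hj) j (H73P2.Cm_nhds u j hj)) = φ at hφ
  obtain ⟨x, y, z, hy, hxy, hm⟩ := h _ hdn
  refine ⟨φ x, φ y, fun i => φ (z i), ?_, ?_, ?_⟩
  · rw [Ne, map_eq_zero]
    exact hy
  · rw [← hφ a, ← hφ b, ← map_pow, hxy, map_add, map_add, map_mul, map_pow]
  · have e1 : (fun i => φ ((![x, -1, 0] : Fin 3 → (H73P2.Cm_pl u j hj).adicCompletion k') i)) =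
        ![φ x, -1, 0] := by
      funext i
      fin_cases i <;> simp
    have e2 : (fun i => j (d i)) = fun i =>
        φ (algebraMap k' ((H73P2.Cm_pl u j hj).adicCompletion k') (d i)) := by
      funext i
      rw [hφ]
    funext i
    have h1 := Te_m3_map φ (algebraMap k' ((H73P2.Cm_pl u j hj).adicCompletion k') a)
      (algebraMap k' ((H73P2.Cm_pl u j hj).adicCompletion k') b)
      (fun i => algebraMap k' ((H73P2.Cm_pl u j hj).adicCompletion k') (d i)) ![x, -1, 0] i
    have h2 := Te_m3_map φ (algebraMap k' ((H73P2.Cm_pl u j hj).adicCompletion k') a)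
      (algebraMap k' ((H73P2.Cm_pl u j hj).adicCompletion k') b) z z i
    rw [e1, hφ, hφ] at h1
    rw [hφ, hφ] at h2
    rw [e2, h1, h2, hm]

end H36CY

end S_H36_CY_Ke

section S_H36_CY_Ld

set_option autoImplicit false
set_option linter.unusedSectionVars false
open scoped Classical

open WithZero NumberField IsDedekindDomain H76PP H73P2

namespace H36CY

theorem vn {F Γ : Type*} [Field F] [LinearOrderedCommGroupWithZero Γ] (V : Valuation F Γ) (n : ℕ) :
    V (n : F) ≤ 1 := by
  induction n with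
  | zero => rw [Nat.cast_zero, map_zero]; exact zero_le'
  | succ n ih =>
    rw [Nat.cast_succ]
    exact V.map_add_le ih (le_of_eq (map_one V))

section

variable {k : Type} [Field k] [NumberField k]

theorem val_coe (u : HeightOneSpectrum (𝓞 k)) (x : k) :
    Valued.v (algebraMap k (u.adicCompletion k) x) = u.valuation k x :=
  HeightOneSpectrum.valuedAdicCompletion_eq_valuation' u x

theorem char_zero (u : HeightOneSpectrum (𝓞 k)) : CharZero (u.adicCompletion k) :=
  charZero_of_injective_algebraMap (algebraMap k (u.adicCompletion k)).injective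

/-- An element of the base field close to `z` is `z` times a square. -/
theorem sq_near' (u : HeightOneSpectrum (𝓞 k)) {y z : k}
    (h : u.valuation k (y - z) < u.valuation k (4 * z)) :
    ∃ r : u.adicCompletion k, r ≠ 0 ∧ algebraMap k (u.adicCompletion k) y =
      algebraMap k (u.adicCompletion k) z * r ^ 2 := by
  have _ := char_zero u
  refine sq_near ?_
  have e4 : (4 : u.adicCompletion k) = algebraMap k (u.adicCompletion k) 4 := by rw [map_ofNat]
  rw [← map_sub, e4, ← map_mul, val_coe, val_coe]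
  exact h

/-- An element of the base field close to an element of the completion. -/
theorem near_coe (u : HeightOneSpectrum (𝓞 k)) (x : u.adicCompletion k) {c : u.adicCompletion k}
    (hc : c ≠ 0) : ∃ y : k, Valued.v (algebraMap k (u.adicCompletion k) y - x) < Valued.v c := by
  have hd := HeightOneSpectrum.denseRange_algebraMap (K := k) u
  obtain ⟨y, hy⟩ := hd.mem_nhds (Te_nhd x hc)
  exact ⟨y, hy⟩

end

section Split

variable {k k' N : Type} [Field k] [NumberField k] [Field k'] [NumberField k'] [Field N]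
  [NumberField N] [Algebra k k'] [Algebra k N] [Algebra k' N] [IsScalarTower k k' N]

theorem over_mid (W : HeightOneSpectrum (𝓞 N)) :
    Pool.Agent.H10.Over (dn k W) (dn k' W) := by
  have h := over_dn (K := k) (dn k' W)
  rwa [dn_dn] at h

theorem ld_split [IsGalois k N] (two : Module.finrank k k' = 2) {a b : k} {d : Fin 3 → k}
    (W : HeightOneSpectrum (𝓞 N)) {ρ : k'} {D : k} (hρ : ρ ^ 2 = algebraMap k k' D)
    (hρk : ∀ y : k, algebraMap k k' y ≠ ρ)
    (hA : ∀ g : N ≃ₐ[k] N, Stb k W g → g (algebraMap k' N ρ) = algebraMap k' N ρ)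
    (hloc : ∀ u' : HeightOneSpectrum (𝓞 k'), dn k u' = dn k W →
      LC (algebraMap k' (u'.adicCompletion k')) (algebraMap k k' a) (algebraMap k k' b)
        (fun i => algebraMap k k' (d i))) :
    LC (algebraMap k ((dn k W).adicCompletion k)) a b d := by
  have hρ0 : ρ ≠ 0 := fun h => hρk 0 (by rw [map_zero, h])
  obtain ⟨z, hz⟩ : ∃ z, z = algebraMap k' N ρ := ⟨_, rfl⟩
  have hz0 : z ≠ 0 := by
    rw [hz]
    exact (map_ne_zero _).2 hρ0
  have hz2 : z ^ 2 = algebraMap k N D := by
    rw [hz, ← map_pow, hρ, ← IsScalarTower.algebraMap_apply]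
  rw [← hz] at hA
  have h4z : (4 : N) * z ≠ 0 := mul_ne_zero (by norm_num) hz0
  obtain ⟨t, ht⟩ := dense_fix (K := k) W hA (ε := W.valuation N (4 * z))
    ((Valuation.ne_zero_iff _).2 h4z)
  -- the square of `t` is close to `D`
  have h4 : W.valuation N (4 : N) ≤ 1 := by exact_mod_cast vn (W.valuation N) 4
  have h2 : W.valuation N (2 : N) ≤ 1 := by exact_mod_cast vn (W.valuation N) 2
  have ht1 : W.valuation N (z - algebraMap k N t) < W.valuation N z := by
    refine lt_of_lt_of_le ht ?_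
    rw [map_mul]
    exact mul_le_of_le_one_left' h4
  have ht2 : W.valuation N (z + algebraMap k N t) ≤ W.valuation N z := by
    have e : z + algebraMap k N t = 2 * z - (z - algebraMap k N t) := by ring
    rw [e]
    refine (Valuation.map_sub _ _ _).trans (max_le ?_ ht1.le)
    rw [map_mul]
    exact mul_le_of_le_one_left' h2
  have ht3 : W.valuation N (algebraMap k N (t ^ 2 - D)) < W.valuation N (algebraMap k N (4 * D)) := by
    have e1 : algebraMap k N (t ^ 2 - D) = -((z - algebraMap k N t) * (z + algebraMap k N t)) := by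
      rw [map_sub, map_pow, ← hz2]
      ring
    have e2 : algebraMap k N (4 * D) = 4 * z * z := by
      rw [map_mul, map_ofNat, ← hz2]
      ring
    rw [e1, e2, Valuation.map_neg, map_mul, map_mul (W.valuation N) (4 * z) z]
    exact mul_lt_mul_of_lt_of_le_of_nonneg_of_pos ht ht2 zero_le'
      (zero_lt_iff.2 ((Valuation.ne_zero_iff _).2 hz0))
  rw [val_lt_iff] at ht3
  obtain ⟨r, hr0, hr⟩ := sq_near' (dn k W) ht3
  have hr' : (algebraMap k ((dn k W).adicCompletion k) t / r) ^ 2 =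
      algebraMap k ((dn k W).adicCompletion k) D := by
    rw [div_pow, ← map_pow, hr]
    field_simp
  obtain ⟨j, hj⟩ := exists_emb two hρ hρk (algebraMap k ((dn k W).adicCompletion k)) hr'
  have h5 := LC_of_emb (dn k W) hloc j hj
  unfold LC at h5 ⊢
  simp only [hj] at h5
  exact h5

/-- The square class of the value at the root near `-6`. -/
theorem ld_ker (two : Module.finrank k k' = 2) {a b : k} {d : Fin 3 → k}
    (W : HeightOneSpectrum (𝓞 N)) {ρ : k'} {D : k} (hρ : ρ ^ 2 = algebraMap k k' D)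
    (hρk : ∀ y : k, algebraMap k k' y ≠ ρ) {g : N ≃ₐ[k] N} (hg : Stb k W g)
    (hgρ : g (algebraMap k' N ρ) = -algebraMap k' N ρ)
    (hSp : SpF (algebraMap k ((dn k W).adicCompletion k) a)
      (algebraMap k ((dn k W).adicCompletion k) b)) {θ : (dn k W).adicCompletion k}
    (hθ : RtF (algebraMap k ((dn k W).adicCompletion k) a)
      (algebraMap k ((dn k W).adicCompletion k) b) θ)
    (hE : e1 θ (fun j => algebraMap k ((dn k W).adicCompletion k) (d j)) ≠ 0)
    (hLC : LC (algebraMap k' ((dn k' W).adicCompletion k')) (algebraMap k k' a) (algebraMap k k' b)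
      (fun i => algebraMap k k' (d i))) :
    IsSquare (e1 θ (fun j => algebraMap k ((dn k W).adicCompletion k) (d j))) ∨
      ∃ m : (dn k W).adicCompletion k, m ≠ 0 ∧
        e1 θ (fun j => algebraMap k ((dn k W).adicCompletion k) (d j)) =
          algebraMap k ((dn k W).adicCompletion k) D * m ^ 2 := by
  have _ := char_zero (dn k W)
  have _ := char_zero (dn k' W)
  have hov : Pool.Agent.H10.Over (dn k W) (dn k' W) := over_mid W
  obtain ⟨E, hEd⟩ : ∃ E, E = e1 θ (fun j => algebraMap k ((dn k W).adicCompletion k) (d j)) :=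
    ⟨_, rfl⟩
  rw [← hEd] at hE ⊢
  have hSp' := SpF.map hov hSp
  have hθ' := RtF.map hov hθ
  simp only [Pool.Agent.H10.Over.map_algebraMap] at hSp' hθ'
  -- the value is a square in the upper completion
  have hsq := sq_of_LC (algebraMap k' ((dn k' W).adicCompletion k')) hSp' hθ' hLC
  have hmap : e1 (hov.map θ) (fun j => algebraMap k' ((dn k' W).adicCompletion k')
      (algebraMap k k' (d j))) = hov.map E := by
    rw [hEd]
    unfold e1
    simp only [map_add, map_mul, map_pow, Pool.Agent.H10.Over.map_algebraMap]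
  rw [hmap] at hsq
  obtain ⟨z, hz⟩ := hsq
  have hz0 : z ≠ 0 := by
    rintro rfl
    apply hE
    have h1 : hov.map E = 0 := by rw [hz, mul_zero]
    exact (map_eq_zero hov.map).1 h1
  -- approximation
  have h16 : (16 : (dn k W).adicCompletion k) ≠ 0 := by norm_num
  have h16' : (16 : (dn k' W).adicCompletion k') ≠ 0 := by norm_num
  obtain ⟨δ, hδ⟩ := near_coe (dn k W) E (mul_ne_zero h16 hE)
  obtain ⟨ζ, hζ⟩ := near_coe (dn k' W) z (mul_ne_zero h16' hz0)
  have v16 : Valued.v (16 : (dn k W).adicCompletion k) ≤ 1 := by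
    exact_mod_cast vn (Valued.v (R := (dn k W).adicCompletion k)) 16
  have v4 : Valued.v (4 : (dn k W).adicCompletion k) ≤ 1 := by
    exact_mod_cast vn (Valued.v (R := (dn k W).adicCompletion k)) 4
  have v16' : Valued.v (16 : (dn k' W).adicCompletion k') ≤ 1 := by
    exact_mod_cast vn (Valued.v (R := (dn k' W).adicCompletion k')) 16
  have v2' : Valued.v (2 : (dn k' W).adicCompletion k') ≤ 1 := by
    exact_mod_cast vn (Valued.v (R := (dn k' W).adicCompletion k')) 2
  have hz1 : Valued.v z ≠ 0 := (Valuation.ne_zero_iff _).2 hz0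
  obtain ⟨i', hi'⟩ : ∃ i', i' = algebraMap k' ((dn k' W).adicCompletion k') := ⟨_, rfl⟩
  rw [← hi'] at hζ
  have e1 : Valued.v (i' ζ - z) < Valued.v z := by
    refine lt_of_lt_of_le hζ ?_
    rw [map_mul]
    exact mul_le_of_le_one_left' v16'
  have e2 : Valued.v (i' ζ + z) ≤ Valued.v z := by
    have e : i' ζ + z = 2 * z + (i' ζ - z) := by ring
    rw [e]
    refine (Valuation.map_add _ _ _).trans (max_le ?_ e1.le)
    rw [map_mul]
    exact mul_le_of_le_one_left' v2'
  have e3 : Valued.v (i' ζ ^ 2 - z * z) < Valued.v (16 * (z * z)) := by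
    have e : i' ζ ^ 2 - z * z = (i' ζ - z) * (i' ζ + z) := by ring
    have e' : 16 * (z * z) = 16 * z * z := by ring
    rw [e, e', map_mul, map_mul Valued.v (16 * z) z]
    exact mul_lt_mul_of_lt_of_le_of_nonneg_of_pos hζ e2 zero_le' (zero_lt_iff.2 hz1)
  have e4 : Valued.v (i' (algebraMap k k' δ) - z * z) < Valued.v (16 * (z * z)) := by
    have h1 := map_lt hov hδ
    rw [map_sub, map_mul, Pool.Agent.H10.Over.map_algebraMap, hz, ← hi', map_ofNat] at h1
    exact h1
  have e5 : Valued.v (16 * (z * z)) ≤ Valued.v (z * z) := by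
    rw [map_mul]
    exact mul_le_of_le_one_left' v16'
  have e6 : Valued.v (i' (algebraMap k k' δ)) = Valued.v (z * z) := by
    have e : i' (algebraMap k k' δ) = z * z + (i' (algebraMap k k' δ) - z * z) := by ring
    rw [e]
    exact Valuation.map_add_eq_of_lt_left _ (e4.trans_le e5)
  have e7 : Valued.v (i' (ζ ^ 2 - algebraMap k k' δ)) < Valued.v (i' (16 * algebraMap k k' δ)) := by
    have e : i' (ζ ^ 2 - algebraMap k k' δ) =
        (i' ζ ^ 2 - z * z) - (i' (algebraMap k k' δ) - z * z) := by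
      rw [map_sub, map_pow]
      ring
    have e' : Valued.v (i' (16 * algebraMap k k' δ)) = Valued.v (16 * (z * z)) := by
      rw [map_mul, map_ofNat, map_mul, e6, ← map_mul]
    rw [e, e']
    exact (Valuation.map_sub _ _ _).trans_lt (max_lt e3 e4)
  rw [hi', val_coe, val_coe] at e7
  have e8 := (val_lt_iff (K := k') (L := N) W _ _).2 e7
  have e9 : W.valuation N (algebraMap k' N ζ ^ 2 - algebraMap k N δ) <
      W.valuation N (16 * algebraMap k N δ) := by
    have g1 : algebraMap k' N (ζ ^ 2 - algebraMap k k' δ) =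
        algebraMap k' N ζ ^ 2 - algebraMap k N δ := by
      rw [map_sub, map_pow, ← IsScalarTower.algebraMap_apply]
    have g2 : algebraMap k' N (16 * algebraMap k k' δ) = 16 * algebraMap k N δ := by
      rw [map_mul, map_ofNat, ← IsScalarTower.algebraMap_apply]
    rw [g1, g2] at e8
    exact e8
  obtain ⟨r, hr0, hr⟩ : ∃ r : (dn k W).adicCompletion k, r ≠ 0 ∧
      algebraMap k ((dn k W).adicCompletion k) δ = E * r ^ 2 := by
    refine sq_near (lt_of_lt_of_le hδ ?_)
    have e : (16 : (dn k W).adicCompletion k) * E = 4 * (4 * E) := by ring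
    rw [e, map_mul]
    exact mul_le_of_le_one_left' v4
  rcases ker_quad two W hρ hρk hg hgρ e9 with ⟨s, hs⟩ | ⟨t, ht⟩
  · rw [val_lt_iff] at hs
    obtain ⟨r1, hr1, h1⟩ := sq_near' (dn k W) hs
    left
    rw [hr, map_pow] at h1
    refine ⟨algebraMap k ((dn k W).adicCompletion k) s / (r1 * r), ?_⟩
    field_simp
    linear_combination -h1
  · rw [val_lt_iff] at ht
    obtain ⟨r1, hr1, h1⟩ := sq_near' (dn k W) ht
    right
    rw [hr, map_mul, map_pow] at h1
    have h2 : E = algebraMap k ((dn k W).adicCompletion k) D *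
        (algebraMap k ((dn k W).adicCompletion k) t / (r1 * r)) ^ 2 := by
      field_simp
      linear_combination -h1
    refine ⟨algebraMap k ((dn k W).adicCompletion k) t / (r1 * r), ?_, h2⟩
    intro h3
    rw [h3] at h2
    apply hE
    rw [h2]
    ring

end Split

section Norm

variable {K k k' N : Type} [Field K] [NumberField K] [Field k] [NumberField k] [Field k']
  [NumberField k'] [Field N] [NumberField N] [Algebra K k] [Algebra k k'] [Algebra K N] [Algebra k N]
  [Algebra k' N] [IsScalarTower K k N] [IsScalarTower k k' N]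

theorem act_iter {W : HeightOneSpectrum (𝓞 N)} {τ : N ≃ₐ[K] N}
    {φ : W.adicCompletion N →+* W.adicCompletion N}
    (hφ : ∀ x : N, φ (algebraMap N (W.adicCompletion N) x) =
      algebraMap N (W.adicCompletion N) (τ x)) (n : ℕ) (x : N) :
    φ^[n] (algebraMap N (W.adicCompletion N) x) = algebraMap N (W.adicCompletion N) ((τ ^ n) x) := by
  induction n generalizing x with
  | zero => rfl
  | succ n ih =>
    rw [Function.iterate_succ_apply, hφ, ih, pow_succ]
    rfl

theorem g_iter {F : Type*} [Field F] {x : F} (f : F → F) (hx : f x = -x) (hf : ∀ y, f (-y) = -f y)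
    (l : ℕ) : f^[l] x = (-1) ^ l * x := by
  induction l with
  | zero => simp
  | succ l ih =>
    rw [Function.iterate_succ_apply', ih]
    rcases Nat.even_or_odd l with h | h
    · rw [h.neg_one_pow, one_mul, hx, pow_succ, h.neg_one_pow]
      ring
    · rw [h.neg_one_pow, neg_one_mul, hf, hx, pow_succ, h.neg_one_pow]
      ring

theorem ld_norm [IsGalois K N] {r : ℕ} (hr : Module.finrank K N = 2 ^ r)
    (W : HeightOneSpectrum (𝓞 N)) {τ : N ≃ₐ[K] N} {ρ₁ : N} {D₁ : K} (hL : LayT K W τ ρ₁ D₁)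
    {ρ : k'} {D₀ : k} (hρ : ρ ^ 2 = algebraMap k k' D₀) (hρ0 : ρ ≠ 0) {g : N ≃ₐ[k] N}
    (hg : Stb k W g) (hgρ : g (algebraMap k' N ρ) = -algebraMap k' N ρ) {q : K} (hq : q ≠ 0)
    {X Y : (dn k W).adicCompletion k}
    (h : X ^ 2 - algebraMap k ((dn k W).adicCompletion k) D₀ * Y ^ 2 =
      algebraMap k ((dn k W).adicCompletion k) (algebraMap K k q)) :
    ∃ X' Y' : (dn K W).adicCompletion K,
      X' ^ 2 - algebraMap K ((dn K W).adicCompletion K) D₁ * Y' ^ 2 =
        algebraMap K ((dn K W).adicCompletion K) q := by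
  have _ := char_zero W
  have _ : FiniteDimensional K N := Module.Finite.of_restrictScalars_finite ℚ K N
  have hτs : Stb K W τ := (hL.gen τ).2 (Subgroup.mem_zpowers τ)
  obtain ⟨φ, hφc, hφ⟩ := exists_act W hτs
  obtain ⟨ρ', h1, h2, h3⟩ := lay_root hL hφc hφ
  have hgK : g.restrictScalars K ∈ Subgroup.zpowers τ := (hL.gen _).1 hg
  obtain ⟨n, hn⟩ : ∃ n, orderOf τ = 2 ^ n := by
    have h4 : orderOf τ ∣ 2 ^ r := by
      rw [← hr, ← IsGalois.card_aut_eq_finrank K N]
      exact orderOf_dvd_natCard τ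
    obtain ⟨n, -, hn⟩ := (Nat.dvd_prime_pow Nat.prime_two).1 h4
    exact ⟨n, hn⟩
  obtain ⟨i, l, hl, hil⟩ := exists_level hn hgK
  -- the action of the power of `τ`
  have hgl : ∀ x : N, ((g.restrictScalars K) ^ l) x = (g^[l]) x := by
    intro x
    rw [AlgEquiv.coe_pow]
    rfl
  have hk : ∀ x : k, φ^[2 ^ i] (algebraMap N (W.adicCompletion N) (algebraMap k N x)) =
      algebraMap N (W.adicCompletion N) (algebraMap k N x) := by
    intro x
    rw [act_iter hφ, hil, hgl]
    congr 1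
    exact Function.iterate_fixed (g.commutes x) l
  have hc : ∀ n : ℕ, Continuous (φ^[n]) := fun n => hφc.iterate n
  have hov : Pool.Agent.H10.Over (dn k W) W := over_dn W
  have hkc : ∀ x : (dn k W).adicCompletion k, φ^[2 ^ i] (hov.map x) = hov.map x := by
    intro x
    have h5 := act_ext (dn k W) (f := fun x => φ^[2 ^ i] (hov.map x)) (f' := fun x => hov.map x)
      ((hc _).comp hov.continuous_map) hov.continuous_map (fun x => by
        change φ^[2 ^ i] (hov.map _) = hov.map _
        rw [hov.map_algebraMap]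
        exact hk x)
    exact congrFun h5 x
  obtain ⟨z, hz⟩ : ∃ z, z = algebraMap N (W.adicCompletion N) (algebraMap k' N ρ) := ⟨_, rfl⟩
  have hz0 : z ≠ 0 := by
    rw [hz]
    exact (map_ne_zero _).2 ((map_ne_zero _).2 hρ0)
  have hzg : φ^[2 ^ i] z = -z := by
    rw [hz, act_iter hφ, hil, hgl, g_iter (F := N) g hgρ (fun y => map_neg g y), hl.neg_one_pow,
      neg_one_mul, map_neg]
  have hz2 : z ^ 2 = hov.map (algebraMap k ((dn k W).adicCompletion k) D₀) := by
    rw [hov.map_algebraMap, hz, ← map_pow, ← map_pow, hρ, ← IsScalarTower.algebraMap_apply k k' N]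
  -- the homomorphism
  have hadd : ∀ (n : ℕ) (x y : W.adicCompletion N), φ^[n] (x + y) = φ^[n] x + φ^[n] y := fun n x y =>
    iterate_map_add φ n x y
  have hmul : ∀ (n : ℕ) (x y : W.adicCompletion N), φ^[n] (x * y) = φ^[n] x * φ^[n] y := fun n x y =>
    iterate_map_mul φ n x y
  have hneg : ∀ (n : ℕ) (x : W.adicCompletion N), φ^[n] (-x) = -φ^[n] x := fun n x =>
    iterate_map_neg φ n x
  have hβ1 : φ^[2 ^ i] (hov.map X + z * hov.map Y) = hov.map X - z * hov.map Y := by
    rw [hadd, hmul, hzg, hkc, hkc]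
    ring
  have hβ2 : φ^[2 ^ (i + 1)] (hov.map X + z * hov.map Y) = hov.map X + z * hov.map Y := by
    rw [pow_succ, mul_two, Function.iterate_add_apply, hβ1]
    have e : hov.map X - z * hov.map Y = hov.map X + -(z * hov.map Y) := by ring
    rw [e, hadd, hneg, hmul, hzg, hkc, hkc]
    ring
  have hβ3 : (hov.map X + z * hov.map Y) * φ^[2 ^ i] (hov.map X + z * hov.map Y) =
      algebraMap N (W.adicCompletion N) (algebraMap K N q) := by
    rw [hβ1]
    have h6 := congrArg hov.map h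
    rw [map_sub, map_mul, map_pow, map_pow, ← hz2, hov.map_algebraMap,
      ← IsScalarTower.algebraMap_apply K k N] at h6
    linear_combination h6
  have hφq : φ (algebraMap N (W.adicCompletion N) (algebraMap K N q)) =
      algebraMap N (W.adicCompletion N) (algebraMap K N q) := by
    rw [hφ, τ.commutes]
  have hq0 : algebraMap N (W.adicCompletion N) (algebraMap K N q) ≠ 0 :=
    (map_ne_zero _).2 ((map_ne_zero _).2 hq)
  obtain ⟨γ, hγ1, hγ2⟩ := chain_norm φ hφq hq0 i _ z hβ2 hβ3 hz0 hzg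
  exact to_base hL.gen hφc hφ hq hγ1 hγ2 h1 h2 h3

/-- Local descent at a prime above two with cyclic decomposition groups. -/
theorem descAt [IsGalois K N] {r : ℕ} (hr : Module.finrank K N = 2 ^ r)
    {v : HeightOneSpectrum (𝓞 K)} {a b : K} (h : Good2 K N v a b) : DescAt K N v a b := by
  intro k k' _ _ _ _ _ _ _ _ _ _ _ _ _ two d hd hsq hloc u hu
  have _ : IsGalois k N := IsGalois.tower_top_of_isGalois K k N
  obtain ⟨D₀, ρ, hρ, hρk⟩ := exists_gen0 (k := k) (k' := k') two
  have hρ0 : ρ ≠ 0 := fun h => hρk 0 (by rw [map_zero, h])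
  obtain ⟨W, rfl⟩ := exists_above (L := N) u
  subst hu
  have hab : ∀ x : K, algebraMap K k' x = algebraMap k k' (algebraMap K k x) :=
    IsScalarTower.algebraMap_apply K k k'
  by_cases hA : ∀ g : N ≃ₐ[k] N, Stb k W g → g (algebraMap k' N ρ) = algebraMap k' N ρ
  · refine ld_split two W hρ hρk hA ?_
    intro u' hu'
    have h1 := hloc u' (by rw [← hu', dn_dn])
    rw [hab, hab] at h1
    exact h1
  · push Not at hA
    obtain ⟨g, hg, hgne⟩ := hA
    have hgρ : g (algebraMap k' N ρ) = -algebraMap k' N ρ := by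
      have h1 : g (algebraMap k' N ρ) ^ 2 = algebraMap k' N ρ ^ 2 := by
        rw [← map_pow, ← map_pow, hρ, ← IsScalarTower.algebraMap_apply, g.commutes]
      rcases sq_eq_sq_iff_eq_or_eq_neg.1 h1 with h2 | h2
      · exact absurd h2 hgne
      · exact h2
    have _ := char_zero (dn k W)
    have hov : Pool.Agent.H10.Over (dn K (dn k W)) (dn k W) := over_dn _
    have hSp := SpF.map hov h.1
    simp only [Pool.Agent.H10.Over.map_algebraMap] at hSp
    obtain ⟨θ, hθ⟩ := root_F hSp
    have hnf := Te_nf_map (algebraMap k ((dn k W).adicCompletion k)) (algebraMap K k a)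
      (algebraMap K k b) d
    have hfac := nf_fac hθ.1 (fun j => algebraMap k ((dn k W).adicCompletion k) (d j))
    have hne : Te_nf (algebraMap k ((dn k W).adicCompletion k) (algebraMap K k a))
        (algebraMap k ((dn k W).adicCompletion k) (algebraMap K k b))
        (fun j => algebraMap k ((dn k W).adicCompletion k) (d j)) ≠ 0 := by
      rw [hnf]
      exact (map_ne_zero _).2 hd
    have hE : e1 θ (fun j => algebraMap k ((dn k W).adicCompletion k) (d j)) ≠ 0 := by
      intro h1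
      apply hne
      rw [hfac, h1, zero_mul]
    have hLC := hloc (dn k' W) (by
      have e1 : dn K (dn k (dn k' W)) = dn K (dn k' W) := dn_dn _
      have e0 : dn k (dn k' W) = dn k W := dn_dn W
      rw [← e1, e0])
    rw [hab, hab] at hLC
    obtain ⟨π, hπ⟩ := (dn k W).valuation_exists_uniformizer k
    have hπ' : Valued.v (algebraMap k ((dn k W).adicCompletion k) π) = exp (-1 : ℤ) := by
      rw [val_coe, hπ]
    rcases ld_ker two W hρ hρk hg hgρ hSp hθ hE hLC with h1 | ⟨m, hm, h1⟩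
    · exact LC_of_sq _ hSp hθ hπ' hd hsq h1
    · exfalso
      obtain ⟨n, hn⟩ := hsq
      have hn0 : algebraMap k ((dn k W).adicCompletion k) n ≠ 0 := by
        refine (map_ne_zero _).2 ?_
        rintro rfl
        apply hd
        rw [hn, mul_zero]
      have hD0 : algebraMap k ((dn k W).adicCompletion k) D₀ ≠ 0 := by
        refine (map_ne_zero _).2 ?_
        rintro rfl
        rw [map_zero] at hρ
        exact hρ0 (pow_eq_zero_iff two_ne_zero |>.1 hρ)
      obtain ⟨X, Y, hXY⟩ := norm_form two_ne_zero hθ.1 hD0 hm h1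
        (n := algebraMap k ((dn k W).adicCompletion k) n) (by rw [hnf, hn, map_mul, sq]) hn0
      have hXY' : X ^ 2 - algebraMap k ((dn k W).adicCompletion k) D₀ * Y ^ 2 =
          algebraMap k ((dn k W).adicCompletion k) (algebraMap K k (-(4 * a ^ 3 + 27 * b ^ 2))) := by
        rw [hXY]
        simp only [map_neg, map_add, map_mul, map_pow, map_ofNat]
      have eW : dn K W = dn K (dn k W) := (dn_dn W).symm
      rcases h.2 with h2 | ⟨D₁, h2, h3⟩
      · have h4 := h2 W eW (g.restrictScalars K) hg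
        apply hgne
        have h5 : g (algebraMap k' N ρ) = (g.restrictScalars K) (algebraMap k' N ρ) := rfl
        rw [h5, h4]
        rfl
      · obtain ⟨τ, ρ₁, hL⟩ := h2 W eW
        have hq : -(4 * a ^ 3 + 27 * b ^ 2) ≠ 0 := by
          intro h4
          apply h3 0 0
          rw [h4, map_zero]
          ring
        have h5 := ld_norm hr W hL hρ hρ0 hg hgρ hq hXY'
        rw [eW] at h5
        obtain ⟨X', Y', h6⟩ := h5
        exact h3 X' Y' h6

end Norm

end H36CY

end S_H36_CY_Ld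

section S_H36_CY_Cl

set_option autoImplicit false
set_option linter.unusedSectionVars false
open scoped Classical

open WithZero NumberField IsDedekindDomain H76PP

namespace H36CY

variable {K : Type} [Field K] [NumberField K] {v : HeightOneSpectrum (𝓞 K)}

/-- Abstract form. -/
theorem Cl_abs (w : Valuation K (WithZero (Multiplicative ℤ))) (h2 : w 2 < 1) {β a b b₀ : K} (hβ : β ≠ 0)
    (hβ12 : w β < w ((2 : K) ^ 12)) (ha : w a ≤ 1) (hb : w b ≤ 1) (hb₀ : w b₀ ≤ 1)
    (hb0 : b₀ = 54 + 729 * β) {ε : WithZero (Multiplicative ℤ)} (hε : ε < w (16 * β))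
    (h1 : w (a + 27) ≤ ε) (h3 : w (b - b₀) ≤ ε) :
    w (a + 27) < w ((2 : K) ^ 8) ∧ w (b + 3 * a + 27) < w ((2 : K) ^ 12) ∧
      w (dsc a b - 3 ^ 12 * (4 * β)) < w (16 * β) ∧ ε < w (dsc a b) ∧ w (3 : K) = 1 := by
  have hn : ∀ n : ℕ, w (n : K) ≤ 1 := fun n => by
    induction n with
    | zero => simp
    | succ n ih =>
      rw [Nat.cast_succ]
      exact (w.map_add _ _).trans (max_le ih (by simp))
  have hof : ∀ n : ℕ, [n.AtLeastTwo] → w (OfNat.ofNat n : K) ≤ 1 := fun n _ => hn n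
  have hβw : 0 < w β := by
    rw [zero_lt_iff]
    exact (Valuation.ne_zero_iff w).2 hβ
  have h2w : w (2 : K) ≤ 1 := h2.le
  have h3w : w (3 : K) = 1 := by
    have e : (3 : K) = 1 + 2 := by norm_num
    have h := Valuation.map_add_eq_of_lt_right w (x := (2 : K)) (y := 1) (by rwa [map_one])
    rw [e, add_comm, h, map_one]
  have hp : ∀ i j : ℕ, i ≤ j → w ((2 : K) ^ j) ≤ w ((2 : K) ^ i) := by
    intro i j hij
    rw [map_pow, map_pow]
    exact pow_le_pow_right_of_le_one' h2w hij
  have h16 : w (16 : K) ≤ 1 := hof 16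
  have h16β : w (16 * β) ≤ w β := by
    rw [map_mul]
    exact mul_le_of_le_one_left' h16
  have hε12 : ε < w ((2 : K) ^ 12) := (hε.trans_le h16β).trans hβ12
  have hsum : ∀ {x y : K} {r : WithZero (Multiplicative ℤ)}, w x < r → w y < r → w (x + y) < r :=
    fun hx hy => (w.map_add _ _).trans_lt (max_lt hx hy)
  have hm : ∀ {x y : K} {r : WithZero (Multiplicative ℤ)}, w x ≤ 1 → w y < r → w (x * y) < r :=
    fun {x y r} hx hy => by
      rw [map_mul]
      exact (mul_le_of_le_one_left' hx).trans_lt hy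
  have hm1 : ∀ {x y : K}, w x ≤ 1 → w y ≤ 1 → w (x * y) ≤ 1 :=
    fun {x y} hx hy => by
      rw [map_mul]
      exact (mul_le_of_le_one_left' hx).trans hy
  have hs1 : ∀ {x y : K}, w x ≤ 1 → w y ≤ 1 → w (x + y) ≤ 1 :=
    fun hx hy => (w.map_add _ _).trans (max_le hx hy)
  have hd1 : ∀ {x y : K}, w x ≤ 1 → w y ≤ 1 → w (x - y) ≤ 1 :=
    fun hx hy => (w.map_sub _ _).trans (max_le hx hy)
  refine ⟨h1.trans_lt (hε12.trans_le (hp 8 12 (by norm_num))), ?_, ?_⟩
  · have e : b + 3 * a + 27 = (b - b₀) + (3 * (a + 27) + 729 * β) := by rw [hb0]; ring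
    rw [e]
    exact hsum (h3.trans_lt hε12) (hsum (hm (hof 3) (h1.trans_lt hε12)) (hm (hof 729) hβ12))
  have key : w (dsc a b - 3 ^ 12 * (4 * β)) < w (16 * β) := by
    have e : dsc a b - 3 ^ 12 * (4 * β) = (4 * (a ^ 2 - 27 * a + 729)) * (a + 27) +
        ((27 * (b + b₀)) * (b - b₀) + (14348907 * β) * β) := by
      rw [dsc, hb0]; ring
    rw [e]
    have hA : w (4 * (a ^ 2 - 27 * a + 729)) ≤ 1 := by
      refine hm1 (hof 4) (hs1 (hd1 ?_ (hm1 (hof 27) ha)) (hof 729))
      rw [sq]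
      exact hm1 ha ha
    have hB : w (27 * (b + b₀)) ≤ 1 := hm1 (hof 27) (hs1 hb hb₀)
    refine hsum (hm hA (h1.trans_lt hε)) (hsum (hm hB (h3.trans_lt hε)) ?_)
    rw [map_mul, map_mul w 16 β]
    refine mul_lt_mul_of_pos_right ?_ hβw
    refine hm (hof 14348907) (hβ12.trans_le ?_)
    have e2 : (16 : K) = 2 ^ 4 := by norm_num
    rw [e2]
    exact hp 4 12 (by norm_num)
  refine ⟨key, ?_, h3w⟩
  have e4 : w (3 ^ 12 * (4 * β)) = w (4 * β) := by
    rw [map_mul, map_pow, h3w, one_pow, one_mul]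
  have e5 : w (16 * β) ≤ w (4 * β) := by
    have e : (16 * β : K) = 4 * (4 * β) := by ring
    rw [e, map_mul w 4 (4 * β)]
    exact mul_le_of_le_one_left' (hof 4)
  have e6 : w (dsc a b) = w (4 * β) := by
    have e : dsc a b = 3 ^ 12 * (4 * β) + (dsc a b - 3 ^ 12 * (4 * β)) := by ring
    rw [e, Valuation.map_add_eq_of_lt_left, e4]
    rw [e4]
    exact key.trans_le e5
  rw [e6]
  exact hε.trans_le e5

theorem class_of (h2 : v.valuation K 2 < 1) {c : 𝓞 K} (hc : c ≠ 0) :
    ∃ (n : ℕ) (b₀ : 𝓞 K), ∀ a b : 𝓞 K, a + 27 ∈ v.asIdeal ^ n → b - b₀ ∈ v.asIdeal ^ n →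
      SpF (algebraMap K (v.adicCompletion K) (a : K)) (algebraMap K (v.adicCompletion K) (b : K)) ∧
      dsc a b ∉ v.asIdeal ^ n ∧ ∃ r : v.adicCompletion K, r ≠ 0 ∧
        algebraMap K (v.adicCompletion K) (-(4 * (a : K) ^ 3 + 27 * (b : K) ^ 2)) =
          algebraMap K (v.adicCompletion K) (c : K) * r ^ 2 := by
  have hval : ∀ x : K, Valued.v (algebraMap K (v.adicCompletion K) x) = v.valuation K x := fun x =>
    v.valuedAdicCompletion_eq_valuation' x
  have hofK : ∀ n : ℕ, [n.AtLeastTwo] → (OfNat.ofNat n : v.adicCompletion K) =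
      algebraMap K (v.adicCompletion K) (OfNat.ofNat n) := fun n _ => (map_ofNat _ n).symm
  have hint : ∀ x : 𝓞 K, v.valuation K (x : K) ≤ 1 := fun x => v.valuation_le_one x
  have hmem : ∀ (x : 𝓞 K) (n : ℕ), x ∈ v.asIdeal ^ n ↔ v.valuation K (x : K) ≤ exp (-(n : ℤ)) :=
    fun x n => by
      rw [← v.intValuation_le_pow_iff_mem, ← v.valuation_of_algebraMap (K := K)]
  -- choose `k`
  obtain ⟨k, hk⟩ : ∃ k : ℕ, v.valuation K ((4 : K) ^ k * c) < v.valuation K ((2 : K) ^ 12) := by
    have h20 : v.valuation K ((2 : K) ^ 12) ≠ 0 := (Valuation.ne_zero_iff _).2 (by norm_num)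
    obtain ⟨k, hk⟩ := exists_pow_lt₀ h2 (Units.mk0 _ h20)
    refine ⟨k, ?_⟩
    rw [Units.val_mk0] at hk
    refine lt_of_le_of_lt ?_ hk
    have e : (4 : K) ^ k * c = 2 ^ k * (2 ^ k * c) := by
      rw [show (4 : K) = 2 * 2 by norm_num, mul_pow, mul_assoc]
    rw [e, map_mul, ← map_pow]
    refine mul_le_of_le_one_right' ?_
    rw [map_mul, map_pow]
    exact (mul_le_of_le_one_right' (hint c)).trans (pow_le_one₀ zero_le h2.le)
  set β : 𝓞 K := -(4 ^ k * c) with hβd
  have hβK : ((β : 𝓞 K) : K) = -((4 : K) ^ k * c) := by rw [hβd]; push_cast; rfl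
  have hβ0 : (β : K) ≠ 0 := by
    rw [hβK, neg_ne_zero]
    refine mul_ne_zero (pow_ne_zero _ (by norm_num)) ?_
    rwa [Ne, RingOfIntegers.coe_eq_zero_iff]
  obtain ⟨n, hn⟩ : ∃ n : ℕ, exp (-(n : ℤ)) < v.valuation K (16 * (β : K)) :=
    exists_exp_neg_natCast_lt ((Valuation.ne_zero_iff _).2 (mul_ne_zero (by norm_num) hβ0))
  refine ⟨n, 54 + 729 * β, fun a b ha hb => ?_⟩
  rw [hmem] at ha hb
  have ha' : v.valuation K ((a : K) + 27) ≤ exp (-(n : ℤ)) := by
    have e : ((a + 27 : 𝓞 K) : K) = (a : K) + 27 := by push_cast; rfl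
    rwa [e] at ha
  have hb₀e : ((54 + 729 * β : 𝓞 K) : K) = 54 + 729 * (β : K) := by push_cast; rfl
  have hb' : v.valuation K ((b : K) - (54 + 729 * (β : K))) ≤ exp (-(n : ℤ)) := by
    have e : ((b - (54 + 729 * β) : 𝓞 K) : K) = (b : K) - (54 + 729 * (β : K)) := by push_cast; rfl
    rwa [e] at hb
  obtain ⟨c1, c2, c3, c4, c5⟩ := Cl_abs (v.valuation K) h2 hβ0
    (by rw [hβK, Valuation.map_neg]; exact hk) (hint a) (hint b)
    (by rw [← hb₀e]; exact hint _) rfl hn ha' hb'
  refine ⟨⟨?_, ?_, ?_⟩, ?_, ?_⟩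
  · rw [hofK 2, hval]
    exact h2
  · rw [hofK 27, hofK 2, ← map_add, ← map_pow, hval, hval]
    exact c1
  · rw [hofK 27, hofK 3, hofK 2, ← map_mul, ← map_add, ← map_add, ← map_pow, hval, hval]
    exact c2
  · rw [hmem, not_le]
    have e : ((dsc a b : 𝓞 K) : K) = dsc (a : K) (b : K) := by
      rw [dsc, dsc]; push_cast; rfl
    rw [e]
    exact c4
  · obtain ⟨r, hr, hr'⟩ := sq_near (F := v.adicCompletion K)
      (y := algebraMap K (v.adicCompletion K) (-(4 * (a : K) ^ 3 + 27 * (b : K) ^ 2)))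
      (z := algebraMap K (v.adicCompletion K) (3 ^ 12 * (4 * (4 ^ k * (c : K))))) (by
        rw [hofK 4, ← map_sub, ← map_mul, hval, hval]
        have e1 : -(4 * (a : K) ^ 3 + 27 * (b : K) ^ 2) - 3 ^ 12 * (4 * (4 ^ k * (c : K))) =
            -(dsc (a : K) (b : K) - 3 ^ 12 * (4 * (β : K))) := by
          rw [dsc, hβK]; ring
        have e2 : v.valuation K (4 * (3 ^ 12 * (4 * (4 ^ k * (c : K))))) =
            v.valuation K (16 * (β : K)) := by
          have e3 : (4 * (3 ^ 12 * (4 * (4 ^ k * (c : K)))) : K) = -(3 ^ 12 * (16 * (β : K))) := by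
            rw [hβK]; ring
          rw [e3, Valuation.map_neg, map_mul, map_pow, c5, one_pow, one_mul]
        rw [e1, Valuation.map_neg, e2]
        exact c3)
    refine ⟨algebraMap K (v.adicCompletion K) (3 ^ 6 * (2 * 2 ^ k)) * r, mul_ne_zero ?_ hr, ?_⟩
    · rw [Ne, map_eq_zero]
      exact mul_ne_zero (by norm_num) (mul_ne_zero two_ne_zero (pow_ne_zero _ two_ne_zero))
    · rw [hr', mul_pow, ← map_pow, ← mul_assoc (algebraMap K (v.adicCompletion K) (c : K)), ← map_mul]
      congr 2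
      rw [show (4 : K) ^ k = 2 ^ k * 2 ^ k by
        rw [← mul_pow]; norm_num]
      ring

end H36CY

end S_H36_CY_Cl
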