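import Mathlib
import Pool.Agent.H76.PN.A5
import Pool.Agent.H76.CQ.Qb

/-! This file joins several modules to save build time (Qd). -/

set_option autoImplicit false

section S_H36_CY_Na

set_option autoImplicit false
set_option linter.unusedSectionVars false
open scoped Classical

open WithZero NumberField IsDedekindDomain H76PP

namespace H36CY

variable {K : Type} [Field K] [NumberField K] {v : HeightOneSpectrum (𝓞 K)}

private theorem Na_dense (v : HeightOneSpectrum (𝓞 K)) (x : v.adicCompletion K) :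
    ∃ k : K, Valued.v (algebraMap K (v.adicCompletion K) k - x) < 1 := by
  have hd := HeightOneSpectrum.denseRange_algebraMap (K := K) v
  have hopen : IsOpen {y : v.adicCompletion K | Valued.v (y - x) < 1} := by
    have h1 : IsOpen {y : v.adicCompletion K | Valued.v y < 1} := by
      obtain ⟨t, ht⟩ := v.valuedAdicCompletion_surjective K (1 : WithZero (Multiplicative ℤ))
      have := Valued.isOpen_ball (v.adicCompletion K) (Valued.v.restrict t)
      simp_rw [Valuation.restrict_lt_iff] at this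
      rwa [ht] at this
    exact h1.preimage (continuous_sub_right x)
  obtain ⟨k, hk⟩ := hd.exists_mem_open hopen ⟨x, by simp⟩
  exact ⟨k, hk⟩

private theorem Na_val (x : K) :
    Valued.v (algebraMap K (v.adicCompletion K) x) = v.valuation K x :=
  v.valuedAdicCompletion_eq_valuation' (K := K) x

private theorem Na_app {t : v.adicCompletion K} (ht : Valued.v t ≤ 1) :
    ∃ a : 𝓞 K, Valued.v (t - algebraMap K (v.adicCompletion K) (a : K)) < 1 := by
  obtain ⟨k, hk⟩ := Na_dense v t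
  have h1 : v.valuation K k ≤ 1 := by
    rw [← Na_val (v := v) k]
    have e1 : algebraMap K (v.adicCompletion K) k =
        (algebraMap K (v.adicCompletion K) k - t) + t := by ring
    rw [e1]
    exact Valuation.map_add_le _ hk.le ht
  obtain ⟨a, ha⟩ := Tf_approx v h1
  refine ⟨a, ?_⟩
  have e1 : t - algebraMap K (v.adicCompletion K) (a : K) =
      -(algebraMap K (v.adicCompletion K) k - t) +
        algebraMap K (v.adicCompletion K) (k - (a : K)) := by
    rw [map_sub]
    ring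
  rw [e1]
  refine Valuation.map_add_lt _ ?_ ?_
  · rw [Valuation.map_neg]
    exact hk
  · rw [Na_val]
    exact ha

private theorem Na_lt (x : 𝓞 K) :
    Valued.v (algebraMap K (v.adicCompletion K) (x : K)) < 1 ↔ x ∈ v.asIdeal := by
  rw [Na_val]
  exact v.valuation_lt_one_iff_mem x

private theorem Na_le (x : 𝓞 K) :
    Valued.v (algebraMap K (v.adicCompletion K) (x : K)) ≤ 1 := by
  rw [Na_val]
  exact v.valuation_le_one x

private theorem Na_one {x : 𝓞 K} (hx : x ∉ v.asIdeal) :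
    Valued.v (algebraMap K (v.adicCompletion K) (x : K)) = 1 :=
  le_antisymm (Na_le x) (not_lt.1 fun h => hx ((Na_lt x).1 h))

private theorem Na_two (h2 : v.valuation K 2 < 1) : (2 : 𝓞 K) ∈ v.asIdeal := by
  rw [← v.valuation_lt_one_iff_mem (K := K) 2]
  have h1 : algebraMap (𝓞 K) K 2 = 2 := map_ofNat (algebraMap (𝓞 K) K) 2
  have h3 : v.valuation K (algebraMap (𝓞 K) K 2) < 1 := by
    rw [h1]
    exact h2
  exact h3

private theorem Na_V2 (h2 : v.valuation K 2 < 1) :
    Valued.v (2 : v.adicCompletion K) < 1 := by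
  have h1 := Na_val (v := v) (2 : K)
  rw [map_ofNat] at h1
  rw [h1]
  exact h2

private theorem Na_ne2 : (2 : v.adicCompletion K) ≠ 0 := by
  have h1 : (algebraMap K (v.adicCompletion K)) 2 ≠ 0 := (map_ne_zero _).2 two_ne_zero
  rwa [map_ofNat] at h1

theorem exists_rho (h2 : v.valuation K 2 < 1) :
    ∃ ρ : v.adicCompletion K, Valued.v ρ ≤ 1 ∧ ∀ t : v.adicCompletion K, Valued.v t ≤ 1 →
      Valued.v (t ^ 2 + t - ρ) = 1 := by
  have hfin : Finite (𝓞 K ⧸ v.asIdeal) := Ideal.finiteQuotientOfFreeOfNeBot _ v.ne_bot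
  have hnt : Nontrivial (𝓞 K ⧸ v.asIdeal) := Ideal.Quotient.nontrivial_iff.2 v.isPrime.ne_top
  have hns : ¬ Function.Surjective (fun t : 𝓞 K ⧸ v.asIdeal => t ^ 2 + t) := by
    intro hs
    have hi := Finite.injective_iff_surjective.2 hs
    have h1 : (0 : 𝓞 K ⧸ v.asIdeal) = -1 := by
      apply hi
      show (0 : 𝓞 K ⧸ v.asIdeal) ^ 2 + 0 = (-1) ^ 2 + -1
      ring
    exact neg_ne_zero.2 one_ne_zero h1.symm
  rw [Function.Surjective] at hns
  push Not at hns
  obtain ⟨r', hr'⟩ := hns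
  obtain ⟨r, rfl⟩ := Ideal.Quotient.mk_surjective r'
  refine ⟨algebraMap K (v.adicCompletion K) (r : K), Na_le r, fun t ht => ?_⟩
  obtain ⟨a, ha⟩ := Na_app ht
  have h1 : a ^ 2 + a - r ∉ v.asIdeal := by
    intro h
    apply hr' (Ideal.Quotient.mk v.asIdeal a)
    show Ideal.Quotient.mk v.asIdeal a ^ 2 + Ideal.Quotient.mk v.asIdeal a =
      Ideal.Quotient.mk v.asIdeal r
    rw [← map_pow, ← map_add]
    exact Ideal.Quotient.eq.2 h
  have h3 := Na_one h1
  set a' := algebraMap K (v.adicCompletion K) (a : K) with ha'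
  set r' := algebraMap K (v.adicCompletion K) (r : K) with hr''
  have e1 : algebraMap K (v.adicCompletion K) ((a ^ 2 + a - r : 𝓞 K) : K) =
      a' ^ 2 + a' - r' := by
    have e0 : ((a ^ 2 + a - r : 𝓞 K) : K) = (a : K) ^ 2 + (a : K) - (r : K) := by
      push_cast
      rfl
    rw [ha', hr'', e0, map_sub, map_add, map_pow]
  rw [e1] at h3
  have e2 : t ^ 2 + t - r' = (t - a') * (t + a' + 1) + (a' ^ 2 + a' - r') := by ring
  have h4 : Valued.v ((t - a') * (t + a' + 1)) < 1 := by
    rw [map_mul]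
    have h5 : Valued.v (t + a' + 1) ≤ 1 := by
      refine Valuation.map_add_le _ (Valuation.map_add_le _ ht (Na_le a)) ?_
      rw [map_one]
    exact mul_lt_one_of_lt_of_le ha h5
  rw [e2, Valuation.map_add_eq_of_lt_right _ (by rw [h3]; exact h4), h3]

theorem exists_root (h2 : v.valuation K 2 < 1) {u : v.adicCompletion K} (hu : Valued.v u = 1) :
    ∃ w : v.adicCompletion K, Valued.v w = 1 ∧ Valued.v (w ^ 2 - u) < 1 := by
  have hfin : Finite (𝓞 K ⧸ v.asIdeal) := Ideal.finiteQuotientOfFreeOfNeBot _ v.ne_bot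
  have h20 : (2 : 𝓞 K ⧸ v.asIdeal) = 0 := by
    have h1 := Ideal.Quotient.eq_zero_iff_mem.2 (Na_two h2)
    rwa [map_ofNat] at h1
  have hi : Function.Injective (fun t : 𝓞 K ⧸ v.asIdeal => t ^ 2) := by
    intro x y hxy
    have hxy' : x ^ 2 = y ^ 2 := hxy
    have h1 : (x - y) ^ 2 = 0 := by
      have e1 : (x - y) ^ 2 = x ^ 2 - y ^ 2 + 2 * (y ^ 2 - x * y) := by ring
      rw [e1, h20, hxy']
      ring
    exact sub_eq_zero.1 (pow_eq_zero_iff two_ne_zero |>.1 h1)
  have hs := Finite.injective_iff_surjective.1 hi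
  obtain ⟨u₀, hu₀⟩ := Na_app hu.le
  obtain ⟨w', hw'⟩ := hs (Ideal.Quotient.mk v.asIdeal u₀)
  obtain ⟨w, rfl⟩ := Ideal.Quotient.mk_surjective w'
  have h1 : w ^ 2 - u₀ ∈ v.asIdeal := by
    have hw2 : Ideal.Quotient.mk v.asIdeal w ^ 2 = Ideal.Quotient.mk v.asIdeal u₀ := hw'
    rw [← map_pow] at hw2
    exact Ideal.Quotient.eq.1 hw2
  have h3 := (Na_lt (v := v) _).2 h1
  have e1 : algebraMap K (v.adicCompletion K) ((w ^ 2 - u₀ : 𝓞 K) : K) =
      (algebraMap K (v.adicCompletion K) (w : K)) ^ 2 -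
        algebraMap K (v.adicCompletion K) (u₀ : K) := by
    have e0 : ((w ^ 2 - u₀ : 𝓞 K) : K) = (w : K) ^ 2 - (u₀ : K) := by
      push_cast
      rfl
    rw [e0, map_sub, map_pow]
  rw [e1] at h3
  have h4 : Valued.v ((algebraMap K (v.adicCompletion K) (w : K)) ^ 2 - u) < 1 := by
    have e2 : (algebraMap K (v.adicCompletion K) (w : K)) ^ 2 - u =
        ((algebraMap K (v.adicCompletion K) (w : K)) ^ 2 -
          algebraMap K (v.adicCompletion K) (u₀ : K)) +
        -(u - algebraMap K (v.adicCompletion K) (u₀ : K)) := by ring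
    rw [e2]
    refine Valuation.map_add_lt _ h3 ?_
    rw [Valuation.map_neg]
    exact hu₀
  refine ⟨algebraMap K (v.adicCompletion K) (w : K), ?_, h4⟩
  have h5 : Valued.v ((algebraMap K (v.adicCompletion K) (w : K)) ^ 2) = 1 := by
    rw [← hu]
    refine Valuation.map_eq_of_sub_lt _ ?_
    rw [hu]
    exact h4
  rw [map_pow] at h5
  exact (pow_eq_one_iff_of_nonneg zero_le two_ne_zero).1 h5

theorem rho_even (h2 : v.valuation K 2 < 1) {ρ : v.adicCompletion K} (hρ1 : Valued.v ρ ≤ 1)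
    (hρ : ∀ t : v.adicCompletion K, Valued.v t ≤ 1 → Valued.v (t ^ 2 + t - ρ) = 1)
    {A B : v.adicCompletion K} (hAB : A ≠ 0 ∨ B ≠ 0) :
    ∃ γ : WithZero (Multiplicative ℤ), γ ≠ 0 ∧ Valued.v (A ^ 2 - (1 + 4 * ρ) * B ^ 2) = γ ^ 2 := by
  have hV2 := Na_V2 (v := v) h2
  have hV4 : Valued.v (4 : v.adicCompletion K) = Valued.v (2 : v.adicCompletion K) ^ 2 := by
    rw [← map_pow]
    congr 1
    norm_num
  have hV4ρ : Valued.v (4 * ρ) < 1 := by
    rw [map_mul, hV4]
    exact mul_lt_one_of_lt_of_le (pow_lt_one₀ zero_le hV2 two_ne_zero) hρ1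
  have h1 : Valued.v (1 + 4 * ρ) = 1 := Valuation.map_one_add_of_lt _ hV4ρ
  have hX : Valued.v ((1 + 4 * ρ) * B ^ 2) = Valued.v B ^ 2 := by
    rw [map_mul, h1, one_mul, map_pow]
  rcases lt_trichotomy (Valued.v A) (Valued.v B) with h | h | h
  · refine ⟨Valued.v B, ?_, ?_⟩
    · exact (lt_of_le_of_lt zero_le h).ne'
    · rw [Valuation.map_sub_eq_of_lt_right, hX]
      rw [hX, map_pow]
      exact pow_lt_pow_left₀ h zero_le two_ne_zero
  · have hB : B ≠ 0 := by
      rcases hAB with h' | h'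
      · intro h0
        rw [h0, map_zero] at h
        exact h' ((Valuation.zero_iff _).1 h)
      · exact h'
    have hVB : Valued.v B ≠ 0 := (Valuation.ne_zero_iff _).2 hB
    obtain ⟨z, hz⟩ : ∃ z, z = A / B - 1 := ⟨_, rfl⟩
    have hA : A = B * (z + 1) := by
      rw [hz]
      field_simp
      ring
    have hVz : Valued.v z ≤ 1 := by
      rw [hz]
      refine (Valuation.map_sub _ _ _).trans (max_le ?_ ?_)
      · rw [map_div₀, h, div_self hVB]
      · rw [map_one]
    have e1 : A ^ 2 - (1 + 4 * ρ) * B ^ 2 = B ^ 2 * (z ^ 2 + (2 * z - 4 * ρ)) := by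
      rw [hA]
      ring
    rcases lt_or_ge (Valued.v (2 : v.adicCompletion K)) (Valued.v z) with h3 | h3
    · have hz0 : Valued.v z ≠ 0 := (lt_of_le_of_lt zero_le h3).ne'
      refine ⟨Valued.v B * Valued.v z, mul_ne_zero hVB hz0, ?_⟩
      have h4 : Valued.v (2 * z - 4 * ρ) < Valued.v (z ^ 2) := by
        refine lt_of_le_of_lt (Valuation.map_sub _ _ _) (max_lt ?_ ?_)
        · rw [map_mul, map_pow, sq]
          exact mul_lt_mul_of_pos_right h3 (zero_lt_iff.2 hz0)
        · rw [map_mul, map_pow, hV4]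
          calc _ ≤ Valued.v (2 : v.adicCompletion K) ^ 2 * 1 := mul_le_mul' le_rfl hρ1
            _ = Valued.v (2 : v.adicCompletion K) ^ 2 := mul_one _
            _ < _ := pow_lt_pow_left₀ h3 zero_le two_ne_zero
      rw [e1, map_mul, Valuation.map_add_eq_of_lt_left _ h4, map_pow, map_pow, mul_pow]
    · have h20 : (2 : v.adicCompletion K) ≠ 0 := Na_ne2
      have hV20 : Valued.v (2 : v.adicCompletion K) ≠ 0 := (Valuation.ne_zero_iff _).2 h20
      refine ⟨Valued.v B * Valued.v (2 : v.adicCompletion K), mul_ne_zero hVB hV20, ?_⟩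
      have hw : Valued.v (z / 2) ≤ 1 := by
        rw [map_div₀, div_le_iff₀ (zero_lt_iff.2 hV20), one_mul]
        exact h3
      have h4 := hρ (z / 2) hw
      have e2 : z ^ 2 + (2 * z - 4 * ρ) = 4 * ((z / 2) ^ 2 + z / 2 - ρ) := by
        field_simp
        ring
      rw [e1, e2, map_mul, map_mul, h4, mul_one, hV4, map_pow, mul_pow]
  · refine ⟨Valued.v A, ?_, ?_⟩
    · exact (lt_of_le_of_lt zero_le h).ne'
    · rw [Valuation.map_sub_eq_of_lt_left, map_pow]
      rw [hX, map_pow]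
      exact pow_lt_pow_left₀ h zero_le two_ne_zero

end H36CY

end S_H36_CY_Na

section S_H36_CY_Nc

set_option autoImplicit false
set_option linter.unusedSectionVars false
open scoped Classical

open WithZero NumberField IsDedekindDomain H76PP

namespace H36CY

variable {K : Type} [Field K] [NumberField K] {v : HeightOneSpectrum (𝓞 K)}

theorem defect (h2 : v.valuation K 2 < 1) {D : v.adicCompletion K} (hD : ¬ IsSquare D) :
    (∃ n : ℤ, Odd n ∧ Valued.v D = exp n) ∨
    (∃ s x : v.adicCompletion K, s ≠ 0 ∧ D * s ^ 2 = 1 + x ∧ (∃ n : ℤ, Odd n ∧ Valued.v x = exp n) ∧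
      Valued.v (4 : v.adicCompletion K) < Valued.v x ∧ Valued.v x < 1) ∨
    ∃ s ρ : v.adicCompletion K, s ≠ 0 ∧ D * s ^ 2 = 1 + 4 * ρ ∧ Valued.v ρ ≤ 1 ∧
      ∀ t : v.adicCompletion K, Valued.v t ≤ 1 → Valued.v (t ^ 2 + t - ρ) = 1 := by
  have hval : ∀ k : K, Valued.v (algebraMap K (v.adicCompletion K) k) = v.valuation K k :=
    fun k => HeightOneSpectrum.valuedAdicCompletion_eq_valuation' v k
  have h2F : Valued.v (2 : v.adicCompletion K) < 1 := by
    have h := hval 2
    have h' : algebraMap K (v.adicCompletion K) 2 = 2 := by rw [map_ofNat]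
    rw [h'] at h
    rw [h]; exact h2
  have h20 : (2 : v.adicCompletion K) ≠ 0 := by
    intro h
    have h' : algebraMap K (v.adicCompletion K) 2 = 2 := by rw [map_ofNat]
    have h'' := hval 2
    rw [h', h, map_zero] at h''
    exact (two_ne_zero : (2 : K) ≠ 0) ((v.valuation K).zero_iff.1 h''.symm)
  have h40 : (4 : v.adicCompletion K) ≠ 0 := by
    have : (4 : v.adicCompletion K) = 2 * 2 := by norm_num
    rw [this]; exact mul_ne_zero h20 h20
  obtain ⟨π, hπ⟩ := v.valuation_exists_uniformizer K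
  set p : v.adicCompletion K := algebraMap K (v.adicCompletion K) π with hp
  have hpv : Valued.v p = exp (-1 : ℤ) := by
    rw [hp, hval π, hπ]
  have hp0 : p ≠ 0 := by
    intro h
    rw [h, map_zero] at hpv
    exact exp_ne_zero hpv.symm
  have hpz : ∀ m : ℤ, Valued.v (p ^ m) = exp (-m) := by
    intro m
    rw [map_zpow₀, hpv, ← exp_zsmul]
    congr 1
    simp
  have hpn : ∀ m : ℕ, Valued.v (p ^ m) = exp (-(m : ℤ)) := by
    intro m
    rw [← zpow_natCast, hpz]
  obtain ⟨e, he⟩ : ∃ e : ℤ, Valued.v (2 : v.adicCompletion K) = exp (-e) :=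
    ⟨-log (Valued.v (2 : v.adicCompletion K)), by
      rw [neg_neg, exp_log ((Valued.v).ne_zero_iff.2 h20)]⟩
  have he4 : Valued.v (4 : v.adicCompletion K) = exp (-(2 * e)) := by
    have : (4 : v.adicCompletion K) = 2 * 2 := by norm_num
    rw [this, map_mul, he, ← exp_add]
    congr 1
    ring
  have he0 : 0 < e := by
    rw [he, ← exp_zero, exp_lt_exp] at h2F
    omega
  have hA : ∀ s x : v.adicCompletion K, s ≠ 0 → D * s ^ 2 = 1 + x →
      Valued.v (4 : v.adicCompletion K) ≤ Valued.v x := by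
    intro s x hs hx
    by_contra hlt
    push Not at hlt
    obtain ⟨r, hr, hr2⟩ := sq_near (F := v.adicCompletion K) (y := 1 + x) (z := 1)
      (by simpa using hlt)
    apply hD
    refine ⟨r / s, ?_⟩
    have h3 : D * s ^ 2 = r ^ 2 := by rw [hx, hr2, one_mul]
    field_simp
    exact h3
  have hcl : ∀ s x : v.adicCompletion K, s ≠ 0 → D * s ^ 2 = 1 + x → Valued.v x < 1 →
      ∃ n : ℕ, 0 < n ∧ Valued.v x = exp (-(n : ℤ)) ∧ (n : ℤ) ≤ 2 * e := by
    intro s x hs hx hx1
    have h4 := hA s x hs hx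
    have hx0 : Valued.v x ≠ 0 := by
      intro h
      rw [h, le_zero_iff] at h4
      exact h40 ((Valued.v).zero_iff.1 h4)
    have hl : exp (log (Valued.v x)) = Valued.v x := exp_log hx0
    have hl1 : log (Valued.v x) < 0 := by
      rw [← hl, ← exp_zero, exp_lt_exp] at hx1
      exact hx1
    have hl2 : -(2 * e) ≤ log (Valued.v x) := by
      rw [← hl, he4, exp_le_exp] at h4
      exact h4
    refine ⟨(-log (Valued.v x)).toNat, by omega, ?_, by omega⟩
    have h5 : (((-log (Valued.v x)).toNat : ℕ) : ℤ) = -log (Valued.v x) :=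
      Int.toNat_of_nonneg (by omega)
    rw [h5, neg_neg, hl]
  have hD0 : D ≠ 0 := by
    intro h
    exact hD ⟨0, by rw [h, mul_zero]⟩
  by_cases hodd : ∃ n : ℤ, Odd n ∧ Valued.v D = exp n
  · exact Or.inl hodd
  refine Or.inr ?_
  have hstart : ∃ s x : v.adicCompletion K, s ≠ 0 ∧ D * s ^ 2 = 1 + x ∧ Valued.v x < 1 := by
    have hDe : exp (log (Valued.v D)) = Valued.v D := exp_log ((Valued.v).ne_zero_iff.2 hD0)
    rcases Int.even_or_odd (log (Valued.v D)) with hev | ho
    · obtain ⟨m, hm⟩ := hev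
      have hu : Valued.v (D * (p ^ m) ^ 2) = 1 := by
        rw [map_mul, map_pow, hpz, ← hDe, hm, ← exp_nsmul, ← exp_add, ← exp_zero]
        congr 1
        simp
        ring
      obtain ⟨w, hw1, hw2⟩ := exists_root h2 hu
      have hw0 : w ≠ 0 := by
        intro h
        rw [h, map_zero] at hw1
        exact zero_ne_one hw1
      refine ⟨p ^ m / w, D * (p ^ m / w) ^ 2 - 1, div_ne_zero (zpow_ne_zero _ hp0) hw0,
        by ring, ?_⟩
      have h6 : D * (p ^ m / w) ^ 2 - 1 = -(w ^ 2 - D * (p ^ m) ^ 2) / w ^ 2 := by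
        field_simp
        ring
      rw [h6, map_div₀, Valuation.map_neg, map_pow, hw1, one_pow, div_one]
      exact hw2
    · exact absurd ⟨_, ho, hDe.symm⟩ hodd
  let P : ℕ → Prop := fun n => ∃ s x : v.adicCompletion K, s ≠ 0 ∧ D * s ^ 2 = 1 + x ∧
    Valued.v x = exp (-(n : ℤ)) ∧ 0 < n
  have hPle : ∀ n, P n → (n : ℤ) ≤ 2 * e := by
    rintro n ⟨s, x, hs, hx, hn, hn0⟩
    have h4 := hA s x hs hx
    rw [hn, he4, exp_le_exp] at h4
    omega
  obtain ⟨n, hPn, hmax⟩ : ∃ n, P n ∧ ∀ m, P m → m ≤ n := by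
    obtain ⟨s, x, hs, hx, hx1⟩ := hstart
    obtain ⟨n0, hn0, hn1, hn2⟩ := hcl s x hs hx hx1
    have hP0 : P n0 := ⟨s, x, hs, hx, hn1, hn0⟩
    have hB : ∀ m, P m → m ≤ (2 * e).toNat := by
      intro m hm
      have := hPle m hm
      omega
    exact ⟨Nat.findGreatest P (2 * e).toNat, Nat.findGreatest_spec (hB n0 hP0) hP0,
      fun m hm => Nat.le_findGreatest (hB m hm) hm⟩
  obtain ⟨s, x, hs, hx, hn, hn0⟩ := hPn
  have hn2e := hPle n ⟨s, x, hs, hx, hn, hn0⟩
  have hx1 : Valued.v x < 1 := by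
    rw [hn, ← exp_zero, exp_lt_exp]
    omega
  rcases Nat.even_or_odd n with hev | ho
  · obtain ⟨j, hj⟩ := hev
    have hje : (j : ℤ) ≤ e := by omega
    have hj0 : 0 < j := by omega
    rcases lt_or_eq_of_le hje with hlt | heq
    · exfalso
      have hu : Valued.v (x / p ^ (2 * j)) = 1 := by
        rw [map_div₀, hn, hpn, ← exp_sub, ← exp_zero]
        congr 1
        push_cast
        omega
      obtain ⟨w, hw1, hw2⟩ := exists_root h2 hu
      have hpw : Valued.v (p ^ j * w) = exp (-(j : ℤ)) := by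
        rw [map_mul, hpn, hw1, mul_one]
      have hpw1 : Valued.v (p ^ j * w) < 1 := by
        rw [hpw, ← exp_zero, exp_lt_exp]
        omega
      have hq : Valued.v (1 + p ^ j * w) = 1 := Valuation.map_one_add_of_lt _ hpw1
      have hq0 : 1 + p ^ j * w ≠ 0 := by
        intro h
        rw [h, map_zero] at hq
        exact zero_ne_one hq
      have hs' : s / (1 + p ^ j * w) ≠ 0 := div_ne_zero hs hq0
      have hx' : D * (s / (1 + p ^ j * w)) ^ 2 =
          1 + (x - p ^ (2 * j) * w ^ 2 - 2 * (p ^ j * w)) / (1 + p ^ j * w) ^ 2 := by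
        have h7 : D * (s / (1 + p ^ j * w)) ^ 2 = (1 + x) / (1 + p ^ j * w) ^ 2 := by
          rw [← hx, div_pow, mul_div_assoc]
        have hpp : p ^ (2 * j) = (p ^ j) ^ 2 := by rw [mul_comm 2 j, pow_mul]
        rw [h7, hpp, div_eq_iff (pow_ne_zero 2 hq0), add_mul,
          div_mul_cancel₀ _ (pow_ne_zero 2 hq0), one_mul]
        ring
      have hlt1 : Valued.v (x - p ^ (2 * j) * w ^ 2) < exp (-(n : ℤ)) := by
        have h8 : x - p ^ (2 * j) * w ^ 2 = -(p ^ (2 * j) * (w ^ 2 - x / p ^ (2 * j))) := by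
          have := pow_ne_zero (2 * j) hp0
          field_simp
          ring
        rw [h8, Valuation.map_neg, map_mul, hpn]
        have h9 : exp (-((2 * j : ℕ) : ℤ)) = exp (-(n : ℤ)) := by
          congr 2
          push_cast
          omega
        rw [h9]
        exact mul_lt_of_lt_one_right (zero_lt_iff.2 exp_ne_zero) hw2
      have hlt2 : Valued.v (2 * (p ^ j * w)) < exp (-(n : ℤ)) := by
        rw [map_mul, hpw, he, ← exp_add, exp_lt_exp]
        omega
      have hlt3 : Valued.v ((x - p ^ (2 * j) * w ^ 2 - 2 * (p ^ j * w)) /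
          (1 + p ^ j * w) ^ 2) < exp (-(n : ℤ)) := by
        rw [map_div₀, map_pow, hq, one_pow, div_one]
        exact Valuation.map_sub_lt _ hlt1 hlt2
      have hlt4 : exp (-(n : ℤ)) < (1 : WithZero (Multiplicative ℤ)) := by
        rw [← exp_zero, exp_lt_exp]
        omega
      obtain ⟨n', hn'0, hn'1, hn'2⟩ := hcl _ _ hs' hx' (hlt3.trans hlt4)
      have h10 := hmax n' ⟨_, _, hs', hx', hn'1, hn'0⟩
      rw [hn'1, exp_lt_exp] at hlt3
      omega
    · refine Or.inr ⟨s, x / 4, hs, ?_, ?_, ?_⟩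
      · rw [hx]
        field_simp
      · rw [map_div₀, hn, he4, ← exp_sub, ← exp_zero, exp_le_exp]
        omega
      · intro t ht
        have hρ : Valued.v (x / 4) ≤ 1 := by
          rw [map_div₀, hn, he4, ← exp_sub, ← exp_zero, exp_le_exp]
          omega
        have hle : Valued.v (t ^ 2 + t - x / 4) ≤ 1 := by
          refine (Valuation.map_sub _ _ _).trans (max_le ?_ hρ)
          refine (Valuation.map_add _ _ _).trans (max_le ?_ ht)
          rw [map_pow]
          exact pow_le_one₀ zero_le ht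
        by_contra hne
        have hlt := lt_of_le_of_ne hle hne
        have h2t : Valued.v (2 * t) < 1 := by
          rw [map_mul]
          exact lt_of_le_of_lt (mul_le_of_le_one_right' ht) h2F
        have hq : Valued.v (1 + 2 * t) = 1 := Valuation.map_one_add_of_lt _ h2t
        have hq0 : 1 + 2 * t ≠ 0 := by
          intro h
          rw [h, map_zero] at hq
          exact zero_ne_one hq
        have hx' : D * (s / (1 + 2 * t)) ^ 2 =
            1 + -(4 * (t ^ 2 + t - x / 4)) / (1 + 2 * t) ^ 2 := by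
          have h7 : D * (s / (1 + 2 * t)) ^ 2 = (1 + x) / (1 + 2 * t) ^ 2 := by
            rw [← hx, div_pow, mul_div_assoc]
          have h44 : 4 * (x / 4) = x := by field_simp
          rw [h7, div_eq_iff (pow_ne_zero 2 hq0), add_mul,
            div_mul_cancel₀ _ (pow_ne_zero 2 hq0), one_mul, mul_sub, h44]
          ring
        have h11 := hA _ _ (div_ne_zero hs hq0) hx'
        rw [map_div₀, Valuation.map_neg, map_mul, map_pow, hq, one_pow, div_one] at h11
        have h12 : Valued.v (4 : v.adicCompletion K) * Valued.v (t ^ 2 + t - x / 4) <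
            Valued.v (4 : v.adicCompletion K) :=
          mul_lt_of_lt_one_right (zero_lt_iff.2 ((Valued.v).ne_zero_iff.2 h40)) hlt
        exact absurd h11 (not_le.2 h12)
  · refine Or.inl ⟨s, x, hs, hx, ⟨-(n : ℤ), ?_, hn⟩, ?_, hx1⟩
    · refine Odd.neg ?_
      exact_mod_cast ho
    · rw [hn, he4, exp_lt_exp]
      obtain ⟨k, hk⟩ := ho
      omega

end H36CY

end S_H36_CY_Nc

section S_H36_CY_Nn

set_option autoImplicit false
set_option linter.unusedSectionVars false
open scoped Classical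

open WithZero NumberField IsDedekindDomain H76PP

namespace H36CY

variable {K : Type} [Field K] [NumberField K] {v : HeightOneSpectrum (𝓞 K)}

theorem stein {F : Type*} [Field F] (h2 : (2 : F) ≠ 0) {a b P Q : F} (h : b = P ^ 2 - a * Q ^ 2) :
    ∃ A B : F, -(a * b) = A ^ 2 - (a + b) * B ^ 2 := by
  have key : ∀ Q : F, Q + 1 ≠ 0 → b = P ^ 2 - a * Q ^ 2 →
      ∃ A B : F, -(a * b) = A ^ 2 - (a + b) * B ^ 2 := by
    intro Q hQ h
    refine ⟨(a * Q - b) / (Q + 1), P / (Q + 1), ?_⟩
    have hP : P ^ 2 = b + a * Q ^ 2 := by rw [h]; ring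
    rw [div_pow, div_pow, hP]
    field_simp
    ring
  by_cases hQ : Q + 1 = 0
  · apply key 1 (by rw [one_add_one_eq_two]; exact h2)
    rw [h, eq_neg_of_add_eq_zero_left hQ]
    ring
  · exact key Q hQ h

theorem nonnorm_F (h2 : v.valuation K 2 < 1) {D : v.adicCompletion K} (hD : ¬ IsSquare D) :
    ∃ c : v.adicCompletion K, c ≠ 0 ∧ ∀ X Y : v.adicCompletion K, X ^ 2 - D * Y ^ 2 ≠ c := by
  have hval : ∀ k : K, Valued.v (algebraMap K (v.adicCompletion K) k) = v.valuation K k :=
    fun k => HeightOneSpectrum.valuedAdicCompletion_eq_valuation' v k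
  have h2F : Valued.v (2 : v.adicCompletion K) < 1 := by
    have h := hval 2
    have h' : algebraMap K (v.adicCompletion K) 2 = 2 := by rw [map_ofNat]
    rw [h'] at h
    rw [h]; exact h2
  have h4F : Valued.v (4 : v.adicCompletion K) < 1 := by
    have : (4 : v.adicCompletion K) = 2 * 2 := by norm_num
    rw [this, map_mul]
    exact mul_lt_one_of_lt_of_le h2F h2F.le
  have hr4 : ∀ r : v.adicCompletion K, Valued.v r ≤ 1 → Valued.v (1 + 4 * r) = 1 := by
    intro r hr
    apply Valuation.map_one_add_of_lt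
    rw [map_mul]
    exact mul_lt_one_of_lt_of_le h4F hr
  have hodd : ∀ n : ℤ, Odd n → ∀ γ : WithZero (Multiplicative ℤ), γ ≠ 0 → exp n ≠ γ ^ 2 := by
    intro n hn γ hγ h
    rw [← exp_log hγ, ← exp_nsmul] at h
    have h1 := congrArg log h
    rw [log_exp, log_exp] at h1
    obtain ⟨k, hk⟩ := hn
    simp only [nsmul_eq_mul, Nat.cast_ofNat] at h1
    omega
  obtain ⟨ρ, hρ1, hρ⟩ := exists_rho h2
  rcases defect h2 hD with ⟨n, hn, hDn⟩ | ⟨s, x, hs, hDs, ⟨n, hn, hxn⟩, hx4, hx1⟩ |
    ⟨s, r, hs, hDs, hr1, hr⟩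
  · have hc : (1 + 4 * ρ : v.adicCompletion K) ≠ 0 := by
      intro h
      have := hr4 ρ hρ1
      rw [h, map_zero] at this
      exact zero_ne_one this
    refine ⟨1 + 4 * ρ, hc, ?_⟩
    intro X Y hXY
    by_cases hY : Y = 0
    · obtain ⟨γ, hγ, hγ2⟩ := rho_even h2 hρ1 hρ (A := X) (B := 1) (Or.inr one_ne_zero)
      have h0 : X ^ 2 - (1 + 4 * ρ) * 1 ^ 2 = 0 := by
        rw [← hXY, hY]
        ring
      rw [h0, map_zero] at hγ2
      exact pow_ne_zero 2 hγ hγ2.symm
    · obtain ⟨γ, hγ, hγ2⟩ := rho_even h2 hρ1 hρ (A := X / Y) (B := 1 / Y)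
        (Or.inr (one_div_ne_zero hY))
      have h0 : (X / Y) ^ 2 - (1 + 4 * ρ) * (1 / Y) ^ 2 = D := by
        rw [← hXY]
        field_simp
        ring
      rw [h0, hDn] at hγ2
      exact hodd n hn γ hγ hγ2
  · have hx0 : x ≠ 0 := by
      intro h
      rw [h, map_zero] at hxn
      exact exp_ne_zero hxn.symm
    have hvx : Valued.v x ≠ 0 := (Valuation.ne_zero_iff _).2 hx0
    have hρv : Valued.v ρ = 1 := by
      have h := hρ 0 (by rw [map_zero]; exact zero_le)
      have h0 : (0 : v.adicCompletion K) ^ 2 + 0 - ρ = -ρ := by ring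
      rw [h0, Valuation.map_neg] at h
      exact h
    obtain ⟨y, hy⟩ : ∃ y : v.adicCompletion K, y = -(4 * ρ) / x := ⟨_, rfl⟩
    have hxy : x * y = -(4 * ρ) := by
      rw [hy]
      field_simp
    have hyv : Valued.v y < 1 := by
      rw [hy, map_div₀, Valuation.map_neg, map_mul, hρv, mul_one,
        div_lt_iff₀ (zero_lt_iff.2 hvx), one_mul]
      exact hx4
    have hy1 : Valued.v (1 + y) = 1 := Valuation.map_one_add_of_lt _ hyv
    have hx1' : Valued.v (1 + x) = 1 := Valuation.map_one_add_of_lt _ hx1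
    have hy0 : 1 + y ≠ 0 := by
      intro h
      rw [h, map_zero] at hy1
      exact zero_ne_one hy1
    refine ⟨1 + y, hy0, ?_⟩
    intro X Y hXY
    have hDY : D * Y ^ 2 = (1 + x) * (Y / s) ^ 2 := by
      rw [← hDs]
      field_simp
    have hb : -(x * (1 + y)) =
        (X + (1 + x) * (Y / s)) ^ 2 - (1 + x) * (X + Y / s) ^ 2 := by
      rw [← hXY, hDY]
      ring
    have h20 : (2 : v.adicCompletion K) ≠ 0 := two_ne_zero
    obtain ⟨A, B, hAB⟩ := stein h20 hb
    have hab : (1 + x) + -(x * (1 + y)) = 1 + 4 * ρ := by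
      have : (1 + x) + -(x * (1 + y)) = 1 - x * y := by ring
      rw [this, hxy]
      ring
    rw [hab] at hAB
    have hv : Valued.v (-((1 + x) * -(x * (1 + y)))) = exp n := by
      have : -((1 + x) * -(x * (1 + y))) = x * ((1 + x) * (1 + y)) := by ring
      rw [this, map_mul, map_mul, hx1', hy1, one_mul, mul_one, hxn]
    have hne : A ≠ 0 ∨ B ≠ 0 := by
      by_contra hcon
      push Not at hcon
      rw [hcon.1, hcon.2] at hAB
      have h0 : (0 : v.adicCompletion K) ^ 2 - (1 + 4 * ρ) * 0 ^ 2 = 0 := by ring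
      rw [h0] at hAB
      rw [hAB, map_zero] at hv
      exact exp_ne_zero hv.symm
    obtain ⟨γ, hγ, hγ2⟩ := rho_even h2 hρ1 hρ hne
    rw [← hAB, hv] at hγ2
    exact hodd n hn γ hγ hγ2
  · obtain ⟨π, hπ⟩ := v.valuation_exists_uniformizer K
    obtain ⟨p, hp⟩ : ∃ p : v.adicCompletion K, p = algebraMap K (v.adicCompletion K) π :=
      ⟨_, rfl⟩
    have hpv : Valued.v p = exp (-1 : ℤ) := by
      rw [hp, hval π, hπ]
    have hp0 : p ≠ 0 := by
      intro h
      rw [h, map_zero] at hpv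
      exact exp_ne_zero hpv.symm
    refine ⟨p, hp0, ?_⟩
    intro X Y hXY
    have hDY : D * Y ^ 2 = (1 + 4 * r) * (Y / s) ^ 2 := by
      rw [← hDs]
      field_simp
    rw [hDY] at hXY
    have hne : X ≠ 0 ∨ Y / s ≠ 0 := by
      by_contra hcon
      push Not at hcon
      rw [hcon.1, hcon.2] at hXY
      apply hp0
      rw [← hXY]
      ring
    obtain ⟨γ, hγ, hγ2⟩ := rho_even h2 hr1 hr hne
    rw [hXY, hpv] at hγ2
    exact hodd (-1) (by decide) γ hγ hγ2

theorem exists_nonnorm (h2 : v.valuation K 2 < 1) {D : v.adicCompletion K} (hD : ¬ IsSquare D) :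
    ∃ c : 𝓞 K, c ≠ 0 ∧ ∀ X Y : v.adicCompletion K, X ^ 2 - D * Y ^ 2 ≠
      algebraMap K (v.adicCompletion K) (c : K) := by
  obtain ⟨c₀, hc₀, hno⟩ := nonnorm_F h2 hD
  have h40 : (4 : v.adicCompletion K) ≠ 0 := by
    have : (4 : v.adicCompletion K) = 2 * 2 := by norm_num
    rw [this]
    exact mul_ne_zero two_ne_zero two_ne_zero
  obtain ⟨k, hk⟩ : ∃ k : K, Valued.v (algebraMap K (v.adicCompletion K) k - c₀) <
      Valued.v (4 * c₀) := by
    have hd := HeightOneSpectrum.denseRange_algebraMap (K := K) v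
    have hopen : IsOpen {y : v.adicCompletion K | Valued.v (y - c₀) < Valued.v (4 * c₀)} := by
      have h1 : IsOpen {y : v.adicCompletion K | Valued.v y < Valued.v (4 * c₀)} := by
        have := Valued.isOpen_ball (v.adicCompletion K) (Valued.v.restrict (4 * c₀))
        simp_rw [Valuation.restrict_lt_iff] at this
        exact this
      exact h1.preimage (continuous_sub_right c₀)
    have hne : (4 * c₀ : v.adicCompletion K) ≠ 0 := mul_ne_zero h40 hc₀
    obtain ⟨k, hk⟩ := hd.exists_mem_open hopen ⟨c₀, by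
      simp only [Set.mem_setOf_eq, sub_self, map_zero]
      exact zero_lt_iff.2 ((Valuation.ne_zero_iff _).2 hne)⟩
    exact ⟨k, hk⟩
  obtain ⟨r, hr0, hr⟩ := sq_near (F := v.adicCompletion K) hk
  have hk0 : k ≠ 0 := by
    intro h
    rw [h, map_zero] at hr
    exact mul_ne_zero hc₀ (pow_ne_zero 2 hr0) hr.symm
  obtain ⟨x, y, hy, hxy⟩ := IsFractionRing.div_surjective (A := 𝓞 K) k
  have hy0 : (y : 𝓞 K) ≠ 0 := nonZeroDivisors.ne_zero hy
  have hyK : (algebraMap (𝓞 K) K y) ≠ 0 := by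
    intro h
    exact hy0 ((FaithfulSMul.algebraMap_eq_zero_iff (𝓞 K) K).1 h)
  have hx0 : x ≠ 0 := by
    intro h
    rw [h, map_zero, zero_div] at hxy
    exact hk0 hxy.symm
  refine ⟨x * y, mul_ne_zero hx0 hy0, ?_⟩
  intro X Y hXY
  obtain ⟨z, hz⟩ : ∃ z : v.adicCompletion K,
      z = algebraMap K (v.adicCompletion K) (algebraMap (𝓞 K) K y) := ⟨_, rfl⟩
  have hz0 : z ≠ 0 := by
    rw [hz]
    exact (map_ne_zero _).2 hyK
  have h1 : algebraMap K (v.adicCompletion K) ((x * y : 𝓞 K) : K) = c₀ * r ^ 2 * z ^ 2 := by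
    have h2 : ((x * y : 𝓞 K) : K) = k * (algebraMap (𝓞 K) K y) ^ 2 := by
      rw [← hxy]
      have h3 : ((x * y : 𝓞 K) : K) = algebraMap (𝓞 K) K x * algebraMap (𝓞 K) K y := by
        rw [← map_mul]
      rw [h3]
      field_simp
    rw [h2, map_mul, map_pow, hr, ← hz]
  rw [h1] at hXY
  apply hno (X / (r * z)) (Y / (r * z))
  have h4 : (X / (r * z)) ^ 2 - D * (Y / (r * z)) ^ 2 = (X ^ 2 - D * Y ^ 2) / (r * z) ^ 2 := by
    ring
  rw [h4, hXY]
  field_simp

end H36CY

end S_H36_CY_Nn
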