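import Mathlib
import Pool.Agent.H10.StarGal
import Pool.Agent.H76.PN.D1
import Pool.Agent.H76.PN.N5
import Pool.Agent.H76.PN.N6
import Pool.Agent.H76.PN.P2
import Pool.Agent.H76.PN.Z2
import Pool.Agent.H76.CQ.Qa
import Pool.Agent.H76.CQ.Qb

/-! This file joins several modules to save build time (Qe). -/

set_option autoImplicit false

section S_H30_CY_Mn

set_option autoImplicit false
set_option linter.unusedSectionVars false
open scoped Classical

open WithZero NumberField IsDedekindDomain H38RT H76PP H36MT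
open H38T1 (SC sc scu rep eo la si Pri OddP tp unif)

namespace H30CY

variable {K : Type} [Field K] [NumberField K]

/-- The auxiliary primes inside a given infinite set and the number of pairs in a residue class with
totally positive `A` which are not bad (modification of `H30PN.main_in`). -/
theorem main_inS (H : Blocks K) {S : Finset (HeightOneSpectrum (𝓞 K))}
    (hSv : ∀ v : HeightOneSpectrum (𝓞 K), v ∈ S ↔ (2 : 𝓞 K) ∈ v.asIdeal) {e : ℕ} (he : 1 ≤ e)
    {Z : Set (HeightOneSpectrum (𝓞 K))} (hZ : Z.Infinite)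
    {m : Ideal (𝓞 K)} (hm0 : m ≠ ⊥) (hmZ : ∀ v ∈ Z, ¬ m ≤ v.asIdeal ∧ (6 : 𝓞 K) ∉ v.asIdeal)
    {A₀ B₀ : 𝓞 K} (hmS : ∀ v ∈ S, m ≤ v.asIdeal ^ e ∧ dsc A₀ B₀ ∉ v.asIdeal ^ e)
    (hm : ∀ v : HeightOneSpectrum (𝓞 K), v ∉ S → m ≤ v.asIdeal → dsc A₀ B₀ ∉ v.asIdeal) :
    ∃ (q₀ : HeightOneSpectrum (𝓞 K))
    (T : Finset (HeightOneSpectrum (𝓞 K))) (c X₀ : ℝ), q₀ ∈ Z ∧
      (∀ v ∈ T, v ∈ Z ∧ v ≠ q₀) ∧ 0 < c ∧ ∀ X : ℝ, X₀ ≤ X →
        c * X ^ (5 * Module.finrank ℚ K) ≤
          ({p : 𝓞 K × 𝓞 K | p ∈ Bx K X ∧ FamS S e q₀ T p.1 p.2 ∧ (p.1 - A₀ ∈ m ∧ p.2 - B₀ ∈ m ∧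
            ∀ s : K →+* ℝ, 0 < s (p.1 : K)) ∧ ¬ BadS S T p.1 p.2}.ncard : ℝ) := by
  obtain ⟨q₀, hq₀⟩ := hZ.nonempty
  have h6 := (hmZ q₀ hq₀).2
  have hinf : (Z \ {q₀}).Infinite := hZ.sdiff (Set.finite_singleton q₀)
  obtain ⟨C₄, N₀, hC, hbad⟩ := bad_countS K (H36PP.Bx_finite K) S e he
  obtain ⟨c₃, hc₃, hfam⟩ := famS_lower_in K hSv (e := e) q₀ h6 hm0 (hmZ q₀ hq₀).1 hmS hm
  -- the number of auxiliary primes
  obtain ⟨k, hk⟩ := exists_pow_lt_of_lt_one (x := c₃ / (2 * C₄)) (y := (0.55 : ℝ))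
    (by positivity) (by norm_num)
  obtain ⟨T, hT, hTk⟩ := exists_T hinf (max N₀ 40) k
  have hTZ : ∀ v ∈ T, v ∈ Z ∧ v ≠ q₀ := fun v hv => ⟨(hT v hv).1.1, (hT v hv).1.2⟩
  have hTS : ∀ v ∈ T, v ∉ S := by
    intro v hv hvS
    apply (hmZ v (hTZ v hv).1).2
    rw [show (6 : 𝓞 K) = 3 * 2 by norm_num]
    exact v.asIdeal.mul_mem_left _ ((hSv v).1 hvS)
  obtain ⟨X₁, h1⟩ := hfam T (fun v hv => ⟨(hTZ v hv).2, (hmZ v (hTZ v hv).1).2,
    (hmZ v (hTZ v hv).1).1⟩)
  obtain ⟨X₂, h2⟩ := hbad q₀ T (fun v hv => ⟨(le_max_left _ _).trans (hT v hv).2,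
    (hmZ v (hTZ v hv).1).2, hTS v hv⟩)
  set P : ℝ := ∏ v ∈ T, (1 / 2 * (1 - 1 / (Nv v : ℝ))) with hP
  have hPpos : 0 < P := by
    refine Finset.prod_pos fun v hv => ?_
    have h3 : 40 ≤ Nv v := (le_max_right _ _).trans (hT v hv).2
    have h4 : (40 : ℝ) ≤ (Nv v : ℝ) := by exact_mod_cast h3
    have h5 : 1 / (Nv v : ℝ) ≤ 1 / 40 := one_div_le_one_div_of_le (by norm_num) h4
    nlinarith
  refine ⟨q₀, T, c₃ * P / 2, max (max X₁ X₂) 0, hq₀, hTZ, by positivity, ?_⟩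
  intro X hX
  have hX1 : X₁ ≤ X := (le_max_left _ _).trans ((le_max_left _ _).trans hX)
  have hX2 : X₂ ≤ X := (le_max_right _ _).trans ((le_max_left _ _).trans hX)
  have hX0 : 0 ≤ X := (le_max_right _ _).trans hX
  have e1 := h1 X hX1
  have e2 := h2 X hX2
  have e3 := prod_ratio_le (T := T) (fun v hv => (le_max_right _ _).trans (hT v hv).2)
  rw [hTk, ← hP] at e3
  have hXp : 0 ≤ X ^ (5 * Module.finrank ℚ K) := by positivity
  have hk' : C₄ * 0.55 ^ k ≤ c₃ / 2 := by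
    have h7 : C₄ * 0.55 ^ k ≤ C₄ * (c₃ / (2 * C₄)) := mul_le_mul_of_nonneg_left hk.le hC.le
    have h8 : C₄ * (c₃ / (2 * C₄)) = c₃ / 2 := by field_simp
    rwa [h8] at h7
  have e4 : C₄ * (∏ v ∈ T, ((1 + 1 / (Nv v : ℝ)) ^ 2 / 4)) * X ^ (5 * Module.finrank ℚ K) ≤
      c₃ / 2 * P * X ^ (5 * Module.finrank ℚ K) := by
    refine mul_le_mul_of_nonneg_right ?_ hXp
    calc C₄ * (∏ v ∈ T, ((1 + 1 / (Nv v : ℝ)) ^ 2 / 4)) ≤ C₄ * (0.55 ^ k * P) :=
          mul_le_mul_of_nonneg_left e3 hC.le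
      _ = (C₄ * 0.55 ^ k) * P := by ring
      _ ≤ c₃ / 2 * P := mul_le_mul_of_nonneg_right hk' hPpos.le
  -- the family is the union of the bad and the good pairs
  have hfin : {p : 𝓞 K × 𝓞 K | p ∈ Bx K X ∧ FamS S e q₀ T p.1 p.2 ∧ (p.1 - A₀ ∈ m ∧ p.2 - B₀ ∈ m ∧
      ∀ s : K →+* ℝ, 0 < s (p.1 : K)) ∧ ¬ BadS S T p.1 p.2}.Finite :=
    (H.fin X).subset fun p hp => hp.1
  have hfinb : {p : 𝓞 K × 𝓞 K | p ∈ Bx K X ∧ FamS S e q₀ T p.1 p.2 ∧ BadS S T p.1 p.2}.Finite :=
    (H.fin X).subset fun p hp => hp.1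
  have e5 : ({p : 𝓞 K × 𝓞 K | p ∈ Bx K X ∧ FamS S e q₀ T p.1 p.2 ∧ p.1 - A₀ ∈ m ∧ p.2 - B₀ ∈ m ∧
        ∀ s : K →+* ℝ, 0 < s (p.1 : K)}.ncard : ℝ) ≤
      ({p : 𝓞 K × 𝓞 K | p ∈ Bx K X ∧ FamS S e q₀ T p.1 p.2 ∧ BadS S T p.1 p.2}.ncard : ℝ) +
      ({p : 𝓞 K × 𝓞 K | p ∈ Bx K X ∧ FamS S e q₀ T p.1 p.2 ∧ (p.1 - A₀ ∈ m ∧ p.2 - B₀ ∈ m ∧
        ∀ s : K →+* ℝ, 0 < s (p.1 : K)) ∧ ¬ BadS S T p.1 p.2}.ncard : ℝ) := by
    have h9 : {p : 𝓞 K × 𝓞 K | p ∈ Bx K X ∧ FamS S e q₀ T p.1 p.2 ∧ p.1 - A₀ ∈ m ∧ p.2 - B₀ ∈ m ∧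
        ∀ s : K →+* ℝ, 0 < s (p.1 : K)} ⊆
        {p : 𝓞 K × 𝓞 K | p ∈ Bx K X ∧ FamS S e q₀ T p.1 p.2 ∧ BadS S T p.1 p.2} ∪
        {p : 𝓞 K × 𝓞 K | p ∈ Bx K X ∧ FamS S e q₀ T p.1 p.2 ∧ (p.1 - A₀ ∈ m ∧ p.2 - B₀ ∈ m ∧
          ∀ s : K →+* ℝ, 0 < s (p.1 : K)) ∧ ¬ BadS S T p.1 p.2} := by
      rintro p ⟨h10, h11, h13⟩
      by_cases h12 : BadS S T p.1 p.2
      · exact Or.inl ⟨h10, h11, h12⟩
      · exact Or.inr ⟨h10, h11, h13, h12⟩
    have h13 := (Set.ncard_le_ncard h9 (hfinb.union hfin)).trans (Set.ncard_union_le _ _)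
    exact_mod_cast h13
  have e6 : c₃ * P * X ^ (5 * Module.finrank ℚ K) =
      c₃ * P / 2 * X ^ (5 * Module.finrank ℚ K) + c₃ / 2 * P * X ^ (5 * Module.finrank ℚ K) := by
    ring
  linarith

/-- The pigeonhole argument for a general property `Gd` of the twisted pairs and a subfamily `P`
(modification of `H76PP.Blocks.result2`). -/
theorem count_genS (H : Blocks K) {S : Finset (HeightOneSpectrum (𝓞 K))} {e : ℕ}
    {q₀ : HeightOneSpectrum (𝓞 K)} {T : Finset (HeightOneSpectrum (𝓞 K))} {m' : Ideal (𝓞 K)}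
    (htw0 : ∀ J ⊆ T, ∃ D : 𝓞 K, D - 1 ∈ m' ∧ TwS S q₀ J (D : K))
    (P Gd : 𝓞 K × 𝓞 K → Prop) {c X₀ : ℝ} (hc : 0 < c)
    (hmain : ∀ X : ℝ, X₀ ≤ X → c * X ^ (5 * Module.finrank ℚ K) ≤
      ({p : 𝓞 K × 𝓞 K | p ∈ Bx K X ∧ FamS S e q₀ T p.1 p.2 ∧ P p ∧
        ¬ BadS S T p.1 p.2}.ncard : ℝ))
    (hgood : ∀ p : 𝓞 K × 𝓞 K, FamS S e q₀ T p.1 p.2 → P p → ¬ BadS S T p.1 p.2 →
      ∃ J ⊆ T, ∀ D : 𝓞 K, D - 1 ∈ m' → TwS S q₀ J (D : K) → Gd (D ^ 2 * p.1, D ^ 3 * p.2)) :
    ∃ (c X₀ : ℝ), 0 < c ∧ ∀ X : ℝ, X₀ ≤ X →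
    ∃ G : Finset (𝓞 K × 𝓞 K), (∀ p ∈ G, p ∈ Bx K X ∧ Gd p) ∧
      (∀ p ∈ G, ∀ q ∈ G, p.1 ^ 3 * q.2 ^ 2 = q.1 ^ 3 * p.2 ^ 2 → p = q) ∧
      c * ((Bx K X).ncard : ℝ) ≤ (G.card : ℝ) := by
  obtain ⟨C, hC, hup⟩ := H.up
  obtain ⟨ε, X₁, hε, hε1, hsmall⟩ := H.small (δ := c / 2) (by positivity)
  obtain ⟨M, hM⟩ := exists_subS K S e hε
  -- the twisting factors
  have htw : ∀ J : Finset (HeightOneSpectrum (𝓞 K)), ∃ D : 𝓞 K, J ⊆ T →
      D - 1 ∈ m' ∧ TwS S q₀ J (D : K) := by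
    intro J
    by_cases hJ : J ⊆ T
    · obtain ⟨D, hD⟩ := htw0 J hJ
      exact ⟨D, fun _ => hD⟩
    · exact ⟨0, fun h => absurd h hJ⟩
  choose D hD using htw
  choose t ht using fun J => exists_bx (D J)
  set κ : ℝ := 1 + ∑ J ∈ T.powerset, |t J| with hκ
  have hκ1 : 1 ≤ κ := by
    have : 0 ≤ ∑ J ∈ T.powerset, |t J| := Finset.sum_nonneg fun _ _ => abs_nonneg _
    linarith
  have hκD : ∀ J ⊆ T, D J ∈ bx K κ := by
    intro J hJ
    refine bx_mono ?_ (ht J)
    have h1 : |t J| ≤ ∑ J ∈ T.powerset, |t J| :=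
      Finset.single_le_sum (f := fun J => |t J|) (fun _ _ => abs_nonneg _)
        (Finset.mem_powerset.2 hJ)
    have := le_abs_self (t J)
    linarith
  set n := Module.finrank ℚ K with hn
  refine ⟨(c / 2) / ((M + 1) * (2 ^ T.card * (C * κ ^ (5 * n)))), κ * max (max X₀ X₁) 1,
    by positivity, ?_⟩
  intro Y hY
  set X := Y / κ with hXdef
  have hκ0 : 0 < κ := by linarith
  have hYX : Y = κ * X := by rw [hXdef]; field_simp
  have hX : max (max X₀ X₁) 1 ≤ X := by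
    rw [hXdef, le_div_iff₀ hκ0, mul_comm]
    exact hY
  have hX0 : X₀ ≤ X := (le_max_left _ _).trans ((le_max_left _ _).trans hX)
  have hX1' : X₁ ≤ X := (le_max_right _ _).trans ((le_max_left _ _).trans hX)
  have hX1 : 1 ≤ X := (le_max_right _ _).trans hX
  have hY1 : 1 ≤ Y := by rw [hYX]; nlinarith
  -- the good pairs without small conjugates and the choice of the twisting factor
  set G₀ : Set (𝓞 K × 𝓞 K) := {p | p ∈ Bx K X ∧ FamS S e q₀ T p.1 p.2 ∧ P p ∧ ¬ BadS S T p.1 p.2} with hG₀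
  set G : Set (𝓞 K × 𝓞 K) := {p | p ∈ G₀ ∧ ∀ s : K →+* ℂ, ε * X ^ 2 ≤ ‖s (p.1 : K)‖} with hG
  have hG₀fin : G₀.Finite := (H.fin X).subset fun p hp => hp.1
  have hGfin : G.Finite := hG₀fin.subset fun p hp => hp.1
  have hGcard : c / 2 * X ^ (5 * n) ≤ (G.ncard : ℝ) := by
    have h1 := hmain X hX0
    have h2 := hsmall X hX1'
    have hsfin : {p : 𝓞 K × 𝓞 K | p ∈ Bx K X ∧
        ∃ s : K →+* ℂ, ‖s (p.1 : K)‖ < ε * X ^ 2}.Finite := (H.fin X).subset fun p hp => hp.1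
    have h3 : G₀ ⊆ G ∪ {p : 𝓞 K × 𝓞 K | p ∈ Bx K X ∧
        ∃ s : K →+* ℂ, ‖s (p.1 : K)‖ < ε * X ^ 2} := by
      intro p hp
      by_cases h4 : ∀ s : K →+* ℂ, ε * X ^ 2 ≤ ‖s (p.1 : K)‖
      · exact Or.inl ⟨hp, h4⟩
      · push Not at h4
        exact Or.inr ⟨hp.1, h4⟩
    have h5 := (Set.ncard_le_ncard h3 (hGfin.union hsfin)).trans (Set.ncard_union_le _ _)
    have h6 : (G₀.ncard : ℝ) ≤ (G.ncard : ℝ) + ({p : 𝓞 K × 𝓞 K | p ∈ Bx K X ∧
        ∃ s : K →+* ℂ, ‖s (p.1 : K)‖ < ε * X ^ 2}.ncard : ℝ) := by exact_mod_cast h5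
    have h7 : c * X ^ (5 * n) = c / 2 * X ^ (5 * n) + c / 2 * X ^ (5 * n) := by ring
    linarith
  have hJ : ∀ p : 𝓞 K × 𝓞 K, ∃ J : Finset (HeightOneSpectrum (𝓞 K)), p ∈ G →
      J ⊆ T ∧ Gd (D J ^ 2 * p.1, D J ^ 3 * p.2) := by
    intro p
    by_cases hp : p ∈ G
    · obtain ⟨J, hJ, h1⟩ := hgood p hp.1.2.1 hp.1.2.2.1 hp.1.2.2.2
      exact ⟨J, fun _ => ⟨hJ, h1 (D J) (hD J hJ).1 (hD J hJ).2⟩⟩
    · exact ⟨∅, fun h => absurd h hp⟩
  choose J hJ using hJ
  -- pigeonhole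
  have hpig : ∃ J₀ ∈ T.powerset, (G.ncard : ℝ) ≤
      2 ^ T.card * ({p ∈ hGfin.toFinset | J p = J₀}.card : ℝ) := by
    by_contra hcon
    push Not at hcon
    have h1 : hGfin.toFinset.card = ∑ J₀ ∈ T.powerset, {p ∈ hGfin.toFinset | J p = J₀}.card := by
      refine Finset.card_eq_sum_card_fiberwise fun p hp => ?_
      exact Finset.mem_coe.2 (Finset.mem_powerset.2 (hJ p (by simpa using hp)).1)
    have h2 : (G.ncard : ℝ) = ∑ J₀ ∈ T.powerset,
        ({p ∈ hGfin.toFinset | J p = J₀}.card : ℝ) := by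
      rw [Set.ncard_eq_toFinset_card G hGfin, h1]
      push_cast
      rfl
    have h3 : (2 : ℝ) ^ T.card * ∑ J₀ ∈ T.powerset, ({p ∈ hGfin.toFinset | J p = J₀}.card : ℝ) <
        ∑ J₀ ∈ T.powerset, (G.ncard : ℝ) := by
      rw [Finset.mul_sum]
      exact Finset.sum_lt_sum_of_nonempty ⟨∅, Finset.empty_mem_powerset _⟩ hcon
    rw [← h2, Finset.sum_const, Finset.card_powerset, nsmul_eq_mul] at h3
    push_cast at h3
    exact lt_irrefl _ h3
  obtain ⟨J₀, hJ₀, hcard⟩ := hpig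
  rw [Finset.mem_powerset] at hJ₀
  obtain ⟨G₁, hG₁, hcard₁, hinj₁⟩ := hM q₀ T X (by linarith)
    ({p ∈ hGfin.toFinset | J p = J₀}) (by
      intro p hp
      rw [Finset.mem_filter, Set.Finite.mem_toFinset] at hp
      exact ⟨hp.1.1.1, hp.1.1.2.1, hp.1.2⟩)
  -- the injection
  have hD0 : D J₀ ≠ 0 := by
    intro h0
    apply (hD J₀ hJ₀).2.ne
    rw [h0]
    exact map_zero (algebraMap (𝓞 K) K)
  have hi : Set.InjOn (fun p : 𝓞 K × 𝓞 K => (D J₀ ^ 2 * p.1, D J₀ ^ 3 * p.2)) (G₁ : Set _) := by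
    intro p _ p' _ hpp
    simp only [Prod.mk.injEq] at hpp
    exact Prod.ext (mul_left_cancel₀ (pow_ne_zero 2 hD0) hpp.1)
      (mul_left_cancel₀ (pow_ne_zero 3 hD0) hpp.2)
  refine ⟨G₁.image (fun p => (D J₀ ^ 2 * p.1, D J₀ ^ 3 * p.2)), ?_, ?_, ?_⟩
  · intro q hq
    rw [Finset.mem_image] at hq
    obtain ⟨p, hp, rfl⟩ := hq
    have hp' := hG₁ hp
    rw [Finset.mem_filter, Set.Finite.mem_toFinset] at hp'
    obtain ⟨hpG, hpJ⟩ := hp'
    have h2 := hJ p hpG
    rw [hpJ] at h2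
    refine ⟨⟨?_, ?_⟩, h2.2⟩
    · rw [hYX]
      exact bx_int_mul (hκD J₀ hJ₀) hpG.1.1.1
    · rw [hYX]
      exact bx_int_mul3 (hκD J₀ hJ₀) hpG.1.1.2
  · intro q hq q' hq' h
    rw [Finset.mem_image] at hq hq'
    obtain ⟨p, hp, rfl⟩ := hq
    obtain ⟨p', hp', rfl⟩ := hq'
    have h1 : p = p' := by
      refine hinj₁ p hp p' hp' ?_
      have h2 : D J₀ ^ 12 * (p.1 ^ 3 * p'.2 ^ 2) = D J₀ ^ 12 * (p'.1 ^ 3 * p.2 ^ 2) := by
        change (D J₀ ^ 2 * p.1) ^ 3 * (D J₀ ^ 3 * p'.2) ^ 2 =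
          (D J₀ ^ 2 * p'.1) ^ 3 * (D J₀ ^ 3 * p.2) ^ 2 at h
        linear_combination h
      exact mul_left_cancel₀ (pow_ne_zero 12 hD0) h2
    rw [h1]
  · rw [Finset.card_image_of_injOn hi]
    have h2 := hup Y hY1
    have hpow : Y ^ (5 * n) = κ ^ (5 * n) * X ^ (5 * n) := by rw [hYX, mul_pow]
    have h3 : (({p ∈ hGfin.toFinset | J p = J₀}.card : ℕ) : ℝ) ≤ (M + 1) * (G₁.card : ℝ) := by
      have h4 : (({p ∈ hGfin.toFinset | J p = J₀}.card : ℕ) : ℝ) ≤ M * (G₁.card : ℝ) := by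
        exact_mod_cast hcard₁
      have h5 : (0 : ℝ) ≤ (G₁.card : ℝ) := Nat.cast_nonneg _
      linarith
    calc (c / 2) / ((M + 1) * (2 ^ T.card * (C * κ ^ (5 * n)))) * ((Bx K Y).ncard : ℝ)
        ≤ (c / 2) / ((M + 1) * (2 ^ T.card * (C * κ ^ (5 * n)))) * (C * Y ^ (5 * n)) :=
          mul_le_mul_of_nonneg_left h2 (by positivity)
      _ = (c / 2 * X ^ (5 * n)) / 2 ^ T.card / (M + 1) := by
          rw [hpow]
          field_simp
      _ ≤ (G.ncard : ℝ) / 2 ^ T.card / (M + 1) := by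
          refine div_le_div_of_nonneg_right (div_le_div_of_nonneg_right hGcard (by positivity))
            (by positivity)
      _ ≤ ({p ∈ hGfin.toFinset | J p = J₀}.card : ℝ) / (M + 1) := by
          refine div_le_div_of_nonneg_right ?_ (by positivity)
          rw [div_le_iff₀ (by positivity), mul_comm]
          exact hcard
      _ ≤ (G₁.card : ℝ) := by
          rw [div_le_iff₀ (by positivity), mul_comm]
          exact h3




/-- The counting theorem: residue classes and auxiliary primes given in advance. -/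
theorem main_B2 (K : Type) [Field K] [NumberField K] {S : Finset (HeightOneSpectrum (𝓞 K))}
    (hSv : ∀ v : HeightOneSpectrum (𝓞 K), v ∈ S ↔ (2 : 𝓞 K) ∈ v.asIdeal) {e : ℕ} (he : 1 ≤ e)
    {Z : Set (HeightOneSpectrum (𝓞 K))} (hZ : Z.Infinite) {m : Ideal (𝓞 K)} (hm0 : m ≠ ⊥)
    {A₀ B₀ : 𝓞 K} (hmS : ∀ v ∈ S, m ≤ v.asIdeal ^ e ∧ dsc A₀ B₀ ∉ v.asIdeal ^ e)
    (hm : ∀ v : HeightOneSpectrum (𝓞 K), v ∉ S → m ≤ v.asIdeal → dsc A₀ B₀ ∉ v.asIdeal) :
    ∃ (T : Finset (HeightOneSpectrum (𝓞 K))) (c X₀ : ℝ),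
      (∀ v ∈ T, v ∈ Z ∧ v ∉ S ∧ ¬ m ≤ v.asIdeal) ∧ 0 < c ∧ ∀ X : ℝ, X₀ ≤ X →
        ∃ G : Finset (𝓞 K × 𝓞 K),
          (∀ p ∈ G, p ∈ Bx K X ∧ p.1 - A₀ ∈ m ∧ p.2 - B₀ ∈ m ∧
            (∀ s : K →+* ℝ, 0 < s (p.1 : K)) ∧ RelG K (S ∪ T) p.1 p.2) ∧
          (∀ p ∈ G, ∀ q ∈ G, p.1 ^ 3 * q.2 ^ 2 = q.1 ^ 3 * p.2 ^ 2 → p = q) ∧
          c * ((Bx K X).ncard : ℝ) ≤ (G.card : ℝ) := by
  have H : Blocks K := blocks_of_HR2 K fun h hd => hr2 h hd
  obtain ⟨m', hm'0, hm't, hm'm, hm'S, -⟩ := exists_mod hm0 S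
  obtain ⟨Z', hZ'Z, hZ', hZ'm, hZr⟩ := aux_set_in K hm'0 hZ
  have hmZ : ∀ v ∈ Z', ¬ m ≤ v.asIdeal ∧ (6 : 𝓞 K) ∉ v.asIdeal := fun v hv =>
    ⟨fun h => (hZ'm v hv).1 (hm'm.trans h), (hZ'm v hv).2⟩
  have hS6 : ∀ v : HeightOneSpectrum (𝓞 K), (6 : 𝓞 K) ∉ v.asIdeal → v ∉ S := by
    intro v hv hvS
    apply hv
    rw [show (6 : 𝓞 K) = 3 * 2 by norm_num]
    exact v.asIdeal.mul_mem_left _ ((hSv v).1 hvS)
  have hS2 : ∀ v : HeightOneSpectrum (𝓞 K), v.valuation K 2 < 1 → v ∈ S := by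
    intro v hv
    rw [hSv]
    by_contra h
    have h4 := (v.valuation_eq_one_iff_notMem (K := K) (r := (2 : 𝓞 K))).2 h
    have h5 : v.valuation K (2 : K) = 1 := by
      rw [← h4]
      congr 1
    exact absurd h5 hv.ne
  obtain ⟨q₀, T, c, X₀, hq₀, hT, hc, hmain⟩ := main_inS H hSv he hZ' hm0 hmZ hmS hm
  obtain ⟨c', X₁, hc', h⟩ := count_genS H (S := S) (e := e) (q₀ := q₀) (T := T) (m' := m')
    (fun J hJ => exists_twistS hm'0 hm't hm'S (hZ'm q₀ hq₀).1 fun p hp =>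
      hZr q₀ hq₀ p (hT p (hJ hp)).1 (hT p (hJ hp)).2)
    (fun p => p.1 - A₀ ∈ m ∧ p.2 - B₀ ∈ m ∧ ∀ s : K →+* ℝ, 0 < s (p.1 : K))
    (fun p => p.1 - A₀ ∈ m ∧ p.2 - B₀ ∈ m ∧
            (∀ s : K →+* ℝ, 0 < s (p.1 : K)) ∧ RelG K (S ∪ insert q₀ T) p.1 p.2) hc hmain
    (by
      intro p hF hP hB
      obtain ⟨J, hJ, hg⟩ := good_S2 hS2
        (fun v hv => ⟨(hT v hv).2, hS6 v (hZ'm v (hT v hv).1).2, (hZ'm v (hT v hv).1).2⟩) hF hB
      refine ⟨J, hJ, fun D hDm hD => ?_⟩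
      have hDm' := hm'm hDm
      obtain ⟨h1, h2, h3⟩ := hP
      refine ⟨?_, ?_, ?_, hg D hD _ Finset.subset_union_left ?_ ?_⟩
      · change D ^ 2 * p.1 - A₀ ∈ m
        have e1 : D ^ 2 * p.1 - A₀ = (p.1 - A₀) + (D - 1) * ((D + 1) * p.1) := by ring
        rw [e1]
        exact m.add_mem h1 (m.mul_mem_right _ hDm')
      · change D ^ 3 * p.2 - B₀ ∈ m
        have e1 : D ^ 3 * p.2 - B₀ = (p.2 - B₀) + (D - 1) * ((D ^ 2 + D + 1) * p.2) := by ring
        rw [e1]
        exact m.add_mem h2 (m.mul_mem_right _ hDm')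
      · intro s
        change 0 < s ((D ^ 2 * p.1 : 𝓞 K) : K)
        have e1 : ((D ^ 2 * p.1 : 𝓞 K) : K) = (D : K) ^ 2 * (p.1 : K) := by push_cast; rfl
        rw [e1, map_mul, map_pow]
        exact mul_pos (pow_pos (hD.pos s) 2) (h3 s)
      · exact (Finset.subset_insert _ _).trans Finset.subset_union_right
      · exact Finset.mem_union_right _ (Finset.mem_insert_self _ _))
  refine ⟨insert q₀ T, c', X₁, fun v hv => ?_, hc', h⟩
  have hv' : v ∈ Z' := by
    rw [Finset.mem_insert] at hv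
    rcases hv with h | h
    · rw [h]
      exact hq₀
    · exact (hT v h).1
  exact ⟨hZ'Z hv', hS6 v (hZ'm v hv').2, (hmZ v hv').1⟩

end H30CY

end S_H30_CY_Mn

section S_H73_CY_Lo

set_option autoImplicit false
set_option linter.unusedSectionVars false
open scoped Classical

open WithZero NumberField IsDedekindDomain H38RT
open H38T1 (SC sc scu rep eo la si Pri OddP tp unif)
open H76PP H73P2 H36CY

namespace H73CY

/-- The local condition along a ring homomorphism. -/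
theorem LC_map {k F F' : Type} [Field k] [Field F] [Field F'] {i : k →+* F} {j : k →+* F'}
    (φ : F →+* F') (hφ : ∀ x : k, φ (i x) = j x) {a b : k} {d : Fin 3 → k} (h : LC i a b d) :
    LC j a b d := by
  obtain ⟨x, y, z, hy, hxy, hm⟩ := h
  refine ⟨φ x, φ y, fun i => φ (z i), ?_, ?_, ?_⟩
  · rw [Ne, map_eq_zero]
    exact hy
  · rw [← hφ a, ← hφ b, ← map_pow, hxy, map_add, map_add, map_mul, map_pow]
  · have e1 : (fun i => φ ((![x, -1, 0] : Fin 3 → F) i)) = ![φ x, -1, 0] := by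
      funext i
      fin_cases i <;> simp
    have e2 : (fun l => j (d l)) = fun l => φ (i (d l)) := by
      funext l
      rw [hφ]
    funext l
    have h1 := Te_m3_map φ (i a) (i b) (fun l => i (d l)) ![x, -1, 0] l
    have h2 := Te_m3_map φ (i a) (i b) z z l
    rw [e1, hφ, hφ] at h1
    rw [hφ, hφ] at h2
    rw [e2, h1, h2, hm]

/-- The completions at conjugate places. -/
theorem conj_map {k k' : Type} [Field k] [NumberField k] [Field k'] [NumberField k'] [Algebra k k']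
    (τ : k' ≃ₐ[k] k') (u : HeightOneSpectrum (𝓞 k')) :
    ∃ u' : HeightOneSpectrum (𝓞 k'), (∀ x : k', u.valuation k' (τ x) = u'.valuation k' x) ∧
      ∃ φ : u'.adicCompletion k' →+* u.adicCompletion k', ∀ x : k',
        φ (algebraMap k' (u'.adicCompletion k') x) = algebraMap k' (u.adicCompletion k') (τ x) := by
  obtain ⟨u', h1, -⟩ := Pool.Agent.H10.exists_conj τ u
  have hsm : ∀ U ∈ nhds (0 : u.adicCompletion k'), ∃ n : ℕ, ∀ x : k',
      u'.valuation k' x ≤ exp (-(n : ℤ)) →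
        ((algebraMap k' (u.adicCompletion k')).comp (τ : k' →+* k')) x ∈ U := by
    intro U hU
    rw [Valued.mem_nhds_zero] at hU
    obtain ⟨γ, hγ⟩ := hU
    obtain ⟨n, hn⟩ := exists_exp_neg_natCast_lt
      (x := MonoidWithZeroHom.ValueGroup₀.embedding γ.1) (by simp)
    refine ⟨n, fun x hx => hγ ?_⟩
    change Valued.v.restrict _ < γ.1
    rw [Valuation.restrict_lt_iff_lt_embedding]
    refine lt_of_le_of_lt ?_ hn
    have h2 := u.valuedAdicCompletion_eq_valuation' (K := k') (τ x)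
    change Valued.v (algebraMap k' (u.adicCompletion k') (τ x)) = _ at h2
    change Valued.v (algebraMap k' (u.adicCompletion k') (τ x)) ≤ _
    rw [h2, h1]
    exact hx
  exact ⟨u', h1, Pool.Agent.H10.adicLift u' _ (Pool.Agent.H10.continuous_fromVal u' _ hsm),
    fun x => Pool.Agent.H10.adicLift_algebraMap u' _ _ x⟩

/-- The local conditions above two for the conjugate. -/
theorem two_conj {k k' : Type} [Field k] [NumberField k] [Field k'] [NumberField k'] [Algebra k k']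
    (τ : k' ≃ₐ[k] k') {a b : k} {d : Fin 3 → k'}
    (h : ∀ u : HeightOneSpectrum (𝓞 k'), u.valuation k' 2 < 1 →
      LC (algebraMap k' (u.adicCompletion k')) (algebraMap k k' a) (algebraMap k k' b) d)
    (u : HeightOneSpectrum (𝓞 k')) (hu : u.valuation k' 2 < 1) :
    LC (algebraMap k' (u.adicCompletion k')) (algebraMap k k' a) (algebraMap k k' b)
      (fun i => τ (d i)) := by
  obtain ⟨u', h1, φ, hφ⟩ := conj_map τ u
  have h2 : u'.valuation k' 2 < 1 := by
    rw [← h1, map_ofNat]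
    exact hu
  have h3 := LC_map (j := (algebraMap k' (u.adicCompletion k')).comp (τ : k' →+* k')) φ
    (fun x => hφ x) (h u' h2)
  unfold LC at h3 ⊢
  simp only [RingHom.comp_apply, RingHom.coe_coe, τ.commutes] at h3
  exact h3

/-- As `H73P2.exists_map`, with the place above two. -/
theorem exists_map2 {K M : Type} [Field K] [NumberField K] [Field M] [NumberField M] [Algebra K M]
    (v : HeightOneSpectrum (𝓞 K)) (j : M →+* v.adicCompletion K)
    (hj : ∀ x : K, j (algebraMap K M x) = algebraMap K (v.adicCompletion K) x)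
    (hv : v.valuation K 2 < 1) :
    ∃ (u : HeightOneSpectrum (𝓞 M)) (φ : u.adicCompletion M →+* v.adicCompletion K),
      u.valuation M 2 < 1 ∧ ∀ x : M, φ (algebraMap M (u.adicCompletion M) x) = j x := by
  refine ⟨Cm_pl v j hj, Pool.Agent.H10.adicLift (Cm_pl v j hj) j
    (Pool.Agent.H10.continuous_fromVal (Cm_pl v j hj) j (Cm_nhds v j hj)), ?_,
    fun x => Pool.Agent.H10.adicLift_algebraMap (Cm_pl v j hj) _ _ x⟩
  have h2 : (2 : 𝓞 M) ∈ (Cm_pl v j hj).asIdeal := by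
    change (2 : 𝓞 M) ∈ Cm_id v j hj
    rw [Cm_mem]
    have e1 : algebraMap (𝓞 M) M 2 = 2 := map_ofNat (algebraMap (𝓞 M) M) 2
    have e2 : (2 : M) = algebraMap K M 2 := (map_ofNat (algebraMap K M) 2).symm
    rw [e1, e2, Cm_val v j hj]
    exact hv
  have h3 := ((Cm_pl v j hj).valuation_lt_one_iff_mem (K := M) (r := (2 : 𝓞 M))).2 h2
  have e1 : algebraMap (𝓞 M) M 2 = 2 := map_ofNat (algebraMap (𝓞 M) M) 2
  rw [← e1]
  exact h3

end H73CY

end S_H73_CY_Lo

section S_H73_CY_Qc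

set_option autoImplicit false
set_option linter.unusedSectionVars false
open scoped Classical

open WithZero NumberField IsDedekindDomain H38RT
open H38T1 (SC sc scu rep eo la si Pri OddP tp unif)
open H76PP H73P2 H36CY

namespace H73CY

section Val

theorem val2_up {K N : Type} [Field K] [NumberField K] [Field N] [NumberField N] [Algebra K N]
    {V : HeightOneSpectrum (𝓞 N)} (h : (dn K V).valuation K 2 = 1) : V.valuation N 2 = 1 := by
  have h1 := val_one (L := N) (w := V) h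
  rw [map_ofNat] at h1
  exact h1

theorem val2_down {K N : Type} [Field K] [NumberField K] [Field N] [NumberField N] [Algebra K N]
    {V : HeightOneSpectrum (𝓞 N)} (h : V.valuation N 2 = 1) : (dn K V).valuation K 2 = 1 := by
  by_contra h0
  have h2 : (dn K V).valuation K 2 < 1 := by
    refine lt_of_le_of_ne ?_ h0
    have h3 := (dn K V).valuation_le_one (K := K) (2 : 𝓞 K)
    have h4 : algebraMap (𝓞 K) K 2 = 2 := map_ofNat (algebraMap (𝓞 K) K) 2
    rw [← h4]
    exact h3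
  have h3 := val_lt (L := N) (w := V) h2
  rw [map_ofNat] at h3
  exact absurd h h3.ne

end Val

section Down

variable {K k L k' L' N : Type} [Field K] [NumberField K] [Field k] [NumberField k] [Field L]
  [NumberField L] [Field k'] [NumberField k'] [Field L'] [NumberField L'] [Field N] [NumberField N]
  [Algebra K k] [Algebra K k'] [Algebra k k'] [Algebra k L] [Algebra L L'] [Algebra k' L']
  [Algebra k L'] [IsScalarTower K k k'] [IsScalarTower k L L'] [IsScalarTower k k' L']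
  [Algebra K N] [Algebra k N] [Algebra k' N] [IsScalarTower K k N] [IsScalarTower K k' N]
  [IsScalarTower k k' N] [IsGalois K N]

theorem relC_down {S : Finset (HeightOneSpectrum (𝓞 K))} {a b : K}
    (hsplit : ∀ v ∈ S, ∃ ι : N →+* v.adicCompletion K, ∀ x : K,
      ι (algebraMap K N x) = algebraMap K (v.adicCompletion K) x)
    (hreal : ∀ s : K →+* ℝ, 0 < s (4 * a ^ 3 + 27 * b ^ 2) ∨ ∃ s' : N →+* ℝ, ∀ x : K,
      s' (algebraMap K N x) = s x)
    (hram : ∀ V : HeightOneSpectrum (𝓞 N), dn K V ∉ S → V.valuation N 2 = 1 → Ram K V →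
      NoRootAt (dn K V) a b)
    (hdesc : Desc2 K N a b)
    (hNR : ∀ u : HeightOneSpectrum (𝓞 k), NoRootAt (dn K u) a b →
      NoRootAt u (algebraMap K k a) (algebraMap K k b))
    {θ : L} {θ' : L'} (Q : QS k L k' L' (algebraMap K k a) (algebraMap K k b) θ θ')
    (f2 : Module.finrank L L' = 2) {e : Fin 3 → k} (hne : ev θ e ≠ 0)
    (hsq : IsSquare (Algebra.norm k (ev θ e)))
    (hev : ∀ w' : HeightOneSpectrum (𝓞 L'), dn K (dn k' w') ∉ S → w'.valuation L' 2 = 1 →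
      eo w' (sc (algebraMap L L' (ev θ e))) = 0)
    (hloc : ∀ v ∈ S, LCv K v a b (fun i => algebraMap k k' (e i)))
    (htwo : ∀ u : HeightOneSpectrum (𝓞 k'), u.valuation k' 2 < 1 →
      LC (algebraMap k' (u.adicCompletion k')) (algebraMap K k' a) (algebraMap K k' b)
        (fun i => algebraMap k k' (e i)))
    (hre : ∀ s : k' →+* ℝ, LC s (algebraMap K k' a) (algebraMap K k' b)
      (fun i => algebraMap k k' (e i))) : RelC K k L S a b θ e := by
  have hab : ∀ x : K, algebraMap K k' x = algebraMap k k' (algebraMap K k x) :=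
    IsScalarTower.algebraMap_apply K k k'
  refine ⟨hne, hsq, ?_, ?_, ?_, ?_⟩
  · intro w hw hw2
    obtain ⟨V, hV⟩ := exists_above (L := N) (dn k w)
    have hKV : dn K V = dn K (dn k w) := by
      rw [← hV]
      exact (dn_dn V).symm
    have hk2 : (dn k w).valuation k 2 = 1 := val2_down hw2
    have hV2 : V.valuation N 2 = 1 := val2_up (K := k) (by rw [hV]; exact hk2)
    by_cases hr : Ram K V
    · have h1 := hram V (by rw [hKV]; exact hw) hV2 hr
      rw [hKV] at h1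
      exact even_unique Q.cub w (hNR _ h1) hne hsq
    · obtain ⟨h1, -⟩ := unram_mid (k := k) hr
      obtain ⟨D, ρ, hρ, hρk, hD⟩ := exists_gen (k' := k') Q.two h1
      rw [hV] at hD
      refine even_unram Q f2 w hw2 hρ hρk hD hne fun w' hw' => hev w' ?_ ?_
      · rw [← dn_sq (k := k) (L := L), hw']
        exact hw
      · exact val2_up (K := L) (by rw [hw']; exact hw2)
  · intro v hv j hj
    obtain ⟨j', hj'⟩ := ext_of (k' := k') (algebraMap K (v.adicCompletion K)) (hsplit v hv) j hj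
    have h1 := hloc v hv j' (fun x => by rw [hab, hj', hj])
    unfold LC at h1 ⊢
    simp only [hab, hj'] at h1
    exact h1
  · refine hdesc k k' Q.two e ?_ ?_ htwo
    · rw [← Te_norm Q.cub e, Ne, Algebra.norm_eq_zero_iff]
      exact hne
    · rw [← Te_norm Q.cub e]
      exact hsq
  · intro s
    rcases hreal (s.comp (algebraMap K k)) with h | h
    · refine LC_real s ?_ ?_
      · rw [RingHom.comp_apply] at h
        simpa only [map_add, map_mul, map_pow, map_ofNat] using h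
      · have h1 := Te_norm Q.cub e
        rw [← h1]
        obtain ⟨c, hc⟩ := hsq
        have h2 : Algebra.norm k (ev θ e) ≠ 0 := by
          rw [Ne, Algebra.norm_eq_zero_iff]
          exact hne
        rw [hc] at h2 ⊢
        rw [map_mul]
        have h3 : s c ≠ 0 := (map_ne_zero s).2 (left_ne_zero_of_mul h2)
        exact mul_self_pos.2 h3
    · obtain ⟨s', hs'⟩ := ext_of (k' := k') (s.comp (algebraMap K k)) h s (fun x => rfl)
      have h1 := hre s'
      unfold LC at h1 ⊢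
      simp only [hab, hs'] at h1
      exact h1

end Down

section Step

variable {K k k' N : Type} [Field K] [NumberField K] [Field k] [NumberField k] [Field k']
  [NumberField k'] [Field N] [NumberField N] [Algebra K k] [Algebra K k'] [Algebra k k']
  [IsScalarTower K k k'] [Algebra K N] [Algebra k N] [Algebra k' N] [IsScalarTower K k N]
  [IsScalarTower K k' N] [IsScalarTower k k' N] [IsGalois K N]

theorem lct_mul {a b : K} (hd : 4 * a ^ 3 + 27 * b ^ 2 ≠ 0) {d₁ d₂ : Fin 3 → k'}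
    (u : HeightOneSpectrum (𝓞 k'))
    (h₁ : LC (algebraMap k' (u.adicCompletion k')) (algebraMap K k' a) (algebraMap K k' b) d₁)
    (h₂ : LC (algebraMap k' (u.adicCompletion k')) (algebraMap K k' a) (algebraMap K k' b) d₂) :
    LC (algebraMap k' (u.adicCompletion k')) (algebraMap K k' a) (algebraMap K k' b)
      (m3 (algebraMap K k' a) (algebraMap K k' b) d₁ d₂) := by
  have hc : CharZero (u.adicCompletion k') :=
    charZero_of_injective_algebraMap (algebraMap k' (u.adicCompletion k')).injective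
  refine LC_mul _ ?_ ?_ h₁ h₂
  · have h1 := (map_ne_zero ((algebraMap k' (u.adicCompletion k')).comp (algebraMap K k'))).2 hd
    simpa only [map_add, map_mul, map_pow, map_ofNat, RingHom.comp_apply] using h1
  · exact H24PD.inf_fin u _ _

theorem quad_stepC (two : Module.finrank k k' = 2) {S : Finset (HeightOneSpectrum (𝓞 K))}
    {a b : K}
    (hd : 4 * a ^ 3 + 27 * b ^ 2 ≠ 0)
    (hsplit : ∀ v ∈ S, ∃ ι : N →+* v.adicCompletion K, ∀ x : K,
      ι (algebraMap K N x) = algebraMap K (v.adicCompletion K) x)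
    (hreal : ∀ s : K →+* ℝ, 0 < s (4 * a ^ 3 + 27 * b ^ 2) ∨ ∃ s' : N →+* ℝ, ∀ x : K,
      s' (algebraMap K N x) = s x)
    (hram : ∀ V : HeightOneSpectrum (𝓞 N), dn K V ∉ S → V.valuation N 2 = 1 → Ram K V →
      NoRootAt (dn K V) a b)
    (hdesc : Desc2 K N a b)
    (hNR : ∀ u : HeightOneSpectrum (𝓞 k), NoRootAt (dn K u) a b →
      NoRootAt u (algebraMap K k a) (algebraMap K k b))
    (hT : ∀ (L : Type) [Field L] [NumberField L] [Algebra k L] (θ : L),
      Cub k L (algebraMap K k a) (algebraMap K k b) θ → RelCT K k L S a b θ)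
    (L' : Type) [Field L'] [NumberField L'] [Algebra k' L'] (θ' : L')
    (h' : Cub k' L' (algebraMap K k' a) (algebraMap K k' b) θ') : RelCT K k' L' S a b θ' := by
  intro d hR
  have hab : ∀ x : K, algebraMap K k' x = algebraMap k k' (algebraMap K k x) :=
    IsScalarTower.algebraMap_apply K k k'
  let _ : Algebra k L' := ((algebraMap k' L').comp (algebraMap k k')).toAlgebra
  have _ : IsScalarTower k k' L' := IsScalarTower.of_algebraMap_eq fun _ => rfl
  have h'' : Cub k' L' (algebraMap k k' (algebraMap K k a)) (algebraMap k k' (algebraMap K k b)) θ' := by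
    rw [← hab, ← hab]
    exact h'
  obtain ⟨L, _, _, _, _, _, θ, hc, hθ⟩ := exists_sub h''
  have Q : QS k L k' L' (algebraMap K k a) (algebraMap K k b) θ θ' := ⟨two, hc, h'', hθ⟩
  have f2 := Q.fin2
  obtain ⟨τ, σ, hσ, hτ⟩ := Q.sigma f2
  set x : L' := ev θ' d with hx
  have hx0 : x ≠ 0 := hR.ne
  -- the coordinates of an element of `L`
  have hco : ∀ y : L, ev θ (fun i => hc.co i y) = y := fun y => (hc.eq_co y).symm
  have hn0 : Algebra.norm L x ≠ 0 := by
    rw [Ne, Algebra.norm_eq_zero_iff]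
    exact hx0
  -- first descent
  have hsq1 : IsSquare (Algebra.norm L x) := by
    set e : Fin 3 → k := fun i => hc.co i (Algebra.norm L x) with he
    have he1 : ev θ e = Algebra.norm L x := hco _
    have he2 := hτ d e he1
    rw [← he1]
    refine hT L θ hc e (relC_down hsplit hreal hram hdesc hNR Q f2 ?_ ?_ ?_ ?_ ?_ ?_)
    · rw [he1]
      exact hn0
    · rw [he1]
      exact Q.norm_sq f2 hR.sq
    · intro w' hw' hw2
      rw [he1, hσ, H38T1.sc_mul hx0 ((map_ne_zero σ).2 hx0), H38T1.eo_add, hR.even w' hw' hw2,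
        zero_add]
      obtain ⟨W', h1, h2⟩ := eo_conj σ w'
      rw [h2 x hx0]
      apply hR.even
      · rw [← dn_sq (K := K) (k := k) (k' := k') (L := L) W', h1,
          dn_sq (K := K) (k := k) (k' := k') (L := L) w']
        exact hw'
      · refine val2_up (K := L) ?_
        rw [h1]
        exact val2_down hw2
    · intro v hv
      rw [he2, ← hab, ← hab]
      refine lcv_mul hd v (hR.loc v hv) ?_
      intro j hj
      have h1 := hR.loc v hv (j.comp (τ : k' →+* k')) (fun y => by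
        change j (τ (algebraMap K k' y)) = _
        rw [hab, τ.commutes, ← hab, hj])
      unfold LC at h1 ⊢
      simp only [RingHom.comp_apply, RingHom.coe_coe, hab, τ.commutes] at h1 ⊢
      exact h1
    · intro u hu
      rw [he2, ← hab, ← hab]
      refine lct_mul hd u (hR.two u hu) ?_
      rw [hab, hab]
      refine two_conj τ (fun u hu => ?_) u hu
      rw [← hab, ← hab]
      exact hR.two u hu
    · intro s
      rw [he2, ← hab, ← hab]
      refine lcr_mul hd s (hR.real s) ?_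
      have h1 := hR.real (s.comp (τ : k' →+* k'))
      unfold LC at h1 ⊢
      simp only [RingHom.comp_apply, RingHom.coe_coe, hab, τ.commutes] at h1 ⊢
      exact h1
  -- second descent
  obtain ⟨t, z, ht, hz, hxt, hNt⟩ := Q.core f2 hx0 hR.sq hsq1
  have hsq2 : IsSquare t := by
    set e : Fin 3 → k := fun i => hc.co i t with he
    have he1 : ev θ e = t := hco _
    -- the coordinates of the inverse of `z`
    set u : Fin 3 → k' := fun i => h''.co i z⁻¹ with hu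
    have hu1 : ev θ' u = z⁻¹ := (h''.eq_co z⁻¹).symm
    have he2 : (fun i => algebraMap k k' (e i)) = m3 (algebraMap k k' (algebraMap K k a))
        (algebraMap k k' (algebraMap K k b)) d (m3 (algebraMap k k' (algebraMap K k a))
        (algebraMap k k' (algebraMap K k b)) u u) := by
      have h1 : ev θ' (fun i => algebraMap k k' (e i)) = ev θ' (m3 (algebraMap k k' (algebraMap K k a))
        (algebraMap k k' (algebraMap K k b)) d (m3 (algebraMap k k' (algebraMap K k a))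
        (algebraMap k k' (algebraMap K k b)) u u)) := by
        rw [← Q.coord, he1, ← Te_ev_mul h'', ← Te_ev_mul h'', hu1, ← hx, hxt]
        field_simp
      funext i
      have h2 := h''.co_mk (fun i => algebraMap k k' (e i)) i
      have h3 := h''.co_mk (m3 (algebraMap k k' (algebraMap K k a))
        (algebraMap k k' (algebraMap K k b)) d (m3 (algebraMap k k' (algebraMap K k a))
        (algebraMap k k' (algebraMap K k b)) u u)) i
      unfold ev at h1
      rw [← h2, ← h3, h1]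
    rw [← he1]
    refine hT L θ hc e (relC_down hsplit hreal hram hdesc hNR Q f2 ?_ ?_ ?_ ?_ ?_ ?_)
    · rw [he1]
      exact ht
    · rw [he1]
      exact hNt
    · intro w' hw' hw2
      rw [he1]
      have h1 := hR.even w' hw' hw2
      have htL : algebraMap L L' t ≠ 0 := (map_ne_zero _).2 ht
      rw [← hx, hxt, H38T1.sc_mul htL (pow_ne_zero 2 hz)] at h1
      have h2 : sc (z ^ 2) = (0 : SC L') := (H38T1.sc_eq_zero (pow_ne_zero 2 hz)).2 ⟨z, pow_two z⟩
      rwa [h2, add_zero] at h1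
    · intro v hv j hj
      have h1 := LC_sq j u (hR.loc v hv j hj)
      rw [hab, hab] at h1 ⊢
      rw [he2]
      exact h1
    · intro w hw
      have h1 := LC_sq (algebraMap k' (w.adicCompletion k')) u (hR.two w hw)
      rw [hab, hab] at h1 ⊢
      rw [he2]
      exact h1
    · intro s
      have h1 := LC_sq s u (hR.real s)
      rw [hab, hab] at h1 ⊢
      rw [he2]
      exact h1
  rw [hxt]
  obtain ⟨c, rfl⟩ := hsq2
  exact ⟨algebraMap L L' c * z, by rw [map_mul]; ring⟩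

end Step

end H73CY

end S_H73_CY_Qc

section S_H73_CY_Rc

set_option autoImplicit false
set_option linter.unusedSectionVars false
open scoped Classical

open WithZero NumberField IsDedekindDomain H38RT
open H38T1 (SC sc scu rep eo la si Pri OddP tp unif)
open H76PP H73P2 H36CY

namespace H73CY

section Base

variable {K k : Type} [Field K] [NumberField K] [Field k] [NumberField k] [Algebra K k]

theorem bs_surj (h1 : Module.finrank K k = 1) : Function.Surjective (algebraMap K k) := by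
  rw [Algebra.surjective_algebraMap_iff]
  exact (Subalgebra.bot_eq_top_iff_finrank_eq_one.2 h1).symm

theorem bs_LC {F : Type} [Field F] {a b : K} {d : Fin 3 → K} (j : K →+* F) (j' : k →+* F)
    (hj : ∀ x : K, j' (algebraMap K k x) = j x)
    (h : LC j' (algebraMap K k a) (algebraMap K k b) (fun i => algebraMap K k (d i))) :
    LC j a b d := by
  obtain ⟨x, y, z, hy, h1, h2⟩ := h
  simp only [hj] at h1 h2
  exact ⟨x, y, z, hy, h1, h2⟩

theorem relC_base (h1 : Module.finrank K k = 1) {S : Finset (HeightOneSpectrum (𝓞 K))} {a b : K}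
    (hT : ∀ (L : Type) [Field L] [NumberField L] [Algebra K L] (θ : L), Cub K L a b θ →
      RelCT K K L S a b θ)
    (L : Type) [Field L] [NumberField L] [Algebra k L] (θ : L)
    (h : Cub k L (algebraMap K k a) (algebraMap K k b) θ) : RelCT K k L S a b θ := by
  have hs := bs_surj h1
  have hi : Function.Injective (algebraMap K k) := (algebraMap K k).injective
  letI : Algebra K L := ((algebraMap k L).comp (algebraMap K k)).toAlgebra
  have hal : ∀ x : K, algebraMap K L x = algebraMap k L (algebraMap K k x) := fun _ => rfl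
  have hcub : Cub K L a b θ := by
    refine ⟨?_, ?_, ?_⟩
    · rw [hal, hal]
      exact h.root
    · intro c₀ c₁ c₂ hc
      rw [hal, hal, hal] at hc
      obtain ⟨e0, e1, e2⟩ := h.li _ _ _ hc
      exact ⟨(map_eq_zero _).1 e0, (map_eq_zero _).1 e1, (map_eq_zero _).1 e2⟩
    · intro x
      obtain ⟨c₀, c₁, c₂, hx⟩ := h.sp x
      obtain ⟨d₀, rfl⟩ := hs c₀
      obtain ⟨d₁, rfl⟩ := hs c₁
      obtain ⟨d₂, rfl⟩ := hs c₂
      exact ⟨d₀, d₁, d₂, hx⟩
  intro d hR
  choose d₀ hd₀ using fun i => hs (d i)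
  obtain rfl : d = fun i => algebraMap K k (d₀ i) := funext fun i => (hd₀ i).symm
  have hev : ev θ d₀ = ev θ (fun i => algebraMap K k (d₀ i)) := rfl
  let e : K ≃+* k := RingEquiv.ofBijective (algebraMap K k) ⟨hi, hs⟩
  have hRel : RelC K K L S a b θ d₀ := by
    refine ⟨?_, ?_, ?_, ?_, ?_, ?_⟩
    · rw [hev]
      exact hR.ne
    · rw [Te_norm hcub]
      have h2 := hR.sq
      rw [Te_norm h, Te_nf_map] at h2
      obtain ⟨r, hr⟩ := h2
      obtain ⟨r₀, rfl⟩ := hs r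
      refine ⟨r₀, hi ?_⟩
      rw [hr, map_mul]
    · intro w hw hw2
      rw [hev]
      refine hR.even w ?_ hw2
      have h3 : dn K (dn K w) = dn K (dn k w) := by
        apply HeightOneSpectrum.ext
        ext x
        have h4 : algebraMap (𝓞 K) (𝓞 L) (algebraMap (𝓞 K) (𝓞 K) x) =
            algebraMap (𝓞 k) (𝓞 L) (algebraMap (𝓞 K) (𝓞 k) x) := by
          apply RingOfIntegers.coe_injective
          rfl
        change algebraMap (𝓞 K) (𝓞 L) (algebraMap (𝓞 K) (𝓞 K) x) ∈ w.asIdeal ↔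
          algebraMap (𝓞 k) (𝓞 L) (algebraMap (𝓞 K) (𝓞 k) x) ∈ w.asIdeal
        rw [h4]
      rw [← h3]
      exact hw
    · intro v hv j hj
      let j' : k →+* v.adicCompletion K := j.comp (e.symm : k →+* K)
      have hj' : ∀ x : K, j' (algebraMap K k x) = j x := by
        intro x
        change j (e.symm (e x)) = j x
        rw [RingEquiv.symm_apply_apply]
      refine bs_LC (k := k) j j' hj' ?_
      apply hR.loc v hv j'
      intro x
      rw [hj']
      exact hj x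
    · intro v hv
      let j' : k →+* v.adicCompletion K :=
        (algebraMap K (v.adicCompletion K)).comp (e.symm : k →+* K)
      have hj' : ∀ x : K, j' (algebraMap K k x) = algebraMap K (v.adicCompletion K) x := by
        intro x
        change algebraMap K (v.adicCompletion K) (e.symm (e x)) = algebraMap K (v.adicCompletion K) x
        rw [RingEquiv.symm_apply_apply]
      obtain ⟨u, φ, hu, hφ⟩ := exists_map2 v j' hj' hv
      exact bs_LC (k := k) _ j' hj' (LC_map φ hφ (hR.two u hu))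
    · intro s
      let s' : k →+* ℝ := s.comp (e.symm : k →+* K)
      have hs' : ∀ x : K, s' (algebraMap K k x) = s x := by
        intro x
        change s (e.symm (e x)) = s x
        rw [RingEquiv.symm_apply_apply]
      exact bs_LC (k := k) s s' hs' (hR.real s')
  have h5 := hT L θ hcub d₀ hRel
  rw [hev] at h5
  exact h5

end Base

theorem chainC {K N : Type} [Field K] [NumberField K] [Field N] [NumberField N] [Algebra K N]
    [IsGalois K N] {r : ℕ} (hr : Module.finrank K N = 2 ^ r) {S : Finset (HeightOneSpectrum (𝓞 K))}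
    {a b : K}
    (hd : 4 * a ^ 3 + 27 * b ^ 2 ≠ 0)
    (hsplit : ∀ v ∈ S, ∃ ι : N →+* v.adicCompletion K, ∀ x : K,
      ι (algebraMap K N x) = algebraMap K (v.adicCompletion K) x)
    (hreal : ∀ s : K →+* ℝ, 0 < s (4 * a ^ 3 + 27 * b ^ 2) ∨ ∃ s' : N →+* ℝ, ∀ x : K,
      s' (algebraMap K N x) = s x)
    (hram : ∀ V : HeightOneSpectrum (𝓞 N), dn K V ∉ S → V.valuation N 2 = 1 → Ram K V →
      NoRootAt (dn K V) a b)
    (hdesc : Desc2 K N a b)
    (hT : ∀ (L : Type) [Field L] [NumberField L] [Algebra K L] (θ : L), Cub K L a b θ →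
      RelCT K K L S a b θ) (n : ℕ) :
    ∀ (k : Type) [Field k] [NumberField k] [Algebra K k] [Algebra k N] [IsScalarTower K k N],
      Module.finrank K k = n →
      (∀ u : HeightOneSpectrum (𝓞 k), NoRootAt (dn K u) a b →
        NoRootAt u (algebraMap K k a) (algebraMap K k b)) ∧
      ∀ (L : Type) [Field L] [NumberField L] [Algebra k L] (θ : L),
        Cub k L (algebraMap K k a) (algebraMap K k b) θ → RelCT K k L S a b θ := by
  have _ : FiniteDimensional K N := Module.Finite.of_restrictScalars_finite ℚ K N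
  induction n using Nat.strong_induction_on with
  | _ n ih =>
    intro k _ _ _ _ _ hn
    by_cases h1 : Module.finrank K k = 1
    · exact ⟨fun u hu => nr_base h1 u hu, fun L _ _ _ θ h => relC_base h1 hT L θ h⟩
    · obtain ⟨k₀, hk₀⟩ := exists_half (K := K) (N := N) (k' := k) hr h1
      have _ : FiniteDimensional K k := Module.Finite.of_restrictScalars_finite ℚ K k
      have _ : NumberField k₀ := NumberField.of_module_finite K k₀
      have _ : IsScalarTower k₀ k N := inferInstance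
      have _ : IsScalarTower K k₀ N := IsScalarTower.of_algebraMap_eq fun x => by
        rw [IsScalarTower.algebraMap_apply K k N, IsScalarTower.algebraMap_apply K k₀ k]
        rfl
      have hmul := Module.finrank_mul_finrank K k₀ k
      rw [hk₀] at hmul
      have hpos : 0 < Module.finrank K k₀ := Module.finrank_pos
      obtain ⟨ih1, ih2⟩ := ih (Module.finrank K k₀) (by omega) k₀ rfl
      have hab : ∀ x : K, algebraMap K k x = algebraMap k₀ k (algebraMap K k₀ x) :=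
        IsScalarTower.algebraMap_apply K k₀ k
      refine ⟨fun u hu => ?_, fun L _ _ _ θ h =>
        quad_stepC (N := N) hk₀ hd hsplit hreal hram hdesc ih1 ih2 L θ h⟩
      have h2 : dn K (dn k₀ u) = dn K u := dn_dn u
      rw [hab, hab]
      refine NoRootAt.up hk₀ u (ih1 _ ?_)
      rw [h2]
      exact hu

section

variable {K N : Type} [Field K] [NumberField K] [Field N] [NumberField N] [Algebra K N]
  [IsGalois K N]

/-- The Selmer group over a field between `K` and `N`. -/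
theorem selC_mid (hos : OrdSub) {r : ℕ} (hr : Module.finrank K N = 2 ^ r)
    {S : Finset (HeightOneSpectrum (𝓞 K))} {a b : K}
    (hd : 4 * a ^ 3 + 27 * b ^ 2 ≠ 0)
    (hnice : ∀ v : HeightOneSpectrum (𝓞 K), v ∉ S → v.valuation K 2 = 1 → NiceAt v a b)
    (hsplit : ∀ v ∈ S, ∃ ι : N →+* v.adicCompletion K, ∀ x : K,
      ι (algebraMap K N x) = algebraMap K (v.adicCompletion K) x)
    (hreal : ∀ s : K →+* ℝ, 0 < s (4 * a ^ 3 + 27 * b ^ 2) ∨ ∃ s' : N →+* ℝ, ∀ x : K,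
      s' (algebraMap K N x) = s x)
    (hram : ∀ V : HeightOneSpectrum (𝓞 N), dn K V ∉ S → V.valuation N 2 = 1 → Ram K V →
      NoRootAt (dn K V) a b)
    (hdesc : Desc2 K N a b)
    (hT : ∀ (L : Type) [Field L] [NumberField L] [Algebra K L] (θ : L), Cub K L a b θ →
      RelCT K K L S a b θ)
    (k : Type) [Field k] [NumberField k] [Algebra K k] [Algebra k N] [IsScalarTower K k N]
    (L : Type) [Field L] [NumberField L] [Algebra k L] (θ : L)
    (h : Cub k L (algebraMap K k a) (algebraMap K k b) θ) :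
    SelTriv k L (algebraMap K k a) (algebraMap K k b) θ := by
  obtain ⟨hNR, hRT⟩ := chainC hr hd hsplit hreal hram hdesc hT _ k rfl
  intro d hd0 hsq hfin hre
  refine hRT L θ h d ⟨hd0, hsq, ?_, ?_, fun u _ => hfin u, hre⟩
  · intro w hw hw2
    obtain ⟨V, hV⟩ := exists_above (L := N) (dn k w)
    have hKV : dn K V = dn K (dn k w) := by
      rw [← hV]
      exact (dn_dn V).symm
    have hk2 : (dn k w).valuation k 2 = 1 := val2_down hw2
    have hV2 : V.valuation N 2 = 1 := val2_up (K := k) (by rw [hV]; exact hk2)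
    by_cases hr' : Ram K V
    · have h1 := hram V (by rw [hKV]; exact hw) hV2 hr'
      rw [hKV] at h1
      exact even_unique h w (hNR _ h1) hd0 hsq
    · obtain ⟨-, h1⟩ := unram_mid (k := k) hr'
      rw [hV, hKV] at h1
      exact even_nice hos h w (NiceAt.up h1 (hnice _ hw (val2_down hk2))) hd0 (hfin _)
  · intro v _ j hj
    exact LC_of_places hfin v j hj

/-- The relative theorem. -/
theorem relC_main (hos : OrdSub) {r : ℕ} (hr : Module.finrank K N = 2 ^ r)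
    {S : Finset (HeightOneSpectrum (𝓞 K))} {a b : K}
    (hd : 4 * a ^ 3 + 27 * b ^ 2 ≠ 0) (hirr : ∀ t : K, t ^ 3 + a * t + b ≠ 0)
    (hnice : ∀ v : HeightOneSpectrum (𝓞 K), v ∉ S → v.valuation K 2 = 1 → NiceAt v a b)
    (hsplit : ∀ v ∈ S, ∃ ι : N →+* v.adicCompletion K, ∀ x : K,
      ι (algebraMap K N x) = algebraMap K (v.adicCompletion K) x)
    (hreal : ∀ s : K →+* ℝ, 0 < s (4 * a ^ 3 + 27 * b ^ 2) ∨ ∃ s' : N →+* ℝ, ∀ x : K,
      s' (algebraMap K N x) = s x)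
    (hram : ∀ V : HeightOneSpectrum (𝓞 N), dn K V ∉ S → V.valuation N 2 = 1 → Ram K V →
      NoRootAt (dn K V) a b)
    (hdesc : Desc2 K N a b)
    (hT : ∀ (L : Type) [Field L] [NumberField L] [Algebra K L] (θ : L), Cub K L a b θ →
      RelCT K K L S a b θ)
    (M : IntermediateField K N) [NumberField M] :
    Finite (⟨0, 0, 0, algebraMap K M a, algebraMap K M b⟩ : WeierstrassCurve M).toAffine.Point ∧
      Pool.Agent.H10.Sha2Trivial M
        (⟨0, 0, 0, algebraMap K M a, algebraMap K M b⟩ : WeierstrassCurve M) := by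
  have _ : FiniteDimensional K N := Module.Finite.of_restrictScalars_finite ℚ K N
  obtain ⟨L, _, _, _, θ, hL⟩ := H24PD.exists_cub (K := M)
    (noroot (K := K) (N := N) (k := M) hr hirr)
  exact H24PD.descent hL (selC_mid hos hr hd hnice hsplit hreal hram hdesc hT M L θ hL)

end

end H73CY

end S_H73_CY_Rc

section S_H30_CY_Gen

set_option autoImplicit false
set_option linter.unusedSectionVars false
open scoped Classical

open WithZero NumberField IsDedekindDomain H38RT H76PP H36MT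
open H38T1 (SC sc scu rep eo la si Pri OddP tp unif)

namespace H30CY

/-- `N / K` is a Galois extension whose degree is a power of two, every ramified prime lies above `R` or
above two, the primes of `T` split completely, and the local conditions above two descend in the
quadratic extensions between `K` and `N`. -/
structure AdmG (K : Type) (N : Type) [Field K] [NumberField K] [Field N] [NumberField N]
    [Algebra K N] (R T : Finset (HeightOneSpectrum (𝓞 K))) (a b : K) : Prop where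
  gal : IsGalois K N
  two : ∃ r : ℕ, Module.finrank K N = 2 ^ r
  ram : ∀ V : HeightOneSpectrum (𝓞 N), (2 : 𝓞 K) ∉ (dn K V).asIdeal → H73P2.Ram K V → dn K V ∈ R
  spl : ∀ v ∈ T, ∃ ι : N →+* v.adicCompletion K, ∀ x : K,
      ι (algebraMap K N x) = algebraMap K (v.adicCompletion K) x
  desc : ∀ v : HeightOneSpectrum (𝓞 K), (2 : 𝓞 K) ∈ v.asIdeal → H36CY.DescAt K N v a b

theorem two_mem_iff {K : Type} [Field K] [NumberField K] {v : HeightOneSpectrum (𝓞 K)} :
    v.valuation K 2 < 1 ↔ (2 : 𝓞 K) ∈ v.asIdeal := by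
  have h := v.valuation_lt_one_iff_mem (K := K) (2 : 𝓞 K)
  have e : algebraMap (𝓞 K) K 2 = 2 := map_ofNat (algebraMap (𝓞 K) K) 2
  constructor
  · intro h1
    refine h.1 ?_
    change v.valuation K (algebraMap (𝓞 K) K 2) < 1
    rw [e]
    exact h1
  · intro h1
    rw [← e]
    exact h.2 h1

theorem two_fin (K : Type) [Field K] [NumberField K] :
    ∃ P : Finset (HeightOneSpectrum (𝓞 K)), ∀ v, v ∈ P ↔ (2 : 𝓞 K) ∈ v.asIdeal := by
  have h : {v : HeightOneSpectrum (𝓞 K) | (2 : 𝓞 K) ∈ v.asIdeal}.Finite := by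
    refine (H36PP.six_fin K).subset fun v hv => ?_
    have h6 : (6 : 𝓞 K) = 3 * 2 := by norm_num
    change (6 : 𝓞 K) ∈ v.asIdeal
    rw [h6]
    exact v.asIdeal.mul_mem_left _ hv
  exact ⟨h.toFinset, fun v => h.mem_toFinset⟩

/-- The residue class. -/
theorem exists_cls {K : Type} [Field K] [NumberField K] {S R : Finset (HeightOneSpectrum (𝓞 K))}
    (hSv : ∀ v : HeightOneSpectrum (𝓞 K), v ∈ S ↔ (2 : 𝓞 K) ∈ v.asIdeal)
    (hR : ∀ v ∈ R, (2 : 𝓞 K) ∉ v.asIdeal) (e : HeightOneSpectrum (𝓞 K) → ℕ)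
    (Av Bv : HeightOneSpectrum (𝓞 K) → 𝓞 K)
    (hcl : ∀ v ∈ S, dsc (Av v) (Bv v) ∉ v.asIdeal ^ e v) :
    ∃ (m : Ideal (𝓞 K)) (E : ℕ) (A₀ B₀ : 𝓞 K), m ≠ ⊥ ∧ 1 ≤ E ∧
      (∀ v ∈ S, m ≤ v.asIdeal ^ E ∧ dsc A₀ B₀ ∉ v.asIdeal ^ E) ∧
      (∀ v : HeightOneSpectrum (𝓞 K), v ∉ S → m ≤ v.asIdeal → dsc A₀ B₀ ∉ v.asIdeal) ∧
      (∀ A B : 𝓞 K, A - A₀ ∈ m → B - B₀ ∈ m →
        (∀ v ∈ S, A - Av v ∈ v.asIdeal ^ e v ∧ B - Bv v ∈ v.asIdeal ^ e v) ∧
        ∀ v ∈ R, H30PN.NoRt K v A B) := by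
  choose b hb using fun v : HeightOneSpectrum (𝓞 K) => H30PN.Rm_noroot v
  obtain ⟨E, hE⟩ : ∃ E : ℕ, E = 1 + ∑ v ∈ S, e v := ⟨_, rfl⟩
  have hEe : ∀ v ∈ S, e v ≤ E := by
    intro v hv
    have h1 : e v ≤ ∑ v ∈ S, e v := Finset.single_le_sum (fun _ _ => Nat.zero_le _) hv
    omega
  obtain ⟨ex, hex⟩ : ∃ ex : HeightOneSpectrum (𝓞 K) → ℕ, ex = fun v => if v ∈ S then E else 1 :=
    ⟨_, rfl⟩
  have hexS : ∀ v ∈ S, ex v = E := by
    intro v hv
    rw [hex]
    exact if_pos hv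
  have hexR : ∀ v ∉ S, ex v = 1 := by
    intro v hv
    rw [hex]
    exact if_neg hv
  have hRS : ∀ v ∈ R, v ∉ S := fun v hv h => hR v hv ((hSv v).1 h)
  obtain ⟨A₀, hA₀⟩ := IsDedekindDomain.exists_forall_sub_mem_ideal (s := S ∪ R)
    (fun v : HeightOneSpectrum (𝓞 K) => v.asIdeal) ex (fun v _ => v.prime)
    (fun v _ w _ hne h => hne (HeightOneSpectrum.ext h)) (fun v => if v.1 ∈ S then Av v else -1)
  obtain ⟨B₀, hB₀⟩ := IsDedekindDomain.exists_forall_sub_mem_ideal (s := S ∪ R)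
    (fun v : HeightOneSpectrum (𝓞 K) => v.asIdeal) ex (fun v _ => v.prime)
    (fun v _ w _ hne h => hne (HeightOneSpectrum.ext h)) (fun v => if v.1 ∈ S then Bv v else b v)
  have hAS : ∀ v ∈ S, A₀ - Av v ∈ v.asIdeal ^ E := by
    intro v hv
    have h := hA₀ v (Finset.mem_union_left _ hv)
    rw [hexS v hv, if_pos hv] at h
    exact h
  have hBS : ∀ v ∈ S, B₀ - Bv v ∈ v.asIdeal ^ E := by
    intro v hv
    have h := hB₀ v (Finset.mem_union_left _ hv)
    rw [hexS v hv, if_pos hv] at h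
    exact h
  have hAR : ∀ v ∈ R, A₀ - (-1) ∈ v.asIdeal := by
    intro v hv
    have h := hA₀ v (Finset.mem_union_right _ hv)
    rw [hexR v (hRS v hv), if_neg (hRS v hv), pow_one] at h
    exact h
  have hBR : ∀ v ∈ R, B₀ - b v ∈ v.asIdeal := by
    intro v hv
    have h := hB₀ v (Finset.mem_union_right _ hv)
    rw [hexR v (hRS v hv), if_neg (hRS v hv), pow_one] at h
    exact h
  obtain ⟨m, hm⟩ : ∃ m : Ideal (𝓞 K), m = ∏ v ∈ S ∪ R, v.asIdeal ^ ex v := ⟨_, rfl⟩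
  have hle : ∀ v ∈ S ∪ R, m ≤ v.asIdeal ^ ex v := fun v hv => by
    rw [hm]
    exact Ideal.le_of_dvd (Finset.dvd_prod_of_mem
      (fun w : HeightOneSpectrum (𝓞 K) => w.asIdeal ^ ex w) hv)
  have hleS : ∀ v ∈ S, m ≤ v.asIdeal ^ E := fun v hv => by
    rw [← hexS v hv]
    exact hle v (Finset.mem_union_left _ hv)
  have hleR : ∀ v ∈ R, m ≤ v.asIdeal := fun v hv => by
    have h := hle v (Finset.mem_union_right _ hv)
    rwa [hexR v (hRS v hv), pow_one] at h
  have hmem : ∀ v : HeightOneSpectrum (𝓞 K), m ≤ v.asIdeal → v ∈ S ∪ R := by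
    intro v hv
    rw [hm] at hv
    obtain ⟨w, hw, hwv⟩ := (Ideal.IsPrime.prod_le v.isPrime).1 hv
    have h1 : w.asIdeal = v.asIdeal :=
      w.isMaximal.eq_of_le v.isPrime.ne_top (Ideal.IsPrime.le_of_pow_le hwv)
    have h2 : w = v := HeightOneSpectrum.ext h1
    rwa [← h2]
  have hno : ∀ A B : 𝓞 K, A - A₀ ∈ m → B - B₀ ∈ m → ∀ v ∈ R, H30PN.NoRt K v A B := by
    intro A B hA hBm v hv t ht
    apply hb v t
    have e : t ^ 3 - t + b v = (t ^ 3 + A * t + B) - t * ((A - A₀) + (A₀ - (-1))) -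
        (B - B₀) - (B₀ - b v) := by ring
    rw [e]
    exact Ideal.sub_mem _ (Ideal.sub_mem _ (Ideal.sub_mem _ ht
      (Ideal.mul_mem_left _ _ (Ideal.add_mem _ (hleR v hv hA) (hAR v hv)))) (hleR v hv hBm))
      (hBR v hv)
  refine ⟨m, E, A₀, B₀, ?_, by omega, ?_, ?_, ?_⟩
  · rw [hm, ← Ideal.zero_eq_bot, Finset.prod_ne_zero_iff]
    intro w _
    exact pow_ne_zero _ (by rw [Ideal.zero_eq_bot]; exact w.ne_bot)
  · intro v hv
    refine ⟨hleS v hv, fun h => hcl v hv ?_⟩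
    have h1 : dsc (Av v) (Bv v) = dsc A₀ B₀ - ((A₀ - Av v) *
        (4 * (A₀ ^ 2 + A₀ * Av v + Av v ^ 2)) + (B₀ - Bv v) * (27 * (B₀ + Bv v))) := by
      unfold dsc
      ring
    have h2 : dsc (Av v) (Bv v) ∈ v.asIdeal ^ E := by
      rw [h1]
      exact sub_mem h (add_mem (Ideal.mul_mem_right _ _ (hAS v hv))
        (Ideal.mul_mem_right _ _ (hBS v hv)))
    exact Ideal.pow_le_pow_right (hEe v hv) h2
  · intro v hvS hmv
    have hvR : v ∈ R := by
      rcases Finset.mem_union.1 (hmem v hmv) with h | h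
      · exact absurd h hvS
      · exact h
    have h2v := hR v hvR
    by_cases h6 : (6 : 𝓞 K) ∈ v.asIdeal
    · have h3 : (3 : 𝓞 K) ∈ v.asIdeal := by
        have h7 : (2 : 𝓞 K) * 3 ∈ v.asIdeal := by
          rw [show (2 : 𝓞 K) * 3 = 6 by norm_num]
          exact h6
        exact (v.isPrime.mem_or_mem h7).resolve_left h2v
      intro h
      have h8 : (2 : 𝓞 K) ^ 2 ∈ v.asIdeal := by
        have e : (2 : 𝓞 K) ^ 2 = 3 * (9 * B₀ ^ 2) + (A₀ - (-1)) * (4 * (A₀ ^ 2 - A₀ + 1)) -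
            dsc A₀ B₀ := by
          unfold dsc
          ring
        rw [e]
        exact sub_mem (add_mem (v.asIdeal.mul_mem_right _ h3)
          (v.asIdeal.mul_mem_right _ (hAR v hvR))) h
      exact h2v (v.isPrime.mem_of_pow_mem 2 h8)
    · refine H30PN.nort_dsc' h6 (hno A₀ B₀ ?_ ?_ v hvR)
      · rw [sub_self]
        exact Ideal.zero_mem _
      · rw [sub_self]
        exact Ideal.zero_mem _
  · intro A B hA hB
    refine ⟨fun v hv => ?_, hno A B hA hB⟩
    have h1 : v.asIdeal ^ E ≤ v.asIdeal ^ e v := Ideal.pow_le_pow_right (hEe v hv)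
    constructor
    · have h2 := h1 (add_mem (hleS v hv hA) (hAS v hv))
      rwa [sub_add_sub_cancel] at h2
    · have h2 := h1 (add_mem (hleS v hv hB) (hBS v hv))
      rwa [sub_add_sub_cancel] at h2

/-- Over `K` itself the two forms of the relaxed Selmer condition agree. -/
theorem relCT_of {K : Type} [Field K] [NumberField K] {S T : Finset (HeightOneSpectrum (𝓞 K))}
    (hSv : ∀ v : HeightOneSpectrum (𝓞 K), v ∈ S ↔ (2 : 𝓞 K) ∈ v.asIdeal) {a b : K}
    {L : Type} [Field L] [NumberField L] [Algebra K L] {θ : L}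
    (h : H73P2.RelT K K L (S ∪ T) a b θ) : H36CY.RelCT K K L T a b θ := by
  intro d hd
  refine h d ⟨hd.ne, hd.sq, ?_, ?_, hd.real⟩
  · intro w hw
    rw [Finset.mem_union, not_or] at hw
    refine hd.even w hw.2 ?_
    have h1 : OddP (dn K w) := by
      have h2 : (2 : 𝓞 K) ∉ (dn K w).asIdeal := by
        intro h3
        apply hw.1
        rw [hSv, H73P2.dn_dn]
        exact h3
      have h3 := ((dn K w).valuation_eq_one_iff_notMem (K := K) (r := (2 : 𝓞 K))).2 h2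
      unfold H38T1.OddP
      rw [← h3]
      congr 1
    rwa [← oddP_dn (K := K)] at h1
  · intro v hv
    rcases Finset.mem_union.1 hv with hv | hv
    · intro j hj
      have h1 : j = algebraMap K (v.adicCompletion K) := RingHom.ext fun x => hj x
      rw [h1]
      exact hd.two v (two_mem_iff.2 ((hSv v).1 hv))
    · exact hd.loc v hv

/-- The general theorem. -/
theorem main_gen (K : Type) [Field K] [NumberField K] (R : Finset (HeightOneSpectrum (𝓞 K)))
    (hR : ∀ v ∈ R, (2 : 𝓞 K) ∉ v.asIdeal) {Z : Set (HeightOneSpectrum (𝓞 K))}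
    (hZ : Z.Infinite) (e : HeightOneSpectrum (𝓞 K) → ℕ) (Av Bv : HeightOneSpectrum (𝓞 K) → 𝓞 K)
    (hcl : ∀ v : HeightOneSpectrum (𝓞 K), (2 : 𝓞 K) ∈ v.asIdeal →
      dsc (Av v) (Bv v) ∉ v.asIdeal ^ e v) :
    ∃ (T : Finset (HeightOneSpectrum (𝓞 K))) (c X₀ : ℝ),
      (∀ v ∈ T, v ∈ Z) ∧ 0 < c ∧ ∀ X : ℝ, X₀ ≤ X → ∃ G : Finset (𝓞 K × 𝓞 K),
        (∀ p ∈ G, p ∈ Bx K X ∧ 4 * p.1 ^ 3 + 27 * p.2 ^ 2 ≠ 0 ∧
          (∀ v : HeightOneSpectrum (𝓞 K), (2 : 𝓞 K) ∈ v.asIdeal →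
            p.1 - Av v ∈ v.asIdeal ^ e v ∧ p.2 - Bv v ∈ v.asIdeal ^ e v) ∧
          ∀ (N : Type) [Field N] [NumberField N] [Algebra K N],
            AdmG K N R T (p.1 : K) (p.2 : K) → ∀ (M : Type) [Field M] [NumberField M]
            [Algebra K M] [Algebra M N] [IsScalarTower K M N],
            Finite (⟨0, 0, 0, algebraMap K M p.1, algebraMap K M p.2⟩ :
              WeierstrassCurve M).toAffine.Point ∧
            Pool.Agent.H10.Sha2Trivial M
              (⟨0, 0, 0, algebraMap K M p.1, algebraMap K M p.2⟩ : WeierstrassCurve M)) ∧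
        (∀ p ∈ G, ∀ q ∈ G, p.1 ^ 3 * q.2 ^ 2 = q.1 ^ 3 * p.2 ^ 2 → p = q) ∧
        c * ((Bx K X).ncard : ℝ) ≤ (G.card : ℝ) := by
  obtain ⟨S, hSv⟩ := two_fin K
  obtain ⟨m, E, A₀, B₀, hm0, hE, hmS, hm, hclass⟩ :=
    exists_cls hSv hR e Av Bv fun v hv => hcl v ((hSv v).1 hv)
  obtain ⟨T, c, X₀, hT, hc, h⟩ := main_B2 K hSv hE hZ hm0 hmS hm
  refine ⟨T, c, X₀, fun v hv => (hT v hv).1, hc, fun X hX => ?_⟩
  obtain ⟨G, hG, hj, hcard⟩ := h X hX
  refine ⟨G, fun p hp => ?_, hj, hcard⟩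
  obtain ⟨hB, h1, h2, hpos, hrel⟩ := hG p hp
  obtain ⟨hc1, hc2⟩ := hclass p.1 p.2 h1 h2
  refine ⟨hB, hrel.ne, fun v hv => hc1 v ((hSv v).2 hv), ?_⟩
  intro N _ _ _ hN M _ _ _ _ _
  have _ := hN.gal
  obtain ⟨r, hr⟩ := hN.two
  have hd : 4 * (p.1 : K) ^ 3 + 27 * (p.2 : K) ^ 2 ≠ 0 := by
    rw [← dsc_coe]
    intro h0
    apply hrel.ne
    apply RingOfIntegers.coe_injective
    rw [map_zero]
    exact h0
  have hodd : ∀ v : HeightOneSpectrum (𝓞 K), v.valuation K 2 = 1 → v ∉ S := by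
    intro v hv hvS
    have h3 := two_mem_iff.2 ((hSv v).1 hvS)
    rw [hv] at h3
    exact lt_irrefl _ h3
  have _ : FiniteDimensional K N := Module.Finite.of_restrictScalars_finite ℚ K N
  obtain ⟨L, _, _, _, θ, hL⟩ := H24PD.exists_cub (K := M)
    (H73P2.noroot (K := K) (N := N) (k := M) hr hrel.irr)
  refine H24PD.descent hL (H73CY.selC_mid (K := K) (N := N) ordSub hr (S := T) hd ?_ hN.spl ?_ ?_
    ?_ ?_ M L θ hL)
  · intro v hv hv2
    exact hrel.nice v fun h => (Finset.mem_union.1 h).elim (hodd v hv2) hv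
  · intro s
    left
    rw [map_add, map_mul, map_mul, map_pow, map_pow, map_ofNat, map_ofNat]
    have h1 := hpos s
    positivity
  · intro V hVT hV2 hV
    have h2V : (2 : 𝓞 K) ∉ (dn K V).asIdeal := by
      intro h3
      have h4 := two_mem_iff.2 h3
      have h5 : OddP (dn K V) := by
        rw [← oddP_dn (K := K)]
        exact hV2
      have h6 : (dn K V).valuation K 2 = 1 := h5
      rw [h6] at h4
      exact lt_irrefl _ h4
    have h1 := H30PN.noroot_of (D := (1 : K)) one_ne_zero (hc2 _ (hN.ram V h2V hV)) (by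
      have : ord ((dn K V).valuation K) (1 : K) = 0 := by
        unfold ord
        rw [map_one]
        simp
      rw [this]
      exact Even.zero)
    rw [one_pow, one_pow, one_mul, one_mul] at h1
    exact h1
  · intro k k' _ _ _ _ _ _ _ _ _ _ _ _ _ h2 d hd0 hsq hloc u hu
    have hu' : (2 : 𝓞 K) ∈ (dn K u).asIdeal := by
      have h3 : (2 : 𝓞 k) ∈ u.asIdeal := two_mem_iff.1 hu
      change algebraMap (𝓞 K) (𝓞 k) 2 ∈ u.asIdeal
      rw [map_ofNat]
      exact h3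
    refine hN.desc (dn K u) hu' k k' h2 d hd0 hsq (fun u' hu2 => hloc u' ?_) u rfl
    rw [two_mem_iff]
    have h3 : algebraMap (𝓞 K) (𝓞 k') 2 ∈ u'.asIdeal := by
      have h4 : (2 : 𝓞 K) ∈ (dn K u').asIdeal := by
        rw [hu2]
        exact hu'
      exact h4
    rwa [map_ofNat] at h3
  · intro L _ _ _ θ hL
    exact relCT_of hSv (hrel.rel L θ hL)

end H30CY

end S_H30_CY_Gen
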