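import Mathlib
import Mathlib.FieldTheory.Normal.Closure
import Mathlib.NumberTheory.RamificationInertia.Galois
import Pool.Agent.H10.StarGal
import Pool.Agent.H76.PN.P3
import Pool.Agent.H76.CQ.Qa
import Pool.Agent.H76.CQ.Qb
import Pool.Agent.H76.CQ.Qc
import Pool.Agent.H76.CQ.Qd
import Pool.Agent.H76.CQ.Qe

/-! This file joins several modules to save build time (Qf). -/

set_option autoImplicit false

section S_H30_CY_Inf

set_option autoImplicit false
set_option linter.unusedSectionVars false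
open scoped Classical

open WithZero NumberField IsDedekindDomain H38RT H76PP H36MT
open H38T1 (SC sc scu rep eo la si Pri OddP tp unif)

namespace H30CY

/-- Every prime contains a prime number. -/
theorem exists_char {K : Type} [Field K] [NumberField K] (v : HeightOneSpectrum (𝓞 K)) :
    ∃ l : ℕ, l.Prime ∧ (l : 𝓞 K) ∈ v.asIdeal := by
  have h : ∀ n : ℕ, n ≠ 0 → (n : 𝓞 K) ∈ v.asIdeal → ∃ l : ℕ, l.Prime ∧ (l : 𝓞 K) ∈ v.asIdeal := by
    intro n
    induction n using Nat.strong_induction_on with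
    | _ n ih =>
      intro hn0 hn
      by_cases h1 : n = 1
      · exfalso
        apply v.isPrime.ne_top
        rw [Ideal.eq_top_iff_one]
        rw [h1, Nat.cast_one] at hn
        exact hn
      · obtain ⟨l, hl, k, rfl⟩ := Nat.exists_prime_and_dvd h1
        rw [Nat.cast_mul] at hn
        rcases v.isPrime.mem_or_mem hn with h2 | h2
        · exact ⟨l, hl, h2⟩
        · have hk0 : k ≠ 0 := by
            rintro rfl
            exact hn0 (mul_zero l)
          refine ih k ?_ hk0 h2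
          calc k = 1 * k := (one_mul k).symm
            _ < l * k := Nat.mul_lt_mul_of_pos_right hl.one_lt (Nat.pos_of_ne_zero hk0)
  refine h (Ideal.absNorm v.asIdeal) ?_ (Ideal.absNorm_mem _)
  rw [Ne, Ideal.absNorm_eq_zero_iff]
  exact v.ne_bot

/-- Two good primes of different residue characteristics in an infinite set. -/
theorem exists_two_in {K : Type} [Field K] [NumberField K] {A B : 𝓞 K}
    {Z : Set (HeightOneSpectrum (𝓞 K))} (hZ : Z.Infinite)
    (hd : 4 * A ^ 3 + 27 * B ^ 2 ≠ 0) :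
    ∃ (l l' : ℕ) (v v' : HeightOneSpectrum (𝓞 K)), v ∈ Z ∧ v' ∈ Z ∧ l.Prime ∧ l'.Prime ∧ l ≠ l' ∧
      (l : 𝓞 K) ∈ v.asIdeal ∧ (l' : 𝓞 K) ∈ v'.asIdeal ∧
      2 * (4 * A ^ 3 + 27 * B ^ 2) ∉ v.asIdeal ∧ 2 * (4 * A ^ 3 + 27 * B ^ 2) ∉ v'.asIdeal := by
  have hfin : ∀ x : 𝓞 K, x ≠ 0 → {v : HeightOneSpectrum (𝓞 K) | x ∈ v.asIdeal}.Finite := by
    intro x hx
    refine (Ideal.finite_factors (I := Ideal.span {x}) ?_).subset fun v hv => ?_
    · rw [Ne, Ideal.zero_eq_bot, Ideal.span_singleton_eq_bot]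
      exact hx
    · exact Ideal.dvd_span_singleton.2 hv
  have hz : 2 * (4 * A ^ 3 + 27 * B ^ 2) ≠ 0 := mul_ne_zero two_ne_zero hd
  have h1 := hZ.sdiff (hfin _ hz)
  obtain ⟨v, hv, hv2⟩ := h1.nonempty
  obtain ⟨l, hl, hlv⟩ := exists_char v
  have hl0 : (l : 𝓞 K) ≠ 0 := by
    exact_mod_cast hl.ne_zero
  obtain ⟨v', ⟨hv', hv2'⟩, hlv'⟩ := (h1.sdiff (hfin _ hl0)).nonempty
  obtain ⟨l', hl', hlv2⟩ := exists_char v'
  refine ⟨l, l', v, v', hv, hv', hl, hl', ?_, hlv, hlv2, hv2, hv2'⟩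
  rintro rfl
  exact hlv' hlv2

/-- Finitely many points over an algebraic extension (modification of `H73P2.fin_mq`). -/
theorem fin_any {K F : Type} [Field K] [NumberField K] [Field F] [Algebra K F]
    [Algebra.IsAlgebraic K F] {A B : 𝓞 K}
    (hM : ∀ (M : IntermediateField K F) [NumberField M],
      Finite (⟨0, 0, 0, algebraMap K M A, algebraMap K M B⟩ : WeierstrassCurve M).toAffine.Point)
    [DecidableEq F]
    (ht : {P : (⟨0, 0, 0, algebraMap K F A, algebraMap K F B⟩ :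
      WeierstrassCurve F).toAffine.Point | ∃ n : ℕ, n ≠ 0 ∧ n • P = 0}.Finite) :
    Finite (⟨0, 0, 0, algebraMap K F A, algebraMap K F B⟩ :
      WeierstrassCurve F).toAffine.Point := by
  have hall : ∀ P : (⟨0, 0, 0, algebraMap K F A, algebraMap K F B⟩ :
      WeierstrassCurve F).toAffine.Point, ∃ n : ℕ, n ≠ 0 ∧ n • P = 0 := by
    rintro (_ | ⟨x, y, hxy⟩)
    · exact ⟨1, one_ne_zero, one_nsmul 0⟩
    · let M : IntermediateField K F := IntermediateField.adjoin K {x, y}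
      have hxM : x ∈ M := IntermediateField.subset_adjoin K _ (Set.mem_insert _ _)
      have hyM : y ∈ M :=
        IntermediateField.subset_adjoin K _ (Set.mem_insert_of_mem _ (Set.mem_singleton _))
      have hfd : FiniteDimensional K M :=
        IntermediateField.finiteDimensional_adjoin
          (fun z _ => (Algebra.IsAlgebraic.isAlgebraic (R := K) z).isIntegral)
      have hnf : NumberField M := NumberField.of_module_finite K M
      have hfin := hM M
      let ι : M →+* F := M.val.toRingHom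
      have hι : ∀ a : K, ι (algebraMap K M a) = algebraMap K F a := fun a => rfl
      have hV : (⟨0, 0, 0, algebraMap K M A, algebraMap K M B⟩ : WeierstrassCurve M).map ι =
          ⟨0, 0, 0, algebraMap K F A, algebraMap K F B⟩ := by
        simp only [WeierstrassCurve.map, hι, map_zero]
      have hns : (⟨0, 0, 0, algebraMap K M A, algebraMap K M B⟩ :
          WeierstrassCurve M).toAffine.Nonsingular ⟨x, hxM⟩ ⟨y, hyM⟩ := by
        rw [← WeierstrassCurve.Affine.map_nonsingular _ ι.injective]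
        exact (congrArg (fun W => WeierstrassCurve.Affine.Nonsingular W x y) hV).mpr hxy
      have hP : Pool.Agent.H10.pm ι hV (.some _ _ hns) = .some x y hxy := rfl
      obtain ⟨m, hm0, hm⟩ := isOfFinAddOrder_iff_nsmul_eq_zero.1
        (isOfFinAddOrder_of_finite (WeierstrassCurve.Affine.Point.some _ _ hns))
      refine ⟨m, hm0.ne', ?_⟩
      rw [← hP, ← map_nsmul, hm, map_zero]
  rw [← Set.finite_univ_iff]
  exact ht.subset fun P _ => hall P

/-- `M` is a number field contained in a finite Galois extension inside `F` which contains `N₀`. -/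
theorem exists_big {K F : Type} [Field K] [NumberField K] [Field F] [Algebra K F] [IsGalois K F]
    (M : IntermediateField K F) [NumberField M] {ι : Type} (s : Finset ι)
    (N₀ : ι → IntermediateField K F) (h : ∀ i ∈ s, FiniteDimensional K (N₀ i)) :
    ∃ (N : IntermediateField K F) (_ : NumberField N), IsGalois K N ∧ M ≤ N ∧
      ∀ i ∈ s, N₀ i ≤ N := by
  have hM : FiniteDimensional K M := Module.Finite.of_restrictScalars_finite ℚ K M
  obtain ⟨L, hL⟩ : ∃ L : IntermediateField K F, L = ⨆ i ∈ s, N₀ i := ⟨_, rfl⟩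
  have hLf : FiniteDimensional K L := by
    rw [hL]
    exact IntermediateField.finiteDimensional_iSup_of_finset' h
  have hLi : ∀ i ∈ s, N₀ i ≤ L := by
    intro i hi
    rw [hL]
    exact le_iSup₂_of_le i hi le_rfl
  have hE : FiniteDimensional K (M ⊔ L : IntermediateField K F) :=
    IntermediateField.finiteDimensional_sup M L
  let N : IntermediateField K F :=
    IntermediateField.normalClosure K (M ⊔ L : IntermediateField K F) F
  have hN : FiniteDimensional K N := normalClosure.is_finiteDimensional K _ F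
  have hNn : Normal K N := normalClosure.normal K _ F
  have hle : M ⊔ L ≤ N := IntermediateField.le_normalClosure _
  refine ⟨N, NumberField.of_module_finite K N, ?_, le_sup_left.trans hle, fun i hi =>
    (hLi i hi).trans (le_sup_right.trans hle)⟩
  exact ⟨⟩

/-- The theorem for a finite or infinite extension `F / K` with infinitely many completely split primes,
given the local data above two. -/
theorem main_inf_of (K F : Type) [Field K] [NumberField K] [Field F] [Algebra K F] [IsGalois K F]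
    (hdeg : ∀ (N : IntermediateField K F) [NumberField N], IsGalois K N →
      ∃ r : ℕ, Module.finrank K N = 2 ^ r)
    (hram : {v : HeightOneSpectrum (𝓞 K) | ∃ (N : IntermediateField K F) (_ : NumberField N)
      (V : HeightOneSpectrum (𝓞 N)), dn K V = v ∧ H73P2.Ram K V}.Finite)
    (hspl : {v : HeightOneSpectrum (𝓞 K) | ∃ ι : F →+* v.adicCompletion K, ∀ x : K,
      ι (algebraMap K F x) = algebraMap K (v.adicCompletion K) x}.Infinite)
    (hloc : ∀ v : HeightOneSpectrum (𝓞 K), (2 : 𝓞 K) ∈ v.asIdeal → ∃ (e : ℕ) (A₀ B₀ : 𝓞 K)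
      (N₀ : IntermediateField K F), FiniteDimensional K N₀ ∧ dsc A₀ B₀ ∉ v.asIdeal ^ e ∧
      ∀ A B : 𝓞 K, A - A₀ ∈ v.asIdeal ^ e → B - B₀ ∈ v.asIdeal ^ e →
        ∀ (N : IntermediateField K F) [NumberField N], IsGalois K N → N₀ ≤ N →
          H36CY.DescAt K N v (A : K) (B : K)) :
    ∃ (c X₀ : ℝ), 0 < c ∧ ∀ X : ℝ, X₀ ≤ X → ∃ G : Finset (𝓞 K × 𝓞 K),
      (∀ p ∈ G, p ∈ Bx K X ∧ 4 * p.1 ^ 3 + 27 * p.2 ^ 2 ≠ 0 ∧
        Finite (⟨0, 0, 0, algebraMap K F p.1, algebraMap K F p.2⟩ :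
          WeierstrassCurve F).toAffine.Point ∧
        ∀ (M : IntermediateField K F) [NumberField M],
          Finite (⟨0, 0, 0, algebraMap K M p.1, algebraMap K M p.2⟩ :
            WeierstrassCurve M).toAffine.Point ∧
          Pool.Agent.H10.Sha2Trivial M
            (⟨0, 0, 0, algebraMap K M p.1, algebraMap K M p.2⟩ : WeierstrassCurve M)) ∧
      (∀ p ∈ G, ∀ q ∈ G, p.1 ^ 3 * q.2 ^ 2 = q.1 ^ 3 * p.2 ^ 2 → p = q) ∧
      c * ((Bx K X).ncard : ℝ) ≤ (G.card : ℝ) := by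
  have hloc' : ∀ v : HeightOneSpectrum (𝓞 K), ∃ (e : ℕ) (A₀ B₀ : 𝓞 K)
      (N₀ : IntermediateField K F), FiniteDimensional K N₀ ∧ ((2 : 𝓞 K) ∈ v.asIdeal →
      dsc A₀ B₀ ∉ v.asIdeal ^ e ∧
      ∀ A B : 𝓞 K, A - A₀ ∈ v.asIdeal ^ e → B - B₀ ∈ v.asIdeal ^ e →
        ∀ (N : IntermediateField K F) [NumberField N], IsGalois K N → N₀ ≤ N →
          H36CY.DescAt K N v (A : K) (B : K)) := by
    intro v
    by_cases hv : (2 : 𝓞 K) ∈ v.asIdeal
    · obtain ⟨e, A₀, B₀, N₀, h1, h2, h3⟩ := hloc v hv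
      exact ⟨e, A₀, B₀, N₀, h1, fun _ => ⟨h2, h3⟩⟩
    · exact ⟨0, 0, 0, ⊥, inferInstance, fun h => absurd h hv⟩
  choose e A₀ B₀ N₀ hN₀ hcl using hloc'
  obtain ⟨S, hSv⟩ := two_fin K
  obtain ⟨R, hR⟩ : ∃ R : Finset (HeightOneSpectrum (𝓞 K)), ∀ v, v ∈ R ↔
      ((∃ (N : IntermediateField K F) (_ : NumberField N)
      (V : HeightOneSpectrum (𝓞 N)), dn K V = v ∧ H73P2.Ram K V) ∧ (2 : 𝓞 K) ∉ v.asIdeal) := by
    refine ⟨hram.toFinset.filter fun v => (2 : 𝓞 K) ∉ v.asIdeal, fun v => ?_⟩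
    rw [Finset.mem_filter, Set.Finite.mem_toFinset]
    rfl
  obtain ⟨T, c, X₀, hT, hc, h⟩ := main_gen K R (fun v hv => ((hR v).1 hv).2) hspl e A₀ B₀
    (fun v hv => (hcl v hv).1)
  refine ⟨c, X₀, hc, fun X hX => ?_⟩
  obtain ⟨G, hG, hj, hcard⟩ := h X hX
  refine ⟨G, fun p hp => ?_, hj, hcard⟩
  obtain ⟨hB, hne, hpc, hall⟩ := hG p hp
  have hM : ∀ (M : IntermediateField K F) [NumberField M],
      Finite (⟨0, 0, 0, algebraMap K M p.1, algebraMap K M p.2⟩ :
        WeierstrassCurve M).toAffine.Point ∧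
      Pool.Agent.H10.Sha2Trivial M
        (⟨0, 0, 0, algebraMap K M p.1, algebraMap K M p.2⟩ : WeierstrassCurve M) := by
    intro M _
    obtain ⟨N, _, hNg, hMN, hNi⟩ := exists_big M S N₀ fun v _ => hN₀ v
    let _ : Algebra M N := (IntermediateField.inclusion hMN).toRingHom.toAlgebra
    have _ : IsScalarTower K M N := IsScalarTower.of_algebraMap_eq fun _ => rfl
    refine hall N ⟨hNg, hdeg N hNg, ?_, ?_, ?_⟩ M
    · intro V h2 hV
      exact (hR _).2 ⟨⟨N, inferInstance, V, rfl, hV⟩, h2⟩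
    · intro v hv
      obtain ⟨ι, hι⟩ := hT v hv
      exact ⟨ι.comp N.val.toRingHom, fun x => hι x⟩
    · intro v hv
      obtain ⟨h1, h2⟩ := hpc v hv
      exact (hcl v hv).2 p.1 p.2 h1 h2 N hNg (hNi v ((hSv v).2 hv))
  refine ⟨hB, hne, ?_, fun M _ => hM M⟩
  obtain ⟨l, l', v, v', ⟨ι, hι⟩, ⟨ι', hι'⟩, hl, hl', hll, hv, hv', hg, hg'⟩ := exists_two_in hspl hne
  exact fin_any (fun M _ => (hM M).1) (H73P2.tors_emb hl hl' hll hv hv' hg hg' ι hι ι' hι')

end H30CY

end S_H30_CY_Inf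

section S_H30_CY_Up

set_option autoImplicit false
set_option linter.unusedSectionVars false
open scoped Classical

open WithZero NumberField IsDedekindDomain H38RT
open H76PP H36CY

namespace H30CY

section Trans

variable {K N : Type} [Field K] [NumberField K] [Field N] [NumberField N] [Algebra K N]

/-- The Galois group permutes transitively the primes above a prime of `K`. -/
theorem exists_gal [IsGalois K N] {W W' : HeightOneSpectrum (𝓞 N)} (h : dn K W = dn K W') :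
    ∃ σ : N ≃ₐ[K] N, ∀ x : N, W.valuation N (σ x) = W'.valuation N x := by
  have _ : FiniteDimensional K N := Module.Finite.of_restrictScalars_finite ℚ K N
  have h1 : W.asIdeal ∈ (dn K W).asIdeal.primesOver (𝓞 N) := ⟨W.isPrime, ⟨rfl⟩⟩
  have h2 : W'.asIdeal ∈ (dn K W).asIdeal.primesOver (𝓞 N) := ⟨W'.isPrime, ⟨by rw [h]; rfl⟩⟩
  obtain ⟨σ, hσ⟩ := Ideal.exists_comap_galRestrict_eq (R := 𝓞 K) (K := K) (L := N) (S := 𝓞 N) h1 h2
  refine ⟨σ, ?_⟩
  obtain ⟨w', hw', -⟩ := Pool.Agent.H10.exists_conj σ W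
  have hs : ∀ x : 𝓞 N, algebraMap (𝓞 N) N (galRestrict (𝓞 K) K N (𝓞 N) σ x) =
      σ (algebraMap (𝓞 N) N x) := fun x => algebraMap_galRestrict_apply (𝓞 K) σ x
  have h3 : w' = W' := by
    apply HeightOneSpectrum.ext
    rw [← hσ]
    ext x
    rw [Ideal.mem_comap, ← w'.valuation_lt_one_iff_mem (K := N), ← hw', ← hs,
      W.valuation_lt_one_iff_mem]
  rw [h3] at hw'
  exact hw'

end Trans

section Up

variable {K N₀ N : Type} [Field K] [NumberField K] [Field N₀] [NumberField N₀] [Field N]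
  [NumberField N] [Algebra K N₀] [Algebra K N] [Algebra N₀ N] [IsScalarTower K N₀ N]

theorem dn_tower (W : HeightOneSpectrum (𝓞 N)) : dn K (dn N₀ W) = dn K W := by
  apply HeightOneSpectrum.ext
  change (W.asIdeal.comap (algebraMap (𝓞 N₀) (𝓞 N))).comap (algebraMap (𝓞 K) (𝓞 N₀)) =
    W.asIdeal.comap (algebraMap (𝓞 K) (𝓞 N))
  rw [Ideal.comap_comap]
  congr 1
  ext x
  change algebraMap N₀ N (algebraMap K N₀ (x : K)) = algebraMap K N (x : K)
  exact (IsScalarTower.algebraMap_apply K N₀ N (x : K)).symm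

/-- The valuation at `W` is a power of the valuation below. -/
theorem val_dn_pow (W : HeightOneSpectrum (𝓞 N)) : ∃ e : ℕ, 0 < e ∧ ∀ x : N₀,
    W.valuation N (algebraMap N₀ N x) = (dn N₀ W).valuation N₀ x ^ e := by
  obtain ⟨e, he, h⟩ := ord_dn (K := N₀) W
  refine ⟨e, he, fun x => ?_⟩
  by_cases hx : x = 0
  · rw [hx, map_zero, map_zero, map_zero, zero_pow he.ne']
  · have h1 := h x hx
    have h2 : W.valuation N (algebraMap N₀ N x) ≠ 0 :=
      (Valuation.ne_zero_iff _).2 ((map_ne_zero _).2 hx)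
    have h3 : (dn N₀ W).valuation N₀ x ≠ 0 := (Valuation.ne_zero_iff _).2 hx
    unfold ord at h1
    rw [← exp_log h2, ← exp_log h3, ← exp_nsmul]
    congr 1
    rw [nsmul_eq_mul]
    linarith

theorem stb_down [Normal K N₀] {W : HeightOneSpectrum (𝓞 N)} {g : N ≃ₐ[K] N} (h : Stb K W g) :
    Stb K (dn N₀ W) (AlgEquiv.restrictNormalHom N₀ g) := by
  obtain ⟨e, he, hv⟩ := val_dn_pow (N₀ := N₀) W
  intro y
  have h1 : algebraMap N₀ N (AlgEquiv.restrictNormalHom N₀ g y) = g (algebraMap N₀ N y) :=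
    AlgEquiv.restrictNormal_commutes g N₀ y
  have h2 := hv (AlgEquiv.restrictNormalHom N₀ g y)
  rw [h1, h, hv] at h2
  exact (pow_left_injective he.ne' h2).symm

/-- The decomposition group maps onto the decomposition group. -/
theorem stb_lift [IsGalois K N₀] [IsGalois K N] {W : HeightOneSpectrum (𝓞 N)} {g₀ : N₀ ≃ₐ[K] N₀}
    (h : Stb K (dn N₀ W) g₀) : ∃ g : N ≃ₐ[K] N, Stb K W g ∧ AlgEquiv.restrictNormalHom N₀ g = g₀ := by
  have _ : IsGalois N₀ N := IsGalois.tower_top_of_isGalois K N₀ N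
  obtain ⟨g₁, hg₁⟩ := AlgEquiv.restrictNormalHom_surjective (F := K) (K₁ := N₀) N g₀
  have hr : ∀ y : N₀, g₁ (algebraMap N₀ N y) = algebraMap N₀ N (g₀ y) := by
    intro y
    rw [← hg₁]
    exact (AlgEquiv.restrictNormal_commutes g₁ N₀ y).symm
  obtain ⟨W', hW', -⟩ := Pool.Agent.H10.exists_conj g₁ W
  have h3 : dn N₀ W' = dn N₀ W := by
    apply HeightOneSpectrum.ext
    ext x
    obtain ⟨e, he, hv⟩ := val_dn_pow (N₀ := N₀) W
    obtain ⟨e', he', hv'⟩ := val_dn_pow (N₀ := N₀) W'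
    rw [← (dn N₀ W').valuation_lt_one_iff_mem (K := N₀), ← (dn N₀ W).valuation_lt_one_iff_mem (K := N₀),
      ← pow_lt_one_iff he'.ne', ← hv', ← hW', hr, hv, h, pow_lt_one_iff he.ne']
  obtain ⟨s, hs⟩ := exists_gal (K := N₀) (W := W') (W' := W) h3
  have hgx : ∀ x : N, ((s.restrictScalars K).trans g₁) x = g₁ (s x) := fun _ => rfl
  refine ⟨(s.restrictScalars K).trans g₁, ?_, ?_⟩
  · intro y
    rw [hgx, hW', hs]
  · apply AlgEquiv.ext
    intro y
    apply (algebraMap N₀ N).injective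
    have h4 : algebraMap N₀ N (AlgEquiv.restrictNormalHom N₀ ((s.restrictScalars K).trans g₁) y) =
        ((s.restrictScalars K).trans g₁) (algebraMap N₀ N y) :=
      AlgEquiv.restrictNormal_commutes _ N₀ y
    rw [h4, hgx, s.commutes, hr]

/-- The data go up. -/
theorem layT_up [IsGalois K N₀] [IsGalois K N] {W : HeightOneSpectrum (𝓞 N)} {τ₀ : N₀ ≃ₐ[K] N₀}
    {ρ₀ : N₀} {D : K} (h : LayT K (dn N₀ W) τ₀ ρ₀ D) {τ : N ≃ₐ[K] N}
    (hτ : ∀ g : N ≃ₐ[K] N, Stb K W g ↔ g ∈ Subgroup.zpowers τ) :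
    LayT K W τ (algebraMap N₀ N ρ₀) D := by
  have hSτ : Stb K W τ := (hτ τ).2 (Subgroup.mem_zpowers τ)
  obtain ⟨j, hj⟩ := Subgroup.mem_zpowers_iff.1 ((h.gen _).1 (stb_down (N₀ := N₀) hSτ))
  obtain ⟨g, hg, hgr⟩ := stb_lift (K := K) (N₀ := N₀) (W := W)
    ((h.gen τ₀).2 (Subgroup.mem_zpowers τ₀))
  obtain ⟨i, hi⟩ := Subgroup.mem_zpowers_iff.1 ((hτ g).1 hg)
  have hpow : ∀ n : ℤ, (τ₀ ^ n) ρ₀ = (-1) ^ n * ρ₀ := by
    have h1 : ∀ n : ℕ, (τ₀ ^ n) ρ₀ = (-1) ^ n * ρ₀ := by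
      intro n
      induction n with
      | zero => simp
      | succ n ih =>
        rw [pow_succ, AlgEquiv.mul_apply, h.neg, map_neg, ih, pow_succ]
        ring
    intro n
    obtain ⟨m, rfl | rfl⟩ := n.eq_nat_or_neg
    · rw [zpow_natCast, zpow_natCast]
      exact h1 m
    · have h2 := h1 m
      have h3 : (τ₀ ^ (-(m : ℤ))) ((τ₀ ^ m) ρ₀) = ρ₀ := by
        rw [zpow_neg, zpow_natCast, ← AlgEquiv.mul_apply, inv_mul_cancel, AlgEquiv.one_apply]
      rw [h2, map_mul, map_pow, map_neg, map_one] at h3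
      have h4 : ((-1 : N₀) ^ m) * ((-1 : N₀) ^ m) = 1 := by
        rw [← mul_pow]
        simp
      have h5 : ((-1 : N₀) ^ m)⁻¹ = (-1) ^ m := inv_eq_of_mul_eq_one_left h4
      have h6 : (-1 : N₀) ^ (-(m : ℤ)) = (-1) ^ m := by
        rw [zpow_neg, zpow_natCast, h5]
      rw [h6]
      calc (τ₀ ^ (-(m : ℤ))) ρ₀ = (((-1 : N₀) ^ m) * ((-1 : N₀) ^ m)) * (τ₀ ^ (-(m : ℤ))) ρ₀ := by
            rw [h4, one_mul]
        _ = (-1) ^ m * ((-1) ^ m * (τ₀ ^ (-(m : ℤ))) ρ₀) := by ring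
        _ = (-1) ^ m * ρ₀ := by rw [h3]
  have h2 : τ₀ ^ (j * i) = τ₀ := by
    rw [zpow_mul, hj, ← map_zpow, hi, hgr]
  have h3 : (-1 : N₀) ^ (j * i) * ρ₀ = -1 * ρ₀ := by
    rw [← hpow, h2, h.neg]
    ring
  have h4 : (-1 : N₀) ^ (j * i) = -1 := mul_right_cancel₀ h.ne h3
  have hne : (-1 : N₀) ≠ 1 := by
    intro h5
    have h6 : (2 : N₀) = 0 := by linear_combination -h5
    exact two_ne_zero h6
  have hodd : Odd j := by
    rcases Int.even_or_odd j with hj' | hj'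
    · exfalso
      apply hne
      rw [← h4, (hj'.mul_right i).neg_one_zpow]
    · exact hj'
  refine ⟨hτ, (map_ne_zero _).2 h.ne, ?_, ?_⟩
  · have h5 : algebraMap N₀ N (AlgEquiv.restrictNormalHom N₀ τ ρ₀) = τ (algebraMap N₀ N ρ₀) :=
      AlgEquiv.restrictNormal_commutes τ N₀ ρ₀
    rw [← h5, ← hj, hpow, hodd.neg_one_zpow, neg_one_mul, map_neg]
  · obtain ⟨e, he, hv⟩ := val_dn_pow (N₀ := N₀) W
    have h6 := h.near
    have e1 : (algebraMap N₀ N ρ₀) ^ 2 - algebraMap K N D =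
        algebraMap N₀ N (ρ₀ ^ 2 - algebraMap K N₀ D) := by
      rw [map_sub, map_pow, IsScalarTower.algebraMap_apply K N₀ N]
    have e2 : 4 * algebraMap K N D = algebraMap N₀ N (4 * algebraMap K N₀ D) := by
      rw [map_mul, map_ofNat, IsScalarTower.algebraMap_apply K N₀ N]
    rw [e1, e2, hv, hv]
    exact pow_lt_pow_left₀ h6 zero_le he.ne'

end Up

end H30CY

end S_H30_CY_Up

section S_H36_CY_If

set_option autoImplicit false
set_option linter.unusedSectionVars false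
open scoped Classical

open WithZero NumberField IsDedekindDomain H76PP H73P2

namespace H36CY

variable {K N : Type} [Field K] [NumberField K] [Field N] [NumberField N] [Algebra K N]

/-- If the decomposition groups above `v` are cyclic then they are trivial or the first layer is given
by an element of `K`. -/
theorem lay_all [IsGalois K N] {r : ℕ} (hr : Module.finrank K N = 2 ^ r)
    {v : HeightOneSpectrum (𝓞 K)}
    (hcyc : ∀ W : HeightOneSpectrum (𝓞 N), dn K W = v → ∃ τ : N ≃ₐ[K] N, ∀ g : N ≃ₐ[K] N,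
      Stb K W g ↔ g ∈ Subgroup.zpowers τ) :
    (∀ W : HeightOneSpectrum (𝓞 N), dn K W = v → ∀ g : N ≃ₐ[K] N, Stb K W g → g = 1) ∨
      ∃ D : K, ∀ W : HeightOneSpectrum (𝓞 N), dn K W = v → Lay K W D := by
  obtain ⟨W, hW⟩ := exists_above (L := N) v
  obtain ⟨τ, hτ⟩ := hcyc W hW
  rcases lay_exists hr hτ with h | ⟨D, hD⟩
  · left
    intro W' hW'
    exact triv_conj (W := W) (W' := W') (by rw [hW, hW']) h
  · right
    exact ⟨D, fun W' hW' => lay_conj (W := W) (W' := W') (by rw [hW, hW']) hD⟩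

/-- `D` is not a square in the completion of `K`. -/
theorem lay_nonsq {W : HeightOneSpectrum (𝓞 N)} {D : K} (h : Lay K W D) :
    ¬ IsSquare (algebraMap K ((dn K W).adicCompletion K) D) := by
  rintro ⟨r, hr⟩
  obtain ⟨τ, ρ, hL⟩ := h
  have hτs : Stb K W τ := (hL.gen τ).2 (Subgroup.mem_zpowers τ)
  obtain ⟨φ, hφc, hφ⟩ := exists_act W hτs
  obtain ⟨ρ', h1, h2, h3⟩ := lay_root hL hφc hφ
  have _ := char_zero W
  have hov : Pool.Agent.H10.Over (dn K W) W := over_dn W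
  have h4 : ∀ x : (dn K W).adicCompletion K, φ (hov.map x) = hov.map x := by
    intro x
    have h5 := act_ext (dn K W) (f := fun x => φ (hov.map x)) (f' := fun x => hov.map x)
      (hφc.comp hov.continuous_map) hov.continuous_map (fun x => by
        change φ (hov.map _) = hov.map _
        rw [hov.map_algebraMap, hφ, τ.commutes])
    exact congrFun h5 x
  have h5 : ρ' ^ 2 = hov.map r ^ 2 := by
    rw [h1, ← hov.map_algebraMap, hr, map_mul, sq]
  have h6 : φ ρ' = ρ' := by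
    rcases sq_eq_sq_iff_eq_or_eq_neg.1 h5 with h | h
    · rw [h, h4]
    · rw [h, map_neg, h4]
  rw [h6] at h3
  have h7 : 2 * ρ' = 0 := by linear_combination h3
  rcases mul_eq_zero.1 h7 with h | h
  · exact two_ne_zero h
  · exact h2 h

/-- The residue class at a prime above two with a given first layer. -/
theorem class_lay {v : HeightOneSpectrum (𝓞 K)} (h2 : v.valuation K 2 < 1) {D : K}
    (hD : ¬ IsSquare (algebraMap K (v.adicCompletion K) D)) :
    ∃ (n : ℕ) (b₀ : 𝓞 K), ∀ a b : 𝓞 K, a + 27 ∈ v.asIdeal ^ n → b - b₀ ∈ v.asIdeal ^ n →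
      SpF (algebraMap K (v.adicCompletion K) (a : K)) (algebraMap K (v.adicCompletion K) (b : K)) ∧
      dsc a b ∉ v.asIdeal ^ n ∧ ∀ X Y : v.adicCompletion K,
        X ^ 2 - algebraMap K (v.adicCompletion K) D * Y ^ 2 ≠
          algebraMap K (v.adicCompletion K) (-(4 * (a : K) ^ 3 + 27 * (b : K) ^ 2)) := by
  obtain ⟨c, hc, hcn⟩ := exists_nonnorm h2 hD
  obtain ⟨n, b₀, h⟩ := class_of h2 hc
  refine ⟨n, b₀, fun a b ha hb => ?_⟩
  obtain ⟨h3, h4, r, hr, h5⟩ := h a b ha hb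
  refine ⟨h3, h4, fun X Y hXY => ?_⟩
  rw [h5] at hXY
  apply hcn (X / r) (Y / r)
  field_simp
  linear_combination hXY

/-- The residue class at a prime above two with trivial decomposition groups. -/
theorem class_triv {v : HeightOneSpectrum (𝓞 K)} (h2 : v.valuation K 2 < 1) :
    ∃ (n : ℕ) (b₀ : 𝓞 K), ∀ a b : 𝓞 K, a + 27 ∈ v.asIdeal ^ n → b - b₀ ∈ v.asIdeal ^ n →
      SpF (algebraMap K (v.adicCompletion K) (a : K)) (algebraMap K (v.adicCompletion K) (b : K)) ∧
      dsc a b ∉ v.asIdeal ^ n := by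
  obtain ⟨n, b₀, h⟩ := class_of h2 (c := 1) one_ne_zero
  exact ⟨n, b₀, fun a b ha hb => ⟨(h a b ha hb).1, (h a b ha hb).2.1⟩⟩

/-- The residue class at a prime above two with cyclic decomposition groups. -/
theorem class_good [IsGalois K N] {r : ℕ} (hr : Module.finrank K N = 2 ^ r)
    {v : HeightOneSpectrum (𝓞 K)} (h2 : v.valuation K 2 < 1)
    (hcyc : ∀ W : HeightOneSpectrum (𝓞 N), dn K W = v → ∃ τ : N ≃ₐ[K] N, ∀ g : N ≃ₐ[K] N,
      Stb K W g ↔ g ∈ Subgroup.zpowers τ) :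
    ∃ (n : ℕ) (b₀ : 𝓞 K), ∀ a b : 𝓞 K, a + 27 ∈ v.asIdeal ^ n → b - b₀ ∈ v.asIdeal ^ n →
      Good2 K N v (a : K) (b : K) ∧ dsc a b ∉ v.asIdeal ^ n := by
  rcases lay_all hr hcyc with h | ⟨D, hD⟩
  · obtain ⟨n, b₀, h3⟩ := class_triv h2
    exact ⟨n, b₀, fun a b ha hb => ⟨⟨(h3 a b ha hb).1, Or.inl h⟩, (h3 a b ha hb).2⟩⟩
  · obtain ⟨W, rfl⟩ := exists_above (L := N) v
    obtain ⟨n, b₀, h3⟩ := class_lay h2 (lay_nonsq (hD W rfl))
    exact ⟨n, b₀, fun a b ha hb => ⟨⟨(h3 a b ha hb).1, Or.inr ⟨D, hD, (h3 a b ha hb).2.2⟩⟩,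
      (h3 a b ha hb).2.1⟩⟩

end H36CY

end S_H36_CY_If

section S_H30_CY_Fin

set_option autoImplicit false
set_option linter.unusedSectionVars false
open scoped Classical

open WithZero NumberField IsDedekindDomain H38RT H76PP H36MT H36CY

namespace H30CY

/-- The local data at a prime above two. -/
theorem loc_data {K F : Type} [Field K] [NumberField K] [Field F] [Algebra K F] [IsGalois K F]
    (hdeg : ∀ (N : IntermediateField K F) [NumberField N], IsGalois K N →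
      ∃ r : ℕ, Module.finrank K N = 2 ^ r) {v : HeightOneSpectrum (𝓞 K)}
    (hv : (2 : 𝓞 K) ∈ v.asIdeal)
    (hdec : ∀ (N : IntermediateField K F) [NumberField N], IsGalois K N →
      ∀ W : HeightOneSpectrum (𝓞 N), dn K W = v → ∃ τ : N ≃ₐ[K] N, ∀ g : N ≃ₐ[K] N,
        Stb K W g ↔ g ∈ Subgroup.zpowers τ) :
    ∃ (e : ℕ) (A₀ B₀ : 𝓞 K)
      (N₀ : IntermediateField K F), FiniteDimensional K N₀ ∧ dsc A₀ B₀ ∉ v.asIdeal ^ e ∧
      ∀ A B : 𝓞 K, A - A₀ ∈ v.asIdeal ^ e → B - B₀ ∈ v.asIdeal ^ e →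
        ∀ (N : IntermediateField K F) [NumberField N], IsGalois K N → N₀ ≤ N →
          DescAt K N v (A : K) (B : K) := by
  have hv2 := two_mem_iff.2 hv
  have h0 : ∀ (n : ℕ), (-27 : 𝓞 K) + 27 ∈ v.asIdeal ^ n := by
    intro n
    rw [neg_add_cancel]
    exact Ideal.zero_mem _
  have h1 : ∀ (n : ℕ) (x : 𝓞 K), x - x ∈ v.asIdeal ^ n := by
    intro n x
    rw [sub_self]
    exact Ideal.zero_mem _
  have h27 : ∀ (n : ℕ) (x : 𝓞 K), x - (-27) ∈ v.asIdeal ^ n → x + 27 ∈ v.asIdeal ^ n := by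
    intro n x h
    rwa [sub_neg_eq_add] at h
  by_cases hc : ∀ (N : IntermediateField K F) [NumberField N], IsGalois K N →
      ∀ W : HeightOneSpectrum (𝓞 N), dn K W = v → ∀ g : N ≃ₐ[K] N, Stb K W g → g = 1
  · obtain ⟨n, b₀, h⟩ := class_triv hv2
    refine ⟨n, -27, b₀, ⊥, inferInstance, (h _ _ (h0 n) (h1 n b₀)).2, ?_⟩
    intro A B hA hB N _ hN _
    obtain ⟨r, hr⟩ := hdeg N hN
    exact descAt hr ⟨(h A B (h27 n A hA) hB).1, Or.inl (hc N hN)⟩
  · push Not at hc
    obtain ⟨N₀, hnf, hN₀, W₀, hW₀, g₀, hg₀, hne⟩ := hc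
    obtain ⟨r₀, hr₀⟩ := hdeg N₀ hN₀
    rcases lay_all hr₀ (hdec N₀ hN₀) with h | ⟨D, hD⟩
    · exact absurd (h W₀ hW₀ g₀ hg₀) hne
    · have hns : ¬ IsSquare (algebraMap K (v.adicCompletion K) D) := by
        have h2 := lay_nonsq (hD W₀ hW₀)
        rw [hW₀] at h2
        exact h2
      obtain ⟨n, b₀, h⟩ := class_lay hv2 hns
      refine ⟨n, -27, b₀, N₀, Module.Finite.of_restrictScalars_finite ℚ K N₀,
        (h _ _ (h0 n) (h1 n b₀)).2.1, ?_⟩
      intro A B hA hB N _ hN hle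
      obtain ⟨r, hr⟩ := hdeg N hN
      let _ : Algebra N₀ N := (IntermediateField.inclusion hle).toRingHom.toAlgebra
      have _ : IsScalarTower K N₀ N := IsScalarTower.of_algebraMap_eq fun _ => rfl
      obtain ⟨g1, -, g2⟩ := h A B (h27 n A hA) hB
      refine descAt hr ⟨g1, Or.inr ⟨D, fun W hW => ?_, g2⟩⟩
      obtain ⟨τ₀, ρ₀, h3⟩ := hD (dn N₀ W) (by rw [dn_tower, hW])
      obtain ⟨τ, hτ⟩ := hdec N hN W hW
      exact ⟨τ, _, layT_up h3 hτ⟩

/-- The final theorem: `F / K` finite or infinite. -/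
theorem main_two (K F : Type) [Field K] [NumberField K] [Field F] [Algebra K F]
    (hgal : IsGalois K F)
    (hdeg : ∀ (N : IntermediateField K F) [NumberField N], IsGalois K N →
      ∃ r : ℕ, Module.finrank K N = 2 ^ r)
    (hram : {v : HeightOneSpectrum (𝓞 K) | ∃ (N : IntermediateField K F) (_ : NumberField N)
      (V : HeightOneSpectrum (𝓞 N)), dn K V = v ∧ H73P2.Ram K V}.Finite)
    (hspl : FiniteDimensional K F ∨
      {v : HeightOneSpectrum (𝓞 K) | ∃ ι : F →+* v.adicCompletion K, ∀ x : K,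
      ι (algebraMap K F x) = algebraMap K (v.adicCompletion K) x}.Infinite)
    (hdec : ∀ (N : IntermediateField K F) [NumberField N], IsGalois K N →
      ∀ W : HeightOneSpectrum (𝓞 N), (2 : 𝓞 N) ∈ W.asIdeal → ∃ τ : N ≃ₐ[K] N,
        ∀ g : N ≃ₐ[K] N, Stb K W g ↔ g ∈ Subgroup.zpowers τ) :
    ∃ (c X₀ : ℝ), 0 < c ∧ ∀ X : ℝ, X₀ ≤ X → ∃ G : Finset (𝓞 K × 𝓞 K),
      (∀ p ∈ G, p ∈ Bx K X ∧ 4 * p.1 ^ 3 + 27 * p.2 ^ 2 ≠ 0 ∧
        Finite (⟨0, 0, 0, algebraMap K F p.1, algebraMap K F p.2⟩ :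
          WeierstrassCurve F).toAffine.Point ∧
        ∀ (M : IntermediateField K F) [NumberField M],
          Finite (⟨0, 0, 0, algebraMap K M p.1, algebraMap K M p.2⟩ :
            WeierstrassCurve M).toAffine.Point ∧
          Pool.Agent.H10.Sha2Trivial M
            (⟨0, 0, 0, algebraMap K M p.1, algebraMap K M p.2⟩ : WeierstrassCurve M)) ∧
      (∀ p ∈ G, ∀ q ∈ G, p.1 ^ 3 * q.2 ^ 2 = q.1 ^ 3 * p.2 ^ 2 → p = q) ∧
      c * ((Bx K X).ncard : ℝ) ≤ (G.card : ℝ) := by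
  refine main_inf_of K F hdeg hram ?_ fun v hv => loc_data hdeg hv fun N _ hN W hW =>
    hdec N hN W ?_
  · rcases hspl with h | h
    · have _ : NumberField F := NumberField.of_module_finite K F
      exact H30PN.split_inf K F
    · exact h
  · have h1 : (2 : 𝓞 K) ∈ (dn K W).asIdeal := by
      rw [hW]
      exact hv
    have h2 : algebraMap (𝓞 K) (𝓞 N) 2 ∈ W.asIdeal := h1
    rwa [map_ofNat] at h2

end H30CY

end S_H30_CY_Fin
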